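import Pool.Agent.Lib.MP_6bd702_perc6.Defs
import Pool.Agent.Lib.MP_6bd702_percw.TipsA

/-!
# Potentials of strands in general regions

The proofs are those of `percw/CoreB.lean` (there for rectangles), with `IsPot` instead of `potR`.
-/

set_option autoImplicit false

namespace Pool.Agent.Perc6

open Finset Pool.Agent.Perc Pool.Agent.PercD Pool.Agent.PercL

variable {ω ω' : Cfg} {F : Set (ℤ × ℤ)} {e a : UE} {f : ℤ × ℤ} {u v p q w : ℤ × ℤ}
  {M : Set UE} {Φ : ℤ × ℤ → ZMod 2}

theorem IsPot.joins (hP : IsPot F M Φ) (hf : f ∈ F) (hs : IsSide f a) (hj : Joins a p q) :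
    a ∈ M ↔ Φ p ≠ Φ q := by
  rcases hj with ⟨rfl, rfl⟩ | ⟨rfl, rfl⟩
  · exact hP f hf a hs
  · rw [hP f hf a hs, ne_comm]

/-- A potential can be normalised. -/
theorem IsPot.add_const (hP : IsPot F M Φ) (c : ZMod 2) : IsPot F M fun w => Φ w + c := by
  intro f hf a hs
  rw [hP f hf a hs, Ne, Ne, add_left_inj]

/-- The potential is constant on the faces which are not visited. -/
theorem IsPot.fresh (hP : IsPot F (MM ω F e) Φ) (hf : f ∈ F) (hS : f ∉ SS ω F e)
    (hp : IsCor f p) (hq : IsCor f q) : Φ p = Φ q := by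
  have key : ∀ {p q : ℤ × ℤ}, IsCor f p → IsCor f q → par p ≠ par q → Φ p = Φ q := by
    intro p q hp hq hpq
    obtain ⟨a, ha, hj⟩ := exists_side hp hq hpq
    by_contra hne
    exact hS ⟨hf, a, (hP.joins hf ha hj).2 hne, ha⟩
  by_cases hpq : par p = par q
  · -- use a third corner of the other parity
    obtain ⟨r, hr, hpr⟩ : ∃ r, IsCor f r ∧ par p ≠ par r := by
      by_cases h : par p = par f
      · refine ⟨(f.1 + 1, f.2), by simp [IsCor], ?_⟩
        rw [h]; unfold par; simp only; omega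
      · exact ⟨f, by simp [IsCor], h⟩
    rw [key hp hr hpr, key hq hr (by rw [← hpq]; exact hpr)]
  · exact key hp hq hpq

/-- The potential is constant along the bonds. -/
theorem IsPot.bond (hP : IsPot F (MM ω F e) Φ) (h : Bond ω F p q) : Φ p = Φ q := by
  obtain ⟨x, y, hf, h⟩ := h
  have hb := hP.joins (a := bo (x, y)) (p := (x, y)) (q := (x + 1, y)) hf (Or.inl rfl)
    (by simp [Joins, bo, ua, ub])
  have hl := hP.joins (a := le' (x, y)) (p := (x, y)) (q := (x, y + 1)) hf (Or.inr (Or.inl rfl))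
    (by simp [Joins, le', ua, ub])
  have ht := hP.joins (a := to' (x, y)) (p := (x, y + 1)) (q := (x + 1, y + 1)) hf
    (Or.inr (Or.inr (Or.inl rfl))) (by simp [Joins, to', ua, ub])
  have hr := hP.joins (a := ri (x, y)) (p := (x + 1, y)) (q := (x + 1, y + 1)) hf
    (Or.inr (Or.inr (Or.inr rfl))) (by simp [Joins, ri, ua, ub])
  have ev := MM_even (ω := ω) (e := e) hf
  have key : (ω (x, y) = true → Φ (x, y) = Φ (x + 1, y + 1)) ∧
      (ω (x, y) = false → Φ (x, y + 1) = Φ (x + 1, y)) := by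
    generalize Φ (x, y) = p00 at *
    generalize Φ (x + 1, y) = p10 at *
    generalize Φ (x, y + 1) = p01 at *
    generalize Φ (x + 1, y + 1) = p11 at *
    rcases ev with ⟨h1, h2, h3⟩ | ⟨h1, h2, h3⟩
    · refine ⟨fun _ => ?_, fun h' => by rw [h3] at h'; exact absurd h' (by decide)⟩
      rw [hb, hr] at h1
      clear hb hl ht hr h2
      revert p00 p10 p11
      decide
    · refine ⟨fun h' => by rw [h3] at h'; exact absurd h' (by decide), fun _ => ?_⟩
      rw [hb, hl] at h1
      clear hb hl ht hr h2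
      revert p00 p10 p01
      decide
  rcases h with ⟨ht, (⟨rfl, rfl⟩ | ⟨rfl, rfl⟩)⟩ | ⟨ht, (⟨rfl, rfl⟩ | ⟨rfl, rfl⟩)⟩
  · exact key.1 ht
  · exact (key.1 ht).symm
  · exact key.2 ht
  · exact (key.2 ht).symm

theorem IsPot.conn (hP : IsPot F (MM ω F e) Φ) (h : Conn ω F p q) : Φ p = Φ q := by
  induction h with
  | refl => rfl
  | tail _ hb ih => rw [ih, hP.bond hb]

theorem IsPot.ne (hP : IsPot F (MM ω F e) Φ) (he : Joins e u v) (hs : ∃ f ∈ F, IsSide f e) :
    Φ u ≠ Φ v := by
  obtain ⟨f, hf, hs⟩ := hs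
  exact (hP.joins hf hs he).1 mem_MM_self

theorem IsPot.mm (hP : IsPot F (MM ω F e) Φ) (he : Joins e u v) (ha : a ∈ MM ω F e)
    (hj : Joins a p q) (hp : par p = par u) : Φ p = Φ u ∧ Φ q = Φ v := by
  obtain ⟨p', q', hj', hp', hc⟩ := MM_conn he ha
  obtain ⟨rfl, rfl⟩ := hj.of_par hj' (hp.trans hp'.symm)
  obtain ⟨r, s, hj2, hr, hc2⟩ := MM_conn he.symm ha
  obtain ⟨rfl, rfl⟩ := hj.symm.of_par hj2 (by
    have h1 := hj.par_ne
    have h2 := he.par_ne
    have h3 := par_cases p
    have h4 := par_cases q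
    have h5 := par_cases u
    have h6 := par_cases v
    omega)
  exact ⟨(hP.conn (hc.mono SS_sub)).symm, (hP.conn (hc2.mono SS_sub)).symm⟩

/-- A corner of a visited face on the side of `u` with the parity of `u` is joined to `u` inside the
visited faces. -/
theorem IsPot.ss_conn (hP : IsPot F (MM ω F e) Φ) (he : Joins e u v) (hs : ∃ f ∈ F, IsSide f e)
    (hf : f ∈ SS ω F e) (hw : IsCor f w) (hp : par w = par u) (h : Φ w = Φ u) :
    Conn ω (SS ω F e) u w := by
  obtain ⟨hfF, a, ha, hside⟩ := hf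
  obtain ⟨p, q, hj, hpu, hc⟩ := MM_conn he ha
  have h1 := hP.mm he ha hj hpu
  have hq : IsCor f q := hside.cor_left hj.symm
  obtain ⟨b, hb, hjb⟩ := exists_side hw hq (by rw [hp, ← hpu]; exact hj.par_ne)
  have huv : Φ u ≠ Φ v := hP.ne he hs
  have hbM : b ∈ MM ω F e := (hP.joins hfF hb hjb).2 (by rw [h, h1.2]; exact huv)
  obtain ⟨p', q', hj', hp', hc'⟩ := MM_conn he hbM
  obtain ⟨rfl, -⟩ := hjb.of_par hj' (hp.trans hp'.symm)
  exact hc'

/-- The ends of a bond in a visited face with the parity of `u`. -/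
theorem IsPot.ss_bond (hP : IsPot F (MM ω F e) Φ) (he : Joins e u v) (hs : ∃ f ∈ F, IsSide f e)
    (hf : f ∈ SS ω F e) (hb : Bond ω {f} p q) (hp : par p = par u) :
    Φ p = Φ u ∧ Conn ω (SS ω F e) u p := by
  have hfF := hf.1
  obtain ⟨g, hg, hb', hcp, hcq⟩ := hb.exists_face
  rw [Set.mem_singleton_iff] at hg
  subst hg
  have hpq := hP.bond (hb.of_single hfF)
  obtain ⟨-, a, ha, hside⟩ := hf
  obtain ⟨r, s, hj, hru, hc⟩ := MM_conn he ha
  have h1 := hP.mm he ha hj hru
  -- the corner `r` of the parity of `u` is `p` or `q`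
  have hr : IsCor g r := hside.cor_left hj
  have hrpq : r = p ∨ r = q := by
    obtain ⟨x, y, hxy, h⟩ := hb
    rw [Set.mem_singleton_iff] at hxy
    subst hxy
    obtain ⟨r1, r2⟩ := r
    unfold IsCor at hr
    simp only at hr
    have h2 : par (r1, r2) = par p := hru.trans hp.symm
    unfold par at h2
    rcases h with ⟨-, (⟨rfl, rfl⟩ | ⟨rfl, rfl⟩)⟩ | ⟨-, (⟨rfl, rfl⟩ | ⟨rfl, rfl⟩)⟩ <;>
      simp only [Prod.mk.injEq] at h2 ⊢ <;> omega
  have hpu : Φ p = Φ u := by
    rcases hrpq with rfl | rfl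
    · exact h1.1
    · rw [hpq]; exact h1.1
  exact ⟨hpu, hP.ss_conn he hs ⟨hfF, a, ha, hside⟩ hcp hp hpu⟩

/-- Completeness: if the two ends of `e'` are joined in `F` to the two ends of `e`, then `e'`
belongs to the component of `e`. -/
theorem IsPot.mem_of_conn (hP : IsPot F (MM ω F e) Φ) (he : Joins e u v)
    (hs : ∃ f ∈ F, IsSide f e) {e' : UE} {u' v' : ℤ × ℤ} (he' : Joins e' u' v')
    (hs' : ∃ f ∈ F, IsSide f e') (h1 : Conn ω F u u') (h2 : Conn ω F v v') : e' ∈ MM ω F e := by
  obtain ⟨f, hf, hs'⟩ := hs'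
  rw [hP.joins hf hs' he', ← hP.conn h1, ← hP.conn h2]
  exact hP.ne he hs

/-- The region may be enlarged if nothing new is visited. -/
theorem MM_eq_of_closed {F F' : Set (ℤ × ℤ)} (h : F ⊆ F') (hc : SS ω F' e ⊆ F) :
    MM ω F' e = MM ω F e := by
  apply Set.Subset.antisymm
  · intro a ha
    change Relation.ReflTransGen _ e a at ha
    induction ha with
    | refl => exact mem_MM_self
    | tail hab hs ih =>
      obtain ⟨f, hf, hm⟩ := hs
      have hS : f ∈ SS ω F' e := ⟨hf, _, hab, hm.left⟩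
      exact MM_step (hc hS) hm ih
  · intro a ha
    change Relation.ReflTransGen _ e a at ha
    induction ha with
    | refl => exact mem_MM_self
    | tail hab hs ih =>
      obtain ⟨f, hf, hm⟩ := hs
      exact MM_step (h hf) hm ih

/-! ### Unit edges on the boundary of a region -/

/-- A unit edge between a face of `F` and a face outside `F`. -/
def BdU (F : Set (ℤ × ℤ)) (a : UE) : Prop := (∃ f ∈ F, IsSide f a) ∧ ∃ f, f ∉ F ∧ IsSide f a

namespace C2Aux

open Pool.Agent.Perc.Tips

variable {ω ω' : Cfg} {F F' : Set (ℤ × ℤ)} {e a : UE} {f : ℤ × ℤ}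

theorem isSide_ahead (a : UE) (d : Bool) : IsSide (ahead (a, d)) a := by
  obtain ⟨x, y, b⟩ := a
  cases b <;> cases d <;> simp [ahead, IsSide, bo, le', to', ri]

theorem eq_ahead (h : IsSide f a) : f = ahead (a, true) ∨ f = ahead (a, false) := by
  obtain ⟨x, y⟩ := f
  rcases h with rfl | rfl | rfl | rfl <;> simp [ahead, bo, le', to', ri]

theorem mt_nx (ω : Cfg) (A : UE × Bool) : Mt ω (ahead A) A.1 (nx ω A).1 := by
  obtain ⟨⟨x, y, _ | _⟩, _ | _⟩ := A <;> simp only [nx, ahead]
  · by_cases h : ω (x, y - 1) = true <;> simp [Mt, h, bo, le', to', ri]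
  · by_cases h : ω (x, y) = true <;> simp [Mt, h, bo, le', to', ri]
  · by_cases h : ω (x - 1, y) = true <;> simp [Mt, h, bo, le', to', ri]
  · by_cases h : ω (x, y) = true <;> simp [Mt, h, bo, le', to', ri]

theorem bdU_dir (h : BdU F a) : ∃ d : Bool, ahead (a, d) ∉ F ∧ ahead (a, !d) ∈ F := by
  obtain ⟨⟨f, hf, hs⟩, g, hg, hs'⟩ := h
  rcases eq_ahead hs with rfl | rfl <;> rcases eq_ahead hs' with rfl | rfl
  · exact absurd hf hg
  · exact ⟨false, hg, hf⟩
  · exact ⟨true, hg, hf⟩
  · exact absurd hf hg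

theorem bdU_not (h : BdU F a) {d : Bool} (hd : ahead (a, !d) ∈ F) : ahead (a, d) ∉ F := by
  obtain ⟨d', h1, h2⟩ := bdU_dir h
  cases d <;> cases d' <;> simp_all

theorem exists_terminal (hF : F ⊆ F') {t : UE} (ht : t ∈ MM ω F e) (hb : BdU F' t) :
    ∃ s d, Relation.ReflTransGen (R ω F) (e, s) (t, d) ∧ ahead (t, d) ∉ F' := by
  obtain ⟨s, d, h⟩ := reach ht
  rcases Relation.ReflTransGen.cases_tail h with h' | ⟨B, hB, hBF, hB2⟩
  · simp only [Prod.mk.injEq] at h'
    obtain ⟨d', h1, -⟩ := bdU_dir hb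
    refine ⟨d', d', ?_, h1⟩
    rw [h'.1]
  · refine ⟨s, d, h, bdU_not hb ?_⟩
    have h1 : ahead (rv (t, d)) ∈ F := by
      rw [hB2, ahead_rv_nx]; exact hBF
    exact hF h1

theorem follow (hF : F ⊆ F') {A T B : UE × Bool} (h1 : Relation.ReflTransGen (R ω F) A T)
    (hT : ahead T ∉ F') (h2 : Relation.ReflTransGen (R ω F') A B) :
    Relation.ReflTransGen (R ω F) A B := by
  have hU : Relator.RightUnique (R ω F) := by
    intro A B C h h'
    rw [h.2, h'.2]
  induction h2 with
  | refl => exact Relation.ReflTransGen.refl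
  | @tail C D _ hs ih =>
    rcases Relation.ReflTransGen.total_of_right_unique hU ih h1 with h | h
    · rcases Relation.ReflTransGen.cases_head h with h | ⟨E, hE, -⟩
      · subst h
        exact absurd hs.1 hT
      · exact ih.tail ⟨hE.1, hs.2⟩
    · rcases Relation.ReflTransGen.cases_head h with h | ⟨E, hE, -⟩
      · subst h
        exact absurd hs.1 hT
      · exact absurd (hF hE.1) hT

theorem mem_of_reach {A B : UE × Bool} (h : Relation.ReflTransGen (R ω F) A B)
    (hA : A.1 ∈ MM ω F e) : B.1 ∈ MM ω F e := by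
  induction h with
  | refl => exact hA
  | @tail C D _ hs ih =>
    have h1 := mt_nx ω C
    rw [← hs.2] at h1
    exact Relation.ReflTransGen.tail ih ⟨ahead C, hs.1, h1⟩

end C2Aux

open C2Aux Pool.Agent.Perc.Tips

variable {ω ω' : Cfg} {F : Set (ℤ × ℤ)} {e a : UE}

/-- The component of a boundary unit edge contains at most one other boundary unit edge. -/
theorem bdU_unique {t t' : UE} (he : BdU F e) (ht : t ∈ MM ω F e) (ht' : t' ∈ MM ω F e)
    (hb : BdU F t) (hb' : BdU F t') (h1 : t ≠ e) (h2 : t' ≠ e) : t = t' := by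
  obtain ⟨c, hc, -⟩ := bdU_dir he
  obtain ⟨s, d, h, hT⟩ := exists_terminal le_rfl ht hb
  obtain ⟨s', d', h', hT'⟩ := exists_terminal le_rfl ht' hb'
  have k : s ≠ c := by
    rintro rfl
    have := eq_of_terminal (Relation.ReflTransGen.refl (a := (e, s))) h hc hT
    simp only [Prod.mk.injEq] at this
    exact h1 this.1.symm
  have k' : s' ≠ c := by
    rintro rfl
    have := eq_of_terminal (Relation.ReflTransGen.refl (a := (e, s'))) h' hc hT'
    simp only [Prod.mk.injEq] at this
    exact h2 this.1.symm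
  have k2 : s = s' := by
    cases s <;> cases s' <;> cases c <;> simp_all
  subst k2
  exact congrArg Prod.fst (eq_of_terminal h h' hT hT')

/-- A component contains at most two boundary unit edges. -/
theorem bdU_le_two {t t' t'' : UE} (ht : t ∈ MM ω F e) (ht' : t' ∈ MM ω F e)
    (ht'' : t'' ∈ MM ω F e) (hb : BdU F t) (hb' : BdU F t') (hb'' : BdU F t'') :
    t = t' ∨ t = t'' ∨ t' = t'' := by
  obtain ⟨s, d, h, k⟩ := exists_terminal le_rfl ht hb
  obtain ⟨s', d', h', k'⟩ := exists_terminal le_rfl ht' hb'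
  obtain ⟨s'', d'', h'', k''⟩ := exists_terminal le_rfl ht'' hb''
  by_cases h1 : s = s'
  · subst h1
    left
    exact congrArg Prod.fst (eq_of_terminal h h' k k')
  · by_cases h2 : s = s''
    · subst h2
      right; left
      exact congrArg Prod.fst (eq_of_terminal h h'' k k'')
    · have h3 : s' = s'' := by
        cases s <;> cases s' <;> cases s'' <;> simp_all
      subst h3
      right; right
      exact congrArg Prod.fst (eq_of_terminal h' h'' k' k'')

/-- If the component of `e` in `F` contains two different boundary unit edges of the larger region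
`F'` then it is the whole component in `F'`. -/
theorem MM_eq_of_two {F F' : Set (ℤ × ℤ)} (h : F ⊆ F') {t t' : UE} (ht : t ∈ MM ω F e)
    (ht' : t' ∈ MM ω F e) (hne : t ≠ t') (hb : BdU F' t) (hb' : BdU F' t') :
    MM ω F' e = MM ω F e := by
  obtain ⟨s, d, hs, k⟩ := exists_terminal h ht hb
  obtain ⟨s', d', hs', k'⟩ := exists_terminal h ht' hb'
  have hss : s ≠ s' := by
    rintro rfl
    exact hne (congrArg Prod.fst (eq_of_terminal hs hs' (fun hh => k (h hh))
      (fun hh => k' (h hh))))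
  refine Set.Subset.antisymm (fun b hbM => ?_) (fun _ hx => Perc.MM_mono h hx)
  obtain ⟨c, c', hc⟩ := reach hbM
  have h0 : ((e, c) : UE × Bool).1 ∈ MM ω F e := Relation.ReflTransGen.refl
  by_cases hcs : c = s
  · subst hcs
    exact mem_of_reach (follow h hs k hc) h0
  · have : c = s' := by
      cases s <;> cases s' <;> cases c <;> simp_all
    subst this
    exact mem_of_reach (follow h hs' k' hc) h0

end Pool.Agent.Perc6
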