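import Pool.Agent.Lib.MP_6bd702_perc6.Defs
import Pool.Agent.Lib.MP_6bd702_percw.LowTubes
import Pool.Agent.Lib.MP_6bd702_percu2.Cross

/-!
# Corridors made of square cells

The plane is divided into square cells of side `a` with corner `(c, h)`. For a finite set `K` of
cells the event `TubeEv` gives both crossings of every cell and the long crossing of every domino:
all these crossings are connected to each other inside a connected set of cells.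
-/

set_option autoImplicit false

namespace Pool.Agent.Perc6

open Finset Pool.Agent.Perc Pool.Agent.PercD Pool.Agent.PercL

/-- The faces of the cell `k`. -/
noncomputable def cellF (c h a : ℤ) (k : ℤ × ℤ) : Finset (ℤ × ℤ) :=
  RF (c + a * k.1) (c + a * (k.1 + 1)) (h + a * k.2) (h + a * (k.2 + 1))

/-- The faces of the cells of `K`. -/
noncomputable def cellsF (c h a : ℤ) (K : Finset (ℤ × ℤ)) : Finset (ℤ × ℤ) :=
  K.biUnion (cellF c h a)

/-- Both crossings of every cell of `K` and the long crossing of every domino. -/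
def TubeEv (col c h a : ℤ) (K : Finset (ℤ × ℤ)) : Set Cfg :=
  {ω | ∀ k ∈ K,
    ω ∈ LR col (c + a * k.1) (c + a * (k.1 + 1)) (h + a * k.2) (h + a * (k.2 + 1)) ∧
    ω ∈ BT col (c + a * k.1) (c + a * (k.1 + 1)) (h + a * k.2) (h + a * (k.2 + 1)) ∧
    ((k.1 + 1, k.2) ∈ K →
      ω ∈ LR col (c + a * k.1) (c + a * (k.1 + 2)) (h + a * k.2) (h + a * (k.2 + 1))) ∧
    ((k.1, k.2 + 1) ∈ K →
      ω ∈ BT col (c + a * k.1) (c + a * (k.1 + 1)) (h + a * k.2) (h + a * (k.2 + 2)))}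

/-- Neighbouring cells of `K`. -/
def CAdj (K : Finset (ℤ × ℤ)) (k k' : ℤ × ℤ) : Prop :=
  k ∈ K ∧ k' ∈ K ∧ ((k.1 = k'.1 ∧ |k.2 - k'.2| = 1) ∨ (k.2 = k'.2 ∧ |k.1 - k'.1| = 1))

/-- Connection of cells in `K`. -/
def CConn (K : Finset (ℤ × ℤ)) : ℤ × ℤ → ℤ × ℤ → Prop := Relation.ReflTransGen (CAdj K)

/-- `u` is on the skeleton of the cell `k`: it is joined in the cell to both vertical sides or to
both horizontal sides. -/
def Spine (ω : Cfg) (col c h a : ℤ) (k u : ℤ × ℤ) : Prop :=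
  (u.1 + u.2 - col) % 2 = 0 ∧
    (c + a * k.1 ≤ u.1 ∧ u.1 ≤ c + a * (k.1 + 1) ∧ h + a * k.2 ≤ u.2 ∧ u.2 ≤ h + a * (k.2 + 1)) ∧
    ((∃ v v', Conn ω (cellF c h a k) u v ∧ Conn ω (cellF c h a k) u v' ∧ v.1 = c + a * k.1 ∧
        v'.1 = c + a * (k.1 + 1)) ∨
      (∃ v v', Conn ω (cellF c h a k) u v ∧ Conn ω (cellF c h a k) u v' ∧ v.2 = h + a * k.2 ∧
        v'.2 = h + a * (k.2 + 1)))

variable {ω : Cfg} {col c h a : ℤ} {K : Finset (ℤ × ℤ)} {k k' u u' : ℤ × ℤ}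

theorem cellsF_mono {K K' : Finset (ℤ × ℤ)} (hK : K ⊆ K') : cellsF c h a K ⊆ cellsF c h a K' :=
  biUnion_subset_biUnion_of_subset_left _ hK

theorem tubeEv_mono {K K' : Finset (ℤ × ℤ)} (hK : K ⊆ K') (hω : ω ∈ TubeEv col c h a K') :
    ω ∈ TubeEv col c h a K := by
  intro k hk
  obtain ⟨h1, h2, h3, h4⟩ := hω k (hK hk)
  exact ⟨h1, h2, fun h => h3 (hK h), fun h => h4 (hK h)⟩

namespace TubeAux

theorem mul_succ' (a k : ℤ) : a * (k + 1) = a * k + a := by ring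

theorem mul_succ2 (a k : ℤ) : a * (k + 2) = a * k + 2 * a := by ring

theorem cellF_sub (hk : k ∈ K) : (cellF c h a k : Set (ℤ × ℤ)) ⊆ cellsF c h a K := by
  intro f hf
  exact Finset.mem_coe.2 (mem_biUnion.2 ⟨k, hk, Finset.mem_coe.1 hf⟩)

theorem domH_sub (hk : k ∈ K) (hk' : (k.1 + 1, k.2) ∈ K) :
    (RF (c + a * k.1) (c + a * (k.1 + 2)) (h + a * k.2) (h + a * (k.2 + 1)) : Set (ℤ × ℤ)) ⊆
      cellsF c h a K := by
  intro f hf
  rw [Finset.mem_coe, mem_RFi] at hf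
  have e0 := mul_succ2 a k.1
  have e1 := mul_succ' a k.1
  have e2 := mul_succ' a k.2
  have e3 := mul_succ' a (k.1 + 1)
  by_cases h0 : f.1 < c + a * k.1 + a
  · refine Finset.mem_coe.2 (mem_biUnion.2 ⟨k, hk, ?_⟩)
    unfold cellF
    rw [mem_RFi]
    omega
  · refine Finset.mem_coe.2 (mem_biUnion.2 ⟨_, hk', ?_⟩)
    unfold cellF
    rw [mem_RFi]
    simp only
    omega

theorem domV_sub (hk : k ∈ K) (hk' : (k.1, k.2 + 1) ∈ K) :
    (RF (c + a * k.1) (c + a * (k.1 + 1)) (h + a * k.2) (h + a * (k.2 + 2)) : Set (ℤ × ℤ)) ⊆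
      cellsF c h a K := by
  intro f hf
  rw [Finset.mem_coe, mem_RFi] at hf
  have e0 := mul_succ2 a k.2
  have e1 := mul_succ' a k.1
  have e2 := mul_succ' a k.2
  have e3 := mul_succ' a (k.2 + 1)
  by_cases h0 : f.2 < h + a * k.2 + a
  · refine Finset.mem_coe.2 (mem_biUnion.2 ⟨k, hk, ?_⟩)
    unfold cellF
    rw [mem_RFi]
    omega
  · refine Finset.mem_coe.2 (mem_biUnion.2 ⟨_, hk', ?_⟩)
    unfold cellF
    rw [mem_RFi]
    simp only
    omega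

/-- A vertex of the skeleton is connected to the beginning of each vertical crossing. -/
theorem spine_link (ha : 1 ≤ a) (hω : ω ∈ TubeEv col c h a K) (hk : k ∈ K)
    (hu : Spine ω col c h a k u) {p q : ℤ × ℤ} (hp : p.2 = h + a * k.2)
    (hp1 : c + a * k.1 ≤ p.1) (hp2 : p.1 ≤ c + a * (k.1 + 1)) (hq : q.2 = h + a * (k.2 + 1))
    (hpar : (p.1 + p.2 - col) % 2 = 0) (hpq : Conn ω (cellF c h a k) p q) :
    Conn ω (cellF c h a k) u p := by
  have e1 := mul_succ' a k.1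
  have e2 := mul_succ' a k.2
  obtain ⟨h1, h2, h3⟩ := hu
  rcases h3 with ⟨v, v', c1, c2, v1, v2⟩ | ⟨v, v', c1, c2, v1, v2⟩
  · have r1 := Conn.mem_rect c1 h2
    have p1 := Conn.parity c1
    have h5 : Conn ω (cellF c h a k) v v' := (Conn.symm c1).trans c2
    have := crossings_meet (by omega) (by omega) ⟨v1, r1.2.2⟩ v2 ⟨hp, hp1, hp2⟩ hq (by omega)
      h5 hpq
    exact c1.trans this
  · obtain ⟨s, t, s1, s2, s3, t1, s4, st⟩ := (hω k hk).1
    have r1 := Conn.mem_rect c1 h2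
    have p1 := Conn.parity c1
    have h5 : Conn ω (cellF c h a k) v v' := (Conn.symm c1).trans c2
    have h6 := crossings_meet (by omega) (by omega) ⟨s1, s2, s3⟩ t1 ⟨v1, r1.1, r1.2.1⟩ v2 (by omega)
      st h5
    have h7 := crossings_meet (by omega) (by omega) ⟨s1, s2, s3⟩ t1 ⟨hp, hp1, hp2⟩ hq (by omega)
      st hpq
    exact c1.trans ((Conn.symm h6).trans h7)

/-- Neighbouring cells to the right. -/
theorem link_H (ha : 1 ≤ a) (hω : ω ∈ TubeEv col c h a K) (hk : k ∈ K)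
    (hk' : (k.1 + 1, k.2) ∈ K) (hu : Spine ω col c h a k u)
    (hu' : Spine ω col c h a (k.1 + 1, k.2) u') : Conn ω (cellsF c h a K) u u' := by
  obtain ⟨p, q, p1, p2, p3, q1, p4, pq⟩ := (hω k hk).2.1
  obtain ⟨p', q', p1', p2', p3', q1', p4', pq'⟩ := (hω _ hk').2.1
  obtain ⟨s, t, s1, s2, s3, t1, s4, st⟩ := (hω k hk).2.2.1 hk'
  have f1 := spine_link ha hω hk hu p1 p2 p3 q1 p4 pq
  have f2 := spine_link ha hω hk' hu' p1' p2' p3' q1' p4' pq'
  simp only at p1' p2' p3' q1' pq'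
  have e0 := mul_succ2 a k.1
  have e1 := mul_succ' a k.1
  have e2 := mul_succ' a k.2
  have e3 := mul_succ' a (k.1 + 1)
  obtain ⟨z1, -, -, -, -, g1, g2⟩ := PercT.cross_meet le_rfl (by omega) (by omega) le_rfl
    (by omega) le_rfl ⟨s1, s2, s3⟩ t1 ⟨p1, p2, p3⟩ q1 (by omega) st pq
  obtain ⟨z2, -, -, -, -, g3, g4⟩ := PercT.cross_meet (by omega) (by omega) (by omega) le_rfl
    (by omega) le_rfl ⟨s1, s2, s3⟩ t1 ⟨p1', p2', p3'⟩ q1' (by omega) st pq'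
  have m1 := cellF_sub (c := c) (h := h) (a := a) hk
  have m2 := cellF_sub (c := c) (h := h) (a := a) hk'
  have m3 := domH_sub (c := c) (h := h) (a := a) hk hk'
  exact ((f1.mono m1).trans ((g2.mono m1).trans (Conn.symm (g1.mono m3)))).trans
    ((g3.mono m3).trans ((Conn.symm (g4.mono m2)).trans (Conn.symm (f2.mono m2))))

/-- Neighbouring cells above. -/
theorem link_V (ha : 1 ≤ a) (hω : ω ∈ TubeEv col c h a K) (hk : k ∈ K)
    (hk' : (k.1, k.2 + 1) ∈ K) (hu : Spine ω col c h a k u)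
    (hu' : Spine ω col c h a (k.1, k.2 + 1) u') : Conn ω (cellsF c h a K) u u' := by
  obtain ⟨p, q, p1, p2, p3, q1, p4, pq⟩ := (hω k hk).2.1
  obtain ⟨r, s, r1, r2, r3, s1, r4, rs⟩ := (hω k hk).1
  obtain ⟨p', q', p1', p2', p3', q1', p4', pq'⟩ := (hω _ hk').2.1
  obtain ⟨r', s', r1', r2', r3', s1', r4', rs'⟩ := (hω _ hk').1
  obtain ⟨y, z, y1, y2, y3, zz, y4, yz⟩ := (hω k hk).2.2.2 hk'
  have f1 := spine_link ha hω hk hu p1 p2 p3 q1 p4 pq
  have f2 := spine_link ha hω hk' hu' p1' p2' p3' q1' p4' pq'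
  simp only at p1' p2' p3' q1' pq' r1' r2' r3' s1' rs'
  have e0 := mul_succ2 a k.2
  have e1 := mul_succ' a k.1
  have e2 := mul_succ' a k.2
  have e3 := mul_succ' a (k.2 + 1)
  have g1 := crossings_meet (by omega) (by omega) ⟨r1, r2, r3⟩ s1 ⟨p1, p2, p3⟩ q1 (by omega)
    rs pq
  have g2 := crossings_meet (by omega) (by omega) ⟨r1', r2', r3'⟩ s1' ⟨p1', p2', p3'⟩ q1'
    (by omega) rs' pq'
  obtain ⟨z1, -, -, -, -, g3, g4⟩ := PercT.cross_meet le_rfl (by omega) le_rfl le_rfl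
    (by omega) (by omega) ⟨r1, r2, r3⟩ s1 ⟨y1, y2, y3⟩ zz (by omega) rs yz
  obtain ⟨z2, -, -, -, -, g5, g6⟩ := PercT.cross_meet le_rfl (by omega) le_rfl (by omega)
    (by omega) (by omega) ⟨r1', r2', r3'⟩ s1' ⟨y1, y2, y3⟩ zz (by omega) rs' yz
  have m1 := cellF_sub (c := c) (h := h) (a := a) hk
  have m2 := cellF_sub (c := c) (h := h) (a := a) hk'
  have m3 := domV_sub (c := c) (h := h) (a := a) hk hk'
  have A1 : Conn ω (cellsF c h a K) u y :=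
    (Conn.mono m1 (f1.trans (Conn.symm g1))).trans ((g3.mono m1).trans (Conn.symm (g4.mono m3)))
  have A2 : Conn ω (cellsF c h a K) u' y :=
    (Conn.mono m2 (f2.trans (Conn.symm g2))).trans ((g5.mono m2).trans (Conn.symm (g6.mono m3)))
  exact A1.trans (Conn.symm A2)

theorem spine_of_LR {u v : ℤ × ℤ} (h1 : u.1 = c + a * k.1) (h2 : h + a * k.2 ≤ u.2)
    (h3 : u.2 ≤ h + a * (k.2 + 1)) (h4 : v.1 = c + a * (k.1 + 1)) (ha : 1 ≤ a)
    (h5 : (u.1 + u.2 - col) % 2 = 0) (h6 : Conn ω (cellF c h a k) u v) :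
    Spine ω col c h a k u ∧ Spine ω col c h a k v := by
  have e1 := mul_succ' a k.1
  have hin : c + a * k.1 ≤ u.1 ∧ u.1 ≤ c + a * (k.1 + 1) ∧ h + a * k.2 ≤ u.2 ∧
      u.2 ≤ h + a * (k.2 + 1) := ⟨h1.ge, by omega, h2, h3⟩
  have hp := Conn.parity h6
  exact ⟨⟨h5, hin, Or.inl ⟨u, v, Relation.ReflTransGen.refl, h6, h1, h4⟩⟩,
    by omega, Conn.mem_rect h6 hin, Or.inl ⟨u, v, Conn.symm h6, Relation.ReflTransGen.refl, h1, h4⟩⟩

theorem spine_of_BT {u v : ℤ × ℤ} (h1 : u.2 = h + a * k.2) (h2 : c + a * k.1 ≤ u.1)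
    (h3 : u.1 ≤ c + a * (k.1 + 1)) (h4 : v.2 = h + a * (k.2 + 1)) (ha : 1 ≤ a)
    (h5 : (u.1 + u.2 - col) % 2 = 0) (h6 : Conn ω (cellF c h a k) u v) :
    Spine ω col c h a k u ∧ Spine ω col c h a k v := by
  have e1 := mul_succ' a k.2
  have hin : c + a * k.1 ≤ u.1 ∧ u.1 ≤ c + a * (k.1 + 1) ∧ h + a * k.2 ≤ u.2 ∧
      u.2 ≤ h + a * (k.2 + 1) := ⟨h2, h3, h1.ge, by omega⟩
  have hp := Conn.parity h6
  exact ⟨⟨h5, hin, Or.inr ⟨u, v, Relation.ReflTransGen.refl, h6, h1, h4⟩⟩,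
    by omega, Conn.mem_rect h6 hin, Or.inr ⟨u, v, Conn.symm h6, Relation.ReflTransGen.refl, h1, h4⟩⟩

end TubeAux

open TubeAux

/-- A crossing from left to right, given by its end on the left side. -/
theorem exists_spine_LR (ha : 1 ≤ a) (hω : ω ∈ TubeEv col c h a K) (hk : k ∈ K) :
    ∃ u v, u.1 = c + a * k.1 ∧ v.1 = c + a * (k.1 + 1) ∧ Spine ω col c h a k u ∧
      Spine ω col c h a k v ∧ Conn ω (cellF c h a k) u v := by
  obtain ⟨u, v, h1, h2, h3, h4, h5, h6⟩ := (hω k hk).1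
  obtain ⟨s1, s2⟩ := spine_of_LR h1 h2 h3 h4 ha h5 h6
  exact ⟨u, v, h1, h4, s1, s2, h6⟩

/-- A crossing from bottom to top, given by its end on the lower side. -/
theorem exists_spine_BT (ha : 1 ≤ a) (hω : ω ∈ TubeEv col c h a K) (hk : k ∈ K) :
    ∃ u v, u.2 = h + a * k.2 ∧ v.2 = h + a * (k.2 + 1) ∧ Spine ω col c h a k u ∧
      Spine ω col c h a k v ∧ Conn ω (cellF c h a k) u v := by
  obtain ⟨u, v, h1, h2, h3, h4, h5, h6⟩ := (hω k hk).2.1
  obtain ⟨s1, s2⟩ := spine_of_BT h1 h2 h3 h4 ha h5 h6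
  exact ⟨u, v, h1, h4, s1, s2, h6⟩

/-- All skeletons of a connected set of cells are connected. -/
theorem tube_conn (ha : 1 ≤ a) (hω : ω ∈ TubeEv col c h a K) (hk : CConn K k k') (hkK : k ∈ K)
    (hu : Spine ω col c h a k u) (hu' : Spine ω col c h a k' u') :
    Conn ω (cellsF c h a K) u u' := by
  unfold CConn at hk
  induction hk generalizing u' with
  | refl =>
    obtain ⟨p, q, p1, p2, p3, q1, p4, pq⟩ := (hω k hkK).2.1
    have f1 := spine_link ha hω hkK hu p1 p2 p3 q1 p4 pq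
    have f2 := spine_link ha hω hkK hu' p1 p2 p3 q1 p4 pq
    exact Conn.mono (cellF_sub hkK) (f1.trans (Conn.symm f2))
  | @tail l l' _ hadj ih =>
    obtain ⟨h1, h2, h3⟩ := hadj
    obtain ⟨r, s, -, -, hr, -, -⟩ := exists_spine_LR ha hω h1
    refine (ih hr).trans ?_
    have hcase : (l'.1 = l.1 ∧ l'.2 = l.2 + 1) ∨ (l'.1 = l.1 ∧ l.2 = l'.2 + 1) ∨
        (l'.2 = l.2 ∧ l'.1 = l.1 + 1) ∨ (l'.2 = l.2 ∧ l.1 = l'.1 + 1) := by
      rcases h3 with ⟨h3, h4⟩ | ⟨h3, h4⟩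
      · rw [abs_eq (by norm_num)] at h4
        omega
      · rw [abs_eq (by norm_num)] at h4
        omega
    rcases hcase with ⟨h4, h5⟩ | ⟨h4, h5⟩ | ⟨h4, h5⟩ | ⟨h4, h5⟩
    · obtain rfl : l' = (l.1, l.2 + 1) := Prod.ext h4 h5
      exact link_V ha hω h1 h2 hr hu'
    · obtain rfl : l = (l'.1, l'.2 + 1) := Prod.ext h4.symm h5
      exact Conn.symm (link_V ha hω h2 h1 hu' hr)
    · obtain rfl : l' = (l.1 + 1, l.2) := Prod.ext h5 h4
      exact link_H ha hω h1 h2 hr hu'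
    · obtain rfl : l = (l'.1 + 1, l'.2) := Prod.ext h5 h4.symm
      exact Conn.symm (link_H ha hω h2 h1 hu' hr)

/-- A path of the same colour which crosses a horizontal row of cells meets the tube: the path goes
from `p` (not above the row) to `t` (not below the row) inside `[x₀, x₁] × ℤ`, the cells of the row
over `[x₀, x₁]` belong to `K`. -/
theorem tube_meet_row (ha : 1 ≤ a) (hω : ω ∈ TubeEv col c h a K) {i₁ i₂ j y₀ y₁ : ℤ} (hi : i₁ < i₂)
    (hK : ∀ i, i₁ ≤ i → i < i₂ → (i, j) ∈ K) {p t : ℤ × ℤ}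
    (hp : Conn ω (RF (c + a * i₁) (c + a * i₂) y₀ y₁) p t) (hpar : (p.1 + p.2 - col) % 2 = 0)
    (hpi : c + a * i₁ ≤ p.1 ∧ p.1 ≤ c + a * i₂ ∧ y₀ ≤ p.2 ∧ p.2 ≤ y₁)
    (h1 : (p.2 ≤ h + a * j ∧ h + a * (j + 1) ≤ t.2) ∨ (t.2 ≤ h + a * j ∧ h + a * (j + 1) ≤ p.2)) :
    ∃ k ∈ K, ∃ u, k.2 = j ∧ i₁ ≤ k.1 ∧ k.1 < i₂ ∧ Spine ω col c h a k u ∧
      Conn ω ((RF (c + a * i₁) (c + a * i₂) y₀ y₁ : Set (ℤ × ℤ)) ∪
        cellsF c h a ((Ico i₁ i₂) ×ˢ {j})) p u := by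
  set K' : Finset (ℤ × ℤ) := (Ico i₁ i₂) ×ˢ {j} with hK'
  have hmem : ∀ k : ℤ × ℤ, k ∈ K' ↔ (i₁ ≤ k.1 ∧ k.1 < i₂) ∧ k.2 = j := by
    intro k
    rw [hK', mem_product, mem_Ico, mem_singleton]
  have hKK : K' ⊆ K := by
    intro k hk
    obtain ⟨⟨k1, k2⟩, k3⟩ := (hmem k).1 hk
    have := hK k.1 k1 k2
    rwa [← k3] at this
  have hω' := tubeEv_mono hKK hω
  have hl : (i₁, j) ∈ K' := (hmem _).2 ⟨⟨le_rfl, hi⟩, rfl⟩
  have hr : (i₂ - 1, j) ∈ K' := (hmem _).2 ⟨⟨by simp only; omega, by simp only; omega⟩, rfl⟩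
  have hcc : ∀ n : ℕ, i₁ + n < i₂ → CConn K' (i₁, j) (i₁ + n, j) := by
    intro n
    induction n with
    | zero =>
      intro _
      rw [Nat.cast_zero, add_zero]
      exact Relation.ReflTransGen.refl
    | succ n ih =>
      intro hn
      push_cast at hn
      refine (ih (by omega)).tail ⟨(hmem _).2 ⟨⟨by simp only; omega, by simp only; omega⟩, rfl⟩,
        (hmem _).2 ⟨⟨by push_cast; omega, by push_cast; omega⟩, rfl⟩, Or.inr ⟨rfl, ?_⟩⟩
      simp only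
      push_cast
      rw [show i₁ + (n : ℤ) - (i₁ + (n + 1)) = -1 by ring]
      norm_num
  have hcc' : CConn K' (i₁, j) (i₂ - 1, j) := by
    have := hcc (i₂ - 1 - i₁).toNat (by omega)
    rwa [Int.toNat_of_nonneg (by omega), show i₁ + (i₂ - 1 - i₁) = i₂ - 1 by ring] at this
  obtain ⟨u, u', u1, -, hu, -, -⟩ := exists_spine_LR ha hω' hl
  obtain ⟨v, v', -, v1, -, hv, -⟩ := exists_spine_LR ha hω' hr
  simp only [sub_add_cancel] at u1 v1
  have huv := tube_conn ha hω' hcc' hl hu hv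
  have hsub : (cellsF c h a K' : Set (ℤ × ℤ)) ⊆
      RF (c + a * i₁) (c + a * i₂) (h + a * j) (h + a * (j + 1)) := by
    intro f hf
    obtain ⟨k, hk, hf'⟩ := mem_biUnion.1 (Finset.mem_coe.1 hf)
    obtain ⟨⟨k1, k2⟩, k3⟩ := (hmem k).1 hk
    unfold cellF at hf'
    rw [mem_RFi] at hf'
    rw [k3] at hf'
    have b1 : a * i₁ ≤ a * k.1 := mul_le_mul_of_nonneg_left k1 (by omega)
    have b2 : a * (k.1 + 1) ≤ a * i₂ := mul_le_mul_of_nonneg_left (by omega) (by omega)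
    refine Finset.mem_coe.2 (mem_RFi.2 ?_)
    omega
  have e1 := mul_succ' a j
  have e2 : a * i₁ < a * i₂ := (mul_lt_mul_iff_right₀ (by omega)).2 hi
  have huv' := huv.mono hsub
  have hpr := Conn.mem_rect hp hpi
  have hup := hu.1
  have hui := hu.2.1
  simp only at hui
  -- the vertical part
  have hvert : ∃ y z : ℤ × ℤ, y.2 = h + a * j ∧ c + a * i₁ ≤ y.1 ∧ y.1 ≤ c + a * i₂ ∧
      z.2 = h + a * (j + 1) ∧ Conn ω (RF (c + a * i₁) (c + a * i₂) (h + a * j) (h + a * (j + 1)))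
        y z ∧ Conn ω (RF (c + a * i₁) (c + a * i₂) y₀ y₁) p y := by
    rcases h1 with ⟨g1, g2⟩ | ⟨g1, g2⟩
    · obtain ⟨y, z, y1, y2, y3, z1, yz, py⟩ := PercT.strip_ver (y₀' := h + a * j)
        (y₁' := h + a * (j + 1)) (by omega) (by omega) (by omega) g1
        ⟨hpi.2.2.1, hpi.1, hpi.2.1⟩ g2 hp
      exact ⟨y, z, y1, y2, y3, z1, yz, py⟩
    · obtain ⟨y, z, y1, y2, y3, z1, yz, ty⟩ := PercT.strip_ver (y₀' := h + a * j)
        (y₁' := h + a * (j + 1)) (by omega) (by omega) (by omega) g1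
        ⟨hpr.2.2.1, hpr.1, hpr.2.1⟩ g2 (Conn.symm hp)
      exact ⟨y, z, y1, y2, y3, z1, yz, hp.trans ty⟩
  obtain ⟨y, z, y1, y2, y3, z1, yz, py⟩ := hvert
  have hpy := Conn.parity py
  have hm := crossings_meet (by omega) (by omega) ⟨u1, hui.2.2.1, hui.2.2.2⟩ v1 ⟨y1, y2, y3⟩ z1
    (by omega) huv' yz
  have hrow : (RF (c + a * i₁) (c + a * i₂) (h + a * j) (h + a * (j + 1)) : Set (ℤ × ℤ)) ⊆
      RF (c + a * i₁) (c + a * i₂) y₀ y₁ :=
    PercT.Cross.rf_sub le_rfl le_rfl (by omega) (by omega)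
  refine ⟨(i₁, j), hKK hl, u, rfl, le_rfl, hi, hu, ?_⟩
  exact Conn.mono Set.subset_union_left (py.trans (Conn.mono hrow (Conn.symm hm)))

theorem depOn_tube (col c h a : ℤ) (K : Finset (ℤ × ℤ)) (ha : 1 ≤ a) :
    DepOn (cellsF c h a K : Set (ℤ × ℤ)) (TubeEv col c h a K) := by
  intro ω ω' hω
  refine forall_congr' fun k => forall_congr' fun hk => ?_
  have m1 := cellF_sub (c := c) (h := h) (a := a) hk
  refine and_congr (depOn_mono' (depOn_LR _ _ _ _ _) m1 ω ω' hω)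
    (and_congr (depOn_mono' (depOn_BT _ _ _ _ _) m1 ω ω' hω) (and_congr ?_ ?_))
  · exact forall_congr' fun hk' =>
      depOn_mono' (depOn_LR _ _ _ _ _) (domH_sub (c := c) (h := h) (a := a) hk hk') ω ω' hω
  · exact forall_congr' fun hk' =>
      depOn_mono' (depOn_BT _ _ _ _ _) (domV_sub (c := c) (h := h) (a := a) hk hk') ω ω' hω

theorem incD_tube (col c h a : ℤ) (K : Finset (ℤ × ℤ)) : IncD (parD col) (TubeEv col c h a K) := by
  intro ω ω' hle hω k hk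
  obtain ⟨h1, h2, h3, h4⟩ := hω k hk
  exact ⟨incD_LR _ _ _ _ _ ω ω' hle h1, incD_BT' _ _ _ _ _ ω ω' hle h2,
    fun h => incD_LR _ _ _ _ _ ω ω' hle (h3 h), fun h => incD_BT' _ _ _ _ _ ω ω' hle (h4 h)⟩

theorem pr_tube (n : ℕ) : ∃ δ : ℝ, 0 < δ ∧ ∀ (col c h a : ℤ) (K W : Finset (ℤ × ℤ)), 1 ≤ a →
    K.card ≤ n → cellsF c h a K ⊆ W → δ ≤ pr W (TubeEv col c h a K) := by
  classical
  obtain ⟨c₁, hc1, hL⟩ := rswF 2
  obtain ⟨c₂, hc2, hB⟩ := rswF' 2
  set c' := min c₁ c₂ with hc'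
  have hc0 : 0 < c' := lt_min hc1 hc2
  have hcle : c' ≤ 1 := (min_le_left _ _).trans
    ((hL 0 0 1 0 1 (by norm_num) (by norm_num) (by norm_num)).trans (pr_le_one _ _))
  refine ⟨(c' ^ 4) ^ n, by positivity, fun col c h a K W ha hK hW => ?_⟩
  let A : (ℤ × ℤ) × Fin 4 → Set Cfg := fun i =>
    ![LR col (c + a * i.1.1) (c + a * (i.1.1 + 1)) (h + a * i.1.2) (h + a * (i.1.2 + 1)),
      BT col (c + a * i.1.1) (c + a * (i.1.1 + 1)) (h + a * i.1.2) (h + a * (i.1.2 + 1)),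
      {ω | (i.1.1 + 1, i.1.2) ∈ K →
        ω ∈ LR col (c + a * i.1.1) (c + a * (i.1.1 + 2)) (h + a * i.1.2) (h + a * (i.1.2 + 1))},
      {ω | (i.1.1, i.1.2 + 1) ∈ K →
        ω ∈ BT col (c + a * i.1.1) (c + a * (i.1.1 + 1)) (h + a * i.1.2) (h + a * (i.1.2 + 2))}] i.2
  have hWc : (cellsF c h a K : Set (ℤ × ℤ)) ⊆ W := by exact_mod_cast hW
  have gL : ∀ x₀ x₁ y₀ y₁ : ℤ, x₀ < x₁ → y₀ < y₁ → x₁ - x₀ ≤ 2 * (y₁ - y₀) →
      (RF x₀ x₁ y₀ y₁ : Set (ℤ × ℤ)) ⊆ W → DepOn W (LR col x₀ x₁ y₀ y₁) ∧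
        c' ≤ pr W (LR col x₀ x₁ y₀ y₁) := by
    intro x₀ x₁ y₀ y₁ hx hy hk hs
    refine ⟨depOn_mono' (depOn_LR _ _ _ _ _) hs, ?_⟩
    rw [pr_eq_of_depOn (depOn_LR _ _ _ _ _) (by exact_mod_cast hs)]
    exact (min_le_left _ _).trans (hL _ _ _ _ _ hx hy (by push_cast; exact hk))
  have gB : ∀ x₀ x₁ y₀ y₁ : ℤ, x₀ < x₁ → y₀ < y₁ → y₁ - y₀ ≤ 2 * (x₁ - x₀) →
      (RF x₀ x₁ y₀ y₁ : Set (ℤ × ℤ)) ⊆ W → DepOn W (BT col x₀ x₁ y₀ y₁) ∧
        c' ≤ pr W (BT col x₀ x₁ y₀ y₁) := by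
    intro x₀ x₁ y₀ y₁ hx hy hk hs
    refine ⟨depOn_mono' (depOn_BT _ _ _ _ _) hs, ?_⟩
    rw [pr_eq_of_depOn (depOn_BT _ _ _ _ _) (by exact_mod_cast hs)]
    exact (min_le_right _ _).trans (hB _ _ _ _ _ hx hy (by push_cast; exact hk))
  have huniv : DepOn (W : Set (ℤ × ℤ)) (Set.univ : Set Cfg) ∧ c' ≤ pr W (Set.univ : Set Cfg) := by
    refine ⟨fun _ _ _ => Iff.rfl, ?_⟩
    have h1 := pr_compl W (∅ : Set Cfg)
    have h2 : pr W (∅ : Set Cfg) = 0 := by rw [ProbA.pr_eq_sum]; simp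
    rw [Set.compl_empty, h2, sub_zero] at h1
    rw [h1]
    exact hcle
  have hA : ∀ i ∈ K ×ˢ (univ : Finset (Fin 4)),
      DepOn W (A i) ∧ IncD (parD col) (A i) ∧ c' ≤ pr W (A i) := by
    rintro ⟨k, e⟩ hi
    have hk : k ∈ K := (mem_product.1 hi).1
    have e0 := mul_succ2 a k.1
    have e0' := mul_succ2 a k.2
    have e1 := mul_succ' a k.1
    have e2 := mul_succ' a k.2
    have m1 := (cellF_sub (c := c) (h := h) (a := a) hk).trans hWc
    fin_cases e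
    · have := gL (c + a * k.1) (c + a * (k.1 + 1)) (h + a * k.2) (h + a * (k.2 + 1)) (by omega)
        (by omega) (by omega) m1
      exact ⟨this.1, incD_LR _ _ _ _ _, this.2⟩
    · have := gB (c + a * k.1) (c + a * (k.1 + 1)) (h + a * k.2) (h + a * (k.2 + 1)) (by omega)
        (by omega) (by omega) m1
      exact ⟨this.1, incD_BT' _ _ _ _ _, this.2⟩
    · by_cases hk' : (k.1 + 1, k.2) ∈ K
      · have e : A (k, 2) = LR col (c + a * k.1) (c + a * (k.1 + 2)) (h + a * k.2)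
            (h + a * (k.2 + 1)) := by
          ext ω
          exact ⟨fun h => h hk', fun h _ => h⟩
        change DepOn W (A (k, 2)) ∧ IncD (parD col) (A (k, 2)) ∧ c' ≤ pr W (A (k, 2))
        rw [e]
        have := gL (c + a * k.1) (c + a * (k.1 + 2)) (h + a * k.2) (h + a * (k.2 + 1)) (by omega)
          (by omega) (by omega) ((domH_sub hk hk').trans hWc)
        exact ⟨this.1, incD_LR _ _ _ _ _, this.2⟩
      · have e : A (k, 2) = Set.univ := by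
          ext ω
          exact ⟨fun _ => trivial, fun _ h => absurd h hk'⟩
        change DepOn W (A (k, 2)) ∧ IncD (parD col) (A (k, 2)) ∧ c' ≤ pr W (A (k, 2))
        rw [e]
        exact ⟨huniv.1, fun _ _ _ _ => trivial, huniv.2⟩
    · by_cases hk' : (k.1, k.2 + 1) ∈ K
      · have e : A (k, 3) = BT col (c + a * k.1) (c + a * (k.1 + 1)) (h + a * k.2)
            (h + a * (k.2 + 2)) := by
          ext ω
          exact ⟨fun h => h hk', fun h _ => h⟩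
        change DepOn W (A (k, 3)) ∧ IncD (parD col) (A (k, 3)) ∧ c' ≤ pr W (A (k, 3))
        rw [e]
        have := gB (c + a * k.1) (c + a * (k.1 + 1)) (h + a * k.2) (h + a * (k.2 + 2)) (by omega)
          (by omega) (by omega) ((domV_sub hk hk').trans hWc)
        exact ⟨this.1, incD_BT' _ _ _ _ _, this.2⟩
      · have e : A (k, 3) = Set.univ := by
          ext ω
          exact ⟨fun _ => trivial, fun _ h => absurd h hk'⟩
        change DepOn W (A (k, 3)) ∧ IncD (parD col) (A (k, 3)) ∧ c' ≤ pr W (A (k, 3))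
        rw [e]
        exact ⟨huniv.1, fun _ _ _ _ => trivial, huniv.2⟩
  have h1 := harris_list (parD col) (K ×ˢ (univ : Finset (Fin 4))) A (fun i hi => (hA i hi).1)
    (fun i hi => (hA i hi).2.1)
  have h2 : (c' ^ 4) ^ K.card ≤ ∏ i ∈ K ×ˢ (univ : Finset (Fin 4)), pr W (A i) := by
    have h3 : (c' ^ 4) ^ K.card = ∏ _i ∈ K ×ˢ (univ : Finset (Fin 4)), c' := by
      rw [prod_const, card_product, card_univ, Fintype.card_fin, ← pow_mul, mul_comm]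
    rw [h3]
    exact prod_le_prod (fun _ _ => hc0.le) fun i hi => (hA i hi).2.2
  have h4 : (c' ^ 4) ^ n ≤ (c' ^ 4) ^ K.card :=
    pow_le_pow_of_le_one (by positivity) (pow_le_one₀ hc0.le hcle) hK
  refine (h4.trans h2).trans (h1.trans (pr_mono _ ?_))
  intro ω hω k hk
  have g := fun e => hω (k, e) (mem_product.2 ⟨hk, mem_univ _⟩)
  exact ⟨g 0, g 1, g 2, g 3⟩

end Pool.Agent.Perc6
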