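import Pool.Agent.Lib.MP_6bd702_perc6.BcGood

/-!
# The cells of a window and the dyadic cells
-/

set_option autoImplicit false

namespace Pool.Agent.PercBc

open Filter Topology Relation
open Pool.Agent.Perc Pool.Agent.Perc.PercD Pool.Agent.PercD Pool.Agent.PercS5 Pool.Agent.Perc6
open Pool.Agent.PercX60 (Sn)

variable {n p m : ℕ} {ω : Cfg} {u X z z' : ℤ × ℤ} {ρ α β α' β' s : ℝ} {h w x y η M q : ℤ}

/-- The centre of the cell `z` of a window. -/
noncomputable def cc (x y M q η : ℤ) (z : ℤ × ℤ) : ℂ :=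
  fp (x + q * η * (M + z.1 + 1 / 2)) (y + q * η * (M + z.2 + 1 / 2))

/-- The nearest dyadic cell. -/
noncomputable def Fi (n m : ℕ) (x y M q η : ℤ) (z : ℤ × ℤ) : ℤ × ℤ :=
  (round ((cc x y M q η z).re / n * 2 ^ m), round ((cc x y M q η z).im / n * 2 ^ m))

theorem near_Fi (hn : 0 < n) (hσ : 4 * ((q * η : ℤ) : ℝ) * 2 ^ m ≤ n)
    (h1 : |α - (x + q * η * (M + z.1 + 1 / 2))| ≤ ((q * η : ℤ) : ℝ) / 2)
    (h2 : |β - (y + q * η * (M + z.2 + 1 / 2))| ≤ ((q * η : ℤ) : ℝ) / 2) :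
    |(fp α β / n).re * 2 ^ m - (Fi n m x y M q η z).1| ≤ 5 / 8 ∧
      |(fp α β / n).im * 2 ^ m - (Fi n m x y M q η z).2| ≤ 5 / 8 := by
  have hn0 : (0 : ℝ) < n := by exact_mod_cast hn
  have key : ∀ s t : ℝ, |s - t| ≤ ((q * η : ℤ) : ℝ) / 2 →
      |s / n * 2 ^ m - round (t / n * 2 ^ m)| ≤ 5 / 8 := by
    intro s t hst
    have h3 : |s / n * 2 ^ m - t / n * 2 ^ m| ≤ 1 / 8 := by
      have e : s / n * 2 ^ m - t / n * 2 ^ m = (s - t) * (2 ^ m / n) := by ring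
      rw [e, abs_mul, abs_of_pos (by positivity : (0 : ℝ) < 2 ^ m / n)]
      calc |s - t| * (2 ^ m / n) ≤ ((q * η : ℤ) : ℝ) / 2 * (2 ^ m / n) :=
            mul_le_mul_of_nonneg_right hst (by positivity)
        _ = (4 * ((q * η : ℤ) : ℝ) * 2 ^ m) / n / 8 := by ring
        _ ≤ 1 / 8 := by
            have : (4 * ((q * η : ℤ) : ℝ) * 2 ^ m) / n ≤ 1 := by rwa [div_le_one hn0]
            linarith
    have h4 := abs_sub_round (t / n * 2 ^ m)
    calc |s / n * 2 ^ m - round (t / n * 2 ^ m)|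
        = |(s / n * 2 ^ m - t / n * 2 ^ m) + (t / n * 2 ^ m - round (t / n * 2 ^ m))| := by
          congr 1; ring
      _ ≤ 1 / 8 + 1 / 2 := (abs_add_le _ _).trans (add_le_add h3 h4)
      _ = 5 / 8 := by norm_num
  rw [abs_le] at h1 h2
  rw [Complex.div_natCast_re, Complex.div_natCast_im]
  constructor
  · refine key _ _ ?_
    simp only [cc, fp]
    rw [abs_le]
    constructor <;> linarith [h1.1, h1.2, h2.1, h2.2]
  · refine key _ _ ?_
    simp only [cc, fp]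
    rw [abs_le]
    constructor <;> linarith [h1.1, h1.2, h2.1, h2.2]

/-- The distances of the dyadic cells. -/
theorem le_dist_Fi (hn : 0 < n) (hq : 0 ≤ q) (hη : 0 ≤ η)
    (hσ : 4 * ((q * η : ℤ) : ℝ) * 2 ^ m ≤ n) :
    ((q * η : ℤ) : ℝ) / (4 * n) * dsup z z' ≤
      max (dist (pt m (Fi n m x y M q η z)) (pt m (Fi n m x y M q η z'))) (1 / 2 ^ m) := by
  have hn0 : (0 : ℝ) < n := by exact_mod_cast hn
  have hm0 : (0 : ℝ) < 2 ^ m := by positivity
  set σ : ℝ := ((q * η : ℤ) : ℝ) with hσd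
  have hσ0 : 0 ≤ σ := by rw [hσd]; exact_mod_cast mul_nonneg hq hη
  set D : ℝ := dist (pt m (Fi n m x y M q η z)) (pt m (Fi n m x y M q η z')) with hD
  set d : ℝ := max |((z.1 - z'.1 : ℤ) : ℝ)| |((z.2 - z'.2 : ℤ) : ℝ)| with hd
  -- the lower bound
  have hlow : σ / (2 * n) * d - 1 / 2 ^ m ≤ D := by
    have aux : ∀ (a b : ℝ) (i j : ℤ), |a * 2 ^ m - i| ≤ 1 / 2 → |b * 2 ^ m - j| ≤ 1 / 2 →
        |a - b| - 1 / 2 ^ m ≤ |(i : ℝ) / 2 ^ m - j / 2 ^ m| := by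
      intro a b i j h1 h2
      have h3 : |(a - b) - ((i : ℝ) / 2 ^ m - j / 2 ^ m)| ≤ 1 / 2 ^ m := by
        have e : (a - b) - ((i : ℝ) / 2 ^ m - j / 2 ^ m) =
            ((a * 2 ^ m - i) - (b * 2 ^ m - j)) / 2 ^ m := by field_simp; ring
        rw [e, abs_div, abs_of_pos hm0]
        refine div_le_div_of_nonneg_right ?_ hm0.le
        exact (abs_sub _ _).trans (by linarith)
      have h4 := abs_sub_abs_le_abs_sub (a - b) ((i : ℝ) / 2 ^ m - j / 2 ^ m)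
      linarith
    have hr1 : |((cc x y M q η z).re / n * 2 ^ m - (Fi n m x y M q η z).1)| ≤ 1 / 2 :=
      abs_sub_round _
    have hr2 : |((cc x y M q η z').re / n * 2 ^ m - (Fi n m x y M q η z').1)| ≤ 1 / 2 :=
      abs_sub_round _
    have hi1 : |((cc x y M q η z).im / n * 2 ^ m - (Fi n m x y M q η z).2)| ≤ 1 / 2 :=
      abs_sub_round _
    have hi2 : |((cc x y M q η z').im / n * 2 ^ m - (Fi n m x y M q η z').2)| ≤ 1 / 2 :=
      abs_sub_round _
    have hre := aux _ _ _ _ hr1 hr2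
    have him := aux _ _ _ _ hi1 hi2
    have hDre : |((Fi n m x y M q η z).1 : ℝ) / 2 ^ m - (Fi n m x y M q η z').1 / 2 ^ m| ≤ D := by
      rw [hD, dist_eq_norm]
      refine le_trans (le_of_eq ?_) (Complex.abs_re_le_norm _)
      simp [pt]
    have hDim : |((Fi n m x y M q η z).2 : ℝ) / 2 ^ m - (Fi n m x y M q η z').2 / 2 ^ m| ≤ D := by
      rw [hD, dist_eq_norm]
      refine le_trans (le_of_eq ?_) (Complex.abs_im_le_norm _)
      simp [pt]
    have e1 : (cc x y M q η z).re / n - (cc x y M q η z').re / n =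
        σ / (2 * n) * (((z.1 - z'.1 : ℤ) : ℝ) + ((z.2 - z'.2 : ℤ) : ℝ)) := by
      simp only [cc, fp]
      rw [hσd]
      push_cast
      field_simp
      ring
    have e2 : (cc x y M q η z).im / n - (cc x y M q η z').im / n =
        σ / (2 * n) * (((z.1 - z'.1 : ℤ) : ℝ) - ((z.2 - z'.2 : ℤ) : ℝ)) := by
      simp only [cc, fp]
      rw [hσd]
      push_cast
      field_simp
      ring
    rw [e1] at hre
    rw [e2] at him
    have hk0 : 0 ≤ σ / (2 * n) := by positivity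
    rw [abs_mul, abs_of_nonneg hk0] at hre him
    set a : ℝ := ((z.1 - z'.1 : ℤ) : ℝ) with ha
    set b : ℝ := ((z.2 - z'.2 : ℤ) : ℝ) with hb
    have hmax : d ≤ |a + b| ∨ d ≤ |a - b| := by
      rw [hd]
      rcases le_total 0 a with h1 | h1 <;> rcases le_total 0 b with h2 | h2
      · left; rw [abs_of_nonneg h1, abs_of_nonneg h2, abs_of_nonneg (by linarith)]
        exact max_le (by linarith) (by linarith)
      · right; rw [abs_of_nonneg h1, abs_of_nonpos h2, abs_of_nonneg (by linarith)]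
        exact max_le (by linarith) (by linarith)
      · right; rw [abs_of_nonpos h1, abs_of_nonneg h2, abs_of_nonpos (by linarith)]
        exact max_le (by linarith) (by linarith)
      · left; rw [abs_of_nonpos h1, abs_of_nonpos h2, abs_of_nonpos (by linarith)]
        exact max_le (by linarith) (by linarith)
    rcases hmax with h1 | h1
    · have := mul_le_mul_of_nonneg_left h1 hk0
      linarith
    · have := mul_le_mul_of_nonneg_left h1 hk0
      linarith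
  have hsmall : σ / (4 * n) ≤ 1 / 2 ^ m := by
    rw [div_le_div_iff₀ (by positivity) hm0]
    nlinarith
  have e4 : σ / (4 * n) * d = (σ / (2 * n) * d) / 2 := by ring
  unfold dsup
  rw [← hd, mul_max_of_nonneg _ _ (by positivity), mul_one]
  refine max_le ?_ (hsmall.trans (le_max_right _ _))
  rw [e4]
  have h5 := le_max_left D (1 / 2 ^ m : ℝ)
  have h6 := le_max_right D (1 / 2 ^ m : ℝ)
  linarith

theorem kernel_Fi (hn : 0 < n) (hq : 0 < q) (hη : 0 < η) (hs : 0 < s)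
    (hσ : 4 * ((q * η : ℤ) : ℝ) * 2 ^ m ≤ n) :
    (max (dist (pt m (Fi n m x y M q η z)) (pt m (Fi n m x y M q η z'))) (1 / 2 ^ m)) ^ (-s) ≤
      (((q * η : ℤ) : ℝ) / (4 * n)) ^ (-s) * dsup z z' ^ (-s) := by
  have hn0 : (0 : ℝ) < n := by exact_mod_cast hn
  have hσ0 : (0 : ℝ) < ((q * η : ℤ) : ℝ) := by exact_mod_cast mul_pos hq hη
  have hd : (0 : ℝ) < dsup z z' := lt_of_lt_of_le one_pos (le_max_right _ _)
  rw [← Real.mul_rpow (by positivity) hd.le]
  exact Real.rpow_le_rpow_of_nonpos (by positivity) (le_dist_Fi hn hq.le hη.le hσ) (by linarith)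

/-- The cells of a success are hit. -/
theorem Tg.hit (hn : 0 < n) (hu : u ∈ Box n) (ht : Tg n ω u h w X) (hX : X.1 < x)
    (hη : 1 ≤ η) (hηw : η ≤ 4 * w) (hρ : 1 + 4 * n / 2 ^ p ≤ (η : ℝ) / 4)
    (hpm : (4 : ℝ) * 2 ^ m ≤ 2 ^ p) (hσ : 4 * ((q * η : ℤ) : ℝ) * 2 ^ m ≤ n)
    {c : ℤ × ℤ} (hc : c ∈ CL n ω u) (hcz : InCell x (h + w) M q η z c)
    (hS : Seen ω 0 x (h + w) M q η z) :
    Fi n m x (h + w) M q η z ∈ GO p m (perK n (cfgE n ω) u : Set ℂ) := by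
  classical
  have hn0 : (0 : ℝ) < n := by exact_mod_cast hn
  have hη0 : (0 : ℝ) < η := by exact_mod_cast (by omega : (0 : ℤ) < η)
  obtain ⟨t, t', ⟨t1, t2, t3, t4⟩, ht0, hf, hch⟩ := hS
  have hf' : FreeSq ω 0 x (h + w) (4 * (M * q * η)) η t' := by
    rcases ReflTransGen.cases_tail hch with h1 | ⟨b, -, h1⟩
    · rw [h1]; exact hf
    · exact h1.2.2
  have hw : 0 ≤ w := by omega
  -- the vertex
  obtain ⟨v, hv, rfl⟩ := hc
  have hev : fp (((phiV v).1 : ℤ) : ℝ) (((phiV v).2 : ℤ) : ℝ) = toC v := by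
    apply Complex.ext
    · simp only [fp, phiV, toC]
      push_cast
      simp
    · simp only [fp, phiV, toC]
      push_cast
      simp
  have hnv := near_Fi (z := z) (α := ((phiV v).1 : ℤ)) (β := ((phiV v).2 : ℤ)) (x := x)
    (y := h + w) (M := M) hn hσ (by
      obtain ⟨c1, c2, -, -⟩ := hcz
      have c1' : (x : ℝ) + q * η * (M + z.1) ≤ (phiV v).1 := by exact_mod_cast c1
      have c2' : ((phiV v).1 : ℝ) ≤ x + q * η * (M + z.1 + 1) := by exact_mod_cast c2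
      push_cast
      rw [abs_le]; constructor <;> linarith) (by
      obtain ⟨-, -, c1, c2⟩ := hcz
      have c1' : ((h + w : ℤ) : ℝ) + q * η * (M + z.2) ≤ (phiV v).2 := by exact_mod_cast c1
      have c2' : ((phiV v).2 : ℝ) ≤ ((h + w : ℤ) : ℝ) + q * η * (M + z.2 + 1) := by
        exact_mod_cast c2
      push_cast at c1' c2' ⊢
      rw [abs_le]; constructor <;> linarith)
  rw [hev] at hnv
  -- the centre of the first square
  have hsq : ∀ (a b k : ℤ), q * (M + a) ≤ b → b < q * (M + a + 1) →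
      |((k : ℝ) + η * (b + 1 / 2)) - (k + q * η * (M + a + 1 / 2))| ≤ ((q * η : ℤ) : ℝ) / 2 := by
    intro a b k h1 h2
    have h1' : (q : ℝ) * (M + a) ≤ b := by exact_mod_cast h1
    have h2' : (b : ℝ) + 1 ≤ q * (M + a + 1) := by exact_mod_cast h2
    have h3 := mul_le_mul_of_nonneg_left h1' hη0.le
    have h4 := mul_le_mul_of_nonneg_left h2' hη0.le
    push_cast
    rw [abs_le]
    constructor <;> nlinarith
  have hns := near_Fi (z := z) (α := (x : ℝ) + η * (t.1 + 1 / 2))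
    (β := ((h + w : ℤ) : ℝ) + η * (t.2 + 1 / 2)) (x := x) (y := h + w) (M := M) hn hσ
    (hsq z.1 t.1 x t1 t2) (hsq z.2 t.2 (h + w) t3 t4)
  have hwc : cs x (h + w) η t / n ∈ cbox m (Fi n m x (h + w) M q η z) := by
    rw [mem_cbox]
    exact ⟨hns.1.trans (by norm_num), hns.2.trans (by norm_num)⟩
  have hvc : toC v / n ∈ cbox m (Fi n m x (h + w) M q η z) := by
    rw [mem_cbox]
    exact ⟨hnv.1.trans (by norm_num), hnv.2.trans (by norm_num)⟩
  have hwp : ∀ a, cs x (h + w) η t / n ∈ cbox p a →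
      pt p a ∈ cbox m (Fi n m x (h + w) M q η z) := by
    intro a ha
    have hp0 : (0 : ℝ) < 2 ^ p := by positivity
    have hm0 : (0 : ℝ) < 2 ^ m := by positivity
    have key : ∀ (r : ℝ) (i j : ℤ), |r - i / 2 ^ p| ≤ 1 / 2 ^ p → |r * 2 ^ m - j| ≤ 5 / 8 →
        |(i : ℝ) / 2 ^ p * 2 ^ m - j| ≤ 1 := by
      intro r i j h1 h2
      have h3 : |(i : ℝ) / 2 ^ p * 2 ^ m - r * 2 ^ m| ≤ 1 / 4 := by
        have e : (i : ℝ) / 2 ^ p * 2 ^ m - r * 2 ^ m = -(r - i / 2 ^ p) * 2 ^ m := by ring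
        rw [e, abs_mul, abs_neg, abs_of_pos hm0]
        calc |r - i / 2 ^ p| * 2 ^ m ≤ 1 / 2 ^ p * 2 ^ m := mul_le_mul_of_nonneg_right h1 hm0.le
          _ = 2 ^ m / 2 ^ p := by ring
          _ ≤ 1 / 4 := by rw [div_le_div_iff₀ hp0 (by norm_num)]; linarith
      calc |(i : ℝ) / 2 ^ p * 2 ^ m - j|
          = |((i : ℝ) / 2 ^ p * 2 ^ m - r * 2 ^ m) + (r * 2 ^ m - j)| := by congr 1; ring
        _ ≤ 1 / 4 + 5 / 8 := (abs_add_le _ _).trans (add_le_add h3 h2)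
        _ ≤ 1 := by norm_num
    rw [mem_cbox]
    exact ⟨key _ _ _ ha.1 hns.1, key _ _ _ ha.2 hns.2⟩
  have hhit : HitO p m (perK n (cfgE n ω) u : Set ℂ) (Fi n m x (h + w) M q η z) :=
    hitO_of hn hρ hv hvc hwc hwp (ht.noV_cs hw hX (by omega) hf)
      ((ht.chain_cs hw hX (by omega) hch).tail (ht.lk_down hX (by omega) hηw hf' ht0))
      (ht.ray hX (by omega) hηw hf'.1.1)
  unfold GO
  rw [Finset.mem_filter]
  refine ⟨?_, hhit⟩
  -- the index
  have hbox := DictB.mem_Box.1 (DictB.clV_box (DictB.cfgE_subset n ω) hu hv)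
  have hm1 : (1 : ℝ) ≤ 2 ^ m := one_le_pow₀ (by norm_num)
  have key : ∀ (a j : ℤ), 0 ≤ a → a ≤ n → |(a : ℝ) / n * 2 ^ m - j| ≤ 5 / 8 →
      -1 ≤ j ∧ j ≤ 2 ^ m + 1 := by
    intro a j h1 h2 h3
    have h1' : (0 : ℝ) ≤ a := by exact_mod_cast h1
    have h2' : (a : ℝ) ≤ n := by exact_mod_cast h2
    have h4 : 0 ≤ (a : ℝ) / n * 2 ^ m := by positivity
    have h5 : (a : ℝ) / n * 2 ^ m ≤ 2 ^ m := by
      have : (a : ℝ) / n ≤ 1 := by rwa [div_le_one hn0]
      calc (a : ℝ) / n * 2 ^ m ≤ 1 * 2 ^ m := mul_le_mul_of_nonneg_right this (by positivity)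
        _ = 2 ^ m := one_mul _
    rw [abs_le] at h3
    have h6 : (-1 : ℝ) ≤ j := by linarith [h3.1, h3.2]
    have h7 : (j : ℝ) ≤ 2 ^ m + 1 := by linarith [h3.1, h3.2]
    exact ⟨by exact_mod_cast h6, by exact_mod_cast h7⟩
  have hre : (toC v / (n : ℂ)).re = (v.1 : ℝ) / n := by
    rw [Complex.div_natCast_re]; simp [toC]
  have him : (toC v / (n : ℂ)).im = (v.2 : ℝ) / n := by
    rw [Complex.div_natCast_im]; simp [toC]
  rw [hre, him] at hnv
  unfold idx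
  rw [Finset.mem_product, Finset.mem_Icc, Finset.mem_Icc]
  exact ⟨key _ _ hbox.1.1 hbox.1.2 hnv.1, key _ _ hbox.2.1 hbox.2.2 hnv.2⟩

/-- **A success gives a measure of bounded energy on the hit cells.** -/
theorem good_of_succ {cB RB c : ℤ} {A₀ c₀ : ℝ} (hn : 0 < n) (hu : u ∈ Box n)
    (ht : Tg n ω u h w X) (hsub : BR (cB, h) RB ⊆ Sn n) (hX : X.1 < c + 8 * (M * q * η))
    (hM : 1 ≤ M) (hq : 1 ≤ q) (hη : 1 ≤ η) (hηw : η ≤ 4 * w)
    (hρ : 1 + 4 * n / 2 ^ p ≤ (η : ℝ) / 4) (hpm : (4 : ℝ) * 2 ^ m ≤ 2 ^ p)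
    (hσ : 4 * ((q * η : ℤ) : ℝ) * 2 ^ m ≤ n) (hs : 0 < s) (hc₀ : 0 < c₀)
    (hc : c₀ ≤ ((M * q * η : ℤ) : ℝ) / (4 * n))
    (hS : ω ∈ SuccX 0 h w cB RB c M q η s A₀ X) :
    Good s m (A₀ * c₀ ^ (-s)) (GO p m (perK n (cfgE n ω) u : Set ℂ)) := by
  have hn0 : (0 : ℝ) < n := by exact_mod_cast hn
  have hM0 : (0 : ℝ) < M := by exact_mod_cast (by omega : (0 : ℤ) < M)
  have hqη : (0 : ℝ) < ((q * η : ℤ) : ℝ) := by exact_mod_cast mul_pos (by omega) (by omega)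
  obtain ⟨g, g0, g1, g2, g3⟩ := hS
  have hA : 0 ≤ A₀ * (M : ℝ) ^ (-s) := by
    refine le_trans (Finset.sum_nonneg fun i _ => Finset.sum_nonneg fun j _ => ?_) g3
    have hd : (0 : ℝ) < dsup i j := lt_of_lt_of_le one_pos (le_max_right _ _)
    exact mul_nonneg (mul_nonneg (g0 i) (g0 j)) (Real.rpow_nonneg hd.le _)
  have hMs : 0 < (M : ℝ) ^ (-s) := Real.rpow_pos_of_pos hM0 _
  have hA0 : 0 ≤ A₀ := by
    by_contra hcon
    push Not at hcon
    have := mul_neg_of_neg_of_pos hcon hMs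
    linarith
  have hpush := good_push (m := m) (G := GO p m (perK n (cfgE n ω) u : Set ℂ))
    (Φ := Fi n m (c + 8 * (M * q * η)) (h + w) M q η) (s := s)
    (B := (((q * η : ℤ) : ℝ) / (4 * n)) ^ (-s)) (A := A₀ * (M : ℝ) ^ (-s))
    (fun z z' => dsup z z' ^ (-s)) g0 g2 (fun z hz hne => ?_) (by positivity)
    (fun z _ z' _ => kernel_Fi hn (by omega) (by omega) hs hσ) g3
  · refine hpush.mono_right ?_
    have e : (((q * η : ℤ) : ℝ) / (4 * n)) ^ (-s) * (A₀ * (M : ℝ) ^ (-s)) =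
        A₀ * (((M * q * η : ℤ) : ℝ) / (4 * n)) ^ (-s) := by
      have e2 : ((M * q * η : ℤ) : ℝ) / (4 * n) = M * (((q * η : ℤ) : ℝ) / (4 * n)) := by
        push_cast; ring
      rw [e2, Real.mul_rpow hM0.le (by positivity)]
      ring
    rw [e]
    exact mul_le_mul_of_nonneg_left (Real.rpow_le_rpow_of_nonpos hc₀ hc (by linarith)) hA0
  · have hzZ : z ∈ {z | (∃ p : ℤ × ℤ, Conn ω (BR (cB, h) RB) X p ∧
        InCell (c + 8 * (M * q * η)) (h + w) M q η z p) ∧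
        Seen ω 0 (c + 8 * (M * q * η)) (h + w) M q η z} := by
      by_contra hcon
      exact hne (g1 z hcon)
    obtain ⟨⟨v, hv, hvz⟩, hseen⟩ := hzZ
    exact ht.hit hn hu hX hη hηw hρ hpm hσ
      (CL_of_conn ht.mem (hv.mono (Finset.coe_subset.2 hsub))) hvz hseen

end Pool.Agent.PercBc
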