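import Pool.Agent.Lib.MP_6bd702_pr_h60.OutTargets

/-!
# Push-forward of weights of bounded energy
-/

set_option autoImplicit false

namespace Pool.Agent.PercBc

open Finset
open Pool.Agent.PercS5

theorem good_push {ι : Type*} {I : Finset ι} {c : ι → ℝ} {Φ : ι → ℤ × ℤ} {G : Finset (ℤ × ℤ)}
    {s B A : ℝ} {m : ℕ} (k : ι → ι → ℝ) (h0 : ∀ i, 0 ≤ c i) (h1 : ∑ i ∈ I, c i = 1)
    (hG : ∀ i ∈ I, c i ≠ 0 → Φ i ∈ G) (hB : 0 ≤ B)
    (hk : ∀ i ∈ I, ∀ j ∈ I, (max (dist (pt m (Φ i)) (pt m (Φ j))) (1 / 2 ^ m)) ^ (-s) ≤ B * k i j)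
    (hE : ∑ i ∈ I, ∑ j ∈ I, c i * c j * k i j ≤ A) : Good s m (B * A) G := by
  classical
  set I' := I.filter fun i => c i ≠ 0 with hI'
  have hG' : ∀ i ∈ I', Φ i ∈ G := fun i hi => hG i (mem_filter.1 hi).1 (mem_filter.1 hi).2
  have hsum : ∀ f : ι → ℝ, (∀ i ∈ I, c i = 0 → f i = 0) → ∑ i ∈ I', f i = ∑ i ∈ I, f i := by
    intro f hf
    refine sum_subset (filter_subset _ _) fun i hi hi' => hf i hi ?_
    by_contra hc
    exact hi' (mem_filter.2 ⟨hi, hc⟩)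
  refine ⟨fun ζ => ∑ i ∈ I'.filter (fun i => Φ i = ζ), c i, fun ζ => sum_nonneg fun i _ => h0 i,
    ?_, ?_⟩
  · rw [sum_fiberwise_of_maps_to hG', hsum _ (fun i _ h => h), h1]
  · have e1 : ∀ ζ ∈ G, ∀ ζ' ∈ G, (∑ i ∈ I'.filter (fun i => Φ i = ζ), c i) *
        (∑ i ∈ I'.filter (fun i => Φ i = ζ'), c i) *
          (max (dist (pt m ζ) (pt m ζ')) (1 / 2 ^ m)) ^ (-s) =
        ∑ i ∈ I'.filter (fun i => Φ i = ζ), ∑ j ∈ I'.filter (fun i => Φ i = ζ'), c i * c j *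
          (max (dist (pt m (Φ i)) (pt m (Φ j))) (1 / 2 ^ m)) ^ (-s) := by
      intro ζ _ ζ' _
      rw [sum_mul_sum, sum_mul]
      refine sum_congr rfl fun i hi => ?_
      rw [sum_mul]
      refine sum_congr rfl fun j hj => ?_
      rw [(mem_filter.1 hi).2, (mem_filter.1 hj).2]
    rw [sum_congr rfl fun ζ hζ => sum_congr rfl fun ζ' hζ' => e1 ζ hζ ζ' hζ']
    have e2 : ∀ ζ ∈ G, ∑ ζ' ∈ G, ∑ i ∈ I'.filter (fun i => Φ i = ζ),
        ∑ j ∈ I'.filter (fun i => Φ i = ζ'), c i * c j *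
          (max (dist (pt m (Φ i)) (pt m (Φ j))) (1 / 2 ^ m)) ^ (-s) =
        ∑ i ∈ I'.filter (fun i => Φ i = ζ), ∑ j ∈ I', c i * c j *
          (max (dist (pt m (Φ i)) (pt m (Φ j))) (1 / 2 ^ m)) ^ (-s) := by
      intro ζ _
      rw [sum_comm]
      exact sum_congr rfl fun i _ => sum_fiberwise_of_maps_to hG' _
    rw [sum_congr rfl e2, sum_fiberwise_of_maps_to hG']
    calc ∑ i ∈ I', ∑ j ∈ I', c i * c j *
          (max (dist (pt m (Φ i)) (pt m (Φ j))) (1 / 2 ^ m)) ^ (-s)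
        ≤ ∑ i ∈ I', ∑ j ∈ I', B * (c i * c j * k i j) := by
          refine sum_le_sum fun i hi => sum_le_sum fun j hj => ?_
          have h2 := hk i (mem_filter.1 hi).1 j (mem_filter.1 hj).1
          calc _ ≤ c i * c j * (B * k i j) :=
                mul_le_mul_of_nonneg_left h2 (mul_nonneg (h0 i) (h0 j))
            _ = _ := by ring
      _ = B * ∑ i ∈ I', ∑ j ∈ I', c i * c j * k i j := by
          simp_rw [mul_sum]
      _ = B * ∑ i ∈ I, ∑ j ∈ I, c i * c j * k i j := by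
          congr 1
          rw [hsum _ (fun i _ h => by simp [h])]
          refine sum_congr rfl fun i _ => hsum _ (fun j _ h => by simp [h])
      _ ≤ B * A := mul_le_mul_of_nonneg_left hE hB

end Pool.Agent.PercBc
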