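import Pool.Agent.Lib.MP_6bd702_pr_h60.OutTargets
import Pool.Agent.Lib.MP_6bd702_percw.Diam
import Pool.Agent.Lib.MP_6bd702_perc.Dict

/-!
# Paths away from the cluster and chains of dyadic squares
-/

set_option autoImplicit false

namespace Pool.Agent.PercBc

open Filter Topology Relation
open Pool.Agent.Perc Pool.Agent.Perc.PercD Pool.Agent.PercD Pool.Agent.PercS5

variable {T : Finset Edg} {u : ℤ × ℤ} {ρ : ℝ} {w w' z : ℂ} {n p m : ℕ}

/-- No vertex of the cluster of `u` is at distance at most `ρ` from `w` (coordinates turned by 45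
degrees). -/
def NoV (T : Finset Edg) (u : ℤ × ℤ) (ρ : ℝ) (w : ℂ) : Prop :=
  ∀ v ∈ clV T u, ρ < |w.re + w.im - ((v.1 : ℝ) + v.2)| ∨ ρ < |w.re - w.im - ((v.1 : ℝ) - v.2)|

/-- All points of the segment are far from the cluster. -/
def Lk (T : Finset Edg) (u : ℤ × ℤ) (ρ : ℝ) (w w' : ℂ) : Prop := ∀ z ∈ segment ℝ w w', NoV T u ρ z

theorem near_clV (hz : z ∈ clS T u) : ∃ v ∈ clV T u, |z.re - v.1| + |z.im - v.2| ≤ 1 := by
  rw [BoxAux.mem_clS] at hz
  rcases hz with ⟨v, hv, rfl⟩ | ⟨⟨a, b, t⟩, he, hv, hz⟩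
  · exact ⟨v, hv, by simp [toC]⟩
  · refine ⟨_, hv, ?_⟩
    cases t
    · have hz' : z ∈ segment ℝ (toC (a, b)) (toC (a + 1, b)) := by simpa [tl, hd] using hz
      obtain ⟨h1, h2, h3⟩ := DictC.seg_h hz'
      simp only [tl]
      rw [h3, sub_self, abs_zero, add_zero, abs_le]
      constructor <;> linarith
    · have hz' : z ∈ segment ℝ (toC (a, b)) (toC (a, b + 1)) := by simpa [tl, hd] using hz
      obtain ⟨h1, h2, h3⟩ := DictC.seg_v hz'
      simp only [tl]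
      rw [h1, sub_self, abs_zero, zero_add, abs_le]
      constructor <;> linarith

theorem NoV.not_mem {d : ℝ} (hρ : 1 + d ≤ ρ) (h : NoV T u ρ w)
    (hz : |z.re - w.re| + |z.im - w.im| ≤ d) : z ∉ clS T u := by
  intro hcl
  obtain ⟨v, hv, hzv⟩ := near_clV hcl
  have h1 := abs_le.1 (le_refl |z.re - w.re|)
  have h2 := abs_le.1 (le_refl |z.im - w.im|)
  have h3 := abs_le.1 (le_refl |z.re - v.1|)
  have h4 := abs_le.1 (le_refl |z.im - v.2|)
  rcases h v hv with hh | hh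
  · rw [lt_abs] at hh
    rcases hh with hh | hh <;> linarith [h1.1, h1.2, h2.1, h2.2, h3.1, h3.2, h4.1, h4.2]
  · rw [lt_abs] at hh
    rcases hh with hh | hh <;> linarith [h1.1, h1.2, h2.1, h2.2, h3.1, h3.2, h4.1, h4.2]

theorem NoV.not_mem' (hρ : 1 ≤ ρ) (h : NoV T u ρ w) : w ∉ clS T u :=
  h.not_mem (d := 0) (by linarith) (by simp)

theorem NoV.freeO (hn : 0 < n) (hρ : 1 + 4 * n / 2 ^ p ≤ ρ) (h : NoV T u ρ w) {a : ℤ × ℤ}
    (ha : w / n ∈ cbox p a) : FreeO p (perK n T u : Set ℂ) a := by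
  refine Set.disjoint_left.2 ?_
  rintro z hz ⟨x, hx, rfl⟩
  have hn0 : (0 : ℝ) < n := by exact_mod_cast hn
  have hp : (0 : ℝ) < 2 ^ p := by positivity
  refine h.not_mem (d := 4 * n / 2 ^ p) hρ ?_ (frontier_outU_sub T u hx)
  have h1 : |(x / (n : ℂ)).re - a.1 / 2 ^ p| < 1 / 2 ^ p := hz.1
  have h2 : |(x / (n : ℂ)).im - a.2 / 2 ^ p| < 1 / 2 ^ p := hz.2
  have h3 : |(w / (n : ℂ)).re - a.1 / 2 ^ p| ≤ 1 / 2 ^ p := ha.1
  have h4 : |(w / (n : ℂ)).im - a.2 / 2 ^ p| ≤ 1 / 2 ^ p := ha.2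
  rw [Complex.div_natCast_re] at h1 h3
  rw [Complex.div_natCast_im] at h2 h4
  have key : ∀ s t c : ℝ, |s / n - c| < 1 / 2 ^ p → |t / n - c| ≤ 1 / 2 ^ p →
      |s - t| ≤ 2 * n / 2 ^ p := by
    intro s t c h5 h6
    have h7 : |s / n - t / n| ≤ 2 / 2 ^ p := by
      have e : s / n - t / n = (s / n - c) - (t / n - c) := by ring
      rw [e]
      refine (abs_sub _ _).trans ?_
      have e2 : (2 : ℝ) / 2 ^ p = 1 / 2 ^ p + 1 / 2 ^ p := by ring
      linarith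
    have e : s - t = n * (s / n - t / n) := by field_simp
    rw [e, abs_mul, abs_of_pos hn0]
    calc (n : ℝ) * |s / n - t / n| ≤ n * (2 / 2 ^ p) := mul_le_mul_of_nonneg_left h7 hn0.le
      _ = 2 * n / 2 ^ p := by ring
  have h5 := key _ _ _ h1 h3
  have h6 := key _ _ _ h2 h4
  have e : (4 : ℝ) * n / 2 ^ p = 2 * n / 2 ^ p + 2 * n / 2 ^ p := by ring
  linarith

theorem Lk.chain (hn : 0 < n) (hρ : 1 + 4 * n / 2 ^ p ≤ ρ) (h : Lk T u ρ w w') {a b : ℤ × ℤ}
    (ha : w / n ∈ cbox p a) (hb : w' / n ∈ cbox p b) :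
    ReflTransGen (Stp (FreeO p (perK n T u : Set ℂ))) a b := by
  refine conn_of_preconnected (S := (fun z : ℂ => z / n) '' segment ℝ w w') ?_ ?_
    ⟨w, left_mem_segment ℝ _ _, rfl⟩ ⟨w', right_mem_segment ℝ _ _, rfl⟩ ha hb
  · exact (convex_segment w w').isPreconnected.image _ (by fun_prop)
  · rintro _ ⟨z, hz, rfl⟩ a ha
    exact (h z hz).freeO hn hρ ha

theorem chain_rtg (hn : 0 < n) (hρ : 1 + 4 * n / 2 ^ p ≤ ρ) (hw : NoV T u ρ w)
    (h : ReflTransGen (Lk T u ρ) w w') {a b : ℤ × ℤ} (ha : w / n ∈ cbox p a)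
    (hb : w' / n ∈ cbox p b) : ReflTransGen (Stp (FreeO p (perK n T u : Set ℂ))) a b := by
  induction h generalizing b with
  | refl => exact near_conn (fun a ha => hw.freeO hn hρ ha) ha hb
  | @tail c d _ hs ih =>
    obtain ⟨e, he⟩ := exists_cbox p (c / n)
    exact (ih he).trans (hs.chain hn hρ he hb)

theorem Lk.out (hρ : 1 ≤ ρ) (h : Lk T u ρ w w') : w ∈ outU T u ↔ w' ∈ outU T u :=
  mem_outU_iff (convex_segment w w').isPreconnected (fun z hz => (h z hz).not_mem' hρ)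
    (left_mem_segment ℝ _ _) (right_mem_segment ℝ _ _)

theorem out_rtg (hρ : 1 ≤ ρ) (h : ReflTransGen (Lk T u ρ) w w') :
    w ∈ outU T u ↔ w' ∈ outU T u := by
  induction h with
  | refl => exact Iff.rfl
  | tail _ hs ih => exact ih.trans (hs.out hρ)

/-- The point at distance `t` in the direction of the ray. -/
noncomputable def rp (w : ℂ) (t : ℝ) : ℂ := ⟨w.re + t, w.im + t⟩

theorem out_ray (hρ : 1 ≤ ρ) (h : ∀ t : ℝ, 0 ≤ t → NoV T u ρ (rp w t)) : w ∈ outU T u := by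
  set S : Set ℂ := (fun t : ℝ => rp w t) '' Set.Ici 0 with hS
  have hcont : Continuous fun t : ℝ => rp w t := by
    have e : (fun t : ℝ => rp w t) = fun t : ℝ => w + (t : ℂ) + (t : ℂ) * Complex.I := by
      funext t
      apply Complex.ext <;> simp [rp]
    rw [e]
    fun_prop
  have hpre : IsPreconnected S := (convex_Ici (0 : ℝ)).isPreconnected.image _ hcont.continuousOn
  have hsub : S ⊆ (clS T u)ᶜ := by
    rintro _ ⟨t, ht, rfl⟩
    exact (h t ht).not_mem' hρ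
  have hw : w ∈ S := ⟨0, Set.mem_Ici.2 le_rfl, by simp [rp]⟩
  intro hb
  have h1 : S ⊆ connectedComponentIn (clS T u)ᶜ w := hpre.subset_connectedComponentIn hw hsub
  obtain ⟨C, hC⟩ := (hb.subset h1).subset_closedBall (0 : ℂ)
  have h2 : rp w (|w.re| + |C| + 1) ∈ S := ⟨_, Set.mem_Ici.2 (by positivity), rfl⟩
  have h3 := hC h2
  rw [mem_closedBall_zero_iff] at h3
  have h4 := Complex.re_le_norm (rp w (|w.re| + |C| + 1))
  have h5 := neg_abs_le w.re
  have h6 := le_abs_self C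
  simp only [rp] at h4 h3
  linarith

theorem far_ray (hn : 0 < n) (hρ : 1 + 4 * n / 2 ^ p ≤ ρ)
    (h : ∀ t : ℝ, 0 ≤ t → NoV T u ρ (rp w t)) :
    ∃ b, Far p b ∧ ∀ a, w / n ∈ cbox p a →
      ReflTransGen (Stp (FreeO p (perK n T u : Set ℂ))) a b := by
  have hn0 : (0 : ℝ) < n := by exact_mod_cast hn
  set t₀ : ℝ := |w.re| + 4 * n with ht₀
  have ht0 : 0 ≤ t₀ := by positivity
  have hL : Lk T u ρ w (rp w t₀) := by
    intro z hz
    obtain ⟨s, t, hs, ht, hst, rfl⟩ := hz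
    have e : s • w + t • rp w t₀ = rp w (t * t₀) := by
      have hs' : s = 1 - t := by linarith
      subst hs'
      apply Complex.ext
      · simp [rp]; ring
      · simp [rp]; ring
    rw [e]
    exact h _ (by positivity)
  obtain ⟨b, hb⟩ := exists_cbox p (rp w t₀ / n)
  refine ⟨b, ?_, fun a ha => hL.chain hn hρ ha hb⟩
  have hp : (1 : ℝ) ≤ 2 ^ p := one_le_pow₀ (by norm_num)
  have h1 := (mem_cbox.1 hb).1
  rw [Complex.div_natCast_re] at h1
  have h2 : (4 : ℝ) ≤ (rp w t₀).re / n := by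
    rw [le_div_iff₀ hn0]
    simp only [rp]
    linarith [neg_abs_le w.re]
  have h3 : (4 : ℝ) * 2 ^ p ≤ (rp w t₀).re / n * 2 ^ p := mul_le_mul_of_nonneg_right h2 (by positivity)
  have h4 := (abs_le.1 h1).2
  left
  have h5 : (2 * 2 ^ p : ℝ) < b.1 := by linarith
  have h6 : (2 * 2 ^ p : ℤ) < b.1 := by exact_mod_cast h5
  exact lt_of_lt_of_le h6 (le_abs_self _)

theorem meets_frontier {S U : Set ℂ} (hS : IsPreconnected S) (hU : IsOpen U)
    (h1 : (S ∩ U).Nonempty) (h2 : (S ∩ Uᶜ).Nonempty) : (S ∩ frontier U).Nonempty := by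
  by_contra hcon
  rw [Set.not_nonempty_iff_eq_empty] at hcon
  have hfr : ∀ z ∈ S, z ∉ frontier U := fun z hz hf => by
    have : z ∈ S ∩ frontier U := ⟨hz, hf⟩
    rw [hcon] at this
    exact this
  have hcov : S ⊆ U ∪ (closure U)ᶜ := by
    intro z hz
    by_cases hzU : z ∈ closure U
    · left
      by_contra hzn
      exact hfr z hz ⟨hzU, by rwa [hU.interior_eq]⟩
    · exact Or.inr hzU
  obtain ⟨z, hz, hzn⟩ := h2
  obtain ⟨x, -, hx1, hx2⟩ := hS U (closure U)ᶜ hU isClosed_closure.isOpen_compl hcov h1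
    ⟨z, hz, fun hzc => hfr z hz ⟨hzc, by rwa [hU.interior_eq]⟩⟩
  exact hx2 (subset_closure hx1)

/-- A cell which contains a vertex of the cluster and the start of a free path to infinity. -/
theorem hitO_of (hn : 0 < n) (hρ : 1 + 4 * n / 2 ^ p ≤ ρ) {ζ v : ℤ × ℤ} (hv : v ∈ clV T u)
    (hvc : toC v / n ∈ cbox m ζ) (hwc : w / n ∈ cbox m ζ)
    (hwp : ∀ a, w / n ∈ cbox p a → pt p a ∈ cbox m ζ) (hNo : NoV T u ρ w)
    (hch : ReflTransGen (Lk T u ρ) w w') (hray : ∀ t : ℝ, 0 ≤ t → NoV T u ρ (rp w' t)) :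
    HitO p m (perK n T u : Set ℂ) ζ := by
  have hn0 : (0 : ℝ) < n := by exact_mod_cast hn
  have hnc : (n : ℂ) ≠ 0 := by exact_mod_cast hn.ne'
  have hρ1 : 1 ≤ ρ := le_trans (by
    have : (0 : ℝ) ≤ 4 * n / 2 ^ p := by positivity
    linarith) hρ
  have hout : w ∈ outU T u := (out_rtg hρ1 hch).2 (out_ray hρ1 hray)
  constructor
  · -- a point of the frontier
    obtain ⟨x, hx, hxf⟩ := meets_frontier (S := segment ℝ w (toC v)) (U := outU T u)
      (convex_segment _ _).isPreconnected (isOpen_outU T u) ⟨w, left_mem_segment ℝ _ _, hout⟩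
      ⟨toC v, right_mem_segment ℝ _ _, not_mem_outU (toC_mem_clS hv)⟩
    refine ⟨x / n, ⟨x, hxf, rfl⟩, ?_⟩
    obtain ⟨s, t, hs, ht, hst, rfl⟩ := hx
    have e : (s • w + t • toC v) / (n : ℂ) = s • (w / n) + t • (toC v / n) := by
      simp only [Complex.real_smul]
      field_simp
    rw [e]
    exact convex_cbox m ζ hwc hvc hs ht hst
  · obtain ⟨a, ha⟩ := exists_cbox p (w / n)
    obtain ⟨b', hb'⟩ := exists_cbox p (w' / n)
    obtain ⟨b, hb, hbf⟩ := far_ray hn hρ hray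
    exact ⟨a, b, hwp a ha, hb, hNo.freeO hn hρ ha,
      (chain_rtg hn hρ hNo hch ha hb').trans (hbf _ hb')⟩

end Pool.Agent.PercBc
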