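import Pool.Agent.Lib.MP_6bd702_perc6.Defs
import Pool.Agent.Lib.MP_6bd702_perc6.BcDict
import Pool.Agent.Lib.MP_6bd702_perc6.BcTop
import Pool.Agent.Lib.MP_6bd702_perc6.BcPush

/-!
# A success of the cluster gives a measure on the cells which see infinity
-/

set_option autoImplicit false

namespace Pool.Agent.PercBc

open Filter Topology Relation
open Pool.Agent.Perc Pool.Agent.Perc.PercD Pool.Agent.PercD Pool.Agent.PercS5 Pool.Agent.Perc6
open Pool.Agent.PercX60 (Sn)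

/-- The point of the plane with the turned coordinates `α`, `β`. -/
noncomputable def fp (α β : ℝ) : ℂ := ⟨(α + β) / 2, (α - β) / 2⟩

variable {n p m : ℕ} {ω : Cfg} {u X : ℤ × ℤ} {ρ α β α' β' : ℝ} {h w x y s η M q : ℤ}

theorem noV_fp : NoV (cfgE n ω) u ρ (fp α β) ↔
    ∀ c ∈ CL n ω u, ρ < |α - c.1| ∨ ρ < |β - c.2| := by
  have e1 : (fp α β).re + (fp α β).im = α := by simp only [fp]; ring
  have e2 : (fp α β).re - (fp α β).im = β := by simp only [fp]; ring
  constructor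
  · rintro hh _ ⟨v, hv, rfl⟩
    have := hh v hv
    rw [e1, e2] at this
    simpa [phiV] using this
  · intro hh v hv
    have := hh _ ⟨v, hv, rfl⟩
    rw [e1, e2]
    simpa [phiV] using this

theorem seg_fp {z : ℂ} (hz : z ∈ segment ℝ (fp α β) (fp α' β')) :
    ∃ t : ℝ, 0 ≤ t ∧ t ≤ 1 ∧ z = fp (α + t * (α' - α)) (β + t * (β' - β)) := by
  obtain ⟨a, b, ha, hb, hab, rfl⟩ := hz
  refine ⟨b, hb, by linarith, ?_⟩
  have ha' : a = 1 - b := by linarith
  subst ha'
  apply Complex.ext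
  · simp only [fp, Complex.add_re, Complex.real_smul, Complex.mul_re, Complex.ofReal_re,
      Complex.ofReal_im]
    ring
  · simp only [fp, Complex.add_im, Complex.real_smul, Complex.mul_im, Complex.ofReal_re,
      Complex.ofReal_im]
    ring

theorem rp_fp (t : ℝ) : rp (fp α β) t = fp (α + 2 * t) β := by
  apply Complex.ext
  · simp only [rp, fp]; ring
  · simp only [rp, fp]; ring

/-- The rightmost vertex of the cluster in the band. -/
structure Tg (n : ℕ) (ω : Cfg) (u : ℤ × ℤ) (h w : ℤ) (X : ℤ × ℤ) : Prop where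
  mem : X ∈ CL n ω u
  max : ∀ c ∈ CL n ω u, h - w ≤ c.2 → c.2 ≤ h + w → c.1 ≤ X.1

/-- No vertex of the cluster in a free square. -/
theorem Tg.free (ht : Tg n ω u h w X) (hw : 0 ≤ w) (hX : X.1 < x) {t : ℤ × ℤ} (hη : 0 ≤ η)
    (hf : FreeSq ω 0 x (h + w) s η t) {c : ℤ × ℤ} (hc : c ∈ CL n ω u)
    (h1 : x + η * t.1 ≤ c.1) (h2 : c.1 ≤ x + η * (t.1 + 1)) (h3 : h + w + η * t.2 ≤ c.2)
    (h4 : c.2 ≤ h + w + η * (t.2 + 1)) : False := by
  obtain ⟨⟨a1, a2, a3, a4⟩, hr⟩ := hf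
  have b1 : 0 ≤ η * t.1 := mul_nonneg hη a1
  have b2 : 0 ≤ η * t.2 := mul_nonneg hη a3
  refine hr c h1 h2 h3 h4 (by have := CL_par hc; unfold par; omega) ?_
  obtain ⟨z, hz, hzb, z1, z2, z3, z4⟩ := (CL_conn hc ht.mem).toBd (x₀ := x) (x₁ := x + s)
    (y₀ := h + w) (y₁ := h + w + s) (by omega) (by omega)
  refine ⟨z, hz.mono Set.inter_subset_right, ?_⟩
  have hzC : z ∈ CL n ω u := CL_of_conn hc (hz.mono Set.inter_subset_left)
  by_contra hcon
  have := ht.max z hzC (by omega) (by omega)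
  omega

/-- The centre of a small square. -/
noncomputable def cs (x y η : ℤ) (t : ℤ × ℤ) : ℂ :=
  fp (x + η * (t.1 + 1 / 2)) (y + η * (t.2 + 1 / 2))

theorem Tg.noV_cs (ht : Tg n ω u h w X) (hw : 0 ≤ w) (hX : X.1 < x) {t : ℤ × ℤ} (hη : 0 ≤ η)
    (hf : FreeSq ω 0 x (h + w) s η t) :
    NoV (cfgE n ω) u (η / 4) (cs x (h + w) η t) := by
  rw [cs, noV_fp]
  intro c hc
  by_contra hcon
  push Not at hcon
  obtain ⟨h1, h2⟩ := hcon
  rw [abs_le] at h1 h2
  have hη0 : (0 : ℝ) ≤ η := by exact_mod_cast hη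
  refine ht.free hw hX hη hf hc ?_ ?_ ?_ ?_
  · have : (x : ℝ) + η * t.1 ≤ c.1 := by linarith [h1.1, h1.2]
    exact_mod_cast this
  · have : (c.1 : ℝ) ≤ x + η * (t.1 + 1) := by linarith [h1.1, h1.2]
    exact_mod_cast this
  · have : ((h + w : ℤ) : ℝ) + η * t.2 ≤ c.2 := by linarith [h2.1, h2.2]
    exact_mod_cast this
  · have : (c.2 : ℝ) ≤ ((h + w : ℤ) : ℝ) + η * (t.2 + 1) := by linarith [h2.1, h2.2]
    exact_mod_cast this

theorem Tg.lk_cs (ht : Tg n ω u h w X) (hw : 0 ≤ w) (hX : X.1 < x) {t t' : ℤ × ℤ} (hη : 0 ≤ η)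
    (hst : SqStep ω 0 x (h + w) s η t t') :
    Lk (cfgE n ω) u (η / 4) (cs x (h + w) η t) (cs x (h + w) η t') := by
  obtain ⟨hadj, hf, hf'⟩ := hst
  have hη0 : (0 : ℝ) ≤ η := by exact_mod_cast hη
  intro z hz
  obtain ⟨b, hb0, hb1, rfl⟩ := seg_fp hz
  rw [noV_fp]
  intro c hc
  by_contra hcon
  push Not at hcon
  obtain ⟨h1, h2⟩ := hcon
  rw [abs_le] at h1 h2
  have hbη : 0 ≤ b * η := mul_nonneg hb0 hη0
  have hbη' : b * η ≤ η := mul_le_of_le_one_left hη0 hb1
  rcases hadj with ⟨he, ha⟩ | ⟨he, ha⟩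
  · have he' : (t'.1 : ℝ) = t.1 := by exact_mod_cast he.symm
    rw [he'] at h1
    have c1 : x + η * t.1 ≤ c.1 := by
      have : (x : ℝ) + η * t.1 ≤ c.1 := by linarith [h1.1, h1.2]
      exact_mod_cast this
    have c2 : c.1 ≤ x + η * (t.1 + 1) := by
      have : (c.1 : ℝ) ≤ x + η * (t.1 + 1) := by linarith [h1.1, h1.2]
      exact_mod_cast this
    have ha' : t'.2 = t.2 + 1 ∨ t'.2 = t.2 - 1 := by
      rcases abs_cases (t.2 - t'.2) with h0 | h0 <;> omega
    rcases ha' with ha' | ha'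
    · have e : (t'.2 : ℝ) = t.2 + 1 := by exact_mod_cast ha'
      rw [e] at h2
      have d1 : h + w + η * t.2 ≤ c.2 := by
        have : ((h + w : ℤ) : ℝ) + η * t.2 ≤ c.2 := by linarith [h2.1, h2.2]
        exact_mod_cast this
      have d2 : c.2 ≤ h + w + η * (t'.2 + 1) := by
        have : (c.2 : ℝ) ≤ ((h + w : ℤ) : ℝ) + η * (t'.2 + 1) := by rw [e]; linarith [h2.1, h2.2]
        exact_mod_cast this
      by_cases hd : c.2 ≤ h + w + η * (t.2 + 1)
      · exact ht.free hw hX hη hf hc c1 c2 d1 hd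
      · refine ht.free hw hX hη hf' hc ?_ ?_ ?_ d2
        · rw [← he]; exact c1
        · rw [← he]; exact c2
        · rw [ha']; omega
    · have e : (t'.2 : ℝ) = t.2 - 1 := by exact_mod_cast ha'
      rw [e] at h2
      have d1 : h + w + η * t'.2 ≤ c.2 := by
        have : ((h + w : ℤ) : ℝ) + η * t'.2 ≤ c.2 := by rw [e]; linarith [h2.1, h2.2]
        exact_mod_cast this
      have d2 : c.2 ≤ h + w + η * (t.2 + 1) := by
        have : (c.2 : ℝ) ≤ ((h + w : ℤ) : ℝ) + η * (t.2 + 1) := by linarith [h2.1, h2.2]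
        exact_mod_cast this
      by_cases hd : h + w + η * t.2 ≤ c.2
      · exact ht.free hw hX hη hf hc c1 c2 hd d2
      · refine ht.free hw hX hη hf' hc ?_ ?_ d1 ?_
        · rw [← he]; exact c1
        · rw [← he]; exact c2
        · rw [ha']
          have : t.2 - 1 + 1 = t.2 := by ring
          rw [this]; omega
  · have he' : (t'.2 : ℝ) = t.2 := by exact_mod_cast he.symm
    rw [he'] at h2
    have c1 : h + w + η * t.2 ≤ c.2 := by
      have : ((h + w : ℤ) : ℝ) + η * t.2 ≤ c.2 := by linarith [h2.1, h2.2]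
      exact_mod_cast this
    have c2 : c.2 ≤ h + w + η * (t.2 + 1) := by
      have : (c.2 : ℝ) ≤ ((h + w : ℤ) : ℝ) + η * (t.2 + 1) := by linarith [h2.1, h2.2]
      exact_mod_cast this
    have ha' : t'.1 = t.1 + 1 ∨ t'.1 = t.1 - 1 := by
      rcases abs_cases (t.1 - t'.1) with h0 | h0 <;> omega
    rcases ha' with ha' | ha'
    · have e : (t'.1 : ℝ) = t.1 + 1 := by exact_mod_cast ha'
      rw [e] at h1
      have d1 : x + η * t.1 ≤ c.1 := by
        have : (x : ℝ) + η * t.1 ≤ c.1 := by linarith [h1.1, h1.2]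
        exact_mod_cast this
      have d2 : c.1 ≤ x + η * (t'.1 + 1) := by
        have : (c.1 : ℝ) ≤ x + η * (t'.1 + 1) := by rw [e]; linarith [h1.1, h1.2]
        exact_mod_cast this
      by_cases hd : c.1 ≤ x + η * (t.1 + 1)
      · exact ht.free hw hX hη hf hc d1 hd c1 c2
      · refine ht.free hw hX hη hf' hc ?_ d2 ?_ ?_
        · rw [ha']; omega
        · rw [← he]; exact c1
        · rw [← he]; exact c2
    · have e : (t'.1 : ℝ) = t.1 - 1 := by exact_mod_cast ha'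
      rw [e] at h1
      have d1 : x + η * t'.1 ≤ c.1 := by
        have : (x : ℝ) + η * t'.1 ≤ c.1 := by rw [e]; linarith [h1.1, h1.2]
        exact_mod_cast this
      have d2 : c.1 ≤ x + η * (t.1 + 1) := by
        have : (c.1 : ℝ) ≤ x + η * (t.1 + 1) := by linarith [h1.1, h1.2]
        exact_mod_cast this
      by_cases hd : x + η * t.1 ≤ c.1
      · exact ht.free hw hX hη hf hc hd d2 c1 c2
      · refine ht.free hw hX hη hf' hc d1 ?_ ?_ ?_
        · rw [ha']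
          have : t.1 - 1 + 1 = t.1 := by ring
          rw [this]; omega
        · rw [← he]; exact c1
        · rw [← he]; exact c2

theorem Tg.chain_cs (ht : Tg n ω u h w X) (hw : 0 ≤ w) (hX : X.1 < x) {t t' : ℤ × ℤ} (hη : 0 ≤ η)
    (hst : ReflTransGen (SqStep ω 0 x (h + w) s η) t t') :
    ReflTransGen (Lk (cfgE n ω) u (η / 4)) (cs x (h + w) η t) (cs x (h + w) η t') := by
  induction hst with
  | refl => exact .refl
  | tail _ hs ih => exact ih.tail (ht.lk_cs hw hX hη hs)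

/-- From a free square at the lower side of the window into the band. -/
theorem Tg.lk_down (ht : Tg n ω u h w X) (hX : X.1 < x) {t : ℤ × ℤ} (hη : 0 ≤ η)
    (hηw : η ≤ 4 * w) (hf : FreeSq ω 0 x (h + w) s η t) (ht0 : t.2 = 0) :
    Lk (cfgE n ω) u (η / 4) (cs x (h + w) η t) (fp (x + η * (t.1 + 1 / 2)) h) := by
  have hη0 : (0 : ℝ) ≤ η := by exact_mod_cast hη
  have hηw' : (η : ℝ) ≤ 4 * w := by exact_mod_cast hηw
  have hw : 0 ≤ w := by omega
  have hw0 : (0 : ℝ) ≤ w := by exact_mod_cast hw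
  intro z hz
  obtain ⟨b, hb0, hb1, rfl⟩ := seg_fp hz
  rw [noV_fp]
  intro c hc
  by_contra hcon
  push Not at hcon
  obtain ⟨h1, h2⟩ := hcon
  rw [abs_le] at h1 h2
  rw [ht0] at h2
  push_cast at h2
  have hbη : 0 ≤ b * η := mul_nonneg hb0 hη0
  have hbη' : b * η ≤ η := mul_le_of_le_one_left hη0 hb1
  have hbw : 0 ≤ b * w := mul_nonneg hb0 hw0
  have hbw' : b * w ≤ w := mul_le_of_le_one_left hw0 hb1
  have c1 : x + η * t.1 ≤ c.1 := by
    have : (x : ℝ) + η * t.1 ≤ c.1 := by linarith [h1.1, h1.2]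
    exact_mod_cast this
  have c2 : c.1 ≤ x + η * (t.1 + 1) := by
    have : (c.1 : ℝ) ≤ x + η * (t.1 + 1) := by linarith [h1.1, h1.2]
    exact_mod_cast this
  have c0 : 0 ≤ η * t.1 := mul_nonneg hη hf.1.1
  have d1 : h - w ≤ c.2 := by
    have : (h : ℝ) - w ≤ c.2 := by nlinarith [h2.1, h2.2]
    exact_mod_cast this
  by_cases hd : c.2 ≤ h + w
  · have := ht.max c hc d1 hd
    omega
  · refine ht.free hw hX hη hf hc c1 c2 ?_ ?_
    · rw [ht0]; omega
    · rw [ht0]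
      have : (c.2 : ℝ) ≤ h + w + η := by nlinarith [h2.1, h2.2]
      have : c.2 ≤ h + w + η := by exact_mod_cast this
      omega

/-- Along the band to infinity. -/
theorem Tg.ray (ht : Tg n ω u h w X) (hX : X.1 < x) {t : ℤ × ℤ} (hη : 0 < η)
    (hηw : η ≤ 4 * w) (hf : 0 ≤ t.1) (b : ℝ) (hb : 0 ≤ b) :
    NoV (cfgE n ω) u (η / 4) (rp (fp (x + η * (t.1 + 1 / 2)) h) b) := by
  have hη0 : (0 : ℝ) < η := by exact_mod_cast hη
  have hηw' : (η : ℝ) ≤ 4 * w := by exact_mod_cast hηw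
  rw [rp_fp, noV_fp]
  intro c hc
  by_contra hcon
  push Not at hcon
  obtain ⟨h1, h2⟩ := hcon
  rw [abs_le] at h1 h2
  have d1 : h - w ≤ c.2 := by
    have : (h : ℝ) - w ≤ c.2 := by linarith [h2.1, h2.2]
    exact_mod_cast this
  have d2 : c.2 ≤ h + w := by
    have : (c.2 : ℝ) ≤ h + w := by linarith [h2.1, h2.2]
    exact_mod_cast this
  have hm := ht.max c hc d1 d2
  have hm' : (c.1 : ℝ) ≤ X.1 := by exact_mod_cast hm
  have hX' : (X.1 : ℝ) < x := by exact_mod_cast hX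
  have c0 : 0 ≤ (η : ℝ) * t.1 := mul_nonneg hη0.le (by exact_mod_cast hf)
  linarith [h1.1, h1.2]

end Pool.Agent.PercBc
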