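import Pool.Agent.Lib.MP_6bd702_perc6.Cyc
import Pool.Agent.Lib.MP_6bd702_perc_h60.BK
import Pool.Agent.Lib.MP_6bd702_perc6_h22.CountZ

/-!
# Counting tags and pairs of strands
-/

set_option autoImplicit false

namespace Pool.Agent.Perc6

open Finset Pool.Agent.Perc Pool.Agent.PercD Pool.Agent.PercL

namespace N1Aux

open Pool.Agent.PercN

variable {ω : Cfg} {v : ℤ × ℤ} {r R : ℤ} {e a b : UE}

/-- First exit from a box, in a general region. -/
theorem first_exitF {F : Set (ℤ × ℤ)} (he : InE v r e) (ha : a ∈ MM ω F e) :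
    a ∈ MM ω (F ∩ BR v r) e ∨ ∃ b ∈ MM ω (F ∩ BR v r) e, BdR v r b := by
  have key : ∀ a ∈ MM ω F e, (a ∈ MM ω (F ∩ BR v r) e ∧ InE v r a) ∨
      ∃ b ∈ MM ω (F ∩ BR v r) e, BdR v r b := by
    intro a ha
    induction ha with
    | refl => exact Or.inl ⟨mem_MM_self, he⟩
    | tail _ hs ih =>
      rename_i b₁ b₂ _
      obtain ⟨f, hf, hm⟩ := hs
      rcases ih with ⟨ih, hi⟩ | ih
      · by_cases hfR : f ∈ (BR v r : Set (ℤ × ℤ))
        · exact Or.inl ⟨MM_step ⟨hf, hfR⟩ hm ih, inE_of_side hfR hm.right⟩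
        · exact Or.inr ⟨_, ih, bd_of_side hi hm.left hfR⟩
      · exact Or.inr ih
  rcases key a ha with h | h
  · exact Or.inl h.1
  · exact Or.inr h

/-- The event that the strand of the outer unit edge `e` crosses the annulus inwards. -/
def Cr (v : ℤ × ℤ) (r R : ℤ) (e : UE) : Set Cfg := {ω | ∃ a ∈ MM ω (An v r R) e, BdR v r a}

theorem bdR_ne {r R : ℤ} (h : r < R) (ha : BdR v r a) (hb : BdR v R b) : a ≠ b := by
  rintro rfl
  unfold BdR BdE at ha hb
  omega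

open Classical in
/-- The number of the strands which cross the annulus inwards. -/
theorem card_cr_le (hr : 0 < r) (hR : 2 * r ≤ R) (E : Finset UE) (hE : ∀ e ∈ E, BdR v R e) (ω : Cfg) :
    (E.filter fun e => ω ∈ Cr v r R e).card ≤ NC v r (2 * r) ω := by
  have H : ∀ e ∈ E.filter fun e => ω ∈ Cr v r R e, ∃ a ∈ MM ω (An v r R) e, BdR v r a :=
    fun e he => (mem_filter.1 he).2
  choose! t ht1 ht2 using H
  unfold PercN.NC
  refine Finset.card_le_card_of_injOn t (fun e he => ?_) ?_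
  · have he' := mem_coe.1 he
    refine mem_coe.2 ((mem_NP hr.le).2 ⟨ht2 e he', ?_⟩)
    have hin : InE v (2 * r) (t e) := (Sub.refl' (by omega)).inE ((ht2 e he').inE hr.le)
    have h1 := first_exitF hin (MM_symm (ht1 e he'))
    have hsub : ((An v r R : Set (ℤ × ℤ)) ∩ BR v (2 * r)) ⊆ (An v r (2 * r) : Set (ℤ × ℤ)) := by
      rintro f ⟨hf, hf'⟩
      rw [mem_coe, mem_An] at hf ⊢
      exact ⟨hf', hf.2⟩
    rcases h1 with h1 | ⟨b, h1, h2⟩
    · refine ⟨e, MM_mono hsub h1, ?_, trivial⟩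
      have hin' : InE v (2 * r) e := by
        have h2 := MM_mono (F' := (BR v (2 * r) : Set (ℤ × ℤ))) Set.inter_subset_right h1
        exact MM_inE hin h2
      exact bdR_of_sub (Sub.refl' hR) hin' (hE e (mem_filter.1 he').1)
    · exact ⟨b, MM_mono hsub h1, h2, trivial⟩
  · intro e he e' he' hee
    have h1 := mem_coe.1 he
    have h2 := mem_coe.1 he'
    have b1 := hE e (mem_filter.1 h1).1
    have b2 := hE e' (mem_filter.1 h2).1
    refine other_unique (ω := ω) (bdF_in (R := R) (ht2 e h1)) (MM_symm (ht1 e h1))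
      (by rw [hee]; exact MM_symm (ht1 e' h2)) (bdF_out b1) (bdF_out b2) ?_ ?_
    · exact (bdR_ne (by omega) (ht2 e h1) b1).symm
    · exact (bdR_ne (by omega) (ht2 e h1) b2).symm

/-- The expected number of pairs. -/
theorem sum_pairs {ι : Type} (W : Finset (ℤ × ℤ)) (E : Finset ι) (A : ι → Set Cfg) (N : Cfg → ℕ)
    {C : ℝ} (h : ∀ ω : Cfg, ∀ S : Finset ι, S ⊆ E → (∀ i ∈ S, ω ∈ A i) → S.card ≤ N ω)
    (hN : (∑ T ∈ W.powerset, (N (cfg T) : ℝ) ^ 2) / 2 ^ W.card ≤ C) :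
    ∑ e ∈ E, ∑ e' ∈ E, pr W (A e ∩ A e') ≤ C := by
  classical
  refine le_trans ?_ hN
  have e1 : ∑ e ∈ E, ∑ e' ∈ E, pr W (A e ∩ A e') =
      (∑ T ∈ W.powerset, (((E.filter fun i => cfg T ∈ A i).card : ℝ)) ^ 2) / 2 ^ W.card := by
    have e2 : ∀ T : Finset (ℤ × ℤ), (((E.filter fun i => cfg T ∈ A i).card : ℝ)) ^ 2 =
        ∑ e ∈ E, ∑ e' ∈ E, if cfg T ∈ A e ∩ A e' then (1 : ℝ) else 0 := by
      intro T
      rw [Finset.card_filter]
      push_cast
      rw [sq, Finset.sum_mul_sum]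
      refine Finset.sum_congr rfl fun i _ => Finset.sum_congr rfl fun j _ => ?_
      by_cases h1 : cfg T ∈ A i <;> by_cases h2 : cfg T ∈ A j <;> simp [h1, h2]
    have e3 : ∑ T ∈ W.powerset, (((E.filter fun i => cfg T ∈ A i).card : ℝ)) ^ 2 =
        ∑ e ∈ E, ∑ e' ∈ E, ∑ T ∈ W.powerset, if cfg T ∈ A e ∩ A e' then (1 : ℝ) else 0 := by
      rw [Finset.sum_congr rfl fun T _ => e2 T, Finset.sum_comm]
      refine Finset.sum_congr rfl fun e _ => ?_
      rw [Finset.sum_comm]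
    rw [e3, Finset.sum_div]
    refine Finset.sum_congr rfl fun i _ => ?_
    rw [Finset.sum_div]
    refine Finset.sum_congr rfl fun j _ => ?_
    rw [ProbA.pr_eq_sum]
    congr!
  rw [e1]
  refine div_le_div_of_nonneg_right (Finset.sum_le_sum fun T _ => ?_) (by positivity)
  have h1 := h (cfg T) (E.filter fun i => cfg T ∈ A i) (filter_subset _ _)
    fun i hi => (mem_filter.1 hi).2
  exact pow_le_pow_left₀ (Nat.cast_nonneg _) (by exact_mod_cast h1) 2

theorem cr_pairs : ∃ C : ℝ, 0 < C ∧ ∀ (v : ℤ × ℤ) (r R : ℤ) (W : Finset (ℤ × ℤ)), 1 ≤ r →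
    2 * r ≤ R → BR v R ⊆ W → ∀ E : Finset UE, (∀ e ∈ E, BdR v R e) →
      ∑ e ∈ E, ∑ e' ∈ E, pr W (Cr v r R e ∩ Cr v r R e') ≤ C := by
  classical
  obtain ⟨C, hC, h⟩ := moment_NC 2
  refine ⟨C, hC, fun v r R W hr hR hW E hE => ?_⟩
  refine sum_pairs W E (fun e => Cr v r R e) (fun ω => NC v r (2 * r) ω) ?_
    (h v r W (by omega) ((Sub.refl' hR).subset.trans hW))
  intro ω S hS hA
  refine le_trans (card_le_card ?_) (card_cr_le (by omega) hR E hE ω)
  intro i hi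
  exact mem_filter.2 ⟨hS hi, hA i hi⟩

end N1Aux

/-- The boundary unit edges of the box of radius `2 R` whose strand in the annulus reaches the box of
radius `R`. -/
def CrossE (v : ℤ × ℤ) (R : ℤ) (e : UE) : Set Cfg :=
  {ω | ∃ a ∈ MM ω (BR v (2 * R) \ BR v R : Finset (ℤ × ℤ)) e, BdR v R a}

/-- The number of pairs of crossing strands has bounded expectation. -/
theorem count_pairs : ∃ C : ℝ, 0 < C ∧ ∀ (v : ℤ × ℤ) (R : ℤ) (W : Finset (ℤ × ℤ)), 1 ≤ R →
    BR v (2 * R) ⊆ W → ∀ E : Finset UE, (∀ e ∈ E, BdR v (2 * R) e) →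
      ∑ e ∈ E, ∑ e' ∈ E, pr W (CrossE v R e ∩ CrossE v R e') ≤ C := by
  obtain ⟨C, hC, h⟩ := N1Aux.cr_pairs
  exact ⟨C, hC, fun v R W hR hW E hE => h v R (2 * R) W hR le_rfl hW E hE⟩

/-- The expected number of pairs which reach an inner box. -/
theorem count_Gev : ∃ C : ℝ, 0 < C ∧ ∀ (col h w cB RB c R : ℤ) (W : Finset (ℤ × ℤ)),
    Nest h w cB RB c R → cB - 4 * R ≤ c → c ≤ cB + 4 * R → 16 * R ≤ RB →
      BR (cB, h) RB ⊆ W → ∑ k ∈ KP col cB h w RB, pr W (Gev h w cB RB c R k) ≤ C := by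
  classical
  obtain ⟨C, hC, H⟩ := N1Aux.cr_pairs
  refine ⟨C, hC, fun col h w cB RB c R W hn h1 h2 h3 hW => ?_⟩
  have hw := hn.w1
  have hwR := hn.wR
  set r := RB / 2 with hr
  have hwRB : w < RB := by omega
  set E : Finset UE := (Ico 0 (len w RB)).image fun k => cycE cB h w RB k with hE
  have hinj : Set.InjOn (fun k => cycE cB h w RB k) (Ico 0 (len w RB) : Finset ℤ) := by
    intro k hk k' hk' hkk
    rw [mem_coe, mem_Ico] at hk hk'
    exact cycE_inj hw hwRB hk.1 hk.2 hk'.1 hk'.2 hkk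
  have hcross : ∀ (k : ℤ) (ω : Cfg), 0 ≤ k → k < len w RB → (∃ τ, 0 ≤ τ ∧ τ < len w R ∧
      cycE c h w R τ ∈ MM ω (Slit h w cB RB c R) (cycE cB h w RB k)) →
      ω ∈ N1Aux.Cr (cB, h) r RB (cycE cB h w RB k) := by
    rintro k ω hk0 hk1 ⟨τ, hτ0, hτ1, hτ⟩
    have hin : InE (c, h) R (cycE c h w R τ) := (bdR_cycE hw hwR hτ0 hτ1).inE (by omega)
    have hin' : InE (cB, h) r (cycE c h w R τ) := by
      refine PercD.Sub.inE (v' := (c, h)) (r' := R) ?_ hin
      unfold PercD.Sub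
      simp only
      omega
    have hb := bdR_cycE (c := cB) (h := h) hw hwRB hk0 hk1
    have hmm : cycE cB h w RB k ∈ MM ω (BR (cB, h) RB) (cycE c h w R τ) := by
      refine MM_symm (MM_mono ?_ hτ)
      intro f hf
      exact hf.1
    rcases last_exit hin' hmm with h4 | ⟨b, -, hb2, hb3⟩
    · exfalso
      have h5 := bdR_of_sub (v' := (cB, h)) (r' := r) (Sub.refl' (by omega)) h4 hb
      exact N1Aux.bdR_ne (by omega : r < RB) h5 hb rfl
    · exact ⟨b, MM_symm hb3, hb2⟩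
  calc ∑ k ∈ KP col cB h w RB, pr W (Gev h w cB RB c R k)
      ≤ ∑ k ∈ (Ico 0 (len w RB)) ×ˢ (Ico 0 (len w RB)),
          pr W (N1Aux.Cr (cB, h) r RB (cycE cB h w RB k.1) ∩
            N1Aux.Cr (cB, h) r RB (cycE cB h w RB k.2)) := by
        refine le_trans (Finset.sum_le_sum fun k hk => ?_)
          (Finset.sum_le_sum_of_subset_of_nonneg (Finset.filter_subset _ _)
            fun k _ _ => pr_nonneg _ _)
        unfold KP at hk
        rw [mem_filter, mem_product, mem_Ico, mem_Ico] at hk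
        refine pr_mono _ fun ω hω => ⟨hcross _ ω hk.1.1.1 hk.1.1.2 hω.1,
          hcross _ ω hk.1.2.1 hk.1.2.2 hω.2⟩
    _ = ∑ e ∈ E, ∑ e' ∈ E, pr W (N1Aux.Cr (cB, h) r RB e ∩ N1Aux.Cr (cB, h) r RB e') := by
        rw [hE, Finset.sum_product, Finset.sum_image hinj]
        refine Finset.sum_congr rfl fun k _ => ?_
        rw [Finset.sum_image hinj]
    _ ≤ C := by
        refine H (cB, h) r RB W (by omega) (by omega) hW E fun e he => ?_
        rw [hE, mem_image] at he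
        obtain ⟨k, hk, rfl⟩ := he
        rw [mem_Ico] at hk
        exact bdR_cycE hw hwRB hk.1 hk.2

namespace N2Aux

open Pool.Agent.PercN

variable {ω : Cfg}

/-- A coordinate: it changes by one along the bonds, and the corners of the face have the values of
the ends of the bond. -/
def Coord (φ : ℤ × ℤ → ℤ) : Prop := ∀ (ω : Cfg) (f p q : ℤ × ℤ), Bond ω {f} p q →
  (φ q = φ p + 1 ∨ φ q = φ p - 1) ∧ ∀ w, IsCor f w → φ w = φ p ∨ φ w = φ q

theorem coord_all : Coord (fun v => v.1) ∧ Coord (fun v => -v.1) ∧ Coord (fun v => v.2) ∧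
    Coord (fun v => -v.2) := by
  have key : ∀ (ω : Cfg) (f p q : ℤ × ℤ), Bond ω {f} p q →
      ((q.1 = p.1 + 1 ∨ q.1 = p.1 - 1) ∧ (q.2 = p.2 + 1 ∨ q.2 = p.2 - 1)) ∧
      ∀ w, IsCor f w → (w.1 = p.1 ∨ w.1 = q.1) ∧ (w.2 = p.2 ∨ w.2 = q.2) := by
    rintro ω f p q ⟨x, y, hf, h⟩
    rw [Set.mem_singleton_iff] at hf
    subst hf
    unfold IsCor
    rcases h with ⟨-, ⟨rfl, rfl⟩ | ⟨rfl, rfl⟩⟩ | ⟨-, ⟨rfl, rfl⟩ | ⟨rfl, rfl⟩⟩ <;>
      refine ⟨?_, fun w hw => ?_⟩ <;> dsimp only at * <;> omega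
  refine ⟨?_, ?_, ?_, ?_⟩ <;>
  · intro ω f p q h
    obtain ⟨h1, h2⟩ := key ω f p q h
    refine ⟨by dsimp only; omega, fun w hw => ?_⟩
    have := h2 w hw
    dsimp only
    omega

/-- Last passage through a line. -/
theorem last_pass {F : Set (ℤ × ℤ)} {φ : ℤ × ℤ → ℤ} {m : ℤ} (hφ : Coord φ) {p y : ℤ × ℤ}
    (h : Conn ω F p y) (hp : φ p ≤ m) (hy : m ≤ φ y) :
    ∃ z, φ z = m ∧ Conn ω F p z ∧ Conn ω (F ∩ {f | ∀ w, IsCor f w → m ≤ φ w}) z y := by
  have key : ∀ y, Conn ω F p y → φ y < m ∨ (m ≤ φ y ∧ ∃ z, φ z = m ∧ Conn ω F p z ∧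
      Conn ω (F ∩ {f | ∀ w, IsCor f w → m ≤ φ w}) z y) := by
    intro y hc
    induction hc with
    | refl =>
      rcases hp.lt_or_eq with h | h
      · exact Or.inl h
      · exact Or.inr ⟨h.ge, p, h, Relation.ReflTransGen.refl, Relation.ReflTransGen.refl⟩
    | tail hab hb ih =>
      rename_i b₁ b₂
      have hconn : Conn ω F p b₂ := hab.tail hb
      obtain ⟨f, hf, hb', -, -⟩ := hb.exists_face
      obtain ⟨h1, h2⟩ := hφ ω f _ _ hb'
      rcases lt_or_ge (φ b₂) m with h3 | h3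
      · exact Or.inl h3
      · rcases h3.lt_or_eq with h4 | h4
        · rcases ih with h5 | ⟨h5, z, hz1, hz2, hz3⟩
          · omega
          · refine Or.inr ⟨h3, z, hz1, hz2, hz3.tail (Bond.of_single ⟨hf, fun w hw => ?_⟩ hb')⟩
            rcases h2 w hw with h6 | h6 <;> omega
        · exact Or.inr ⟨h3, b₂, h4.symm, hconn, Relation.ReflTransGen.refl⟩
  rcases key y h with h1 | h1
  · omega
  · exact h1.2

open Classical in
/-- The faces of `G` whose bond belongs to the cluster of `X` in `B`. -/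
noncomputable def KX (ω : Cfg) (B G : Finset (ℤ × ℤ)) (X : ℤ × ℤ) : Finset (ℤ × ℤ) :=
  G.filter fun f => ∃ p q, Bond ω {f} p q ∧ Conn ω B X p

theorem mem_KX {B G : Finset (ℤ × ℤ)} {X f : ℤ × ℤ} :
    f ∈ KX ω B G X ↔ f ∈ G ∧ ∃ p q, Bond ω {f} p q ∧ Conn ω B X p := by
  classical
  unfold KX
  rw [mem_filter]

theorem conn_KX {B G : Finset (ℤ × ℤ)} (hG : G ⊆ B) {X z y : ℤ × ℤ} (hX : Conn ω B X z)
    (h : Conn ω G z y) : Conn ω (KX ω B G X) z y := by
  induction h with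
  | refl => exact Relation.ReflTransGen.refl
  | tail hab hb ih =>
    obtain ⟨f, hf, hb', -, -⟩ := hb.exists_face
    refine ih.tail (Bond.of_single ?_ hb')
    rw [mem_coe, mem_KX]
    exact ⟨mem_coe.1 hf, _, _, hb', Relation.ReflTransGen.trans hX
      (Conn.mono (by exact_mod_cast hG) hab)⟩

theorem bond_ends {f p q p' q' : ℤ × ℤ} (h : Bond ω {f} p q) (h' : Bond ω {f} p' q') :
    p' = p ∨ p' = q := by
  obtain ⟨x, y, hf, h⟩ := h
  obtain ⟨x', y', hf', h'⟩ := h'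
  rw [Set.mem_singleton_iff] at hf hf'
  subst hf
  obtain ⟨rfl, rfl⟩ := Prod.mk.inj hf'
  rcases h with ⟨h1, ⟨rfl, rfl⟩ | ⟨rfl, rfl⟩⟩ | ⟨h1, ⟨rfl, rfl⟩ | ⟨rfl, rfl⟩⟩ <;>
    rcases h' with ⟨h1', ⟨rfl, rfl⟩ | ⟨rfl, rfl⟩⟩ | ⟨h1', ⟨rfl, rfl⟩ | ⟨rfl, rfl⟩⟩ <;>
    simp_all

theorem KX_disjoint {B G : Finset (ℤ × ℤ)} (hG : G ⊆ B) {X X' : ℤ × ℤ} (h : ¬ Conn ω B X X') :
    Disjoint (KX ω B G X) (KX ω B G X') := by
  rw [Finset.disjoint_left]
  intro f hf hf'
  obtain ⟨h1, p, q, h2, h3⟩ := mem_KX.1 hf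
  obtain ⟨-, p', q', h2', h3'⟩ := mem_KX.1 hf'
  have hfB : f ∈ (B : Set (ℤ × ℤ)) := mem_coe.2 (hG h1)
  refine h (Relation.ReflTransGen.trans ?_ (Conn.symm h3'))
  rcases bond_ends h2 h2' with rfl | rfl
  · exact h3
  · exact h3.tail (Bond.of_single hfB h2)

theorem conn_inR {x₀ x₁ y₀ y₁ : ℤ} {p q : ℤ × ℤ} (h : Conn ω (RF x₀ x₁ y₀ y₁) p q)
    (hp : InR x₀ x₁ y₀ y₁ p) : InR x₀ x₁ y₀ y₁ q := by
  induction h with
  | refl => exact hp
  | tail _ hb _ =>
    obtain ⟨f, hf, -, -, hc⟩ := hb.exists_face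
    exact IsCor.inR hf hc

open Classical in
/-- The tags whose cluster reaches the side `φ y = m'`. -/
noncomputable def TS (φ : ℤ × ℤ → ℤ) (m' col h w c R : ℤ) (ω : Cfg) : Finset (ℤ × ℤ) :=
  (BandV col h w (c - R / 8) (c + R / 8)).filter fun X => ω ∈ TagEv h w c R X ∧
    ∃ y, Conn ω (BR (c, h) R) X y ∧ OnBd (c - R) (c + R) (h - R) (h + R) y ∧ φ y = m'

theorem mem_TS {φ : ℤ × ℤ → ℤ} {m' col h w c R : ℤ} {X : ℤ × ℤ} : X ∈ TS φ m' col h w c R ω ↔
    ((c - R / 8 ≤ X.1 ∧ X.1 < c + R / 8) ∧ (h - w ≤ X.2 ∧ X.2 ≤ h + w) ∧ par X = col) ∧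
      ω ∈ TagEv h w c R X ∧
      ∃ y, Conn ω (BR (c, h) R) X y ∧ OnBd (c - R) (c + R) (h - R) (h + R) y ∧ φ y = m' := by
  classical
  unfold TS BandV
  rw [mem_filter, mem_filter, mem_product, mem_Ico, mem_Icc]
  tauto

/-- Disjoint crossings from different tags. -/
theorem family {φ : ℤ × ℤ → ℤ} (hφ : Coord φ) {m m' col h w c R : ℤ} {G : Finset (ℤ × ℤ)}
    (hG : G ⊆ BR (c, h) R) (hGφ : ∀ f ∈ BR (c, h) R, (∀ w, IsCor f w → m ≤ φ w) → f ∈ G)
    (hm : m ≤ m') (_hw : 1 ≤ w) (hwR : 8 * w ≤ R)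
    (hφm : ∀ X : ℤ × ℤ, c - R / 8 ≤ X.1 → X.1 < c + R / 8 → h - w ≤ X.2 → X.2 ≤ h + w → φ X ≤ m)
    {k : ℕ} (hk : k ≤ (TS φ m' col h w c R ω).card) :
    ∃ K : Fin k → Finset (ℤ × ℤ), (∀ i, K i ⊆ G) ∧ (∀ i j, i ≠ j → Disjoint (K i) (K j)) ∧
      ∀ i, ∃ z y, φ z = m ∧ φ y = m' ∧ par z = col ∧ par y = col ∧
        InR (c - R) (c + R) (h - R) (h + R) z ∧ InR (c - R) (c + R) (h - R) (h + R) y ∧
        Conn ω (K i) z y := by
  classical
  set g : Fin k → ℤ × ℤ := fun i =>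
    ((TS φ m' col h w c R ω).equivFin.symm (Fin.castLE hk i) : ℤ × ℤ) with hg
  have hgm : ∀ i, g i ∈ TS φ m' col h w c R ω := fun i =>
    ((TS φ m' col h w c R ω).equivFin.symm (Fin.castLE hk i)).2
  have hgi : Function.Injective g := by
    intro i j hij
    have h1 := Subtype.ext hij
    exact Fin.castLE_injective hk ((TS φ m' col h w c R ω).equivFin.symm.injective h1)
  have hne : ∀ i j, i ≠ j → ¬ Conn ω (BR (c, h) R) (g i) (g j) := by
    intro i j hij hc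
    apply hij
    apply hgi
    obtain ⟨⟨-, a1, -⟩, a2, -⟩ := mem_TS.1 (hgm i)
    obtain ⟨⟨-, b1, -⟩, b2, -⟩ := mem_TS.1 (hgm j)
    have c1 := a2.2 _ hc b1.1 b1.2
    have c2 := b2.2 _ (Conn.symm hc) a1.1 a1.2
    exact Prod.ext (by omega) (by omega)
  refine ⟨fun i => KX ω (BR (c, h) R) G (g i), fun i => ?_, fun i j hij =>
    KX_disjoint hG (hne i j hij), fun i => ?_⟩
  · intro f hf
    exact (mem_KX.1 hf).1
  · obtain ⟨⟨a1, a2, a3⟩, -, y, hy1, hy2, hy3⟩ := mem_TS.1 (hgm i)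
    obtain ⟨z, hz1, hz2, hz3⟩ := last_pass hφ hy1 (hφm _ a1.1 a1.2 a2.1 a2.2) (hy3 ▸ hm)
    have hsub : ((BR (c, h) R : Set (ℤ × ℤ)) ∩ {f | ∀ w, IsCor f w → m ≤ φ w}) ⊆ G := by
      rintro f ⟨hf1, hf2⟩
      exact mem_coe.2 (hGφ f (mem_coe.1 hf1) hf2)
    have hX : InR (c - R) (c + R) (h - R) (h + R) (g i) := by
      unfold InR
      omega
    refine ⟨z, y, hz1, hy3, ?_, ?_, conn_inR hz2 hX, conn_inR hy1 hX,
      conn_KX hG hz2 (Conn.mono hsub hz3)⟩
    · rw [← hz2.par_eq, a3]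
    · rw [← hy1.par_eq, a3]

end N2Aux

/-- The expected number of tags in a cell: different tags belong to disjoint clusters which cross an
annulus. -/
theorem count_tags : ∃ C : ℝ, 0 < C ∧ ∀ (col h w c R : ℤ) (W : Finset (ℤ × ℤ)), 1 ≤ w →
    8 * w ≤ R → BR (c, h) R ⊆ W →
      ∑ X ∈ BandV col h w (c - R / 8) (c + R / 8), pr W (TagEv h w c R X) ≤ C := by
  classical
  obtain ⟨q₁, hq10, hq11, H1⟩ := PercN.pr_disLR_le 4
  obtain ⟨q₂, hq20, hq21, H2⟩ := PercN.pr_disBT_le 4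
  set q := max q₁ q₂ with hq
  have hq0 : 0 < q := lt_of_lt_of_le hq10 (le_max_left _ _)
  have hq1 : q < 1 := max_lt hq11 hq21
  obtain ⟨C, hC, HC⟩ := PercN.moment_of_tail hq0 hq1 1
  refine ⟨C, hC, fun col h w c R W hw hwR hW => ?_⟩
  set r := R / 2 with hr
  obtain ⟨φ1, φ2, φ3, φ4⟩ := N2Aux.coord_all
  set N : Cfg → ℕ := fun ω =>
    ((BandV col h w (c - R / 8) (c + R / 8)).filter fun X => ω ∈ TagEv h w c R X).card with hN
  -- the four sides
  have hpar : ∀ z : ℤ × ℤ, par z = col → (z.1 + z.2 - col) % 2 = 0 := by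
    intro z hz
    unfold par at hz
    omega
  have hbr : ∀ f, f ∈ BR (c, h) R ↔ (c - R ≤ f.1 ∧ f.1 < c + R ∧ h - R ≤ f.2 ∧ f.2 < h + R) :=
    fun f => mem_BR
  have s1 : ∀ (k : ℕ) (ω : Cfg), k ≤ (N2Aux.TS (fun v => v.1) (c + R) col h w c R ω).card →
      ω ∈ PercN.DisLR k col (c + r) (c + R) (h - R) (h + R) := by
    intro k ω hk
    obtain ⟨K, k1, k2, k3⟩ := N2Aux.family (m := c + r) φ1
      (G := RF (c + r) (c + R) (h - R) (h + R)) (fun f hf => by
        rw [hbr]; rw [mem_RF] at hf; omega)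
      (fun f hf hc => by
        have := hc (f.1, f.2) ⟨Or.inl rfl, Or.inl rfl⟩
        rw [hbr] at hf; rw [mem_RF]; simp only at this; omega)
      (by omega) hw hwR (fun X h1 h2 h3 h4 => by omega) hk
    refine ⟨K, k1, k2, fun i => ?_⟩
    obtain ⟨z, y, a1, a2, a3, a4, a5, a6, a7⟩ := k3 i
    exact ⟨z, y, a1, a5.2.2.1, a5.2.2.2, a2, hpar z a3, a7⟩
  have s2 : ∀ (k : ℕ) (ω : Cfg), k ≤ (N2Aux.TS (fun v => -v.1) (-(c - R)) col h w c R ω).card →
      ω ∈ PercN.DisLR k col (c - R) (c - r) (h - R) (h + R) := by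
    intro k ω hk
    obtain ⟨K, k1, k2, k3⟩ := N2Aux.family (m := -(c - r)) φ2
      (G := RF (c - R) (c - r) (h - R) (h + R)) (fun f hf => by
        rw [hbr]; rw [mem_RF] at hf; omega)
      (fun f hf hc => by
        have := hc (f.1 + 1, f.2) ⟨Or.inr rfl, Or.inl rfl⟩
        rw [hbr] at hf; rw [mem_RF]; simp only at this; omega)
      (by omega) hw hwR (fun X h1 h2 h3 h4 => by omega) hk
    refine ⟨K, k1, k2, fun i => ?_⟩
    obtain ⟨z, y, a1, a2, a3, a4, a5, a6, a7⟩ := k3 i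
    exact ⟨y, z, by omega, a6.2.2.1, a6.2.2.2, by omega, hpar y a4, Conn.symm a7⟩
  have s3 : ∀ (k : ℕ) (ω : Cfg), k ≤ (N2Aux.TS (fun v => v.2) (h + R) col h w c R ω).card →
      ω ∈ PercN.DisBT k col (c - R) (c + R) (h + r) (h + R) := by
    intro k ω hk
    obtain ⟨K, k1, k2, k3⟩ := N2Aux.family (m := h + r) φ3
      (G := RF (c - R) (c + R) (h + r) (h + R)) (fun f hf => by
        rw [hbr]; rw [mem_RF] at hf; omega)
      (fun f hf hc => by
        have := hc (f.1, f.2) ⟨Or.inl rfl, Or.inl rfl⟩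
        rw [hbr] at hf; rw [mem_RF]; simp only at this; omega)
      (by omega) hw hwR (fun X h1 h2 h3 h4 => by omega) hk
    refine ⟨K, k1, k2, fun i => ?_⟩
    obtain ⟨z, y, a1, a2, a3, a4, a5, a6, a7⟩ := k3 i
    exact ⟨z, y, a1, a5.1, a5.2.1, a2, hpar z a3, a7⟩
  have s4 : ∀ (k : ℕ) (ω : Cfg), k ≤ (N2Aux.TS (fun v => -v.2) (-(h - R)) col h w c R ω).card →
      ω ∈ PercN.DisBT k col (c - R) (c + R) (h - R) (h - r) := by
    intro k ω hk
    obtain ⟨K, k1, k2, k3⟩ := N2Aux.family (m := -(h - r)) φ4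
      (G := RF (c - R) (c + R) (h - R) (h - r)) (fun f hf => by
        rw [hbr]; rw [mem_RF] at hf; omega)
      (fun f hf hc => by
        have := hc (f.1, f.2 + 1) ⟨Or.inl rfl, Or.inr rfl⟩
        rw [hbr] at hf; rw [mem_RF]; simp only at this; omega)
      (by omega) hw hwR (fun X h1 h2 h3 h4 => by omega) hk
    refine ⟨K, k1, k2, fun i => ?_⟩
    obtain ⟨z, y, a1, a2, a3, a4, a5, a6, a7⟩ := k3 i
    exact ⟨y, z, by omega, a6.1, a6.2.1, by omega, hpar y a4, Conn.symm a7⟩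
  have hle : ∀ ω, N ω ≤ (N2Aux.TS (fun v => v.1) (c + R) col h w c R ω).card +
      (N2Aux.TS (fun v => -v.1) (-(c - R)) col h w c R ω).card +
      (N2Aux.TS (fun v => v.2) (h + R) col h w c R ω).card +
      (N2Aux.TS (fun v => -v.2) (-(h - R)) col h w c R ω).card := by
    intro ω
    have hsub : ((BandV col h w (c - R / 8) (c + R / 8)).filter fun X => ω ∈ TagEv h w c R X) ⊆
        ((N2Aux.TS (fun v => v.1) (c + R) col h w c R ω ∪
          N2Aux.TS (fun v => -v.1) (-(c - R)) col h w c R ω) ∪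
          N2Aux.TS (fun v => v.2) (h + R) col h w c R ω) ∪
          N2Aux.TS (fun v => -v.2) (-(h - R)) col h w c R ω := by
      intro X hX
      rw [mem_filter] at hX
      obtain ⟨hX1, hX2⟩ := hX
      unfold BandV at hX1
      rw [mem_filter, mem_product, mem_Ico, mem_Icc] at hX1
      obtain ⟨y, hy1, hy2⟩ := hX2.1
      simp only [mem_union, N2Aux.mem_TS]
      have hy3 := hy2.1
      rcases hy3 with h1 | h1 | h1 | h1
      · exact Or.inl (Or.inl (Or.inr ⟨⟨hX1.1.1, hX1.1.2, hX1.2⟩, hX2, y, hy1, hy2, by omega⟩))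
      · exact Or.inl (Or.inl (Or.inl ⟨⟨hX1.1.1, hX1.1.2, hX1.2⟩, hX2, y, hy1, hy2, by omega⟩))
      · exact Or.inr ⟨⟨hX1.1.1, hX1.1.2, hX1.2⟩, hX2, y, hy1, hy2, by omega⟩
      · exact Or.inl (Or.inr ⟨⟨hX1.1.1, hX1.1.2, hX1.2⟩, hX2, y, hy1, hy2, by omega⟩)
    refine (card_le_card hsub).trans ?_
    refine (card_union_le _ _).trans (Nat.add_le_add_right ?_ _)
    refine (card_union_le _ _).trans (Nat.add_le_add_right ?_ _)
    exact card_union_le _ _
  have htail : ∀ k : ℕ, pr W {ω | 8 * k ≤ N ω + 7} ≤ 4 * q ^ k := by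
    intro k
    have e1 : q₁ ^ k ≤ q ^ k := pow_le_pow_left₀ hq10.le (le_max_left _ _) k
    have e2 : q₂ ^ k ≤ q ^ k := pow_le_pow_left₀ hq20.le (le_max_right _ _) k
    have p1 := H1 k col (c + r) (c + R) (h - R) (h + R) (by omega) (by omega)
      (by push_cast; omega)
    have p2 := H1 k col (c - R) (c - r) (h - R) (h + R) (by omega) (by omega)
      (by push_cast; omega)
    have p3 := H2 k col (c - R) (c + R) (h + r) (h + R) (by omega) (by omega)
      (by push_cast; omega)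
    have p4 := H2 k col (c - R) (c + R) (h - R) (h - r) (by omega) (by omega)
      (by push_cast; omega)
    have hsubW : ∀ x₀ x₁ y₀ y₁ : ℤ, c - R ≤ x₀ → x₁ ≤ c + R → h - R ≤ y₀ → y₁ ≤ h + R →
        RF x₀ x₁ y₀ y₁ ⊆ W := by
      intro x₀ x₁ y₀ y₁ h1 h2 h3 h4 f hf
      apply hW
      rw [hbr]
      rw [mem_RF] at hf
      omega
    rw [← pr_eq_of_depOn (PercN.depOn_disLR _ _ _ _ _ _)
      (hsubW _ _ _ _ (by omega) (by omega) (by omega) (by omega))] at p1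
    rw [← pr_eq_of_depOn (PercN.depOn_disLR _ _ _ _ _ _)
      (hsubW _ _ _ _ (by omega) (by omega) (by omega) (by omega))] at p2
    rw [← pr_eq_of_depOn (PercN.depOn_disBT _ _ _ _ _ _)
      (hsubW _ _ _ _ (by omega) (by omega) (by omega) (by omega))] at p3
    rw [← pr_eq_of_depOn (PercN.depOn_disBT _ _ _ _ _ _)
      (hsubW _ _ _ _ (by omega) (by omega) (by omega) (by omega))] at p4
    have u0 : pr W {ω | 8 * k ≤ N ω + 7} ≤
        pr W (((PercN.DisLR k col (c + r) (c + R) (h - R) (h + R) ∪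
          PercN.DisLR k col (c - R) (c - r) (h - R) (h + R)) ∪
          PercN.DisBT k col (c - R) (c + R) (h + r) (h + R)) ∪
          PercN.DisBT k col (c - R) (c + R) (h - R) (h - r)) := by
      refine pr_mono _ fun ω hω => ?_
      rw [Set.mem_ofPred_eq] at hω
      have h1 := hle ω
      by_cases t1 : k ≤ (N2Aux.TS (fun v => v.1) (c + R) col h w c R ω).card
      · exact Or.inl (Or.inl (Or.inl (s1 k ω t1)))
      by_cases t2 : k ≤ (N2Aux.TS (fun v => -v.1) (-(c - R)) col h w c R ω).card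
      · exact Or.inl (Or.inl (Or.inr (s2 k ω t2)))
      by_cases t3 : k ≤ (N2Aux.TS (fun v => v.2) (h + R) col h w c R ω).card
      · exact Or.inl (Or.inr (s3 k ω t3))
      by_cases t4 : k ≤ (N2Aux.TS (fun v => -v.2) (-(h - R)) col h w c R ω).card
      · exact Or.inr (s4 k ω t4)
      · exfalso
        omega
    have u1 := pr_union_le W ((PercN.DisLR k col (c + r) (c + R) (h - R) (h + R) ∪
          PercN.DisLR k col (c - R) (c - r) (h - R) (h + R)) ∪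
          PercN.DisBT k col (c - R) (c + R) (h + r) (h + R))
          (PercN.DisBT k col (c - R) (c + R) (h - R) (h - r))
    have u2 := pr_union_le W (PercN.DisLR k col (c + r) (c + R) (h - R) (h + R) ∪
          PercN.DisLR k col (c - R) (c - r) (h - R) (h + R))
          (PercN.DisBT k col (c - R) (c + R) (h + r) (h + R))
    have u3 := pr_union_le W (PercN.DisLR k col (c + r) (c + R) (h - R) (h + R))
          (PercN.DisLR k col (c - R) (c - r) (h - R) (h + R))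
    linarith
  refine le_trans (le_of_eq ?_) (HC W N htail)
  have e1 : ∀ T : Finset (ℤ × ℤ), ((N (cfg T) : ℝ)) ^ 1 =
      ∑ X ∈ BandV col h w (c - R / 8) (c + R / 8), if cfg T ∈ TagEv h w c R X then (1 : ℝ) else 0 := by
    intro T
    rw [pow_one, hN]
    simp only
    rw [Finset.card_filter]
    push_cast
    rfl
  rw [Finset.sum_congr rfl fun T _ => e1 T, Finset.sum_comm, Finset.sum_div]
  refine Finset.sum_congr rfl fun X _ => ?_
  rw [ProbA.pr_eq_sum]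

end Pool.Agent.Perc6
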