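import Pool.Agent.Lib.MP_6bd702_perc6.InsertA

/-!
# Insertion of a success and a tag
-/

set_option autoImplicit false

namespace Pool.Agent.Perc6

open Finset Pool.Agent.Perc Pool.Agent.PercD Pool.Agent.PercL

namespace InsertAux

theorem mixC_mem {S : Set (ℤ × ℤ)} {ω ξ : Cfg} {f : ℤ × ℤ} (h : f ∈ S) : mixC S ω ξ f = ω f :=
  if_pos h

theorem mixC_notMem {S : Set (ℤ × ℤ)} {ω ξ : Cfg} {f : ℤ × ℤ} (h : f ∉ S) :
    mixC S ω ξ f = ξ f := if_neg h

/-- The box of a cell with a margin is in the large box. -/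
theorem box_sub {g : Geo} (hg : g.Ok) {j : ℕ} (hj : j < g.m) {i : ℤ} (hi : i ∈ g.Is j) :
    BR (g.cen j i, g.h) (64 * g.μ j) ⊆ BR (g.cB, g.h) g.RB := by
  have h1 := hg.box_anc hj i
  have h2 : g.anc j i g.m = 0 := by
    have := hg.anc_mem hj.le le_rfl hi
    unfold Geo.Is at this
    rw [mem_Ico, Nat.sub_self, pow_zero] at this
    omega
  rw [h2] at h1
  refine h1.trans ?_
  intro f hf
  have hμ := hg.μ_pos g.m
  have ha := hg.a_pos g.m
  rw [mem_BR] at hf ⊢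
  unfold Geo.cB Geo.RB
  simp only at hf ⊢
  omega

/-- The weights on the cells with an index in the square. -/
theorem goodW_mono {s A : ℝ} {M : ℤ} {Z Z' : Set (ℤ × ℤ)} (h : GoodW s A M Z)
    (hZ : ∀ z ∈ IM M, z ∈ Z → z ∈ Z') : GoodW s A M Z' := by
  classical
  obtain ⟨c, h1, h2, h3, h4⟩ := h
  refine ⟨fun z => if z ∈ IM M then c z else 0, ?_, ?_, ?_, ?_⟩
  · intro z
    simp only
    split_ifs
    · exact h1 z
    · exact le_refl _
  · intro z hz
    simp only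
    split_ifs with h5
    · exact h2 z fun h6 => hz (hZ z h5 h6)
    · rfl
  · rw [← h3]
    exact Finset.sum_congr rfl fun z hz => if_pos hz
  · refine le_of_eq_of_le ?_ h4
    refine Finset.sum_congr rfl fun z hz => Finset.sum_congr rfl fun z' hz' => ?_
    simp only
    rw [if_pos hz, if_pos hz']

theorem rim_congr {η ξ : Cfg} {x y s : ℤ} (h : ∀ f ∈ RF x (x + s) y (y + s), η f = ξ f) :
    Rim η x y s = Rim ξ x y s := by
  funext p
  unfold Rim
  refine propext (exists_congr fun z => and_congr_left' ?_)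
  exact GridA.conn_iff _ (fun f hf => h f hf) p z

theorem seen_congr {η ξ : Cfg} {col x y M q e : ℤ} {z : ℤ × ℤ}
    (h : ∀ f ∈ RF x (x + 4 * (M * q * e)) y (y + 4 * (M * q * e)), η f = ξ f)
    (hs : Seen ξ col x y M q e z) : Seen η col x y M q e z := by
  have h1 := rim_congr h
  have h2 : FreeSq η col x y (4 * (M * q * e)) e = FreeSq ξ col x y (4 * (M * q * e)) e := by
    funext t
    unfold FreeSq
    rw [h1]
  have h3 : SqStep η col x y (4 * (M * q * e)) e = SqStep ξ col x y (4 * (M * q * e)) e := by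
    funext t t'
    unfold SqStep
    rw [h2]
  unfold Seen at hs ⊢
  rw [h2, h3]
  exact hs

/-- The vertices of a cell of the window. -/
theorem inCell_bounds {x y M q e : ℤ} {z p : ℤ × ℤ} (hM : 1 ≤ M) (hq : 1 ≤ q) (he : 1 ≤ e)
    (hz : z ∈ IM M) (h : InCell x y M q e z p) :
    x ≤ p.1 ∧ p.1 ≤ x + 4 * (M * q * e) ∧ y + M * q * e ≤ p.2 ∧ p.2 ≤ y + 3 * (M * q * e) := by
  unfold IM at hz
  rw [mem_product, mem_Ico, mem_Ico] at hz
  unfold InCell at h
  obtain ⟨⟨z1, z2⟩, z3, z4⟩ := hz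
  obtain ⟨a1, a2, a3, a4⟩ := h
  have hqe : 0 < q * e := by positivity
  have e1 : M * q * e = q * e * M := by ring
  rw [e1]
  generalize q * e = Q at *
  have b1 : 0 ≤ Q * (M + z.1) := mul_nonneg hqe.le (by omega)
  have b2 : Q * (M + z.1 + 1) ≤ Q * (3 * M) := mul_le_mul_of_nonneg_left (by omega) hqe.le
  have b3 : Q * M ≤ Q * (M + z.2) := mul_le_mul_of_nonneg_left (by omega) hqe.le
  have b4 : Q * (M + z.2 + 1) ≤ Q * (3 * M) := mul_le_mul_of_nonneg_left (by omega) hqe.le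
  have b5 : Q * (3 * M) = 3 * (Q * M) := by ring
  have b6 : 0 < Q * M := mul_pos hqe (by omega)
  omega

end InsertAux

open InsertAux

/-- Deterministic part: the walls and the occupied cells of the window give the first success. -/
theorem insert_det {g : Geo} (hg : g.Ok) {s A : ℝ} {j : ℕ} (hj : j < g.m) {i : ℤ}
    (hi : i ∈ g.Is j) {k : ℤ × ℤ} (hk : k ∈ g.K) {τ τ' : ℤ} {ω ξ : Cfg} (hω : ω ∈ g.G j i k)
    (hns : ω ∈ g.NS s A j i k)
    (h1 : cycE (g.cen j i) g.h g.w (32 * g.μ j) τ ∈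
      MM ω (Slit g.h g.w g.cB g.RB (g.cen j i) (32 * g.μ j)) (cycE g.cB g.h g.w g.RB k.1))
    (h2 : cycE (g.cen j i) g.h g.w (32 * g.μ j) τ' ∈
      MM ω (Slit g.h g.w g.cB g.RB (g.cen j i) (32 * g.μ j)) (cycE g.cB g.h g.w g.RB k.2))
    (h3 : 3 * g.a j ≤ τ) (h4 : τ + 8 * g.a j ≤ τ') (h5 : τ' + 3 * g.a j ≤ len g.w (32 * g.μ j))
    {SP SD SU SL : Finset (ℤ × ℤ)} {P D : Set Cfg}
    (hP : WallP g.col g.h g.w (g.cen j i) (g.a j) g.N τ τ' SP P)
    (hD : WallD g.col g.h g.w (g.cen j i) (g.a j) g.N τ τ' SD SU SL D)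
    (hξP : ξ ∈ P) (hξD : ξ ∈ D)
    (hξO : GoodW s A g.M {z | OccAt ξ g.col (g.cen j i + 8 * g.μ j) (g.h + g.w) g.M g.q (g.η j) z}) :
    mixC (g.St ω j i k) ω ξ ∈ g.Fs s A j i k := by
  have hag : ∀ f ∈ g.St ω j i k, ω f = mixC (g.St ω j i k) ω ξ f := fun f hf =>
    (mixC_mem hf).symm
  have hμ := Geo.μ_eq g j
  have hn := hg.nest hj hi
  have hn4 := hg.nest4 hj hi
  have hbox := box_sub hg hj hi
  have hM1 : (1 : ℤ) ≤ g.M := by exact_mod_cast hg.M1
  have hq1 : (1 : ℤ) ≤ g.q := by exact_mod_cast hg.q1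
  have he1 := hg.η_pos j
  -- the window
  have hwin : ∀ f ∈ g.Win j i, mixC (g.St ω j i k) ω ξ f = ξ f := by
    intro f hf
    have h6 := (mem_sdiff.1 (hg.win_sub j i hf)).1
    refine mixC_notMem fun h7 => ?_
    exact Set.disjoint_left.1 (Geo.St_disj hg hj hi) h7 h6
  obtain ⟨⟨X, hX1, hX2, hX3, hX4, hX5, hX6, hX7⟩, hmeet⟩ := insert_geo (col := g.col)
    (w := g.w) (c := g.cen j i) (a := g.a j) (N := g.N) (k := k) (τ := τ) (τ' := τ')
    (cB := g.cB) (RB := g.RB) (h := g.h)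
    (ω := ω) (ξ := ξ) (η := mixC (g.St ω j i k) ω ξ) (hg.w_le j) hg.N8 (by rw [← hμ]; exact hn)
    (by rw [← hμ]; exact hn4) (by rw [← hμ]; exact hbox) hg.col01 hk (by rw [← hμ]; exact hω)
    (by rw [← hμ]; exact h1) (by rw [← hμ]; exact h2) h3 h4 (by rw [← hμ]; exact h5) hP hD hξP hξD
    (by
      rw [← hμ]
      intro f hf
      exact mixC_mem (Or.inl hf))
    (by
      rw [← hμ]
      intro f hf hfS
      exact mixC_notMem fun h6 => hfS (Geo.St_near hg hj hi hf h6))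
  rw [← hμ] at hmeet
  have hμ8 := hg.μ_pos j
  have ha1 := hg.a_pos j
  refine ⟨⟨X, ?_, hX6, hX7⟩, Geo.NS_congr hg hag hns, ?_⟩
  · unfold Geo.Vs BandV
    rw [mem_filter, mem_product, mem_Ico, mem_Icc]
    have e1 : g.cen j i = g.x₀ + 2 * i * g.μ j + g.μ j := by unfold Geo.cen; ring
    have e2 : g.x₀ + 2 * (i + 1) * g.μ j = g.x₀ + 2 * i * g.μ j + 2 * g.μ j := by ring
    rw [e2]
    refine ⟨⟨⟨?_, ?_⟩, hX3, hX4⟩, hX5⟩ <;> omega
  · refine goodW_mono hξO fun z hz hocc => ?_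
    obtain ⟨⟨b, p, p', hb, hp, hpc, hpc', hpt, hpt'⟩, hseen⟩ := hocc
    have b1 := inCell_bounds hM1 hq1 he1 hz hpc
    have b2 := inCell_bounds hM1 hq1 he1 hz hpc'
    have eμ : (g.M : ℤ) * g.q * g.η j = g.μ j := rfl
    rw [eμ] at b1 b2 hpt hpt'
    refine ⟨⟨b, p, p', hb, hpc, hpc', ?_⟩, ?_⟩
    · refine hmeet b p p' hb hp (by omega) (by omega) ?_ ?_
      · obtain ⟨t, ht1, ht2⟩ := hpt
        refine ⟨t, ?_, by omega⟩
        unfold WF
        have e3 : g.cen j i + 12 * g.μ j = g.cen j i + 8 * g.μ j + 4 * g.μ j := by ring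
        rw [e3]
        exact ht1
      · obtain ⟨t, ht1, ht2⟩ := hpt'
        refine ⟨t, ?_, by omega⟩
        unfold WF
        have e3 : g.cen j i + 12 * g.μ j = g.cen j i + 8 * g.μ j + 4 * g.μ j := by ring
        rw [e3]
        exact ht1
    · refine seen_congr (fun f hf => hwin f ?_) hseen
      rw [eμ] at hf
      unfold Geo.Win
      have e3 : g.cen j i + 12 * g.μ j = g.cen j i + 8 * g.μ j + 4 * g.μ j := by ring
      rw [e3]
      exact hf

/-- (T3) The insertion. -/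
theorem insert_step {col : ℤ} (hocc : OccHyp col) {s : ℝ} (hs : 0 < s) (hs' : s < 4 / 3) {N : ℤ}
    (hN : 8 ≤ N) : ∃ (κ A : ℝ) (M₀ : ℕ), 0 < κ ∧ 1 ≤ M₀ ∧ ∀ M : ℕ, M₀ ≤ M → ∃ q b₀ : ℕ,
      1 ≤ q ∧ ∀ g : Geo, g.Ok → g.col = col → g.N = N → g.M = M → g.q = q → (b₀ : ℤ) ≤ g.b → ∀ W : Finset (ℤ × ℤ),
      g.B ⊆ W → ∀ j < g.m, ∀ i ∈ g.Is j, ∀ k ∈ g.K,
        κ * pr W (g.G j i k ∩ g.NS s A j i k ∩ g.Sep j i k) ≤ pr W (g.Fs s A j i k) := by
  classical
  obtain ⟨δ, hδ, hwalls⟩ := exists_walls hN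
  obtain ⟨κ, A, M₀, hκ, hM₀, hO⟩ := hocc s hs hs' δ hδ
  refine ⟨κ, A, M₀, hκ, hM₀, fun M hM => ?_⟩
  obtain ⟨q, n₀, hq, hO'⟩ := hO M hM
  refine ⟨q, n₀, hq, ?_⟩
  intro g hg hcol hNg hMg hqg hb W hBW j hj i hi k hk
  -- the fresh event
  have key : ∀ ω ∈ g.G j i k ∩ g.NS s A j i k ∩ g.Sep j i k, ∃ E : Set Cfg, κ ≤ pr W E ∧
      ∀ ξ ∈ E, mixC (g.St ω j i k) ω ξ ∈ g.Fs s A j i k := by
    rintro ω ⟨⟨hG, hNS⟩, τ, τ', h3, h4, h5, h1, h2⟩
    have hμ := Geo.μ_eq g j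
    have hμ8 := hg.μ_pos j
    have ha1 := hg.a_pos j
    have hbox := box_sub hg hj hi
    obtain ⟨SP, SD, SU, SL, P, D, hdis, hP, hD, hpr⟩ := hwalls col g.h g.w (g.cen j i) (g.a j)
      τ τ' hg.w1 (hg.w_le j) h3 h4 (by rw [← hNg, ← hμ]; exact h5)
    rw [← hNg, ← hμ] at hpr
    rw [← hNg, ← hcol] at hP hD
    have hsub : BR (g.cen j i, g.h) (32 * g.μ j + 2 * g.a j) ⊆ W := by
      refine subset_trans ?_ (hbox.trans hBW)
      intro f hf
      rw [mem_BR] at hf ⊢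
      simp only at hf ⊢
      omega
    obtain ⟨hprP, hprD⟩ := hpr W hsub
    refine ⟨P ∩ D ∩ {ω | GoodW s A M {z | OccAt ω col (g.cen j i + 8 * g.μ j) (g.h + g.w) M q
      (g.η j) z}}, ?_, ?_⟩
    · have hPs := hP.sub
      have hDs := hD.sub
      have hPw := hP.win
      have hDw := hD.win
      rw [← hμ] at hPs hDs hPw hDw
      have eμ : (M : ℤ) * q * g.η j = g.μ j := by rw [← hMg, ← hqg]; rfl
      have hPi := hP.inc
      have hDi := hD.inc
      rw [hcol] at hPi hDi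
      refine hO' (g.η j) (g.cen j i + 8 * g.μ j) (g.h + g.w) (hb.trans (hg.b_le_η j)) (hg.η_pos j)
        W SP SD P D ?_ (hPs.trans hsub) (hDs.trans hsub) hdis hP.dep hD.dep hPi hDi ?_ ?_ hprP hprD
      · rw [eμ]
        refine subset_trans ?_ (hbox.trans hBW)
        intro f hf
        rw [mem_RF] at hf
        rw [mem_BR]
        have hwa := hg.w_le j
        have hw1 := hg.w1
        simp only
        omega
      · intro f hf hfw
        rw [eμ] at hfw ⊢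
        refine hPw f hf ?_
        rw [mem_RF] at hfw ⊢
        omega
      · intro f hf hfw
        rw [eμ] at hfw
        have h6 : 2 * f.2 < 2 * (g.h + g.w) + g.μ j := by
          refine hDw f hf ?_
          rw [mem_RF] at hfw ⊢
          omega
        rw [← eμ] at h6
        exact h6
    · rintro ξ ⟨⟨hξP, hξD⟩, hξO⟩
      refine insert_det hg hj hi hk hG hNS h1 h2 h3 h4 h5 hP hD hξP hξD ?_
      rw [hcol, hMg, hqg]
      exact hξO
  choose! E hE1 hE2 using key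
  exact pr_mixC (fun ω => g.St ω j i k) (fun ω ω' h => Geo.st_congr h) _ _ E hE1 hE2

end Pool.Agent.Perc6
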