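import Pool.Agent.Lib.MP_6bd702_perc6.Theta
import Pool.Agent.Lib.MP_6bd702_perc6.Insert
import Pool.Agent.Lib.MP_6bd702_perc6.Count

/-!
# Almost every tag has a success
-/

set_option autoImplicit false

namespace Pool.Agent.Perc6

open Finset Pool.Agent.Perc Pool.Agent.PercD Pool.Agent.PercL

/-- The abstract summation. `A j` is the expected number of pairs of strands without success which
reach the boxes of level `j`, `Y j` the number of separated ones. -/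
theorem sum_abstract {m : ℕ} (hm : 1 ≤ m) {L C₀ C₁ : ℝ} (hL : 0 ≤ L) (A Y : ℕ → ℝ)
    (hA : ∀ j, 0 ≤ A j) (hY : ∀ j, 0 ≤ Y j) (h0 : A m ≤ C₀)
    (h1 : ∀ j < m, A j ≤ L * Y (j + 1) + A (j + 1) / 2)
    (h2 : ∑ j ∈ range (m + 1), Y j ≤ C₁) : ∃ j < m, A j ≤ (2 * L * C₁ + C₀) / m := by
  have hm' : (0 : ℝ) < m := by exact_mod_cast hm
  have hs : ∑ j ∈ range m, A j ≤ 2 * L * C₁ + C₀ := by
    have e1 : ∑ j ∈ range m, A j ≤ ∑ j ∈ range m, (L * Y (j + 1) + A (j + 1) / 2) :=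
      sum_le_sum fun j hj => h1 j (mem_range.1 hj)
    rw [sum_add_distrib, ← mul_sum, ← sum_div] at e1
    have e2 : ∑ j ∈ range m, Y (j + 1) ≤ C₁ := by
      rw [sum_range_succ'] at h2
      linarith [hY 0]
    have e3 : ∑ j ∈ range m, A (j + 1) = ∑ j ∈ range m, A j + A m - A 0 := by
      rw [← sum_range_succ, sum_range_succ' A m]
      ring
    have e4 : L * ∑ j ∈ range m, Y (j + 1) ≤ L * C₁ := mul_le_mul_of_nonneg_left e2 hL
    rw [e3] at e1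
    linarith [hA 0]
  by_contra hcon
  push Not at hcon
  have h3 : ∑ _j ∈ range m, (2 * L * C₁ + C₀) / m < ∑ j ∈ range m, A j :=
    sum_lt_sum_of_nonempty ⟨0, mem_range.2 hm⟩ fun j hj => hcon j (mem_range.1 hj)
  rw [sum_const, card_range, nsmul_eq_mul, mul_div_cancel₀ _ hm'.ne'] at h3
  linarith

theorem Z1_mem_Vs {g : Geo} {j : ℕ} {i : ℤ} {X : ℤ × ℤ} (h : X ∈ g.Vs j i) :
    (g.cen j i - g.μ j ≤ X.1 ∧ X.1 < g.cen j i + g.μ j) ∧ (g.h - g.w ≤ X.2 ∧ X.2 ≤ g.h + g.w) ∧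
      par X = g.col := by
  unfold Geo.Vs BandV at h
  rw [mem_filter, mem_product, mem_Ico, mem_Icc] at h
  obtain ⟨⟨⟨h1, h2⟩, h3⟩, h4⟩ := h
  refine ⟨?_, h3, h4⟩
  unfold Geo.cen
  constructor
  · linarith
  · linarith

theorem Z1_RB {g : Geo} (hg : g.Ok) : g.w < g.RB := by
  have h1 := hg.w_le g.m
  have h2 := hg.μ_pos g.m
  have h3 := hg.a_pos g.m
  unfold Geo.RB
  linarith

/-- (T4) The first successes of different cells and pairs belong to different tags. -/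
theorem sum_Fs_le {g : Geo} (hg : g.Ok) {s A : ℝ} {W : Finset (ℤ × ℤ)} (hW : g.B ⊆ W) :
    ∑ j ∈ range g.m, ∑ i ∈ g.Is j, ∑ k ∈ g.K, pr W (g.Fs s A j i k) ≤
      ∑ X ∈ g.Vs g.m 0, pr W (TagEv g.h g.w g.cB g.RB X) := by
  classical
  set I : Finset (Σ _ : ℕ, ℤ × (ℤ × ℤ)) := (range g.m).sigma fun j => g.Is j ×ˢ g.K with hI
  have hwR := Z1_RB hg
  have e1 : ∑ j ∈ range g.m, ∑ i ∈ g.Is j, ∑ k ∈ g.K, pr W (g.Fs s A j i k)
      = ∑ x ∈ I, pr W (g.Fs s A x.1 x.2.1 x.2.2) := by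
    rw [hI, sum_sigma]
    refine sum_congr rfl fun j _ => ?_
    rw [sum_product]
  rw [e1]
  simp_rw [ProbA.pr_eq_sum]
  rw [← sum_div, ← sum_div, sum_comm, sum_comm (s := g.Vs g.m 0)]
  refine div_le_div_of_nonneg_right (sum_le_sum fun T _ => ?_) (by positivity)
  set ω := cfg T with hω
  rw [sum_boole, sum_boole]
  have hsel : ∀ x ∈ I.filter fun x => ω ∈ g.Fs s A x.1 x.2.1 x.2.2, ∃ X ∈ g.Vs x.1 x.2.1,
      ω ∈ TagEv g.h g.w g.cB g.RB X ∧ ω ∈ Exit g.h g.w g.cB g.RB X x.2.2 := by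
    intro x hx
    exact (mem_filter.1 hx).2.1
  let F : (Σ _ : ℕ, ℤ × (ℤ × ℤ)) → ℤ × ℤ := fun x =>
    if h : ∃ X ∈ g.Vs x.1 x.2.1,
      ω ∈ TagEv g.h g.w g.cB g.RB X ∧ ω ∈ Exit g.h g.w g.cB g.RB X x.2.2 then h.choose else 0
  have hF : ∀ x ∈ I.filter fun x => ω ∈ g.Fs s A x.1 x.2.1 x.2.2, F x ∈ g.Vs x.1 x.2.1 ∧
      ω ∈ TagEv g.h g.w g.cB g.RB (F x) ∧ ω ∈ Exit g.h g.w g.cB g.RB (F x) x.2.2 := by
    intro x hx
    have h := hsel x hx
    have e : F x = h.choose := dif_pos h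
    rw [e]
    exact h.choose_spec
  have key : ∀ x ∈ I.filter fun x => ω ∈ g.Fs s A x.1 x.2.1 x.2.2,
      ∀ y ∈ I.filter fun x => ω ∈ g.Fs s A x.1 x.2.1 x.2.2, F x = F y → x.1 ≤ y.1 → x = y := by
    intro x hx y hy hxy hle
    obtain ⟨hx1, hx2, hx3⟩ := hF x hx
    obtain ⟨hy1, hy2, hy3⟩ := hF y hy
    obtain ⟨hxI, hxF⟩ := mem_filter.1 hx
    obtain ⟨hyI, hyF⟩ := mem_filter.1 hy
    obtain ⟨j, i, k⟩ := x
    obtain ⟨j', i', k'⟩ := y
    simp only at hx1 hx2 hx3 hy1 hy2 hy3 hxF hyF hxy hle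
    rw [hI, mem_sigma, mem_product, mem_range] at hxI hyI
    simp only at hxI hyI
    rw [← hxy] at hy1 hy3
    set X := F ⟨j, i, k⟩ with hX
    have hpar : par X = g.col := (Z1_mem_Vs hx1).2.2
    have hkk : k = k' := by
      refine exit_unique hg.w1 hwR (X := X) (ω := ω) ?_ ?_ hx3 hy3
      · rw [hpar]; exact hxI.2.2
      · rw [hpar]; exact hyI.2.2
    subst hkk
    have hii : g.anc j i j' = i' := by
      obtain ⟨i₀, -, -, hu⟩ := hg.exists_cell (le_of_lt hyI.1)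
        (hg.vs_sub (le_of_lt hyI.1) hyI.2.1 hy1)
      rw [hu i' hy1]
      exact hu _ (hg.vs_anc hle hx1)
    rcases lt_or_eq_of_le hle with hlt | heq
    · exfalso
      have h1 := hxF.2.1 j' hlt hyI.1
      rw [hii] at h1
      exact h1 hyF.2.2
    · subst heq
      rw [Geo.anc_self] at hii
      subst hii
      rfl
  have hcard : (I.filter fun x => ω ∈ g.Fs s A x.1 x.2.1 x.2.2).card ≤
      ((g.Vs g.m 0).filter fun X => ω ∈ TagEv g.h g.w g.cB g.RB X).card := by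
    refine card_le_card_of_injOn F ?_ ?_
    · intro x hx
      have hx' := mem_coe.1 hx
      obtain ⟨h1, h2, -⟩ := hF x hx'
      have hxI := (mem_filter.1 hx').1
      rw [hI, mem_sigma, mem_product, mem_range] at hxI
      rw [mem_coe, mem_filter]
      exact ⟨hg.vs_sub (le_of_lt hxI.1) hxI.2.1 h1, h2⟩
    · intro x hx y hy hxy
      have hx' := mem_coe.1 hx
      have hy' := mem_coe.1 hy
      rcases le_total x.1 y.1 with h | h
      · exact key x hx' y hy' hxy h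
      · exact (key y hy' x hx' hxy.symm h).symm
  exact_mod_cast hcard

/-- Some tag of the segment has no success on the levels `1 ≤ j < m`. -/
def Fail (g : Geo) (s A : ℝ) : Set Cfg :=
  {ω | ∃ X ∈ g.Vs g.m 0, ω ∈ TagEv g.h g.w g.cB g.RB X ∧ ∀ (j : ℕ) (i : ℤ), 1 ≤ j → j < g.m →
    X ∈ g.Vs j i → ω ∉ SuccX g.col g.h g.w g.cB g.RB (g.cen j i) g.M g.q (g.η j) s A X}

/-- (T5) Independence of the inside and the outside of the boxes of level `j`. -/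
theorem fail_le {g : Geo} (hg : g.Ok) {s A : ℝ} {W : Finset (ℤ × ℤ)} (hW : g.B ⊆ W) {j : ℕ}
    (hj : j < g.m) {C : ℝ} (hC : ∀ i ∈ g.Is j, ∑ X ∈ g.Vs j i, pr W (g.T0 j i X) ≤ C) :
    pr W (Fail g s A) ≤ C * ∑ i ∈ g.Is j, ∑ k ∈ g.K, pr W (g.G j i k ∩ g.NS s A j i k) := by
  classical
  have hwR := Z1_RB hg
  have hcol : ∀ j, 0 < g.μ j := fun j => by
    have h2 := hg.μ_pos j
    have h3 := hg.a_pos j
    linarith
  -- the decomposition
  have hcov : ∀ ω ∈ Fail g s A, ∃ i ∈ g.Is j, ∃ X ∈ g.Vs j i, ∃ k ∈ g.K,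
      ω ∈ g.T0 j i X ∩ (g.G j i k ∩ g.NS s A j i k) := by
    rintro ω ⟨X, hX, hT, hno⟩
    obtain ⟨i, hi, hXi, -⟩ := hg.exists_cell hj.le hX
    obtain ⟨hX1, hX2, hX3⟩ := Z1_mem_Vs hX
    obtain ⟨hXi1, -, -⟩ := Z1_mem_Vs hXi
    have hμ := hcol g.m
    have hμj := hcol j
    have b1 : g.cB - g.RB < X.1 := by
      unfold Geo.cB Geo.RB
      linarith [hX1.1]
    have b2 : X.1 < g.cB + g.RB := by
      unfold Geo.cB Geo.RB
      linarith [hX1.2]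
    obtain ⟨k, hk, he⟩ := tag_exit hg.w1 hwR b1 b2 hX2 hT
    have c1 : g.cen j i - 32 * g.μ j < X.1 := by linarith [hXi1.1]
    have c2 : X.1 < g.cen j i + 32 * g.μ j := by linarith [hXi1.2]
    have hkK : k ∈ g.K := by
      unfold Geo.K
      rw [← hX3]
      exact hk
    refine ⟨i, hi, X, hXi, k, hkK, tag_sub (hg.nest hj hi) c1 c2 hX2 hT,
      tag_Gev (hg.nest hj hi) c1 c2 hX2 hT hk he, ?_⟩
    intro j' hj' hjm hls
    have hi' : g.anc j i j' ∈ g.Is j' := hg.anc_mem hj'.le hjm.le hi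
    refine hno j' (g.anc j i j') (by omega) hjm (hg.vs_anc hj'.le hXi) ?_
    have h1 := hg.nest4 hjm hi'
    unfold Geo.Ls at hls
    unfold Geo.μ at h1
    rw [← hX3] at hls ⊢
    refine succX_of_LS ?_ ?_ (hg.η_pos j') h1 hX2 b1 b2 hk he hls
    · exact_mod_cast hg.M1
    · exact_mod_cast hg.q1
  have hterm : ∀ i ∈ g.Is j, ∀ X ∈ g.Vs j i, ∀ k ∈ g.K,
      pr W (g.T0 j i X ∩ (g.G j i k ∩ g.NS s A j i k))
        = pr W (g.T0 j i X) * pr W (g.G j i k ∩ g.NS s A j i k) := by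
    intro i hi X _ k _
    have hn := hg.nest hj hi
    have hsub : BR (g.cen j i, g.h) (32 * g.μ j) ⊆ g.B := by
      unfold Geo.B
      intro f hf
      rw [mem_BR] at hf ⊢
      have h1 := hn.left
      have h2 := hn.right
      have h3 := hn.rad
      simp only at hf ⊢
      refine ⟨?_, ?_, ?_, ?_⟩ <;> omega
    have hA := Geo.depOn_T0 (g := g) j i X
    have hB := Geo.depOn_GNS (s := s) (A := A) (k := k) hg hj hi
    rw [pr_indep hA hB disjoint_sdiff (hsub.trans hW) (sdiff_subset.trans hW),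
      pr_eq_of_depOn hA (hsub.trans hW), pr_eq_of_depOn hB (sdiff_subset.trans hW)]
  set I : Finset (Σ _ : ℤ, (ℤ × ℤ) × (ℤ × ℤ)) := (g.Is j).sigma fun i => g.Vs j i ×ˢ g.K with hI
  have h1 : pr W (Fail g s A) ≤ ∑ x ∈ I, pr W (g.T0 j x.1 x.2.1 ∩
      (g.G j x.1 x.2.2 ∩ g.NS s A j x.1 x.2.2)) := by
    refine (pr_mono W ?_).trans (pr_biUnion_le W I _)
    intro ω hω
    obtain ⟨i, hi, X, hX, k, hk, h⟩ := hcov ω hω
    rw [Set.mem_iUnion₂]
    refine ⟨⟨i, X, k⟩, ?_, h⟩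
    rw [hI, mem_sigma, mem_product]
    exact ⟨hi, hX, hk⟩
  refine h1.trans ?_
  rw [hI, sum_sigma, mul_sum]
  refine sum_le_sum fun i hi => ?_
  rw [sum_product]
  simp only
  calc ∑ X ∈ g.Vs j i, ∑ k ∈ g.K, pr W (g.T0 j i X ∩ (g.G j i k ∩ g.NS s A j i k))
      = ∑ X ∈ g.Vs j i, ∑ k ∈ g.K, pr W (g.T0 j i X) * pr W (g.G j i k ∩ g.NS s A j i k) :=
        sum_congr rfl fun X hX => sum_congr rfl fun k hk => hterm i hi X hX k hk
    _ = (∑ X ∈ g.Vs j i, pr W (g.T0 j i X)) * ∑ k ∈ g.K, pr W (g.G j i k ∩ g.NS s A j i k) := by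
        rw [sum_mul]
        exact sum_congr rfl fun X _ => (mul_sum _ _ _).symm
    _ ≤ C * ∑ k ∈ g.K, pr W (g.G j i k ∩ g.NS s A j i k) :=
        mul_le_mul_of_nonneg_right (hC i hi) (sum_nonneg fun k _ => pr_nonneg _ _)

theorem Z2_Vs {g : Geo} (hg : g.Ok) (j : ℕ) (i : ℤ) {W : Finset (ℤ × ℤ)} {C : ℝ}
    (hC : ∀ (col h w c R : ℤ) (W : Finset (ℤ × ℤ)), 1 ≤ w →
    8 * w ≤ R → BR (c, h) R ⊆ W →
      ∑ X ∈ BandV col h w (c - R / 8) (c + R / 8), pr W (TagEv h w c R X) ≤ C)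
    (hW : BR (g.cen j i, g.h) (32 * g.μ j) ⊆ W) :
    ∑ X ∈ g.Vs j i, pr W (g.T0 j i X) ≤ C := by
  have hμ := hg.μ_pos j
  have ha := hg.a_pos j
  have hw := hg.w_le j
  have h1 := hC g.col g.h g.w (g.cen j i) (32 * g.μ j) W hg.w1 (by omega) hW
  refine le_trans (sum_le_sum_of_subset_of_nonneg ?_ fun X _ _ => pr_nonneg _ _) h1
  intro X hX
  unfold Geo.Vs BandV at hX
  unfold BandV
  rw [mem_filter, mem_product, mem_Ico, mem_Icc] at hX ⊢
  refine ⟨⟨⟨?_, ?_⟩, hX.1.2⟩, hX.2⟩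
  · have h2 := hX.1.1.1
    unfold Geo.cen
    have h3 : 32 * g.μ j / 8 = 4 * g.μ j := by omega
    rw [h3]
    nlinarith
  · have h2 := hX.1.1.2
    unfold Geo.cen
    have h3 : 32 * g.μ j / 8 = 4 * g.μ j := by omega
    rw [h3]
    nlinarith

/-- The result of the multiscale argument for one segment of a band. -/
theorem seg_main {col : ℤ} (hcol : col = 0 ∨ col = 1) (hocc : OccHyp col) {s : ℝ} (hs : 0 < s)
    (hs' : s < 4 / 3) {ε : ℝ} (hε : 0 < ε) : ∃ (N : ℤ) (m : ℕ) (A : ℝ) (M₀ : ℕ), 8 ≤ N ∧ 2 ≤ m ∧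
      1 ≤ M₀ ∧ ∀ M : ℕ, M₀ ≤ M → ∃ q b₀ : ℕ, 1 ≤ q ∧ ∀ g : Geo, g.Ok → g.col = col → g.N = N → g.L = 64 →
        g.m = m → g.M = M → g.q = q → (b₀ : ℤ) ≤ g.b → ∀ W : Finset (ℤ × ℤ), g.B ⊆ W →
          pr W (Fail g s A) ≤ ε := by
  obtain ⟨N₀, hN₀⟩ := theta_step (θ := 1 / 128) (by norm_num)
  obtain ⟨κ, A, M₀, hκ, hM₀, hins⟩ := insert_step hocc hs hs' (N := max N₀ 8) (le_max_right _ _)
  obtain ⟨CG, hCG0, hCG⟩ := count_Gev
  obtain ⟨CT, hCT0, hCT⟩ := count_tags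
  obtain ⟨m, hm⟩ := exists_nat_gt (CT * (2 * 64 * (CT / κ) + 64 * CG) / ε)
  refine ⟨max N₀ 8, m + 2, A, M₀, le_max_right _ _, by omega, hM₀, fun M hM => ?_⟩
  obtain ⟨q, b₀, hq, hins⟩ := hins M hM
  refine ⟨q, b₀, hq, fun g hg gcol gN gL gm gM gq gb W hW => ?_⟩
  have hins := hins g hg gcol gN gM gq gb W hW
  have hth := hN₀ g hg (by rw [gN]; exact le_max_left _ _) s A W hW
  -- the sums
  set a : ℕ → ℝ := fun j => ∑ i ∈ g.Is j, ∑ k ∈ g.K, pr W (g.G j i k ∩ g.NS s A j i k) with ha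
  set y : ℕ → ℝ := fun j => ∑ i ∈ g.Is j, ∑ k ∈ g.K,
    pr W (g.G j i k ∩ g.NS s A j i k ∩ g.Sep j i k) with hy
  have ha0 : ∀ j, 0 ≤ a j := fun j =>
    sum_nonneg fun i _ => sum_nonneg fun k _ => pr_nonneg _ _
  have hy0 : ∀ j, 0 ≤ y j := fun j =>
    sum_nonneg fun i _ => sum_nonneg fun k _ => pr_nonneg _ _
  have hBW : ∀ j < g.m, ∀ i ∈ g.Is j, BR (g.cen j i, g.h) (32 * g.μ j) ⊆ W := by
    intro j hj i hi
    obtain ⟨n1, n2, n3, n4, n5⟩ := hg.nest hj hi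
    refine Subset.trans ?_ hW
    intro f hf
    unfold Geo.B
    rw [mem_BR] at hf ⊢
    dsimp only at hf ⊢
    omega
  -- (T1)
  have h0 : a (m + 1) ≤ 64 * CG := by
    have hmm : m + 1 < g.m := by omega
    have hIs : (g.Is (m + 1)).card = 64 := by
      unfold Geo.Is
      rw [gm, gL, show m + 2 - (m + 1) = 1 by omega]
      simp
    have h1 : ∀ i ∈ g.Is (m + 1), ∑ k ∈ g.K, pr W (g.G (m + 1) i k ∩ g.NS s A (m + 1) i k) ≤
        CG := by
      intro i hi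
      have hn := hg.nest hmm hi
      have hμ := hg.μ_pos (m + 1)
      have hap := hg.a_pos (m + 1)
      have hμs : g.μ g.m = 64 * g.μ (m + 1) := by
        rw [gm, Geo.μ_succ g (m + 1), gL]
        norm_num
      have hi' : 0 ≤ i ∧ i < 64 := by
        unfold Geo.Is at hi
        rw [gm, gL, show m + 2 - (m + 1) = 1 by omega, mem_Ico] at hi
        simpa using hi
      refine le_trans (sum_le_sum fun k _ => ?_) (hCG g.col g.h g.w g.cB g.RB (g.cen (m + 1) i)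
        (32 * g.μ (m + 1)) W hn ?_ ?_ ?_ hW)
      · exact pr_mono W fun ω hω => hω.1
      · unfold Geo.cB Geo.cen
        rw [hμs]
        nlinarith [hi'.1, hi'.2]
      · unfold Geo.cB Geo.cen
        rw [hμs]
        nlinarith [hi'.1, hi'.2]
      · unfold Geo.RB
        rw [hμs]
        linarith
    calc a (m + 1) ≤ ∑ i ∈ g.Is (m + 1), CG := sum_le_sum h1
      _ = 64 * CG := by rw [sum_const, hIs, nsmul_eq_mul]; norm_num
  -- (T2)
  have h1 : ∀ j < m + 1, a j ≤ 64 * y (j + 1) + a (j + 1) / 2 := by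
    intro j hj
    have hj' : j + 1 < g.m := by omega
    have e1 : a j ≤ ∑ i ∈ g.Is j, (fun i' => (∑ k ∈ g.K,
        pr W (g.G (j + 1) i' k ∩ g.NS s A (j + 1) i' k ∩ g.Sep (j + 1) i' k)) +
        1 / 128 * ∑ k ∈ g.K, pr W (g.G (j + 1) i' k ∩ g.NS s A (j + 1) i' k))
        (g.anc j i (j + 1)) := by
      refine sum_le_sum fun i hi => ?_
      beta_reduce
      rw [mul_sum, ← sum_add_distrib]
      exact sum_le_sum fun k hk => hth j hj' i hi k hk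
    rw [hg.children (by omega : j < g.m) (fun i' => (∑ k ∈ g.K,
        pr W (g.G (j + 1) i' k ∩ g.NS s A (j + 1) i' k ∩ g.Sep (j + 1) i' k)) +
        1 / 128 * ∑ k ∈ g.K, pr W (g.G (j + 1) i' k ∩ g.NS s A (j + 1) i' k)) fun i => ?_] at e1
    · rw [sum_add_distrib, ← mul_sum, gL] at e1
      push_cast at e1
      have e2 : a (j + 1) = ∑ i ∈ g.Is (j + 1), ∑ k ∈ g.K,
        pr W (g.G (j + 1) i k ∩ g.NS s A (j + 1) i k) := rfl
      have e3 : y (j + 1) = ∑ i ∈ g.Is (j + 1), ∑ k ∈ g.K,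
        pr W (g.G (j + 1) i k ∩ g.NS s A (j + 1) i k ∩ g.Sep (j + 1) i k) := rfl
      rw [← e2, ← e3] at e1
      linarith
    · have e2 : 0 ≤ ∑ k ∈ g.K, pr W (g.G (j + 1) i k ∩ g.NS s A (j + 1) i k) :=
        sum_nonneg fun k _ => pr_nonneg _ _
      have e3 : 0 ≤ ∑ k ∈ g.K,
          pr W (g.G (j + 1) i k ∩ g.NS s A (j + 1) i k ∩ g.Sep (j + 1) i k) :=
        sum_nonneg fun k _ => pr_nonneg _ _
      positivity
  -- (T3), (T4)
  have h2 : ∑ j ∈ range (m + 1 + 1), y j ≤ CT / κ := by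
    rw [le_div_iff₀ hκ, mul_comm, mul_sum]
    have e1 : ∑ j ∈ range (m + 1 + 1), κ * y j ≤
        ∑ j ∈ range g.m, ∑ i ∈ g.Is j, ∑ k ∈ g.K, pr W (g.Fs s A j i k) := by
      rw [show m + 1 + 1 = g.m by omega]
      refine sum_le_sum fun j hj => ?_
      rw [hy]
      beta_reduce
      rw [mul_sum]
      refine sum_le_sum fun i hi => ?_
      rw [mul_sum]
      exact sum_le_sum fun k hk => hins j (mem_range.1 hj) i hi k hk
    refine le_trans e1 (le_trans (sum_Fs_le hg hW) ?_)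
    exact Z2_Vs hg g.m 0 hCT hW
  obtain ⟨j, hj, hjA⟩ := sum_abstract (m := m + 1) (by omega) (L := 64) (by norm_num) a y ha0 hy0
    h0 h1 h2
  have hjm : j < g.m := by omega
  have hfail := fail_le (s := s) (A := A) hg hW hjm (C := CT) fun i hi =>
    Z2_Vs hg j i hCT (hBW j hjm i hi)
  refine hfail.trans ?_
  have e1 : ∑ i ∈ g.Is j, ∑ k ∈ g.K, pr W (g.G j i k ∩ g.NS s A j i k) = a j := rfl
  rw [e1]
  have hm1 : (0 : ℝ) < ((m + 1 : ℕ) : ℝ) := by positivity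
  have e2 : CT * a j ≤ CT * ((2 * 64 * (CT / κ) + 64 * CG) / ((m + 1 : ℕ) : ℝ)) :=
    mul_le_mul_of_nonneg_left hjA hCT0.le
  refine e2.trans ?_
  rw [← mul_div_assoc, div_le_iff₀ hm1]
  rw [div_lt_iff₀ hε] at hm
  push_cast
  nlinarith

end Pool.Agent.Perc6
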