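import Pool.Agent.Lib.MP_6bd702_perc6.BcTag
import Pool.Agent.Lib.MP_6bd702_perc6.BcCell
import Pool.Agent.Lib.MP_6bd702_perc6.Sum
import Pool.Agent.Lib.MP_6bd702_pr_h60.C1Lat

/-!
# The union bound for the largest cluster
-/

set_option autoImplicit false

namespace Pool.Agent.PercBc

open Finset Filter Topology
open Pool.Agent.Perc Pool.Agent.PercD Pool.Agent.PercS5 Pool.Agent.Perc6
open Pool.Agent.PercX60 (Sn)

/-! ### The rare events -/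

theorem pr_longH {θ : ℝ} (hθ : ∀ (col x y w : ℤ) (N : ℕ), 0 < w →
    pr (RF x (x + 2 * w * N) (y - w) (y + w)) (Blocks col x y w N) ≤ θ ^ N) {Δ x y : ℤ} {N : ℕ}
    (hΔ : 0 < Δ) {W : Finset (ℤ × ℤ)} (hW : RF x (x + 6 * Δ * N) y (y + 6 * Δ) ⊆ W) :
    pr W (LongH x (6 * Δ * N) (Strip y (y + 6 * Δ))) ≤ 2 * θ ^ N := by
  have e : (2 : ℤ) * (3 * Δ) * N = 6 * Δ * N := by ring
  refine (pr_mono _ ?_).trans (pr_long hθ (x := x) (y := y + 3 * Δ) (w := 3 * Δ) (N := N) (by omega)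
    (F := Strip y (y + 6 * Δ)) (fun f hf => ?_) (W := W) ?_)
  · rintro ω ⟨a, b, h1, h2, h3⟩
    exact ⟨a, b, h1, by rw [e]; exact h2, h3⟩
  · have h1 : y ≤ f.2 ∧ f.2 < y + 6 * Δ := hf
    omega
  · rw [e]
    refine Subset.trans ?_ hW
    intro f hf
    rw [mem_RFi] at hf ⊢
    omega

theorem pr_arm {C β : ℝ} (hC : ∀ (col : ℤ) (p : ℤ × ℤ) (r R : ℤ), 0 < r → r ≤ R →
    pr (RFb p R) (ArmB col p r R) ≤ C * ((r : ℝ) / R) ^ β) {p : ℤ × ℤ} {r R : ℤ} (hr : 0 < r)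
    (hR : r ≤ R) {W : Finset (ℤ × ℤ)} (hW : RFb p R ⊆ W) :
    pr W (ArmB 0 p r R) ≤ C * ((r : ℝ) / R) ^ β := by
  rw [pr_eq_of_depOn (depOn_ArmB 0 p r R) hW]
  exact hC 0 p r R hr hR

/-! ### The parameters -/

/-- The geometry of the segment `l` of the band `i`. -/
def gm (Δ κ μ b N' : ℤ) (M q lev : ℕ) (i l : ℤ) : Geo where
  h := i * Δ
  w := M * q * b
  x₀ := |i * Δ| + κ + 2 * μ * l
  col := 0
  b := b
  N := N'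
  L := 64
  M := M
  q := q
  m := lev

variable {n m p a₀ N J L lev b M q : ℕ} {s A₀ c₀ : ℝ} {D Δ κ R N' : ℤ}

/-- The deterministic statement. -/
theorem good_det (hn : 0 < n) {ω : Cfg} {u : ℤ × ℤ} (hu : u ∈ Box n) (hΔ : 0 < Δ)
    (hJ : (n : ℤ) ≤ 2 * J * Δ) (hJ1 : 1 ≤ J) (hD : 6 * Δ * (N + 2) ≤ D) (hD0 : 0 < D)
    (hdiam : (D : ℝ) ≤ Metric.diam (clS (cfgE n ω) u)) (hR : 4 * R ≤ D)
    (hM : 1 ≤ M) (hq : 1 ≤ q) (hb : 1 ≤ b) (hN : 8 ≤ N')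
    (hκR : κ ≤ R) (hμκ : 65 * ((M : ℤ) * q * (N' * b * 64 ^ lev)) ≤ κ)
    (hL : (n : ℤ) ≤ L * ((M : ℤ) * q * (N' * b * 64 ^ lev)))
    (hη : ∀ j, 1 ≤ j → j < lev → (N' * b * 64 ^ j : ℤ) ≤ 4 * (M * q * b) ∧
      1 + 4 * n / 2 ^ p ≤ (((N' * b * 64 ^ j : ℤ) : ℝ)) / 4 ∧
      4 * (((q : ℤ) * (N' * b * 64 ^ j) : ℤ) : ℝ) * 2 ^ m ≤ n ∧
      c₀ ≤ (((M : ℤ) * q * (N' * b * 64 ^ j) : ℤ) : ℝ) / (4 * n))
    (hpm : (4 : ℝ) * 2 ^ m ≤ 2 ^ p) (hs : 0 < s) (hc₀ : 0 < c₀)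
    (hlong : ∀ j ∈ Icc (-(2 * J : ℤ)) (2 * J), ∀ k ∈ Icc (0 : ℤ) J,
      ω ∉ LongH (6 * Δ * k) (6 * Δ * N) (Strip (j * Δ) (j * Δ + 6 * Δ)))
    (harm : ∀ i ∈ Icc (-(2 * J : ℤ)) (2 * J), ω ∉ ArmB 0 (|i * Δ|, i * Δ) κ R ∧
      ω ∉ ArmB 0 (2 * n - |i * Δ|, i * Δ) κ R)
    (hfail : ∀ i ∈ Icc (-(2 * J : ℤ)) (2 * J), ∀ l ∈ Icc (0 : ℤ) L,
      ω ∉ Fail (gm Δ κ ((M : ℤ) * q * (N' * b * 64 ^ lev)) b N' M q lev i l) s A₀) :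
    Good s m (A₀ * c₀ ^ (-s)) (GO p m (perK n (cfgE n ω) u : Set ℂ)) := by
  set μ : ℤ := (M : ℤ) * q * (N' * b * 64 ^ lev) with hμ
  have hMq : (1 : ℤ) ≤ (M : ℤ) * q := by
    have h1 : (1 : ℤ) ≤ M := by exact_mod_cast hM
    have h2 : (1 : ℤ) ≤ q := by exact_mod_cast hq
    nlinarith
  have hb' : (1 : ℤ) ≤ b := by exact_mod_cast hb
  have hw1 : (1 : ℤ) ≤ M * q * b := by nlinarith
  have h64 : (1 : ℤ) ≤ 64 ^ lev := one_le_pow₀ (by norm_num)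
  have hwμ : (M : ℤ) * q * b ≤ μ := by
    have e : μ = ((M : ℤ) * q * b) * (N' * 64 ^ lev) := by rw [hμ]; ring
    have h1 : (1 : ℤ) ≤ N' * 64 ^ lev := by nlinarith
    rw [e]
    nlinarith
  have hμ0 : 0 < μ := by omega
  obtain ⟨i, hi, l, hl, X, hX1, hX2, hXb, ht, hTag, hsub⟩ := exists_tag (N := N) (J := J) (L := L)
    (κ := κ) (R := R) (w := M * q * b) (μ := μ) hu hΔ hJ hJ1 hD hD0 hdiam hlong hR (by omega)
    (by omega) hκR harm hμ0 hμκ (by omega) hL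
  have hnf := hfail i hi l hl
  set g : Geo := gm Δ κ μ b N' M q lev i l with hg
  have hgμ : ∀ j, g.μ j = M * q * (N' * b * 64 ^ j) := fun j => by
    simp [Geo.μ, Geo.η, hg, gm]
  have hcB : g.cB = |i * Δ| + κ + 2 * μ * l + μ := by
    have h1 : g.cB = (|i * Δ| + κ + 2 * μ * l) + (2 * 0 + 1) * g.μ lev := rfl
    rw [h1, hgμ, ← hμ]
    ring
  have hRB : g.RB = 32 * μ := by
    have h1 : g.RB = 32 * g.μ lev := rfl
    rw [h1, hgμ, ← hμ]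
  have hXV : X ∈ g.Vs g.m 0 := by
    have h1 : g.Vs g.m 0 = BandV 0 (i * Δ) (M * q * b)
      ((|i * Δ| + κ + 2 * μ * l) + 2 * 0 * g.μ lev)
      ((|i * Δ| + κ + 2 * μ * l) + 2 * (0 + 1) * g.μ lev) := rfl
    rw [h1, hgμ, ← hμ]
    unfold BandV
    rw [mem_filter, mem_product, mem_Ico, mem_Icc]
    have hpar := CL_par ht.mem
    refine ⟨⟨⟨by omega, by omega⟩, hXb⟩, ?_⟩
    unfold par
    omega
  have hex : ∃ (j : ℕ) (i' : ℤ), 1 ≤ j ∧ j < g.m ∧ X ∈ g.Vs j i' ∧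
      ω ∈ SuccX g.col g.h g.w g.cB g.RB (g.cen j i') g.M g.q (g.η j) s A₀ X := by
    by_contra hcon
    push Not at hcon
    refine hnf ⟨X, hXV, ?_, fun j i' h1 h2 h3 => hcon j i' h1 h2 h3⟩
    rw [hcB, hRB]
    exact hTag
  obtain ⟨j, i', hj1, hj2, hXj, hsucc⟩ := hex
  have hj2' : j < lev := hj2
  obtain ⟨e1, e2, e3, e4⟩ := hη j hj1 hj2'
  have hηj : g.η j = N' * b * 64 ^ j := by simp [Geo.η, hg, gm]
  rw [hηj] at hsucc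
  rw [hcB, hRB] at hsucc
  have h64j : (1 : ℤ) ≤ 64 ^ j := one_le_pow₀ (by norm_num)
  refine good_of_succ (M := (M : ℤ)) (q := (q : ℤ)) (η := N' * b * 64 ^ j) (h := i * Δ)
    (w := M * q * b) (cB := |i * Δ| + κ + 2 * μ * l + μ) (RB := 32 * μ) (c := g.cen j i') hn hu ht
    hsub ?_ (by exact_mod_cast hM) (by exact_mod_cast hq) ?_ e1 e2 hpm e3 hs hc₀ e4 hsucc
  · have h1 : X ∈ BandV 0 (i * Δ) (M * q * b)
      ((|i * Δ| + κ + 2 * μ * l) + 2 * i' * g.μ j)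
      ((|i * Δ| + κ + 2 * μ * l) + 2 * (i' + 1) * g.μ j) := hXj
    unfold BandV at h1
    rw [mem_filter, mem_product, mem_Ico] at h1
    have h2 : g.cen j i' = (|i * Δ| + κ + 2 * μ * l) + (2 * i' + 1) * g.μ j := rfl
    have h3 := h1.1.1.2
    have h4 : 0 < g.μ j := by
      rw [hgμ]
      positivity
    rw [h2, ← hgμ j]
    nlinarith
  · have h5 : (0 : ℤ) < N' * b * 64 ^ j := mul_pos (mul_pos (by omega) (by omega)) (by positivity)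
    omega

/-- The union bound. -/
theorem prB_not_good (hn : 0 < n) {sel : Finset Edg → ℤ × ℤ} (hsel : IsSel n sel)
    {D : ℕ} {κ R : ℕ} {e₁ e₂ e₃ e₄ : ℝ} (hΔ : 0 < Δ)
    (hJ : (n : ℤ) ≤ 2 * J * Δ) (hJ1 : 1 ≤ J) (hD : 6 * Δ * (N + 2) ≤ D) (hD0 : 0 < D)
    (hR : 4 * (R : ℤ) ≤ D)
    (hM : 1 ≤ M) (hq : 1 ≤ q) (hb : 1 ≤ b) (hN : 8 ≤ N')
    (hκR : (κ : ℤ) ≤ R) (hμκ : 65 * ((M : ℤ) * q * (N' * b * 64 ^ lev)) ≤ κ)
    (hL : (n : ℤ) ≤ L * ((M : ℤ) * q * (N' * b * 64 ^ lev)))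
    (hη : ∀ j, 1 ≤ j → j < lev → (N' * b * 64 ^ j : ℤ) ≤ 4 * (M * q * b) ∧
      1 + 4 * n / 2 ^ p ≤ (((N' * b * 64 ^ j : ℤ) : ℝ)) / 4 ∧
      4 * (((q : ℤ) * (N' * b * 64 ^ j) : ℤ) : ℝ) * 2 ^ m ≤ n ∧
      c₀ ≤ (((M : ℤ) * q * (N' * b * 64 ^ j) : ℤ) : ℝ) / (4 * n))
    (hpm : (4 : ℝ) * 2 ^ m ≤ 2 ^ p) (hs : 0 < s) (hc₀ : 0 < c₀)
    (h1 : prB n {T | ∀ v ∈ Box n, Metric.diam (clS T v) < D} ≤ e₁)
    {W : Finset (ℤ × ℤ)} (hW : Sn n ⊆ W)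
    (h2 : ∀ j ∈ Icc (-(2 * J : ℤ)) (2 * J), ∀ k ∈ Icc (0 : ℤ) J,
      pr W (LongH (6 * Δ * k) (6 * Δ * N) (Strip (j * Δ) (j * Δ + 6 * Δ))) ≤ e₂)
    (h3 : ∀ i ∈ Icc (-(2 * J : ℤ)) (2 * J), pr W (ArmB 0 (|i * Δ|, i * Δ) κ R) ≤ e₃ ∧
      pr W (ArmB 0 (2 * n - |i * Δ|, i * Δ) κ R) ≤ e₃)
    (h4 : ∀ i ∈ Icc (-(2 * J : ℤ)) (2 * J), ∀ l ∈ Icc (0 : ℤ) L,
      pr W (Fail (gm Δ κ ((M : ℤ) * q * (N' * b * 64 ^ lev)) b N' M q lev i l) s A₀) ≤ e₄) :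
    prB n {T | ¬ Good s m (A₀ * c₀ ^ (-s)) (GO p m (perK n T (sel T) : Set ℂ))} ≤
      e₁ + (4 * J + 1) * ((J + 1) * e₂) + (4 * J + 1) * (2 * e₃) + (4 * J + 1) * ((L + 1) * e₄) := by
  classical
  set I : Finset ℤ := Icc (-(2 * J : ℤ)) (2 * J) with hI
  have hIc : (I.card : ℝ) = 4 * J + 1 := by
    have : I.card = 4 * J + 1 := by
      rw [hI, Int.card_Icc]
      omega
    rw [this]
    push_cast
    ring
  have hcK : ∀ K : ℕ, ((Icc (0 : ℤ) K).card : ℝ) = K + 1 := by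
    intro K
    have : (Icc (0 : ℤ) K).card = K + 1 := by
      rw [Int.card_Icc]
      omega
    rw [this]
    push_cast
    ring
  set g : ℤ → ℤ → Geo := gm Δ κ ((M : ℤ) * q * (N' * b * 64 ^ lev)) b N' M q lev with hg
  set E1 : Set Cfg := {ω | cfgE n ω ∈ {T : Finset Edg | ∀ v ∈ Box n, Metric.diam (clS T v) < D}}
    with hE1
  set E2 : Set Cfg := {ω | ∃ j ∈ I, ω ∈ {ω | ∃ k ∈ Icc (0 : ℤ) J,
    ω ∈ LongH (6 * Δ * k) (6 * Δ * N) (Strip (j * Δ) (j * Δ + 6 * Δ))}} with hE2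
  set E3 : Set Cfg := {ω | ∃ i ∈ I, ω ∈ (ArmB 0 (|i * Δ|, i * Δ) κ R ∪
    ArmB 0 (2 * n - |i * Δ|, i * Δ) κ R : Set Cfg)} with hE3
  set E4 : Set Cfg := {ω | ∃ i ∈ I, ω ∈ {ω | ∃ l ∈ Icc (0 : ℤ) L, ω ∈ Fail (g i l) s A₀}} with hE4
  rw [← pr_box hW]
  have hsub : ∀ ω ∈ {ω : Cfg | cfgE n ω ∈ {T : Finset Edg |
      ¬ Good s m (A₀ * c₀ ^ (-s)) (GO p m (perK n T (sel T) : Set ℂ))}},
      ω ∈ ((E1 ∪ E2) ∪ E3) ∪ E4 := by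
    intro ω hω
    by_contra hcon
    rw [Set.mem_union, Set.mem_union, Set.mem_union] at hcon
    push Not at hcon
    obtain ⟨⟨⟨n1, n2⟩, n3⟩, n4⟩ := hcon
    refine hω ?_
    obtain ⟨hu, hmax⟩ := hsel (cfgE n ω) (DictB.cfgE_subset n ω)
    have hdiam : ((D : ℤ) : ℝ) ≤ Metric.diam (clS (cfgE n ω) (sel (cfgE n ω))) := by
      by_contra hc
      push Not at hc
      refine n1 fun v hv => ?_
      have h5 := hmax v hv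
      have h6 : ((D : ℤ) : ℝ) = (D : ℝ) := by norm_cast
      rw [h6] at hc
      linarith
    refine good_det (N := N) (J := J) (L := L) (lev := lev) (D := (D : ℤ)) hn hu hΔ hJ hJ1 hD
      (by exact_mod_cast hD0) hdiam hR hM hq hb hN hκR hμκ hL hη hpm hs hc₀ ?_ ?_ ?_
    · intro j hj k hk hω'
      exact n2 ⟨j, hj, k, hk, hω'⟩
    · intro i hi
      exact ⟨fun h => n3 ⟨i, hi, Or.inl h⟩, fun h => n3 ⟨i, hi, Or.inr h⟩⟩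
    · intro i hi l hl hω'
      exact n4 ⟨i, hi, l, hl, hω'⟩
  refine (pr_mono _ hsub).trans ?_
  have b1 : pr W E1 ≤ e₁ := by
    rw [hE1, pr_box hW]
    exact h1
  have b2 : pr W E2 ≤ (4 * J + 1) * ((J + 1) * e₂) := by
    refine (PercL.pr_biUnion_le I _).trans ?_
    rw [← hIc, ← nsmul_eq_mul]
    refine sum_le_card_nsmul _ _ _ fun j hj => ?_
    refine (PercL.pr_biUnion_le (Icc (0 : ℤ) J) _).trans ?_
    rw [← hcK, ← nsmul_eq_mul]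
    exact sum_le_card_nsmul _ _ _ fun k hk => h2 j hj k hk
  have b3 : pr W E3 ≤ (4 * J + 1) * (2 * e₃) := by
    refine (PercL.pr_biUnion_le I _).trans ?_
    rw [← hIc, ← nsmul_eq_mul]
    refine sum_le_card_nsmul _ _ _ fun i hi => ?_
    refine (pr_union_le _ _ _).trans ?_
    have := h3 i hi
    linarith [this.1, this.2]
  have b4 : pr W E4 ≤ (4 * J + 1) * ((L + 1) * e₄) := by
    refine (PercL.pr_biUnion_le I _).trans ?_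
    rw [← hIc, ← nsmul_eq_mul]
    refine sum_le_card_nsmul _ _ _ fun i hi => ?_
    refine (PercL.pr_biUnion_le (Icc (0 : ℤ) L) _).trans ?_
    rw [← hcK, ← nsmul_eq_mul]
    exact sum_le_card_nsmul _ _ _ fun l hl => h4 i hi l hl
  refine (pr_union_le _ _ _).trans (add_le_add ?_ b4)
  refine (pr_union_le _ _ _).trans (add_le_add ?_ b3)
  exact (pr_union_le _ _ _).trans (add_le_add b1 b2)

end Pool.Agent.PercBc
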