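import Pool.Agent.Lib.MP_6bd702_perc6.BcGood

/-!
# The largest cluster has a tag in the bulk
-/

set_option autoImplicit false

namespace Pool.Agent.PercBc

open Relation
open Pool.Agent.Perc Pool.Agent.PercD Pool.Agent.Perc6
open Pool.Agent.PercX60 (Sn)

variable {n : ℕ} {ω : Cfg} {u : ℤ × ℤ} {h w D Δ κ R μ : ℤ}

/-- A long horizontal connection in a strip (as in the upper bound). -/
def LongH (x l : ℤ) (F : Set (ℤ × ℤ)) : Set Cfg :=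
  {ω | ∃ a b : ℤ × ℤ, a.1 ≤ x ∧ x + l ≤ b.1 ∧ Conn ω F a b}

/-- The faces of a horizontal strip. -/
def Strip (y₀ y₁ : ℤ) : Set (ℤ × ℤ) := {f | y₀ ≤ f.2 ∧ f.2 < y₁}

/-- A connection whose vertices are in the strip uses the faces of the strip. -/
theorem conn_strip {F : Set (ℤ × ℤ)} {a b : ℤ × ℤ} {y₀ y₁ : ℤ}
    (hC : ∀ c, Conn ω F a c → y₀ ≤ c.2 ∧ c.2 ≤ y₁) (hab : Conn ω F a b) :
    Conn ω (Strip y₀ y₁) a b := by
  induction hab with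
  | refl => exact .refl
  | @tail c d hac hb ih =>
    refine ih.tail ?_
    have h1 := hC c hac
    have h2 := hC d (hac.tail hb)
    obtain ⟨x, y, -, hh⟩ := hb
    refine ⟨x, y, ?_, hh⟩
    show y₀ ≤ y ∧ y < y₁
    rcases hh with ⟨-, ⟨rfl, rfl⟩ | ⟨rfl, rfl⟩⟩ | ⟨-, ⟨rfl, rfl⟩ | ⟨rfl, rfl⟩⟩ <;>
      simp only at h1 h2 <;> omega

/-- The heights of the vertices of a connection. -/
theorem conn_height {F : Set (ℤ × ℤ)} {a b : ℤ × ℤ} (hab : Conn ω F a b) (h1 : a.2 ≤ h)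
    (h2 : h ≤ b.2) : ∃ c, Conn ω F a c ∧ c.2 = h := by
  induction hab with
  | refl => exact ⟨a, .refl, by omega⟩
  | @tail c d hac hb ih =>
    by_cases hc : h ≤ c.2
    · exact ih hc
    · refine ⟨d, hac.tail hb, ?_⟩
      obtain ⟨x, y, -, hh⟩ := hb
      rcases hh with ⟨-, ⟨rfl, rfl⟩ | ⟨rfl, rfl⟩⟩ | ⟨-, ⟨rfl, rfl⟩ | ⟨rfl, rfl⟩⟩ <;>
        simp only at h2 hc ⊢ <;> omega

/-- The vertical extent of the cluster is large. -/
theorem exists_tall {N J : ℕ} (hu : u ∈ Box n) (hΔ : 0 < Δ) (hJ : (n : ℤ) ≤ 2 * J * Δ)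
    (hJ1 : 1 ≤ J)
    (hD : 6 * Δ * (N + 2) ≤ D) (hD0 : 0 < D)
    (hdiam : (D : ℝ) ≤ Metric.diam (clS (cfgE n ω) u))
    (hlong : ∀ j ∈ Finset.Icc (-(2 * J : ℤ)) (2 * J), ∀ k ∈ Finset.Icc (0 : ℤ) J,
      ω ∉ LongH (6 * Δ * k) (6 * Δ * N) (Strip (j * Δ) (j * Δ + 6 * Δ))) :
    ∃ a ∈ CL n ω u, ∃ b ∈ CL n ω u, a.2 + 4 * Δ ≤ b.2 := by
  by_contra hcon
  push Not at hcon
  obtain ⟨lo, hlo, hmin⟩ := Set.exists_min_image (CL n ω u) (fun c => c.2) (CL_finite hu)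
    CL_nonempty
  have hj0 : (lo.2 / Δ) * Δ ≤ lo.2 := Int.ediv_mul_le _ hΔ.ne'
  have hj1 : lo.2 < (lo.2 / Δ) * Δ + Δ := Int.lt_ediv_add_one_mul_self lo.2 hΔ |>.trans_eq (by ring)
  have hdl := CL_diamond hu hlo
  have hab1 := abs_nonneg (lo.1 - n)
  have hab2 := neg_abs_le lo.2
  have hab3 := le_abs_self lo.2
  have hj : lo.2 / Δ ∈ Finset.Icc (-(2 * J : ℤ)) (2 * J) := by
    rw [Finset.mem_Icc]
    constructor
    · rw [Int.le_ediv_iff_mul_le hΔ]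
      nlinarith
    · have : lo.2 / Δ < 2 * J + 1 := by
        rw [Int.ediv_lt_iff_lt_mul hΔ]
        nlinarith
      omega
  have key : ∀ a ∈ CL n ω u, ∀ b ∈ CL n ω u, a.1 ≤ b.1 →
      (D : ℝ) < ((|a.1 - b.1| + |a.2 - b.2| : ℤ) : ℝ) → False := by
    intro a ha b hb hab hd
    have hd' : D < |a.1 - b.1| + |a.2 - b.2| := by exact_mod_cast hd
    have h1 := hcon a ha b hb
    have h2 := hcon b hb a ha
    have h3 : |a.2 - b.2| < 4 * Δ := by rw [abs_lt]; omega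
    rw [abs_of_nonpos (by omega : a.1 - b.1 ≤ 0)] at hd'
    have hda := CL_diamond hu ha
    have hda1 := neg_abs_le (a.1 - n)
    have hda2 := abs_nonneg a.2
    have hda3 := le_abs_self (a.1 - n)
    have h6 : 0 < 6 * Δ := by omega
    -- the grid point
    set k : ℤ := -((-a.1) / (6 * Δ)) with hk
    have hk1 : (-a.1) / (6 * Δ) * (6 * Δ) ≤ -a.1 := Int.ediv_mul_le _ h6.ne'
    have hk2 : -a.1 < (-a.1) / (6 * Δ) * (6 * Δ) + 6 * Δ :=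
      (Int.lt_ediv_add_one_mul_self (-a.1) h6).trans_eq (by ring)
    have hk3 : a.1 ≤ 6 * Δ * k := by rw [hk]; linarith
    have hk4 : 6 * Δ * k < a.1 + 6 * Δ := by rw [hk]; linarith
    have hkm : k ∈ Finset.Icc (0 : ℤ) J := by
      rw [Finset.mem_Icc]
      constructor
      · by_contra hc
        have : 6 * Δ * k ≤ 6 * Δ * (-1) := mul_le_mul_of_nonneg_left (by omega) (by omega)
        omega
      · by_contra hc
        have h7 : 6 * Δ * ((J : ℤ) + 1) ≤ 6 * Δ * k := mul_le_mul_of_nonneg_left (by omega) (by omega)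
        have h8 : a.1 ≤ 2 * n := by omega
        have h9 : 6 * Δ * ((J : ℤ) + 1) = 6 * (J * Δ) + 6 * Δ := by ring
        have h10 : (2 : ℤ) * J * Δ = 2 * (J * Δ) := by ring
        have h11 : 0 < (J : ℤ) * Δ := by positivity
        omega
    refine hlong _ hj k hkm ⟨a, b, hk3, ?_, ?_⟩
    · have h12 : 6 * Δ * (N + 2) = 6 * Δ * N + 12 * Δ := by ring
      rw [h12] at hD
      omega
    · refine conn_strip (F := Sn n) (fun c hc => ?_) (CL_conn ha hb)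
      have hcC := CL_of_conn ha hc
      have h13 := hmin c hcC
      have h14 := hcon lo hlo c hcC
      omega
  obtain ⟨a, ha, b, hb, hd⟩ := exists_far (by exact_mod_cast hD0 : (0 : ℝ) < D) hdiam
  rcases le_total a.1 b.1 with h1 | h1
  · exact key a ha b hb h1 hd
  · refine key b hb a ha h1 ?_
    rwa [abs_sub_comm b.1, abs_sub_comm b.2]

/-- The cluster meets one of the bands. -/
theorem exists_band {J : ℕ} (hu : u ∈ Box n) (hΔ : 0 < Δ) (hJ : (n : ℤ) ≤ 2 * J * Δ)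
    (htall : ∃ a ∈ CL n ω u, ∃ b ∈ CL n ω u, a.2 + 4 * Δ ≤ b.2) :
    ∃ i ∈ Finset.Icc (-(2 * J : ℤ)) (2 * J), |i * Δ| ≤ n - Δ ∧ ∃ c ∈ CL n ω u, c.2 = i * Δ := by
  obtain ⟨a, ha, b, hb, hab⟩ := htall
  have h1 : (a.2 / Δ) * Δ ≤ a.2 := Int.ediv_mul_le _ hΔ.ne'
  have h2 : a.2 < (a.2 / Δ) * Δ + Δ := (Int.lt_ediv_add_one_mul_self a.2 hΔ).trans_eq (by ring)
  have hda := CL_diamond hu ha
  have hdb := CL_diamond hu hb
  have a1 := abs_nonneg (a.1 - n)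
  have a2 := neg_abs_le a.2
  have b1 := abs_nonneg (b.1 - n)
  have b2 := le_abs_self b.2
  set i : ℤ := a.2 / Δ + 2 with hi
  have e : i * Δ = (a.2 / Δ) * Δ + 2 * Δ := by rw [hi]; ring
  have hiΔ : |i * Δ| ≤ n - Δ := by rw [abs_le]; omega
  refine ⟨i, ?_, hiΔ, ?_⟩
  · rw [abs_le] at hiΔ
    rw [Finset.mem_Icc]
    constructor
    · by_contra hc
      have : i * Δ ≤ (-(2 * J) - 1) * Δ := mul_le_mul_of_nonneg_right (by omega) hΔ.le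
      nlinarith [hiΔ.1]
    · by_contra hc
      have : (2 * J + 1) * Δ ≤ i * Δ := mul_le_mul_of_nonneg_right (by omega) hΔ.le
      nlinarith [hiΔ.2]
  · obtain ⟨c, hc, hc2⟩ := conn_height (h := i * Δ) (CL_conn ha hb) (by omega) (by omega)
    exact ⟨c, CL_of_conn ha hc, hc2⟩

/-- The rightmost, then topmost vertex of the cluster in the band. -/
theorem exists_right (hu : u ∈ Box n) (hw : 0 ≤ w) (hb : ∃ c ∈ CL n ω u, c.2 = h) :
    ∃ X ∈ CL n ω u, (h - w ≤ X.2 ∧ X.2 ≤ h + w) ∧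
      ∀ c ∈ CL n ω u, h - w ≤ c.2 → c.2 ≤ h + w → c.1 < X.1 ∨ (c.1 = X.1 ∧ c.2 ≤ X.2) := by
  set S : Set (ℤ × ℤ) := {c | c ∈ CL n ω u ∧ h - w ≤ c.2 ∧ c.2 ≤ h + w} with hS
  have hSf : S.Finite := (CL_finite hu).subset fun c hc => hc.1
  have hSn : S.Nonempty := by
    obtain ⟨c, hc, h1⟩ := hb
    exact ⟨c, hc, by omega, by omega⟩
  obtain ⟨X, hX, hmax⟩ := Set.exists_max_image S (fun c => toLex c) hSf hSn
  refine ⟨X, hX.1, hX.2, fun c hc h1 h2 => ?_⟩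
  have := hmax c ⟨hc, h1, h2⟩
  rwa [Prod.Lex.toLex_le_toLex] at this

/-- A vertex of the cluster outside a small box. -/
theorem exists_out (hD0 : 0 < D) (hdiam : (D : ℝ) ≤ Metric.diam (clS (cfgE n ω) u))
    (hR : 4 * R ≤ D) (p : ℤ × ℤ) : ∃ c ∈ CL n ω u,
      ¬ (p.1 - R < c.1 ∧ c.1 < p.1 + R ∧ p.2 - R < c.2 ∧ c.2 < p.2 + R) := by
  obtain ⟨a, ha, b, hb, hd⟩ := exists_far (by exact_mod_cast hD0 : (0 : ℝ) < D) hdiam
  have hd' : D < |a.1 - b.1| + |a.2 - b.2| := by exact_mod_cast hd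
  by_contra hcon
  push Not at hcon
  have h1 : p.1 - R < a.1 ∧ a.1 < p.1 + R ∧ p.2 - R < a.2 ∧ a.2 < p.2 + R := by
    by_contra h; exact absurd (hcon a ha) (by tauto)
  have h2 : p.1 - R < b.1 ∧ b.1 < p.1 + R ∧ p.2 - R < b.2 ∧ b.2 < p.2 + R := by
    by_contra h; exact absurd (hcon b hb) (by tauto)
  rcases abs_cases (a.1 - b.1) with h3 | h3 <;> rcases abs_cases (a.2 - b.2) with h4 | h4 <;> omega

/-- The rightmost vertex is in the bulk. -/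
theorem bulk (hu : u ∈ Box n) (hD0 : 0 < D)
    (hdiam : (D : ℝ) ≤ Metric.diam (clS (cfgE n ω) u)) (hR : 4 * R ≤ D) (hwκ : w ≤ κ)
    (hκR : κ ≤ R) (harm1 : ω ∉ ArmB 0 (|h|, h) κ R) (harm2 : ω ∉ ArmB 0 (2 * n - |h|, h) κ R)
    {X : ℤ × ℤ} (hX : X ∈ CL n ω u) (hXb : h - w ≤ X.2 ∧ X.2 ≤ h + w) :
    |h| + κ ≤ X.1 ∧ X.1 ≤ 2 * n - |h| - κ := by
  have hdX := CL_diamond hu hX
  have x1 := neg_abs_le (X.1 - n)
  have x2 := le_abs_self (X.1 - n)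
  have hh : |h| - w ≤ |X.2| := by
    have := abs_sub_abs_le_abs_sub h X.2
    have h2 : |h - X.2| ≤ w := by rw [abs_le]; omega
    omega
  have hpar := CL_par hX
  have key : ∀ p : ℤ × ℤ, p.1 - κ ≤ X.1 → X.1 ≤ p.1 + κ → p.2 - κ ≤ X.2 → X.2 ≤ p.2 + κ →
      ω ∈ ArmB 0 p κ R := by
    intro p h1 h2 h3 h4
    obtain ⟨c, hc, hcout⟩ := exists_out (ω := ω) (u := u) (n := n) hD0 hdiam hR p
    obtain ⟨z, hz, hzb⟩ := (CL_conn hX hc).toBd (x₀ := p.1 - R) (x₁ := p.1 + R) (y₀ := p.2 - R)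
      (y₁ := p.2 + R) (by omega) hcout
    exact ⟨X, z, h1, h2, h3, h4, by omega, hzb, hz.mono Set.inter_subset_right⟩
  constructor
  · by_contra hcon
    exact harm1 (key _ (by simp only; omega) (by simp only; omega) (by simp only; omega)
      (by simp only; omega))
  · by_contra hcon
    exact harm2 (key _ (by simp only; omega) (by simp only; omega) (by simp only; omega)
      (by simp only; omega))

/-- **The tag in the bulk.** -/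
theorem exists_tag {N J L : ℕ} (hu : u ∈ Box n) (hΔ : 0 < Δ) (hJ : (n : ℤ) ≤ 2 * J * Δ)
    (hJ1 : 1 ≤ J) (hD : 6 * Δ * (N + 2) ≤ D) (hD0 : 0 < D)
    (hdiam : (D : ℝ) ≤ Metric.diam (clS (cfgE n ω) u))
    (hlong : ∀ j ∈ Finset.Icc (-(2 * J : ℤ)) (2 * J), ∀ k ∈ Finset.Icc (0 : ℤ) J,
      ω ∉ LongH (6 * Δ * k) (6 * Δ * N) (Strip (j * Δ) (j * Δ + 6 * Δ)))
    (hR : 4 * R ≤ D) (hw : 0 ≤ w) (hwκ : w ≤ κ) (hκR : κ ≤ R)
    (harm : ∀ i ∈ Finset.Icc (-(2 * J : ℤ)) (2 * J), ω ∉ ArmB 0 (|i * Δ|, i * Δ) κ R ∧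
      ω ∉ ArmB 0 (2 * n - |i * Δ|, i * Δ) κ R)
    (hμ : 0 < μ) (hμκ : 65 * μ ≤ κ) (hwμ : w ≤ 32 * μ) (hL : (n : ℤ) ≤ L * μ) :
    ∃ i ∈ Finset.Icc (-(2 * J : ℤ)) (2 * J), ∃ l ∈ Finset.Icc (0 : ℤ) L, ∃ X : ℤ × ℤ,
      |i * Δ| + κ + 2 * μ * l ≤ X.1 ∧ X.1 < |i * Δ| + κ + 2 * μ * l + 2 * μ ∧
      (i * Δ - w ≤ X.2 ∧ X.2 ≤ i * Δ + w) ∧ Tg n ω u (i * Δ) w X ∧
      ω ∈ TagEv (i * Δ) w (|i * Δ| + κ + 2 * μ * l + μ) (32 * μ) X ∧
      BR (|i * Δ| + κ + 2 * μ * l + μ, i * Δ) (32 * μ) ⊆ Sn n := by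
  obtain ⟨i, hi, hiΔ, hc⟩ := exists_band hu hΔ hJ (exists_tall hu hΔ hJ hJ1 hD hD0 hdiam hlong)
  obtain ⟨X, hX, hXb, hmax⟩ := exists_right (h := i * Δ) hu hw hc
  obtain ⟨hb1, hb2⟩ := bulk hu hD0 hdiam hR hwκ hκR (harm i hi).1 (harm i hi).2 hX hXb
  set H : ℤ := |i * Δ| with hH
  have hH0 : 0 ≤ H := abs_nonneg _
  set l : ℤ := (X.1 - H - κ) / (2 * μ) with hl
  have h2μ : 0 < 2 * μ := by omega
  have l1 : 2 * μ * l ≤ X.1 - H - κ := by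
    have := Int.ediv_mul_le (X.1 - H - κ) h2μ.ne'
    rw [← hl] at this
    linarith
  have l2 : X.1 - H - κ < 2 * μ * l + 2 * μ := by
    have := Int.lt_ediv_add_one_mul_self (X.1 - H - κ) h2μ
    rw [← hl] at this
    linarith
  have l3 : 0 ≤ l := Int.ediv_nonneg (by omega) (by omega)
  have l4 : l ≤ L := by
    by_contra hcon
    have h1 : 2 * μ * ((L : ℤ) + 1) ≤ 2 * μ * l := mul_le_mul_of_nonneg_left (by omega) (by omega)
    have h2 : 2 * μ * ((L : ℤ) + 1) = 2 * (L * μ) + 2 * μ := by ring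
    omega
  have hsub : BR (H + κ + 2 * μ * l + μ, i * Δ) (32 * μ) ⊆ Sn n := by
    unfold BR
    dsimp only
    refine sub_Sn ?_
    have h3 : |H + κ + 2 * μ * l + μ - n| ≤ n - H - κ + μ := by rw [abs_le]; omega
    rw [← hH]
    omega
  refine ⟨i, hi, l, Finset.mem_Icc.2 ⟨l3, l4⟩, X, by omega, by omega, hXb, ⟨hX, fun c hc h1 h2 => ?_⟩,
    ⟨?_, fun y hy h1 h2 => ?_⟩, hsub⟩
  · rcases hmax c hc h1 h2 with h3 | h3 <;> omega
  · obtain ⟨c, hc, hcout⟩ := exists_out (ω := ω) (u := u) (n := n) (R := 32 * μ) hD0 hdiam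
      (by omega) (H + κ + 2 * μ * l + μ, i * Δ)
    obtain ⟨z, hz, hzb⟩ := (CL_conn hX hc).toBd (x₀ := H + κ + 2 * μ * l + μ - 32 * μ)
      (x₁ := H + κ + 2 * μ * l + μ + 32 * μ) (y₀ := i * Δ - 32 * μ)
      (y₁ := i * Δ + 32 * μ) (by omega) hcout
    exact ⟨z, hz.mono Set.inter_subset_right, hzb⟩
  · exact hmax y (CL_of_conn hX (hy.mono (Finset.coe_subset.2 hsub))) h1 h2

end Pool.Agent.PercBc
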