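import Pool.Agent.Lib.MP_6bd702_perc6.BcProb

/-!
# The lower bound C3 for the largest cluster of the box
-/

set_option autoImplicit false

namespace Pool.Agent.Perc6

open Finset Filter Topology
open Pool.Agent.Perc Pool.Agent.PercD Pool.Agent.PercL Pool.Agent.PercBc
open Pool.Agent.PercX60 (Sn)

theorem num1 {θ : ℝ} (h0 : 0 ≤ θ) (h1 : θ < 1) (a : ℕ) {e : ℝ} (he : 0 < e) :
    ∃ N : ℕ, (4 * ((24 * a * (N + 2) : ℕ) : ℝ) + 1) *
      ((((24 * a * (N + 2) : ℕ) : ℝ) + 1) * (2 * θ ^ N)) ≤ e := by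
  have habs : |θ| < 1 := by rw [abs_of_nonneg h0]; exact h1
  have t2 := tendsto_pow_const_mul_const_pow_of_abs_lt_one 2 habs
  have t1 := tendsto_pow_const_mul_const_pow_of_abs_lt_one 1 habs
  have t0 := tendsto_pow_const_mul_const_pow_of_abs_lt_one 0 habs
  have hlim := ((t2.const_mul (8 * (24 * a : ℝ) ^ 2)).add
    (t1.const_mul (32 * (24 * a : ℝ) ^ 2 + 10 * (24 * a)))).add
    (t0.const_mul (32 * (24 * a : ℝ) ^ 2 + 20 * (24 * a) + 2))
  rw [mul_zero, mul_zero, mul_zero, add_zero, add_zero] at hlim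
  obtain ⟨N, hN⟩ := (hlim.eventually_lt_const he).exists
  refine ⟨N, le_trans (le_of_eq ?_) hN.le⟩
  push_cast
  ring

theorem num2 {C β : ℝ} (hC : 0 < C) (hβ : 0 < β) (a : ℕ) {K e : ℝ} (hK : 0 < K) (he : 0 < e) :
    ∃ Q : ℕ, 32 * a ≤ Q ∧ 1 ≤ Q ∧ K * (2 * (C * ((32 * a : ℝ) / Q) ^ β)) ≤ e := by
  set t : ℝ := (e / (2 * K * C)) ^ (1 / β) with ht
  have ht0 : 0 < t := by positivity
  have htβ : t ^ β = e / (2 * K * C) := by
    rw [ht, ← Real.rpow_mul (by positivity), one_div, inv_mul_cancel₀ hβ.ne', Real.rpow_one]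
  obtain ⟨Q₀, hQ₀⟩ := exists_nat_gt ((32 * a : ℝ) / t)
  refine ⟨max Q₀ (32 * a + 1), ?_, ?_, ?_⟩
  · have := le_max_right Q₀ (32 * a + 1)
    omega
  · have := le_max_right Q₀ (32 * a + 1)
    omega
  set Q : ℕ := max Q₀ (32 * a + 1) with hQ
  have hQ1 : 0 < Q := by
    have := le_max_right Q₀ (32 * a + 1)
    omega
  have hQ0 : (0 : ℝ) < Q := by exact_mod_cast hQ1
  have h1 : (32 * a : ℝ) / Q ≤ t := by
    rw [div_le_iff₀ hQ0]
    rw [div_lt_iff₀ ht0] at hQ₀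
    have : (Q₀ : ℝ) ≤ Q := by exact_mod_cast le_max_left Q₀ (32 * a + 1)
    nlinarith
  have h2 : ((32 * a : ℝ) / Q) ^ β ≤ e / (2 * K * C) := by
    rw [← htβ]
    exact Real.rpow_le_rpow (by positivity) h1 hβ.le
  calc K * (2 * (C * ((32 * a : ℝ) / Q) ^ β)) = (2 * K * C) * ((32 * a : ℝ) / Q) ^ β := by ring
    _ ≤ (2 * K * C) * (e / (2 * K * C)) := mul_le_mul_of_nonneg_left h2 (by positivity)
    _ = e := by field_simp

/-- The integer arithmetic of the parameters. -/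
theorem num3 {a N Q M q P b₀ n : ℕ} (ha : 1 ≤ a) (hQ : 32 * a ≤ Q) (hM : 1 ≤ M) (hq : 1 ≤ q)
    (hP : 1 ≤ P)
    (hn : 32 * a + 24 * a * (N + 2) + 2 * Q + 2 * (M * q * P * (130 * Q)) +
      (M * q * P * (130 * Q)) * b₀ + 1 ≤ n) :
    ∃ D Δ R κ b : ℕ, a * (D + 1) ≤ n + 1 ∧ 1 ≤ D ∧ 1 ≤ Δ ∧ n ≤ 2 * (24 * a * (N + 2)) * Δ ∧
      6 * Δ * (N + 2) ≤ D ∧ 4 * R ≤ D ∧ 1 ≤ κ ∧ κ ≤ R ∧ κ * Q ≤ 32 * a * R ∧ 1 ≤ b ∧ b₀ ≤ b ∧
      65 * (M * q * P * b) ≤ κ ∧ n ≤ 260 * Q * (M * q * P * b) ∧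
      130 * Q * (M * q * P * b) ≤ n ∧ n ≤ 2 * (M * q * P * (130 * Q)) * b ∧
      M * q * P * (130 * Q) ≤ n := by
  set J : ℕ := 24 * a * (N + 2) with hJ
  set B : ℕ := M * q * P * (130 * Q) with hB
  have hJ1 : 1 ≤ J := by rw [hJ]; exact Nat.one_le_iff_ne_zero.2 (by positivity)
  have hQ1 : 1 ≤ Q := by omega
  have hMq1 : 1 ≤ M * q := Nat.one_le_iff_ne_zero.2 (by positivity)
  have hMqP1 : 1 ≤ M * q * P := Nat.one_le_iff_ne_zero.2 (by positivity)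
  have hB1 : 1 ≤ B := by rw [hB]; exact Nat.one_le_iff_ne_zero.2 (by positivity)
  have hBb₀ : 0 ≤ B * b₀ := Nat.zero_le _
  -- the quotients
  have dD1 : 2 * a * (n / (2 * a)) ≤ n := Nat.mul_div_le n (2 * a)
  have dD2 : n < 2 * a * (n / (2 * a)) + 2 * a := by
    have := Nat.lt_mul_div_succ n (show 0 < 2 * a by omega)
    rw [Nat.mul_succ] at this
    exact this
  have dΔ1 : J * (n / J) ≤ n := Nat.mul_div_le n J
  have dΔ2 : n < J * (n / J) + J := by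
    have := Nat.lt_mul_div_succ n (show 0 < J by omega)
    rw [Nat.mul_succ] at this
    exact this
  have dκ1 : Q * (n / Q) ≤ n := Nat.mul_div_le n Q
  have dκ2 : n < Q * (n / Q) + Q := by
    have := Nat.lt_mul_div_succ n (show 0 < Q by omega)
    rw [Nat.mul_succ] at this
    exact this
  have db1 : B * (n / B) ≤ n := Nat.mul_div_le n B
  have db2 : n < B * (n / B) + B := by
    have := Nat.lt_mul_div_succ n (show 0 < B by omega)
    rw [Nat.mul_succ] at this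
    exact this
  set D : ℕ := n / (2 * a) with hD
  set Δ : ℕ := n / J with hΔ
  set κ : ℕ := n / Q with hκ
  set b : ℕ := n / B with hb
  have hΔ1 : 1 ≤ Δ := Nat.div_pos (by omega) (by omega)
  have hκ1 : 1 ≤ κ := Nat.div_pos (by omega) (by omega)
  have hb1 : 1 ≤ b := Nat.div_pos (by omega) (by omega)
  have e1 : 2 * a * D = 2 * (a * D) := by ring
  have h4D : n ≤ 4 * (a * D) := by omega
  have hDbig : 16 ≤ D := by
    by_contra hc
    have : a * D ≤ a * 15 := Nat.mul_le_mul_left _ (by omega)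
    omega
  have hR1 : D ≤ 4 * (D / 4) + 3 := by omega
  have hR2 : n ≤ 32 * a * (D / 4) := by
    have h1 : a * D ≤ a * (4 * (D / 4) + 3) := Nat.mul_le_mul_left _ hR1
    have h2 : a * (4 * (D / 4) + 3) = 4 * (a * (D / 4)) + 3 * a := by ring
    have h3 : 32 * a * (D / 4) = 32 * (a * (D / 4)) := by ring
    omega
  have hJΔ : J ≤ J * Δ := Nat.le_mul_of_pos_right _ (by omega)
  have hQκ : Q ≤ Q * κ := Nat.le_mul_of_pos_right _ (by omega)
  have hBb : B ≤ B * b := Nat.le_mul_of_pos_right _ (by omega)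
  have e2 : B * b = 130 * Q * (M * q * P * b) := by rw [hB]; ring
  refine ⟨D, Δ, D / 4, κ, b, ?_, by omega, hΔ1, ?_, ?_, by omega, hκ1, ?_, ?_, hb1, ?_, ?_, ?_,
    ?_, ?_, by omega⟩
  · have : a * (D + 1) = a * D + a := by ring
    omega
  · have : 2 * J * Δ = 2 * (J * Δ) := by ring
    omega
  · have h1 : J * Δ = 4 * a * (6 * Δ * (N + 2)) := by rw [hJ]; ring
    have h2 : 4 * a * (6 * Δ * (N + 2)) ≤ 4 * a * D := by
      have : 4 * a * D = 4 * (a * D) := by ring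
      omega
    exact Nat.le_of_mul_le_mul_left h2 (by omega)
  · have h1 : 32 * a * κ ≤ Q * κ := Nat.mul_le_mul_right _ hQ
    have h2 : 32 * a * κ ≤ 32 * a * (D / 4) := by omega
    exact Nat.le_of_mul_le_mul_left h2 (by omega)
  · have : κ * Q = Q * κ := by ring
    omega
  · rw [hb, Nat.le_div_iff_mul_le (by omega)]
    have : b₀ * B = B * b₀ := by ring
    omega
  · have h1 : 2 * Q * (65 * (M * q * P * b)) = B * b := by rw [e2]; ring
    have h2 : 2 * Q * (65 * (M * q * P * b)) ≤ 2 * Q * κ := by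
      have : 2 * Q * κ = 2 * (Q * κ) := by ring
      omega
    exact Nat.le_of_mul_le_mul_left h2 (by omega)
  · have h1 : 260 * Q * (M * q * P * b) = 2 * (B * b) := by rw [e2]; ring
    omega
  · omega
  · have : 2 * B * b = 2 * (B * b) := by ring
    omega

theorem gm_ok {Δ κ μ b N' : ℤ} {M q lev : ℕ} (hM : 1 ≤ M) (hq : 1 ≤ q) (hb : 1 ≤ b) (hN : 8 ≤ N')
    (hlev : 2 ≤ lev) (i l : ℤ) : (gm Δ κ μ b N' M q lev i l).Ok where
  w1 := by
    have h1 : (1 : ℤ) ≤ M := by exact_mod_cast hM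
    have h2 : (1 : ℤ) ≤ q := by exact_mod_cast hq
    have h3 : (1 : ℤ) ≤ M * q := by nlinarith
    show (1 : ℤ) ≤ M * q * b
    nlinarith
  wa := by
    show (M : ℤ) * q * b ≤ M * q * b * ((64 : ℕ) : ℤ) ^ 0
    simp
  col01 := Or.inl rfl
  b1 := hb
  N8 := hN
  L64 := le_rfl
  M1 := hM
  q1 := hq
  m1 := hlev

/-- The real arithmetic of the parameters. -/
theorem num4 {Q M q P b n Nn lev m j : ℕ} (hQ : 1 ≤ Q) (hq : 1 ≤ q) (hP : P = Nn * 64 ^ lev)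
    (hNn : 8 ≤ Nn) (hMP : P ≤ M) (hMm : 2 ^ m ≤ M) (hb : 1 ≤ b) (hn : 0 < n)
    (h1 : n ≤ 260 * Q * (M * q * P * b)) (h2 : 130 * Q * (M * q * P * b) ≤ n)
    (h3 : n ≤ 2 * (M * q * P * (130 * Q)) * b) (hB : 1 ≤ M * q * P * (130 * Q))
    (hj1 : 1 ≤ j) (hj2 : j < lev) :
    ((Nn : ℤ) * b * 64 ^ j : ℤ) ≤ 4 * (M * q * b) ∧
      1 + 4 * n / 2 ^ (M * q * P * (130 * Q) + m + 2) ≤ ((((Nn : ℤ) * b * 64 ^ j : ℤ) : ℝ)) / 4 ∧
      4 * (((q : ℤ) * (Nn * b * 64 ^ j) : ℤ) : ℝ) * 2 ^ m ≤ n ∧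
      1 / (100 * 64 ^ lev * Q) ≤ (((M : ℤ) * q * (Nn * b * 64 ^ j) : ℤ) : ℝ) / (4 * n) := by
  have h64j : 64 ^ j ≤ 64 ^ lev := Nat.pow_le_pow_right (by norm_num) hj2.le
  have h64 : 64 ≤ 64 ^ j := by
    calc 64 = 64 ^ 1 := (pow_one _).symm
      _ ≤ 64 ^ j := Nat.pow_le_pow_right (by norm_num) hj1
  have hNP : Nn * 64 ^ j ≤ P := by rw [hP]; exact Nat.mul_le_mul_left _ h64j
  set B : ℕ := M * q * P * (130 * Q) with hBd
  have hn0 : (0 : ℝ) < n := by exact_mod_cast hn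
  have hb0 : (1 : ℝ) ≤ b := by exact_mod_cast hb
  refine ⟨?_, ?_, ?_, ?_⟩
  · have h4 : Nn * b * 64 ^ j ≤ 4 * (M * q * b) := by
      calc Nn * b * 64 ^ j = (Nn * 64 ^ j) * b := by ring
        _ ≤ (M * q) * b := Nat.mul_le_mul_right _ (hNP.trans (hMP.trans
            (Nat.le_mul_of_pos_right _ (by omega))))
        _ ≤ 4 * (M * q * b) := by omega
    exact_mod_cast h4
  · have h4 : 512 * b ≤ Nn * b * 64 ^ j := by
      calc 512 * b = (8 * 64) * b := by ring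
        _ ≤ (Nn * 64 ^ j) * b := Nat.mul_le_mul_right _ (Nat.mul_le_mul hNn h64)
        _ = Nn * b * 64 ^ j := by ring
    have h5 : (512 : ℝ) * b ≤ (((Nn : ℤ) * b * 64 ^ j : ℤ) : ℝ) := by
      push_cast
      exact_mod_cast h4
    have hB0 : (0 : ℝ) < B := by exact_mod_cast hB
    have h6 : (B : ℝ) ≤ 2 ^ (B + m + 2) := by
      have h7 : B < 2 ^ (B + m + 2) := lt_of_lt_of_le Nat.lt_two_pow_self
        (Nat.pow_le_pow_right (by norm_num) (by omega))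
      exact_mod_cast h7.le
    have h8 : (4 : ℝ) * n / 2 ^ (B + m + 2) ≤ 8 * b := by
      have h9 : (n : ℝ) ≤ 2 * B * b := by exact_mod_cast h3
      calc (4 : ℝ) * n / 2 ^ (B + m + 2) ≤ 4 * n / B :=
            div_le_div_of_nonneg_left (by positivity) hB0 h6
        _ ≤ 8 * b := by
            rw [div_le_iff₀ hB0]
            linarith
    linarith
  · have h4 : 4 * (q * (Nn * b * 64 ^ j)) * 2 ^ m ≤ n := by
      calc 4 * (q * (Nn * b * 64 ^ j)) * 2 ^ m = 4 * (2 ^ m * q * (Nn * 64 ^ j) * b) := by ring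
        _ ≤ 4 * (M * q * P * b) := Nat.mul_le_mul_left _ (Nat.mul_le_mul_right _
            (Nat.mul_le_mul (Nat.mul_le_mul_right _ hMm) hNP))
        _ ≤ 130 * Q * (M * q * P * b) := Nat.mul_le_mul_right _ (by omega)
        _ ≤ n := h2
    have h5 : (4 : ℝ) * (q * (Nn * b * 64 ^ j)) * 2 ^ m ≤ n := by exact_mod_cast h4
    push_cast
    linarith
  · have hQ0 : (0 : ℝ) < Q := by exact_mod_cast hQ
    rw [div_le_div_iff₀ (by positivity) (by positivity)]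
    have h4 : (n : ℝ) ≤ 260 * Q * (M * q * (Nn * 64 ^ lev) * b) := by
      rw [hP] at h1
      exact_mod_cast h1
    have h5 : (64 : ℝ) ≤ 64 ^ j := by exact_mod_cast h64
    have h6 : (0 : ℝ) ≤ (M : ℝ) * q * Nn * b * (64 ^ lev * Q) := by positivity
    push_cast
    calc (1 : ℝ) * (4 * n) ≤ 4 * (260 * Q * (M * q * (Nn * 64 ^ lev) * b)) := by linarith
      _ = 1040 * ((M : ℝ) * q * Nn * b * (64 ^ lev * Q)) := by ring
      _ ≤ (64 ^ j * 100) * ((M : ℝ) * q * Nn * b * (64 ^ lev * Q)) :=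
          mul_le_mul_of_nonneg_right (by linarith) h6
      _ = (M : ℝ) * q * (Nn * b * 64 ^ j) * (100 * 64 ^ lev * Q) := by ring

/-- **C3 for the largest cluster of the box.** -/
theorem targetC3_of (hocc : OccHyp 0) : PercS5.TargetC3 := by
  classical
  intro s hs hs' ε hε
  obtain ⟨θ, hθ0, hθ1, hθ⟩ := PercS5.pr_blocks
  obtain ⟨C, β, hC, hβ, hone⟩ := oneArm
  obtain ⟨a₀, ha₀⟩ := exists_pow_lt_of_lt_one (show (0 : ℝ) < ε / 4 by positivity)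
    (by norm_num : (1 / 2 : ℝ) < 1)
  obtain ⟨a, ha1, ha⟩ : ∃ a : ℕ, 1 ≤ a ∧ (1 / 2 : ℝ) ^ a ≤ ε / 4 :=
    ⟨a₀ + 1, by omega, le_trans (pow_le_pow_of_le_one (by norm_num) (by norm_num) (by omega))
      ha₀.le⟩
  obtain ⟨N, hN⟩ := num1 hθ0 hθ1 a (show (0 : ℝ) < ε / 4 by positivity)
  set J : ℕ := 24 * a * (N + 2) with hJ
  have hJ1 : 1 ≤ J := by rw [hJ]; exact Nat.one_le_iff_ne_zero.2 (by positivity)
  have hJ0 : (0 : ℝ) ≤ J := Nat.cast_nonneg _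
  obtain ⟨Q, hQ1, hQ2, hQ3⟩ := num2 hC hβ a (K := 4 * (J : ℝ) + 1) (by positivity)
    (show (0 : ℝ) < ε / 4 by positivity)
  set L : ℕ := 260 * Q with hL
  set ε' : ℝ := ε / 4 / ((4 * J + 1) * (L + 1)) with hε'
  have hε'0 : 0 < ε' := by positivity
  obtain ⟨N', lev, A₀, M₀, hN8, hlev, hM₀, hseg⟩ := seg_main (Or.inl rfl) hocc hs hs' hε'0
  obtain ⟨Nn, rfl⟩ : ∃ k : ℕ, N' = k := ⟨N'.toNat, by omega⟩
  have hNn : 8 ≤ Nn := by exact_mod_cast hN8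
  set P : ℕ := Nn * 64 ^ lev with hP
  have hP1 : 1 ≤ P := by
    rw [hP]
    exact Nat.one_le_iff_ne_zero.2 (by positivity)
  refine ⟨A₀ * (1 / (100 * 64 ^ lev * Q) : ℝ) ^ (-s), fun m => ?_⟩
  set M : ℕ := M₀ * P * 2 ^ m with hM
  have hM1 : 1 ≤ M := by rw [hM]; exact Nat.one_le_iff_ne_zero.2 (by positivity)
  have h2m : 1 ≤ 2 ^ m := Nat.one_le_two_pow
  have hMM₀ : M₀ ≤ M := by
    calc M₀ = M₀ * 1 * 1 := by ring
      _ ≤ M₀ * P * 2 ^ m := Nat.mul_le_mul (Nat.mul_le_mul_left _ hP1) h2m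
  have hMP : P ≤ M := by
    calc P = 1 * P * 1 := by ring
      _ ≤ M₀ * P * 2 ^ m := Nat.mul_le_mul (Nat.mul_le_mul_right _ hM₀) h2m
  have hMm : 2 ^ m ≤ M := by
    calc 2 ^ m = 1 * 1 * 2 ^ m := by ring
      _ ≤ M₀ * P * 2 ^ m := Nat.mul_le_mul_right _ (Nat.mul_le_mul hM₀ hP1)
  obtain ⟨q, b₀, hq, hseg⟩ := hseg M hMM₀
  set B : ℕ := M * q * P * (130 * Q) with hB
  have hB1 : 1 ≤ B := by
    rw [hB]
    exact Nat.one_le_iff_ne_zero.2 (by positivity)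
  refine ⟨B + m + 2, fun sel hsel => ?_⟩
  filter_upwards [eventually_ge_atTop (32 * a + J + 2 * Q + 2 * B + B * b₀ + 1)] with n hn
  obtain ⟨D, Δ, R, κ, b, k1, k2, k3, k4, k5, k6, k7, k8, k9, k10, k11, k12, k13, k14, k15, k16⟩ :=
    num3 (N := N) (b₀ := b₀) ha1 hQ1 hM1 hq hP1 hn
  have hn0 : 0 < n := by omega
  have hQ0 : (0 : ℝ) < Q := by exact_mod_cast hQ2
  have hR0 : (0 : ℝ) < R := by
    have : 0 < R := by omega
    exact_mod_cast this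
  have hμeq : ((M : ℤ) * q * ((Nn : ℤ) * b * 64 ^ lev)) = ((M * q * P * b : ℕ) : ℤ) := by
    rw [hP]; push_cast; ring
  set geo : ℤ → ℤ → Geo := gm (Δ : ℤ) (κ : ℤ) ((M : ℤ) * q * ((Nn : ℤ) * b * 64 ^ lev)) (b : ℤ)
    (Nn : ℤ) M q lev with hgeo
  -- the window
  set I : Finset ℤ := Icc (-(2 * J : ℤ)) (2 * J) with hI
  set W1 : Finset (ℤ × ℤ) := I.biUnion fun j => (Icc (0 : ℤ) J).biUnion fun k =>
    RF (6 * (Δ : ℤ) * k) (6 * (Δ : ℤ) * k + 6 * (Δ : ℤ) * N) (j * Δ) (j * Δ + 6 * (Δ : ℤ)) with hW1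
  set W2 : Finset (ℤ × ℤ) := I.biUnion fun i => RFb (|i * (Δ : ℤ)|, i * (Δ : ℤ)) R ∪
    RFb (2 * n - |i * (Δ : ℤ)|, i * (Δ : ℤ)) R with hW2
  set W3 : Finset (ℤ × ℤ) := I.biUnion fun i => (Icc (0 : ℤ) L).biUnion fun l => (geo i l).B
    with hW3
  set W : Finset (ℤ × ℤ) := Sn n ∪ (W1 ∪ (W2 ∪ W3)) with hW
  have sW1 : W1 ⊆ W := subset_union_left.trans subset_union_right
  have sW2 : W2 ⊆ W := subset_union_left.trans (subset_union_right.trans subset_union_right)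
  have sW3 : W3 ⊆ W := subset_union_right.trans (subset_union_right.trans subset_union_right)
  have hκR : ((κ : ℕ) : ℝ) / R ≤ 32 * a / Q := by
    rw [div_le_div_iff₀ hR0 hQ0]
    exact_mod_cast k9
  have hfin := PercBc.prB_not_good (n := n) (m := m) (p := B + m + 2) (N := N) (J := J) (L := L)
    (lev := lev) (b := b) (M := M) (q := q) (s := s) (A₀ := A₀)
    (c₀ := 1 / (100 * 64 ^ lev * Q)) (Δ := (Δ : ℤ)) (N' := (Nn : ℤ)) hn0 (hsel n) (D := D)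
    (κ := κ) (R := R) (e₁ := ε / 4) (e₂ := 2 * θ ^ N) (e₃ := C * ((32 * a : ℝ) / Q) ^ β)
    (e₄ := ε') (by exact_mod_cast k3) (by exact_mod_cast k4) hJ1 (by exact_mod_cast k5) (by omega)
    (by exact_mod_cast k6) hM1 hq k10 hN8 (by exact_mod_cast k8)
    (by rw [hμeq]; exact_mod_cast k12) (by rw [hμeq]; exact_mod_cast k13)
    (fun j hj1 hj2 => num4 hQ2 hq hP hNn hMP hMm k10 hn0 k13 k14 k15 hB1 hj1 hj2) ?_ hs
    (by positivity) ((PercW.prB_diam_lt a k2 k1).trans ha) (W := W) subset_union_left ?_ ?_ ?_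
  · refine hfin.trans ?_
    have e1 : (4 * (J : ℝ) + 1) * ((J + 1) * (2 * θ ^ N)) ≤ ε / 4 := hN
    have e3 : (4 * (J : ℝ) + 1) * ((L + 1) * ε') = ε / 4 := by
      rw [hε']
      field_simp
    rw [e3]
    linarith
  · -- the mesh
    have h1 : (4 : ℝ) * 2 ^ m = 2 ^ (m + 2) := by rw [pow_add]; ring
    rw [h1]
    exact pow_le_pow_right₀ (by norm_num) (by omega)
  · intro j hj k hk
    refine PercBc.pr_longH hθ (by exact_mod_cast k3) (Subset.trans ?_ sW1)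
    intro f hf
    rw [hW1, mem_biUnion]
    exact ⟨j, hj, mem_biUnion.2 ⟨k, hk, hf⟩⟩
  · intro i hi
    have hsub : RFb (|i * (Δ : ℤ)|, i * (Δ : ℤ)) R ∪ RFb (2 * n - |i * (Δ : ℤ)|, i * (Δ : ℤ)) R ⊆
        W := by
      refine Subset.trans ?_ sW2
      intro f hf
      rw [hW2, mem_biUnion]
      exact ⟨i, hi, hf⟩
    have hpow : C * ((((κ : ℕ) : ℤ) : ℝ) / (((R : ℕ) : ℤ) : ℝ)) ^ β ≤
        C * ((32 * a : ℝ) / Q) ^ β := by
      refine mul_le_mul_of_nonneg_left (Real.rpow_le_rpow (by positivity) ?_ hβ.le) hC.le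
      rw [Int.cast_natCast, Int.cast_natCast]
      exact hκR
    exact ⟨(PercBc.pr_arm hone (by exact_mod_cast k7) (by exact_mod_cast k8)
        (subset_union_left.trans hsub)).trans hpow,
      (PercBc.pr_arm hone (by exact_mod_cast k7) (by exact_mod_cast k8)
        (subset_union_right.trans hsub)).trans hpow⟩
  · intro i hi l hl
    refine hseg (geo i l) (gm_ok hM1 hq (by exact_mod_cast k10) hN8 hlev i l) rfl rfl rfl rfl rfl rfl
      (show (b₀ : ℤ) ≤ (b : ℤ) by exact_mod_cast k11) W (Subset.trans ?_ sW3)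
    intro f hf
    rw [hW3, mem_biUnion]
    exact ⟨i, hi, mem_biUnion.2 ⟨l, hl, hf⟩⟩

end Pool.Agent.Perc6
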