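import Pool.Agent.Lib.MP_6bd702_perc6.Defs

/-!
# Potentials exist in the slit regions
-/

set_option autoImplicit false

namespace Pool.Agent.Perc6

open Finset Pool.Agent.Perc Pool.Agent.PercD Pool.Agent.PercL

/-- Rectangles have potentials (`pot_ver`, `pot_hor` of `percw/CoreA.lean`). -/
theorem hasPot_RF (x₀ x₁ y₀ y₁ : ℤ) : HasPot (RF x₀ x₁ y₀ y₁ : Set (ℤ × ℤ)) := by
  intro M hM
  have hM' : ∀ f ∈ RF x₀ x₁ y₀ y₁, EvenAt M f := fun f hf => hM f (Finset.mem_coe.2 hf)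
  refine ⟨pot x₀ y₀ M, ?_⟩
  intro f hf a ha
  rw [mem_RF'] at hf
  obtain ⟨x, y⟩ := f
  simp only at hf
  rcases ha with rfl | rfl | rfl | rfl
  · unfold bo
    rw [ua_mk, ub_false, pot_hor (x₁ := x₁) (y₁ := y₁) hM' hf.1 hf.2.1 hf.2.2.1 hf.2.2.2.le,
      ne_add_ind2]
  · unfold le'
    rw [ua_mk, ub_true, pot_ver hf.2.2.1, ne_add_ind2]
  · unfold to'
    rw [ua_mk, ub_false, pot_hor (x₁ := x₁) (y₁ := y₁) hM' hf.1 hf.2.1 (by simp only; omega)
      (by simp only; omega), ne_add_ind2]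
  · unfold ri
    rw [ua_mk, ub_true, pot_ver hf.2.2.1, ne_add_ind2]

namespace PotB

theorem cor_ua {f : ℤ × ℤ} {a : UE} (h : IsSide f a) : IsCor f (ua a) := by
  obtain ⟨x, y⟩ := f
  rcases h with rfl | rfl | rfl | rfl <;> simp [IsCor, bo, le', to', ri, ua]

theorem cor_ub {f : ℤ × ℤ} {a : UE} (h : IsSide f a) : IsCor f (ub a) := by
  obtain ⟨x, y⟩ := f
  rcases h with rfl | rfl | rfl | rfl <;> simp [IsCor, bo, le', to', ri, ub]

end PotB

/-- Gluing: a function which does not change across the sides of the faces of the intersection is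
constant on the common vertices. -/
theorem HasPot.union {F₁ F₂ : Set (ℤ × ℤ)} (h1 : HasPot F₁) (h2 : HasPot F₂)
    (hl : ∀ Θ : ℤ × ℤ → ZMod 2, (∀ f ∈ F₁ ∩ F₂, ∀ a, IsSide f a → Θ (ua a) = Θ (ub a)) →
      ∀ w ∈ VF F₁ ∩ VF F₂, ∀ w' ∈ VF F₁ ∩ VF F₂, Θ w = Θ w') : HasPot (F₁ ∪ F₂) := by
  classical
  intro M hM
  obtain ⟨Φ, hΦ⟩ := h1 M fun f hf => hM f (Or.inl hf)
  obtain ⟨Ψ, hΨ⟩ := h2 M fun f hf => hM f (Or.inr hf)
  have hc := hl (fun w => Φ w + Ψ w) (by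
    rintro f ⟨hf1, hf2⟩ a ha
    have k1 := hΦ f hf1 a ha
    have k2 := hΨ f hf2 a ha
    rw [k1] at k2
    revert k2
    generalize Φ (ua a) = p1
    generalize Φ (ub a) = p2
    generalize Ψ (ua a) = p3
    generalize Ψ (ub a) = p4
    revert p1 p2 p3 p4
    decide)
  obtain ⟨t, ht⟩ : ∃ t : ZMod 2, ∀ w ∈ VF F₁ ∩ VF F₂, Φ w = Ψ w + t := by
    by_cases hne : (VF F₁ ∩ VF F₂).Nonempty
    · obtain ⟨w₀, hw₀⟩ := hne
      refine ⟨Φ w₀ + Ψ w₀, fun w hw => ?_⟩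
      have := hc w hw w₀ hw₀
      revert this
      generalize Φ w = p1
      generalize Ψ w = p2
      generalize Φ w₀ = p3
      generalize Ψ w₀ = p4
      revert p1 p2 p3 p4
      decide
    · exact ⟨0, fun w hw => absurd ⟨w, hw⟩ hne⟩
  refine ⟨fun w => if w ∈ VF F₁ then Φ w else Ψ w + t, ?_⟩
  intro f hf a ha
  rcases hf with hf | hf
  · have k1 : ua a ∈ VF F₁ := ⟨f, hf, PotB.cor_ua ha⟩
    have k2 : ub a ∈ VF F₁ := ⟨f, hf, PotB.cor_ub ha⟩
    simp only [k1, k2, if_true]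
    exact hΦ f hf a ha
  · have k : ∀ w, w ∈ VF F₂ → (if w ∈ VF F₁ then Φ w else Ψ w + t) = Ψ w + t := by
      intro w hw
      split_ifs with h
      · exact ht w ⟨h, hw⟩
      · rfl
    have k1 := k (ua a) ⟨f, hf, PotB.cor_ua ha⟩
    have k2 := k (ub a) ⟨f, hf, PotB.cor_ub ha⟩
    simp only [k1, k2]
    rw [hΨ f hf a ha]
    exact not_congr (add_left_inj t).symm

/-- The box of radius `R` around `(c, h)` is strictly inside the box of radius `RB` around
`(cB, h)`. -/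
structure Nest (h w cB RB c R : ℤ) : Prop where
  w1 : 1 ≤ w
  wR : w < R
  left : cB - RB < c - R
  right : c + R < cB + RB
  rad : R < RB

namespace PotB

theorem VF_union (A B : Set (ℤ × ℤ)) : VF (A ∪ B) = VF A ∪ VF B := by
  ext w
  constructor
  · rintro ⟨f, hf | hf, h⟩
    · exact Or.inl ⟨f, hf, h⟩
    · exact Or.inr ⟨f, hf, h⟩
  · rintro (⟨f, hf, h⟩ | ⟨f, hf, h⟩)
    · exact ⟨f, Or.inl hf, h⟩
    · exact ⟨f, Or.inr hf, h⟩

theorem VF_RF {x₀ x₁ y₀ y₁ : ℤ} {w : ℤ × ℤ} (h : w ∈ VF (RF x₀ x₁ y₀ y₁ : Set (ℤ × ℤ))) :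
    x₀ ≤ w.1 ∧ w.1 ≤ x₁ ∧ y₀ ≤ w.2 ∧ w.2 ≤ y₁ := by
  obtain ⟨f, hf, hc⟩ := h
  rw [mem_RF'] at hf
  unfold IsCor at hc
  omega

/-- A function which does not change across the sides of the faces of a rectangle is constant. -/
theorem const_RF {x₀ x₁ y₀ y₁ : ℤ} (hx : x₀ < x₁) (hy : y₀ < y₁) (Θ : ℤ × ℤ → ZMod 2)
    (h : ∀ f ∈ (RF x₀ x₁ y₀ y₁ : Set (ℤ × ℤ)), ∀ a, IsSide f a → Θ (ua a) = Θ (ub a)) {x y : ℤ}
    (h1 : x₀ ≤ x) (h2 : x ≤ x₁) (h3 : y₀ ≤ y) (h4 : y ≤ y₁) : Θ (x, y) = Θ (x₀, y₀) := by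
  have hv : ∀ y, y₀ ≤ y → y ≤ y₁ → Θ (x₀, y) = Θ (x₀, y₀) := by
    intro y hy0
    induction y, hy0 using Int.leInduction with
    | base => intro _; rfl
    | succ y hy0 ih =>
      intro hy1
      rw [← ih (by omega)]
      have := h (x₀, y) (mem_RF'.2 ⟨le_refl _, hx, hy0, by simp only; omega⟩) (le' (x₀, y))
        (Or.inr (Or.inl rfl))
      unfold le' at this
      rw [ua_mk, ub_true] at this
      exact this.symm
  rw [← hv y h3 h4]
  revert h2
  induction x, h1 using Int.leInduction with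
  | base => intro _; rfl
  | succ x hx0 ih =>
    intro hx1
    rw [← ih (by omega)]
    by_cases hyy : y < y₁
    · have := h (x, y) (mem_RF'.2 ⟨hx0, by simp only; omega, h3, hyy⟩) (bo (x, y)) (Or.inl rfl)
      unfold bo at this
      rw [ua_mk, ub_false] at this
      exact this.symm
    · have e : y = (y - 1) + 1 := by omega
      have := h (x, y - 1) (mem_RF'.2 ⟨hx0, by simp only; omega, by simp only; omega,
        by simp only; omega⟩) (to' (x, y - 1)) (Or.inr (Or.inr (Or.inl rfl)))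
      unfold to' at this
      simp only at this
      rw [← e, ua_mk, ub_false] at this
      exact this.symm

/-- Gluing of a rectangle along a rectangle. -/
theorem glue {F : Set (ℤ × ℤ)} (hF : HasPot F) {a₀ a₁ b₀ b₁ x₀ x₁ y₀ y₁ : ℤ} (hx : x₀ < x₁)
    (hy : y₀ < y₁) (hs : (RF x₀ x₁ y₀ y₁ : Set (ℤ × ℤ)) ⊆ F)
    (hs' : (RF x₀ x₁ y₀ y₁ : Set (ℤ × ℤ)) ⊆ RF a₀ a₁ b₀ b₁)
    (hv : ∀ w ∈ VF F, a₀ ≤ w.1 → w.1 ≤ a₁ → b₀ ≤ w.2 → w.2 ≤ b₁ →
      x₀ ≤ w.1 ∧ w.1 ≤ x₁ ∧ y₀ ≤ w.2 ∧ w.2 ≤ y₁) :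
    HasPot (F ∪ (RF a₀ a₁ b₀ b₁ : Set (ℤ × ℤ))) := by
  refine hF.union (hasPot_RF _ _ _ _) ?_
  intro Θ hΘ
  have key : ∀ w ∈ VF F ∩ VF (RF a₀ a₁ b₀ b₁ : Set (ℤ × ℤ)), Θ w = Θ (x₀, y₀) := by
    rintro ⟨x, y⟩ ⟨hw1, hw2⟩
    have k := VF_RF hw2
    have k' := hv _ hw1 k.1 k.2.1 k.2.2.1 k.2.2.2
    exact const_RF hx hy Θ (fun f hf => hΘ f ⟨hs hf, hs' hf⟩) k'.1 k'.2.1 k'.2.2.1 k'.2.2.2
  intro w hw w' hw'
  rw [key w hw, key w' hw']

end PotB

theorem hasPot_Slit {h w cB RB c R : ℤ} (hn : Nest h w cB RB c R) :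
    HasPot (Slit h w cB RB c R) := by
  obtain ⟨w1, wR, hl, hr, hrad⟩ := hn
  have e : Slit h w cB RB c R = (((((RF (c + R) (cB + RB) (h + w) (h + RB) : Set (ℤ × ℤ)) ∪
      (RF (cB - RB) (cB + RB) (h + R) (h + RB) : Set (ℤ × ℤ))) ∪
      (RF (cB - RB) (c - R) (h - RB) (h + RB) : Set (ℤ × ℤ))) ∪
      (RF (cB - RB) (cB + RB) (h - RB) (h - R) : Set (ℤ × ℤ))) ∪
      (RF (c + R) (cB + RB) (h - RB) (h - w) : Set (ℤ × ℤ))) := by
    ext f
    simp only [Slit, Ray, BR, Set.mem_union, Set.mem_ofPred_eq, mem_RF, mem_RF']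
    constructor
    · rintro ⟨h1, h2, h3⟩
      omega
    · rintro ((((h1 | h1) | h1) | h1) | h1)
      · refine ⟨by omega, by omega, by omega⟩
      · refine ⟨by omega, by omega, by omega⟩
      · refine ⟨by omega, by omega, by omega⟩
      · refine ⟨by omega, by omega, by omega⟩
      · refine ⟨by omega, by omega, by omega⟩
  rw [e]
  refine PotB.glue (x₀ := c + R) (x₁ := cB + RB) (y₀ := h - RB) (y₁ := h - R) ?_ (by omega)
    (by omega) ?_ ?_ ?_
  · refine PotB.glue (x₀ := cB - RB) (x₁ := c - R) (y₀ := h - RB) (y₁ := h - R) ?_ (by omega)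
      (by omega) ?_ ?_ ?_
    · refine PotB.glue (x₀ := cB - RB) (x₁ := c - R) (y₀ := h + R) (y₁ := h + RB) ?_ (by omega)
        (by omega) ?_ ?_ ?_
      · refine PotB.glue (x₀ := c + R) (x₁ := cB + RB) (y₀ := h + R) (y₁ := h + RB)
          (hasPot_RF _ _ _ _) (by omega) (by omega) ?_ ?_ ?_
        · intro f hf
          rw [mem_RF'] at hf ⊢
          omega
        · intro f hf
          rw [mem_RF'] at hf ⊢
          omega
        · intro v hv
          have := PotB.VF_RF hv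
          omega
      · intro f hf
        rw [Set.mem_union, mem_RF', mem_RF']
        rw [mem_RF'] at hf
        omega
      · intro f hf
        rw [mem_RF'] at hf ⊢
        omega
      · intro v hv
        rw [PotB.VF_union] at hv
        rcases hv with hv | hv <;>
        · have := PotB.VF_RF hv
          omega
    · intro f hf
      rw [Set.mem_union, Set.mem_union, mem_RF', mem_RF', mem_RF']
      rw [mem_RF'] at hf
      omega
    · intro f hf
      rw [mem_RF'] at hf ⊢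
      omega
    · intro v hv
      rw [PotB.VF_union, PotB.VF_union] at hv
      rcases hv with (hv | hv) | hv <;>
      · have := PotB.VF_RF hv
        omega
  · intro f hf
    rw [Set.mem_union, Set.mem_union, Set.mem_union, mem_RF', mem_RF', mem_RF', mem_RF']
    rw [mem_RF'] at hf
    omega
  · intro f hf
    rw [mem_RF'] at hf ⊢
    omega
  · intro v hv
    rw [PotB.VF_union, PotB.VF_union, PotB.VF_union] at hv
    rcases hv with ((hv | hv) | hv) | hv <;>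
    · have := PotB.VF_RF hv
      omega

theorem hasPot_Notch {h w cB RB X : ℤ} (hw : 1 ≤ w) (hR : w < RB) (h1 : cB - RB < X)
    (h2 : X < cB + RB) : HasPot (Notch h w cB RB X) := by
  have e : Notch h w cB RB X = (((RF (cB - RB) (cB + RB) (h + w) (h + RB) : Set (ℤ × ℤ)) ∪
      (RF (cB - RB) X (h - RB) (h + RB) : Set (ℤ × ℤ))) ∪
      (RF (cB - RB) (cB + RB) (h - RB) (h - w) : Set (ℤ × ℤ))) := by
    ext f
    simp only [Notch, Ray, BR, Set.mem_union, Set.mem_ofPred_eq, mem_RF, mem_RF']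
    constructor
    · rintro ⟨h1, h3⟩
      omega
    · rintro ((h1 | h1) | h1)
      · refine ⟨by omega, by omega⟩
      · refine ⟨by omega, by omega⟩
      · refine ⟨by omega, by omega⟩
  rw [e]
  refine PotB.glue (x₀ := cB - RB) (x₁ := X) (y₀ := h - RB) (y₁ := h - w) ?_ (by omega)
    (by omega) ?_ ?_ ?_
  · refine PotB.glue (x₀ := cB - RB) (x₁ := X) (y₀ := h + w) (y₁ := h + RB)
      (hasPot_RF _ _ _ _) (by omega) (by omega) ?_ ?_ ?_
    · intro f hf
      rw [mem_RF'] at hf ⊢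
      omega
    · intro f hf
      rw [mem_RF'] at hf ⊢
      omega
    · intro v hv
      have := PotB.VF_RF hv
      omega
  · intro f hf
    rw [Set.mem_union, mem_RF', mem_RF']
    rw [mem_RF'] at hf
    omega
  · intro f hf
    rw [mem_RF'] at hf ⊢
    omega
  · intro v hv
    rw [PotB.VF_union] at hv
    rcases hv with hv | hv <;>
    · have := PotB.VF_RF hv
      omega

end Pool.Agent.Perc6
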