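import Pool.Agent.Lib.MP_6bd702_perc6.Core
import Pool.Agent.Lib.MP_6bd702_perc6.Pot

/-!
# The boundary of a box, counterclockwise from the ray to the ray
-/

set_option autoImplicit false

namespace Pool.Agent.Perc6

open Finset Pool.Agent.Perc Pool.Agent.PercD Pool.Agent.PercL

variable {c h w R k : ℤ}

theorem cycY1_cases (hw : 1 ≤ w) (hR : w < R) (h0 : 0 ≤ k) (h1 : k < len w R) :
    (k < R - w ∧ cyc c h w R k = (c + R, h + w + k) ∧
      cyc c h w R (k + 1) = (c + R, h + w + k + 1) ∧ cycE c h w R k = (c + R, h + w + k, true)) ∨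
    (R - w ≤ k ∧ k < 3 * R - w ∧ cyc c h w R k = (c + 2 * R - w - k, h + R) ∧
      cyc c h w R (k + 1) = (c + 2 * R - w - k - 1, h + R) ∧
      cycE c h w R k = (c + 2 * R - w - k - 1, h + R, false)) ∨
    (3 * R - w ≤ k ∧ k < 5 * R - w ∧ cyc c h w R k = (c - R, h + 4 * R - w - k) ∧
      cyc c h w R (k + 1) = (c - R, h + 4 * R - w - k - 1) ∧
      cycE c h w R k = (c - R, h + 4 * R - w - k - 1, true)) ∨
    (5 * R - w ≤ k ∧ k < 7 * R - w ∧ cyc c h w R k = (c - 6 * R + w + k, h - R) ∧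
      cyc c h w R (k + 1) = (c - 6 * R + w + k + 1, h - R) ∧
      cycE c h w R k = (c - 6 * R + w + k, h - R, false)) ∨
    (7 * R - w ≤ k ∧ k < 8 * R - 2 * w ∧ cyc c h w R k = (c + R, h - 8 * R + w + k) ∧
      cyc c h w R (k + 1) = (c + R, h - 8 * R + w + k + 1) ∧
      cycE c h w R k = (c + R, h - 8 * R + w + k, true)) := by
  unfold len at h1
  by_cases hA : k < R - w
  · refine Or.inl ⟨hA, ?_, ?_, ?_⟩
    · unfold cyc; rw [if_pos (by omega)]
    · unfold cyc; rw [if_pos (by omega), add_assoc (h + w) k 1]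
    · unfold cycE; rw [if_pos (by omega)]
  by_cases hB : k < 3 * R - w
  · refine Or.inr (Or.inl ⟨by omega, hB, ?_, ?_, ?_⟩)
    · unfold cyc
      split_ifs <;> (refine Prod.ext ?_ ?_ <;> dsimp only <;> omega)
    · unfold cyc
      rw [if_neg (by omega), if_pos (by omega)]
      refine Prod.ext ?_ ?_ <;> dsimp only
      omega
    · unfold cycE
      rw [if_neg (by omega), if_pos (by omega)]
  by_cases hC : k < 5 * R - w
  · refine Or.inr (Or.inr (Or.inl ⟨by omega, hC, ?_, ?_, ?_⟩))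
    · unfold cyc
      split_ifs <;> (refine Prod.ext ?_ ?_ <;> dsimp only <;> omega)
    · unfold cyc
      rw [if_neg (by omega), if_neg (by omega), if_pos (by omega)]
      refine Prod.ext ?_ ?_ <;> dsimp only
      omega
    · unfold cycE
      rw [if_neg (by omega), if_neg (by omega), if_pos (by omega)]
  by_cases hD : k < 7 * R - w
  · refine Or.inr (Or.inr (Or.inr (Or.inl ⟨by omega, hD, ?_, ?_, ?_⟩)))
    · unfold cyc
      split_ifs <;> (refine Prod.ext ?_ ?_ <;> dsimp only <;> omega)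
    · unfold cyc
      rw [if_neg (by omega), if_neg (by omega), if_neg (by omega), if_pos (by omega)]
      refine Prod.ext ?_ ?_ <;> dsimp only
      omega
    · unfold cycE
      rw [if_neg (by omega), if_neg (by omega), if_neg (by omega), if_pos (by omega)]
  · refine Or.inr (Or.inr (Or.inr (Or.inr ⟨by omega, by omega, ?_, ?_, ?_⟩)))
    · unfold cyc
      split_ifs <;> (refine Prod.ext ?_ ?_ <;> dsimp only <;> omega)
    · unfold cyc
      rw [if_neg (by omega), if_neg (by omega), if_neg (by omega), if_neg (by omega)]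
      refine Prod.ext ?_ ?_ <;> dsimp only
      omega
    · unfold cycE
      rw [if_neg (by omega), if_neg (by omega), if_neg (by omega), if_neg (by omega)]

theorem cycY1_vert (hw : 1 ≤ w) (hR : w < R) (h0 : 0 ≤ k) (h1 : k ≤ len w R) :
    (k ≤ R - w ∧ cyc c h w R k = (c + R, h + w + k)) ∨
    (R - w < k ∧ k ≤ 3 * R - w ∧ cyc c h w R k = (c + 2 * R - w - k, h + R)) ∨
    (3 * R - w < k ∧ k ≤ 5 * R - w ∧ cyc c h w R k = (c - R, h + 4 * R - w - k)) ∨
    (5 * R - w < k ∧ k ≤ 7 * R - w ∧ cyc c h w R k = (c - 6 * R + w + k, h - R)) ∨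
    (7 * R - w < k ∧ k ≤ 8 * R - 2 * w ∧ cyc c h w R k = (c + R, h - 8 * R + w + k)) := by
  unfold len at h1
  unfold cyc
  split_ifs with hA hB hC hD
  · exact Or.inl ⟨hA, rfl⟩
  · exact Or.inr (Or.inl ⟨by omega, hB, rfl⟩)
  · exact Or.inr (Or.inr (Or.inl ⟨by omega, hC, rfl⟩))
  · exact Or.inr (Or.inr (Or.inr (Or.inl ⟨by omega, hD, rfl⟩)))
  · exact Or.inr (Or.inr (Or.inr (Or.inr ⟨by omega, by omega, rfl⟩)))

theorem cyc_joins (hw : 1 ≤ w) (hR : w < R) (h0 : 0 ≤ k) (h1 : k < len w R) :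
    Joins (cycE c h w R k) (cyc c h w R k) (cyc c h w R (k + 1)) := by
  rcases cycY1_cases (c := c) (h := h) hw hR h0 h1 with ⟨_, e1, e2, e3⟩ | ⟨_, _, e1, e2, e3⟩ |
    ⟨_, _, e1, e2, e3⟩ | ⟨_, _, e1, e2, e3⟩ | ⟨_, _, e1, e2, e3⟩
  · rw [e1, e2, e3]
    exact Or.inl ⟨rfl, by rw [ub_true]⟩
  · rw [e1, e2, e3]
    refine Or.inr ⟨?_, rfl⟩
    rw [ub_false, sub_add_cancel]
  · rw [e1, e2, e3]
    refine Or.inr ⟨?_, rfl⟩
    rw [ub_true, sub_add_cancel]
  · rw [e1, e2, e3]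
    exact Or.inl ⟨rfl, by rw [ub_false]⟩
  · rw [e1, e2, e3]
    exact Or.inl ⟨rfl, by rw [ub_true]⟩

theorem cycE_inj (hw : 1 ≤ w) (hR : w < R) {k' : ℤ} (h0 : 0 ≤ k) (h1 : k < len w R)
    (h0' : 0 ≤ k') (h1' : k' < len w R) (h : cycE c h w R k = cycE c h w R k') : k = k' := by
  rcases cycY1_cases (c := c) (h := _) hw hR h0 h1 with ⟨_, _, _, e3⟩ | ⟨_, _, _, _, e3⟩ |
    ⟨_, _, _, _, e3⟩ | ⟨_, _, _, _, e3⟩ | ⟨_, _, _, _, e3⟩ <;>
  rcases cycY1_cases (c := c) (h := _) hw hR h0' h1' with ⟨_, _, _, e3'⟩ | ⟨_, _, _, _, e3'⟩ |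
    ⟨_, _, _, _, e3'⟩ | ⟨_, _, _, _, e3'⟩ | ⟨_, _, _, _, e3'⟩ <;>
  · rw [e3, e3'] at h
    simp only [Prod.mk.injEq, reduceCtorEq, and_false, and_true] at h
    try omega

theorem cyc_inj (hw : 1 ≤ w) (hR : w < R) {k' : ℤ} (h0 : 0 ≤ k) (h1 : k ≤ len w R)
    (h0' : 0 ≤ k') (h1' : k' ≤ len w R) (h : cyc c h w R k = cyc c h w R k') : k = k' := by
  rcases cycY1_vert (c := c) (h := _) hw hR h0 h1 with ⟨_, e3⟩ | ⟨_, _, e3⟩ |
    ⟨_, _, e3⟩ | ⟨_, _, e3⟩ | ⟨_, _, e3⟩ <;>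
  rcases cycY1_vert (c := c) (h := _) hw hR h0' h1' with ⟨_, e3'⟩ | ⟨_, _, e3'⟩ |
    ⟨_, _, e3'⟩ | ⟨_, _, e3'⟩ | ⟨_, _, e3'⟩ <;>
  · rw [e3, e3'] at h
    simp only [Prod.mk.injEq] at h
    omega

theorem par_cyc (hw : 1 ≤ w) (hR : w < R) (h0 : 0 ≤ k) (h1 : k < len w R) :
    par (cyc c h w R (k + 1)) ≠ par (cyc c h w R k) := by
  unfold par
  rcases cycY1_cases (c := c) (h := h) hw hR h0 h1 with ⟨_, e1, e2, e3⟩ | ⟨_, _, e1, e2, e3⟩ |
    ⟨_, _, e1, e2, e3⟩ | ⟨_, _, e1, e2, e3⟩ | ⟨_, _, e1, e2, e3⟩ <;>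
  · rw [e1, e2]
    dsimp only
    omega

theorem cyc_onBd (hw : 1 ≤ w) (hR : w < R) (h0 : 0 ≤ k) (h1 : k ≤ len w R) :
    OnBd (c - R) (c + R) (h - R) (h + R) (cyc c h w R k) := by
  unfold OnBd
  rcases cycY1_vert (c := c) (h := h) hw hR h0 h1 with ⟨_, e3⟩ | ⟨_, _, e3⟩ |
    ⟨_, _, e3⟩ | ⟨_, _, e3⟩ | ⟨_, _, e3⟩ <;>
  · rw [e3]
    dsimp only
    omega

theorem bdR_cycE (hw : 1 ≤ w) (hR : w < R) (h0 : 0 ≤ k) (h1 : k < len w R) :
    BdR (c, h) R (cycE c h w R k) := by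
  unfold BdR BdE
  rcases cycY1_cases (c := c) (h := h) hw hR h0 h1 with ⟨_, _, _, e3⟩ | ⟨_, _, _, _, e3⟩ |
    ⟨_, _, _, _, e3⟩ | ⟨_, _, _, _, e3⟩ | ⟨_, _, _, _, e3⟩
  · rw [e3]
    refine Or.inr ⟨rfl, ?_⟩
    dsimp only
    omega
  · rw [e3]
    refine Or.inl ⟨rfl, ?_⟩
    dsimp only
    omega
  · rw [e3]
    refine Or.inr ⟨rfl, ?_⟩
    dsimp only
    omega
  · rw [e3]
    refine Or.inl ⟨rfl, ?_⟩
    dsimp only
    omega
  · rw [e3]
    refine Or.inr ⟨rfl, ?_⟩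
    dsimp only
    omega

/-- A boundary unit edge is some `cycE k` or it is on the ray. -/
theorem bdR_cases (hw : 1 ≤ w) (hR : w < R) {a : UE} (ha : BdR (c, h) R a) :
    (∃ k, 0 ≤ k ∧ k < len w R ∧ a = cycE c h w R k) ∨
      (a.1 = c + R ∧ a.2.2 = true ∧ h - w ≤ a.2.1 ∧ a.2.1 < h + w) := by
  obtain ⟨x, y, b⟩ := a
  unfold BdR BdE at ha
  dsimp only at ha ⊢
  unfold len
  rcases ha with ⟨rfl, h1, h2, h3 | h3⟩ | ⟨rfl, h1, h2, h3 | h3⟩
  · refine Or.inl ⟨x - c + 6 * R - w, by omega, by omega, ?_⟩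
    unfold cycE
    rw [if_neg (by omega), if_neg (by omega), if_neg (by omega), if_pos (by omega)]
    refine Prod.ext ?_ (Prod.ext ?_ rfl) <;> dsimp only <;> omega
  · refine Or.inl ⟨c + 2 * R - w - 1 - x, by omega, by omega, ?_⟩
    unfold cycE
    rw [if_neg (by omega), if_pos (by omega)]
    refine Prod.ext ?_ (Prod.ext ?_ rfl) <;> dsimp only <;> omega
  · refine Or.inl ⟨h + 4 * R - w - 1 - y, by omega, by omega, ?_⟩
    unfold cycE
    rw [if_neg (by omega), if_neg (by omega), if_pos (by omega)]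
    refine Prod.ext ?_ (Prod.ext ?_ rfl) <;> dsimp only <;> omega
  · by_cases h4 : h + w ≤ y
    · refine Or.inl ⟨y - h - w, by omega, by omega, ?_⟩
      unfold cycE
      rw [if_pos (by omega)]
      refine Prod.ext ?_ (Prod.ext ?_ rfl) <;> dsimp only <;> omega
    · by_cases h5 : y < h - w
      · refine Or.inl ⟨y - h + 8 * R - w, by omega, by omega, ?_⟩
        unfold cycE
        rw [if_neg (by omega), if_neg (by omega), if_neg (by omega), if_neg (by omega)]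
        refine Prod.ext ?_ (Prod.ext ?_ rfl) <;> dsimp only <;> omega
      · exact Or.inr ⟨h3, rfl, by omega, by omega⟩

theorem onBd_cases (hw : 1 ≤ w) (hR : w < R) {z : ℤ × ℤ}
    (hz : OnBd (c - R) (c + R) (h - R) (h + R) z) :
    (∃ k, 0 ≤ k ∧ k ≤ len w R ∧ z = cyc c h w R k) ∨
      (z.1 = c + R ∧ h - w < z.2 ∧ z.2 < h + w) := by
  obtain ⟨x, y⟩ := z
  unfold OnBd at hz
  dsimp only at hz ⊢
  unfold len
  by_cases hA : y = h + R
  · refine Or.inl ⟨c + 2 * R - w - x, by omega, by omega, ?_⟩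
    unfold cyc
    split_ifs <;> (refine Prod.ext ?_ ?_ <;> dsimp only <;> omega)
  by_cases hB : y = h - R
  · refine Or.inl ⟨x - c + 6 * R - w, by omega, by omega, ?_⟩
    unfold cyc
    split_ifs <;> (refine Prod.ext ?_ ?_ <;> dsimp only <;> omega)
  by_cases hC : x = c - R
  · refine Or.inl ⟨h + 4 * R - w - y, by omega, by omega, ?_⟩
    unfold cyc
    split_ifs <;> (refine Prod.ext ?_ ?_ <;> dsimp only <;> omega)
  · by_cases h4 : h + w ≤ y
    · refine Or.inl ⟨y - h - w, by omega, by omega, ?_⟩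
      unfold cyc
      split_ifs <;> (refine Prod.ext ?_ ?_ <;> dsimp only <;> omega)
    · by_cases h5 : y ≤ h - w
      · refine Or.inl ⟨y - h + 8 * R - w, by omega, by omega, ?_⟩
        unfold cyc
        split_ifs <;> (refine Prod.ext ?_ ?_ <;> dsimp only <;> omega)
      · exact Or.inr ⟨by omega, by omega, by omega⟩

theorem cycY1_mem_Slit {cB RB : ℤ} {f : ℤ × ℤ} : f ∈ Slit h w cB RB c R ↔
    (cB - RB ≤ f.1 ∧ f.1 < cB + RB ∧ h - RB ≤ f.2 ∧ f.2 < h + RB) ∧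
      ¬ (c - R ≤ f.1 ∧ f.1 < c + R ∧ h - R ≤ f.2 ∧ f.2 < h + R) ∧
      ¬ (c + R ≤ f.1 ∧ h - w ≤ f.2 ∧ f.2 < h + w) := by
  unfold Slit Ray
  rw [Set.mem_ofPred_eq, Set.mem_ofPred_eq, mem_BR, mem_BR]

/-- The unit edges of the outer boundary are boundary unit edges of the slit region. -/
theorem bdU_outer {cB RB : ℤ} (hn : Nest h w cB RB c R) (h0 : 0 ≤ k) (h1 : k < len w RB) :
    BdU (Slit h w cB RB c R) (cycE cB h w RB k) := by
  obtain ⟨n1, n2, n3, n4, n5⟩ := hn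
  unfold BdU
  rcases cycY1_cases (c := cB) (h := h) (w := w) (R := RB) n1 (by omega) h0 h1 with
    ⟨_, _, _, e3⟩ | ⟨_, _, _, _, e3⟩ | ⟨_, _, _, _, e3⟩ | ⟨_, _, _, _, e3⟩ | ⟨_, _, _, _, e3⟩
  · rw [e3]
    refine ⟨⟨(cB + RB - 1, h + w + k), ?_, ?_⟩, ⟨(cB + RB, h + w + k), ?_, ?_⟩⟩
    · rw [cycY1_mem_Slit]
      dsimp only
      omega
    · refine Or.inr (Or.inr (Or.inr ?_))
      simp only [ri, sub_add_cancel]
    · rw [cycY1_mem_Slit]
      dsimp only
      omega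
    · exact Or.inr (Or.inl rfl)
  · rw [e3]
    refine ⟨⟨(cB + 2 * RB - w - k - 1, h + RB - 1), ?_, ?_⟩,
      ⟨(cB + 2 * RB - w - k - 1, h + RB), ?_, ?_⟩⟩
    · rw [cycY1_mem_Slit]
      dsimp only
      omega
    · refine Or.inr (Or.inr (Or.inl ?_))
      simp only [to', sub_add_cancel]
    · rw [cycY1_mem_Slit]
      dsimp only
      omega
    · exact Or.inl rfl
  · rw [e3]
    refine ⟨⟨(cB - RB, h + 4 * RB - w - k - 1), ?_, ?_⟩,
      ⟨(cB - RB - 1, h + 4 * RB - w - k - 1), ?_, ?_⟩⟩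
    · rw [cycY1_mem_Slit]
      dsimp only
      omega
    · exact Or.inr (Or.inl rfl)
    · rw [cycY1_mem_Slit]
      dsimp only
      omega
    · refine Or.inr (Or.inr (Or.inr ?_))
      simp only [ri, sub_add_cancel]
  · rw [e3]
    refine ⟨⟨(cB - 6 * RB + w + k, h - RB), ?_, ?_⟩,
      ⟨(cB - 6 * RB + w + k, h - RB - 1), ?_, ?_⟩⟩
    · rw [cycY1_mem_Slit]
      dsimp only
      omega
    · exact Or.inl rfl
    · rw [cycY1_mem_Slit]
      dsimp only
      omega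
    · refine Or.inr (Or.inr (Or.inl ?_))
      simp only [to', sub_add_cancel]
  · rw [e3]
    refine ⟨⟨(cB + RB - 1, h - 8 * RB + w + k), ?_, ?_⟩,
      ⟨(cB + RB, h - 8 * RB + w + k), ?_, ?_⟩⟩
    · rw [cycY1_mem_Slit]
      dsimp only
      omega
    · refine Or.inr (Or.inr (Or.inr ?_))
      simp only [ri, sub_add_cancel]
    · rw [cycY1_mem_Slit]
      dsimp only
      omega
    · exact Or.inr (Or.inl rfl)

/-- The unit edges of the inner boundary are boundary unit edges of the slit region. -/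
theorem bdU_inner {cB RB : ℤ} (hn : Nest h w cB RB c R) (h0 : 0 ≤ k) (h1 : k < len w R) :
    BdU (Slit h w cB RB c R) (cycE c h w R k) := by
  obtain ⟨n1, n2, n3, n4, n5⟩ := hn
  unfold BdU
  rcases cycY1_cases (c := c) (h := h) (w := w) (R := R) n1 n2 h0 h1 with
    ⟨_, _, _, e3⟩ | ⟨_, _, _, _, e3⟩ | ⟨_, _, _, _, e3⟩ | ⟨_, _, _, _, e3⟩ | ⟨_, _, _, _, e3⟩
  · rw [e3]
    refine ⟨⟨(c + R, h + w + k), ?_, ?_⟩, ⟨(c + R - 1, h + w + k), ?_, ?_⟩⟩
    · rw [cycY1_mem_Slit]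
      dsimp only
      omega
    · exact Or.inr (Or.inl rfl)
    · rw [cycY1_mem_Slit]
      dsimp only
      omega
    · refine Or.inr (Or.inr (Or.inr ?_))
      simp only [ri, sub_add_cancel]
  · rw [e3]
    refine ⟨⟨(c + 2 * R - w - k - 1, h + R), ?_, ?_⟩,
      ⟨(c + 2 * R - w - k - 1, h + R - 1), ?_, ?_⟩⟩
    · rw [cycY1_mem_Slit]
      dsimp only
      omega
    · exact Or.inl rfl
    · rw [cycY1_mem_Slit]
      dsimp only
      omega
    · refine Or.inr (Or.inr (Or.inl ?_))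
      simp only [to', sub_add_cancel]
  · rw [e3]
    refine ⟨⟨(c - R - 1, h + 4 * R - w - k - 1), ?_, ?_⟩,
      ⟨(c - R, h + 4 * R - w - k - 1), ?_, ?_⟩⟩
    · rw [cycY1_mem_Slit]
      dsimp only
      omega
    · refine Or.inr (Or.inr (Or.inr ?_))
      simp only [ri, sub_add_cancel]
    · rw [cycY1_mem_Slit]
      dsimp only
      omega
    · exact Or.inr (Or.inl rfl)
  · rw [e3]
    refine ⟨⟨(c - 6 * R + w + k, h - R - 1), ?_, ?_⟩,
      ⟨(c - 6 * R + w + k, h - R), ?_, ?_⟩⟩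
    · rw [cycY1_mem_Slit]
      dsimp only
      omega
    · refine Or.inr (Or.inr (Or.inl ?_))
      simp only [to', sub_add_cancel]
    · rw [cycY1_mem_Slit]
      dsimp only
      omega
    · exact Or.inl rfl
  · rw [e3]
    refine ⟨⟨(c + R, h - 8 * R + w + k), ?_, ?_⟩,
      ⟨(c + R - 1, h - 8 * R + w + k), ?_, ?_⟩⟩
    · rw [cycY1_mem_Slit]
      dsimp only
      omega
    · exact Or.inr (Or.inl rfl)
    · rw [cycY1_mem_Slit]
      dsimp only
      omega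
    · refine Or.inr (Or.inr (Or.inr ?_))
      simp only [ri, sub_add_cancel]

/-- The inner and the outer boundary are disjoint. -/
theorem cycE_ne {cB RB k' : ℤ} (hn : Nest h w cB RB c R) (h0 : 0 ≤ k) (h1 : k < len w R)
    (h0' : 0 ≤ k') (h1' : k' < len w RB) : cycE c h w R k ≠ cycE cB h w RB k' := by
  obtain ⟨n1, n2, n3, n4, n5⟩ := hn
  intro he
  have e1 := bdR_cycE (c := c) (h := h) n1 n2 h0 h1
  have e2 := bdR_cycE (c := cB) (h := h) (w := w) (R := RB) n1 (by omega) h0' h1'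
  rw [← he] at e2
  unfold BdR BdE at e1 e2
  generalize cycE c h w R k = a at e1 e2
  obtain ⟨x, y, b⟩ := a
  dsimp only at e1 e2
  rcases e1 with ⟨rfl, h2⟩ | ⟨rfl, h2⟩
  · rcases e2 with ⟨_, h3⟩ | ⟨h3, _⟩
    · omega
    · exact absurd h3 (by decide)
  · rcases e2 with ⟨h3, _⟩ | ⟨_, h3⟩
    · exact absurd h3 (by decide)
    · omega

/-- The values of the potential along the boundary. -/
theorem pot_cyc {F : Set (ℤ × ℤ)} {M : Set UE} {Φ : ℤ × ℤ → ZMod 2} (hP : IsPot F M Φ)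
    (hw : 1 ≤ w) (hR : w < R) (hs : ∀ k, 0 ≤ k → k < len w R → ∃ f ∈ F, IsSide f (cycE c h w R k))
    {τ : ℤ} (hτ : ∀ k, 0 ≤ k → k < len w R → (cycE c h w R k ∈ M ↔ k = τ)) (h0 : 0 ≤ k)
    (h1 : k ≤ len w R) (hτ0 : 0 ≤ τ) :
    Φ (cyc c h w R k) = Φ (cyc c h w R 0) + if k ≤ τ then 0 else 1 := by
  revert h1
  induction k, h0 using Int.leInduction with
  | base =>
    intro _
    rw [if_pos hτ0, add_zero]
  | succ k hk ih =>
    intro h1
    have ih' := ih (by omega)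
    obtain ⟨f, hf, hfs⟩ := hs k hk (by omega)
    have hj := hP.joins hf hfs (cyc_joins (c := c) (h := h) hw hR hk (by omega))
    rw [hτ k hk (by omega)] at hj
    by_cases hkτ : k = τ
    · have h3 := hj.1 hkτ
      rw [ih', if_pos (by omega), add_zero] at h3
      rw [if_neg (by omega)]
      exact (z2_ne _ _).1 h3.symm
    · have h3 : Φ (cyc c h w R k) = Φ (cyc c h w R (k + 1)) := by
        by_contra h4
        exact hkτ (hj.2 h4)
      rw [← h3, ih']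
      by_cases h5 : k ≤ τ
      · rw [if_pos h5, if_pos (by omega)]
      · rw [if_neg h5, if_neg (by omega)]

namespace DuoAux

variable {h w cB RB c R : ℤ} {ω : Cfg}

theorem cyc_zero (hR : w < R) : cyc c h w R 0 = (c + R, h + w) := by
  unfold cyc
  rw [if_pos (by omega)]
  simp

theorem cyc_len (hw : 1 ≤ w) (hR : w < R) : cyc c h w R (len w R) = (c + R, h - w) := by
  unfold cyc len
  rw [if_neg (by omega), if_neg (by omega), if_neg (by omega), if_neg (by omega)]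
  simp only [Prod.mk.injEq, true_and]
  omega

theorem len_pos (hR : w < R) (hw : 1 ≤ w) : 0 < len w R := by
  unfold len; omega

theorem mem_Slit {f : ℤ × ℤ} : f ∈ Slit h w cB RB c R ↔
    (cB - RB ≤ f.1 ∧ f.1 < cB + RB ∧ h - RB ≤ f.2 ∧ f.2 < h + RB) ∧
    ¬ (c - R ≤ f.1 ∧ f.1 < c + R ∧ h - R ≤ f.2 ∧ f.2 < h + R) ∧
    ¬ (c + R ≤ f.1 ∧ h - w ≤ f.2 ∧ f.2 < h + w) := by
  unfold Slit Ray
  rw [Set.mem_ofPred_eq, mem_BR, mem_BR, Set.mem_ofPred_eq]

/-- A horizontal unit edge at height `h + w` or `h - w` is not on the outer or inner boundary. -/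
theorem cycE_ne_hor (hw : 1 ≤ w) (hR : w < R) {k x y : ℤ} (hy : y = h + w ∨ y = h - w) :
    cycE c h w R k ≠ (x, y, false) := by
  unfold cycE
  intro hh
  split_ifs at hh <;> simp only [Prod.mk.injEq, Bool.true_eq_false, and_false] at hh <;> omega

theorem bdU_up (hn : Nest h w cB RB c R) {x : ℤ} (h1 : c + R ≤ x) (h2 : x < cB + RB) :
    BdU (Slit h w cB RB c R) (x, h + w, false) := by
  obtain ⟨a1, a2, a3, a4, a5⟩ := hn
  refine ⟨⟨(x, h + w), ?_, Or.inl rfl⟩, (x, h + w - 1), ?_, Or.inr (Or.inr (Or.inl ?_))⟩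
  · rw [mem_Slit]; simp only; omega
  · rw [mem_Slit]; simp only; omega
  · unfold to'; simp

theorem bdU_dn (hn : Nest h w cB RB c R) {x : ℤ} (h1 : c + R ≤ x) (h2 : x < cB + RB) :
    BdU (Slit h w cB RB c R) (x, h - w, false) := by
  obtain ⟨a1, a2, a3, a4, a5⟩ := hn
  refine ⟨⟨(x, h - w - 1), ?_, Or.inr (Or.inr (Or.inl ?_))⟩, (x, h - w), ?_, Or.inl rfl⟩
  · rw [mem_Slit]; simp only; omega
  · unfold to'; simp
  · rw [mem_Slit]; simp only; omega

/-- One strand: the potential along the outer boundary, the inner boundary and the ray. -/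
theorem one_strand (hn : Nest h w cB RB c R) {k : ℤ} (hk0 : 0 ≤ k) (hk1 : k < len w RB)
    (hω : ∃ τ, 0 ≤ τ ∧ τ < len w R ∧
      cycE c h w R τ ∈ MM ω (Slit h w cB RB c R) (cycE cB h w RB k)) :
    ∃ (Φ : ℤ × ℤ → ZMod 2) (τ : ℤ), IsPot (Slit h w cB RB c R)
        (MM ω (Slit h w cB RB c R) (cycE cB h w RB k)) Φ ∧ 0 ≤ τ ∧ τ < len w R ∧
      (∀ t, 0 ≤ t → t < len w R →
        (cycE c h w R t ∈ MM ω (Slit h w cB RB c R) (cycE cB h w RB k) ↔ t = τ)) ∧
      (∀ t, 0 ≤ t → t < len w RB →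
        (cycE cB h w RB t ∈ MM ω (Slit h w cB RB c R) (cycE cB h w RB k) ↔ t = k)) ∧
      (∀ t, 0 ≤ t → t ≤ len w RB → Φ (cyc cB h w RB t) = if t ≤ k then 0 else 1) ∧
      (∀ t, 0 ≤ t → t ≤ len w R → Φ (cyc c h w R t) = if t ≤ τ then 0 else 1) ∧
      (∀ x, c + R ≤ x → x ≤ cB + RB → Φ (x, h + w) = 0) ∧
      (∀ x, c + R ≤ x → x ≤ cB + RB → Φ (x, h - w) = 1) := by
  obtain ⟨τ, hτ0, hτ1, hτ⟩ := hω
  have hw := hn.w1
  have hR := hn.wR
  have hRB : w < RB := by have := hn.rad; omega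
  set F := Slit h w cB RB c R with hF
  set e := cycE cB h w RB k with he
  obtain ⟨Φ₀, hΦ₀⟩ := hasPot_Slit hn (MM ω F e) fun f hf => evenAt_MM hf
  have hbe : BdU F e := bdU_outer hn hk0 hk1
  have hin : ∀ t, 0 ≤ t → t < len w R → (cycE c h w R t ∈ MM ω F e ↔ t = τ) := by
    intro t h0 h1
    constructor
    · intro hm
      have := bdU_unique hbe hm hτ (bdU_inner hn h0 h1) (bdU_inner hn hτ0 hτ1)
        (cycE_ne hn h0 h1 hk0 hk1) (cycE_ne hn hτ0 hτ1 hk0 hk1)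
      exact cycE_inj hw hR h0 h1 hτ0 hτ1 this
    · rintro rfl; exact hτ
  have hout : ∀ t, 0 ≤ t → t < len w RB → (cycE cB h w RB t ∈ MM ω F e ↔ t = k) := by
    intro t h0 h1
    constructor
    · intro hm
      by_contra hne
      have h3 : cycE cB h w RB t ≠ e := fun hh => hne (cycE_inj hw hRB h0 h1 hk0 hk1 hh)
      have := bdU_unique hbe hm hτ (bdU_outer hn h0 h1) (bdU_inner hn hτ0 hτ1) h3
        (cycE_ne hn hτ0 hτ1 hk0 hk1)
      exact cycE_ne hn hτ0 hτ1 h0 h1 this.symm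
    · rintro rfl; exact mem_MM_self
  have hray : ∀ x y : ℤ, (y = h + w ∨ y = h - w) → BdU F (x, y, false) →
      ((x, y, false) : UE) ∉ MM ω F e := by
    intro x y hy hb hm
    have := bdU_unique hbe hm hτ hb (bdU_inner hn hτ0 hτ1)
      (cycE_ne_hor (c := cB) (k := k) hw hRB hy).symm (cycE_ne hn hτ0 hτ1 hk0 hk1)
    exact cycE_ne_hor (c := c) (k := τ) hw hR hy this.symm
  set Φ : ℤ × ℤ → ZMod 2 := fun z => Φ₀ z + Φ₀ (cyc cB h w RB 0) with hΦdef
  have hΦ : IsPot F (MM ω F e) Φ := hΦ₀.add_const _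
  have hb0 : Φ (cyc cB h w RB 0) = 0 := by rw [hΦdef]; exact z2_add_self _
  have hO : ∀ t, 0 ≤ t → t ≤ len w RB → Φ (cyc cB h w RB t) = if t ≤ k then 0 else 1 := by
    intro t h0 h1
    rw [pot_cyc hΦ hw hRB (fun k h0 h1 => (bdU_outer hn h0 h1).1) hout h0 h1 hk0, hb0, zero_add]
  -- the upper side of the ray
  have hup : ∀ n : ℕ, c + R ≤ cB + RB - n → Φ (cB + RB - n, h + w) = 0 := by
    intro n
    induction n with
    | zero =>
      intro _
      rw [Nat.cast_zero, sub_zero, ← cyc_zero (c := cB) (h := h) hRB]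
      exact hb0
    | succ n ih =>
      intro hn1
      push_cast at hn1 ⊢
      have h3 := ih (by omega)
      have hb := bdU_up hn (x := cB + RB - (n + 1)) (by omega) (by omega)
      have h4 := hray _ _ (Or.inl rfl) hb
      obtain ⟨f, hf, hs⟩ := hb.1
      have h5 := hΦ.joins (p := (cB + RB - (n + 1), h + w)) (q := (cB + RB - n, h + w)) hf hs
        (Or.inl ⟨rfl, by simp only [ub]; simp; ring⟩)
      by_contra hne
      exact h4 (h5.2 (by rw [h3]; exact hne))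
  have hup' : ∀ x, c + R ≤ x → x ≤ cB + RB → Φ (x, h + w) = 0 := by
    intro x h1 h2
    have := hup (cB + RB - x).toNat (by omega)
    rwa [show (cB + RB - (((cB + RB - x).toNat : ℕ) : ℤ)) = x by omega] at this
  have hI0 : Φ (cyc c h w R 0) = 0 := by
    rw [cyc_zero hR]
    exact hup' _ le_rfl (by have := hn.right; omega)
  have hI : ∀ t, 0 ≤ t → t ≤ len w R → Φ (cyc c h w R t) = if t ≤ τ then 0 else 1 := by
    intro t h0 h1
    rw [pot_cyc hΦ hw hR (fun k h0 h1 => (bdU_inner hn h0 h1).1) hin h0 h1 hτ0, hI0, zero_add]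
  have hdn : ∀ n : ℕ, c + R + n ≤ cB + RB → Φ (c + R + n, h - w) = 1 := by
    intro n
    induction n with
    | zero =>
      intro _
      have h1 := hI (len w R) (by have := len_pos hR hw; omega) le_rfl
      rw [cyc_len hw hR, if_neg (by omega)] at h1
      simpa using h1
    | succ n ih =>
      intro hn1
      push_cast at hn1 ⊢
      have h3 := ih (by omega)
      have hb := bdU_dn hn (x := c + R + n) (by omega) (by omega)
      have h4 := hray _ _ (Or.inr rfl) hb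
      obtain ⟨f, hf, hs⟩ := hb.1
      have h5 := hΦ.joins (p := (c + R + n, h - w)) (q := (c + R + (n + 1), h - w)) hf hs
        (Or.inl ⟨rfl, by simp only [ub]; simp; ring⟩)
      by_contra hne
      exact h4 (h5.2 (by rw [h3]; exact fun hh => hne hh.symm))
  have hdn' : ∀ x, c + R ≤ x → x ≤ cB + RB → Φ (x, h - w) = 1 := by
    intro x h1 h2
    have := hdn (x - (c + R)).toNat (by omega)
    rwa [show (c + R + (((x - (c + R)).toNat : ℕ) : ℤ)) = x by omega] at this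
  exact ⟨Φ, τ, hΦ, hτ0, hτ1, hin, hout, hO, hI, hup', hdn'⟩

end DuoAux

open DuoAux in
theorem duo_of_Gev {h w c R : ℤ} {col cB RB : ℤ} (hn : Nest h w cB RB c R) {κ : ℤ × ℤ}
    (hκ : κ ∈ KP col cB h w RB) {ω : Cfg} (hω : ω ∈ Gev h w cB RB c R κ) :
    ∃ (Φ Ψ : ℤ × ℤ → ZMod 2) (τ τ' : ℤ),
      Duo ω (Slit h w cB RB c R) (cycE cB h w RB κ.1) (cycE cB h w RB κ.2)
        (cyc cB h w RB (κ.1 + 1)) (cyc cB h w RB κ.1) (cyc cB h w RB κ.2)
        (cyc cB h w RB (κ.2 + 1)) Φ Ψ ∧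
      0 ≤ τ ∧ τ < τ' ∧ τ' < len w R ∧
      (∀ t, 0 ≤ t → t < len w R →
        (cycE c h w R t ∈ MM ω (Slit h w cB RB c R) (cycE cB h w RB κ.1) ↔ t = τ)) ∧
      (∀ t, 0 ≤ t → t < len w R →
        (cycE c h w R t ∈ MM ω (Slit h w cB RB c R) (cycE cB h w RB κ.2) ↔ t = τ')) ∧
      (∀ t, 0 ≤ t → t ≤ len w R → Φ (cyc c h w R t) = if t ≤ τ then 0 else 1) ∧
      (∀ t, 0 ≤ t → t ≤ len w R → Ψ (cyc c h w R t) = if t ≤ τ' then 0 else 1) ∧
      (∀ x, c + R ≤ x → x ≤ cB + RB → Φ (x, h + w) = 0 ∧ Ψ (x, h + w) = 0) ∧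
      (∀ x, c + R ≤ x → x ≤ cB + RB → Φ (x, h - w) = 1 ∧ Ψ (x, h - w) = 1) := by
  have hw := hn.w1
  have hR := hn.wR
  have hRB : w < RB := by have := hn.rad; omega
  unfold KP at hκ
  rw [mem_filter, mem_product, mem_Ico, mem_Ico] at hκ
  obtain ⟨⟨⟨a1, a2⟩, a3, a4⟩, a5, a6, a7⟩ := hκ
  obtain ⟨Φ, τ, hΦ, t0, t1, hin, hout, hO, hI, hu, hd⟩ := one_strand hn a1 a2 hω.1
  obtain ⟨Ψ, τ', hΨ, t0', t1', hin', hout', hO', hI', hu', hd'⟩ := one_strand hn a3 a4 hω.2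
  have hje := cyc_joins (c := cB) (h := h) hw hRB a1 a2
  have hje' := cyc_joins (c := cB) (h := h) hw hRB a3 a4
  have hjt' := cyc_joins (c := c) (h := h) hw hR t0' t1'
  have hmt' := (hin' τ' t0' t1').2 rfl
  have hmt := (hin τ t0 t1).2 rfl
  -- the order of the tips
  have h1 : τ ≤ τ' := by
    obtain ⟨p, q, hj, hp, hc⟩ := MM_conn hje' hmt'
    have h2 := hΦ.conn (hc.mono SS_sub)
    rw [hO κ.2 a3 (by omega), if_neg (by omega)] at h2
    by_contra hlt
    have h4 : Φ (cyc c h w R τ') = 0 := by rw [hI τ' t0' (by omega), if_pos (by omega)]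
    have h5 : Φ (cyc c h w R (τ' + 1)) = 0 := by
      rw [hI (τ' + 1) (by omega) (by omega), if_pos (by omega)]
    have h6 : p = cyc c h w R τ' ∨ p = cyc c h w R (τ' + 1) := by
      rcases hj with ⟨hj1, hj2⟩ | ⟨hj1, hj2⟩ <;> rcases hjt' with ⟨hk1, hk2⟩ | ⟨hk1, hk2⟩
      · left; rw [hj1, hk1]
      · right; rw [hj1, hk2]
      · right; rw [hj1, hk2]
      · left; rw [hj1, hk1]
    rcases h6 with rfl | rfl
    · rw [h4] at h2; exact absurd h2 (by decide)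
    · rw [h5] at h2; exact absurd h2 (by decide)
  have h2 : τ ≠ τ' := by
    rintro rfl
    have h3 : cycE cB h w RB κ.2 ∈ MM ω (Slit h w cB RB c R) (cycE cB h w RB κ.1) :=
      MM_trans hmt (MM_symm hmt')
    have h4 := (hout κ.2 a3 a4).1 h3
    omega
  have hp1 := par_cyc (c := cB) (h := h) hw hRB a1 a2
  refine ⟨Φ, Ψ, τ, τ', ⟨hΦ, hΨ, (bdU_outer hn a1 a2).1, (bdU_outer hn a3 a4).1, hje.symm, hje', ?_,
    ?_, ?_, ?_, ?_, ?_, ?_, ?_, ?_⟩, t0, by omega, t1', hin, hin', hI, hI',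
    fun x h3 h4 => ⟨hu x h3 h4, hu' x h3 h4⟩, fun x h3 h4 => ⟨hd x h3 h4, hd' x h3 h4⟩⟩
  · have c1 := par_cases (cyc cB h w RB κ.1)
    have c2 := par_cases (cyc cB h w RB (κ.1 + 1))
    have c3 := par_cases (cyc cB h w RB κ.2)
    omega
  · rw [hO _ (by omega) (by omega), if_neg (by omega)]
  · rw [hO _ (by omega) (by omega), if_pos (by omega)]
  · rw [hO _ (by omega) (by omega), if_neg (by omega)]
  · rw [hO _ (by omega) (by omega), if_neg (by omega)]
  · rw [hO' _ (by omega) (by omega), if_pos (by omega)]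
  · rw [hO' _ (by omega) (by omega), if_pos (by omega)]
  · rw [hO' _ (by omega) (by omega), if_pos (by omega)]
  · rw [hO' _ (by omega) (by omega), if_neg (by omega)]

end Pool.Agent.Perc6
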