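import Pool.Agent.Lib.MP_6bd702_percd.Base
import Pool.Agent.Lib.MP_6bd702_percw.LowMix
import Pool.Agent.Lib.MP_6bd702_percw.RswC

/-!
# Almost sure lower bound for the outer boundary: definitions

The band `|y - h| ≤ w`, the ray (the faces of the band to the right of a point), the slit regions,
the tags (rightmost vertex of a cluster in the band), the two strands of a pair of boundary unit
edges, the windows and the successes.
-/

set_option autoImplicit false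

namespace Pool.Agent.Perc6

open Finset Pool.Agent.Perc Pool.Agent.PercD Pool.Agent.PercL

/-! ### Potentials in general regions -/

/-- The corners of the faces of `F`. -/
def VF (F : Set (ℤ × ℤ)) : Set (ℤ × ℤ) := {w | ∃ f ∈ F, IsCor f w}

/-- `Φ` changes exactly across the unit edges of `M` (sides of faces of `F`). -/
def IsPot (F : Set (ℤ × ℤ)) (M : Set UE) (Φ : ℤ × ℤ → ZMod 2) : Prop :=
  ∀ f ∈ F, ∀ a, IsSide f a → (a ∈ M ↔ Φ (ua a) ≠ Φ (ub a))

/-- Every set of unit edges which is even in the faces of `F` has a potential. -/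
def HasPot (F : Set (ℤ × ℤ)) : Prop :=
  ∀ M : Set UE, (∀ f ∈ F, EvenAt M f) → ∃ Φ : ℤ × ℤ → ZMod 2, IsPot F M Φ

/-- The faces visited by the two strands. -/
def S2 (ω : Cfg) (F : Set (ℤ × ℤ)) (e e' : UE) : Set (ℤ × ℤ) := SS ω F e ∪ SS ω F e'

/-- The two strands of `e` and `e'` in `F`: `u`, `u'` are the ends of the colour of the cluster
(colour P), `v`, `v'` the other ends (colour D). Sectors: `Φ = Ψ = 0` (upper D sector, contains `v`),
`Φ = 1, Ψ = 0` (P sector, contains `u` and `u'`), `Φ = Ψ = 1` (lower D sector, contains `v'`). -/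
structure Duo (ω : Cfg) (F : Set (ℤ × ℤ)) (e e' : UE) (u v u' v' : ℤ × ℤ)
    (Φ Ψ : ℤ × ℤ → ZMod 2) : Prop where
  potE : IsPot F (MM ω F e) Φ
  potE' : IsPot F (MM ω F e') Ψ
  side : ∃ f ∈ F, IsSide f e
  side' : ∃ f ∈ F, IsSide f e'
  je : Joins e u v
  je' : Joins e' u' v'
  par_eq : par u = par u'
  Φu : Φ u = 1
  Φv : Φ v = 0
  Φu' : Φ u' = 1
  Φv' : Φ v' = 1
  Ψu : Ψ u = 0
  Ψv : Ψ v = 0
  Ψu' : Ψ u' = 0
  Ψv' : Ψ v' = 1

/-! ### Regions -/

/-- The faces of the band `h - w ≤ y ≤ h + w` to the right of `X`. -/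
def Ray (h w X : ℤ) : Set (ℤ × ℤ) := {f | X ≤ f.1 ∧ h - w ≤ f.2 ∧ f.2 < h + w}

/-- The box of radius `RB` around `(cB, h)` without the box of radius `R` around `(c, h)` and
without the ray to the right of this box. -/
def Slit (h w cB RB c R : ℤ) : Set (ℤ × ℤ) :=
  {f | f ∈ BR (cB, h) RB ∧ f ∉ BR (c, h) R ∧ f ∉ Ray h w (c + R)}

/-- The box of radius `RB` around `(cB, h)` without the ray to the right of `X`. -/
def Notch (h w cB RB X : ℤ) : Set (ℤ × ℤ) := {f | f ∈ BR (cB, h) RB ∧ f ∉ Ray h w X}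

/-- The boundary vertices of the box of radius `R` around `(c, h)`, counterclockwise from
`(c + R, h + w)` to `(c + R, h - w)`, `0 ≤ k ≤ 8 R - 2 w`. -/
def cyc (c h w R k : ℤ) : ℤ × ℤ :=
  if k ≤ R - w then (c + R, h + w + k)
  else if k ≤ 3 * R - w then (c + 2 * R - w - k, h + R)
  else if k ≤ 5 * R - w then (c - R, h + 4 * R - w - k)
  else if k ≤ 7 * R - w then (c - 6 * R + w + k, h - R)
  else (c + R, h - 8 * R + w + k)

/-- The unit edge from `cyc k` to `cyc (k + 1)`, `0 ≤ k < 8 R - 2 w`. -/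
def cycE (c h w R k : ℤ) : UE :=
  if k < R - w then (c + R, h + w + k, true)
  else if k < 3 * R - w then (c + 2 * R - w - k - 1, h + R, false)
  else if k < 5 * R - w then (c - R, h + 4 * R - w - k - 1, true)
  else if k < 7 * R - w then (c - 6 * R + w + k, h - R, false)
  else (c + R, h - 8 * R + w + k, true)

/-- The length of the boundary. -/
def len (w R : ℤ) : ℤ := 8 * R - 2 * w

/-! ### Tags -/

/-- `X` is the tag of its cluster in the box of radius `R` around `(c, h)`: the cluster reaches the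
boundary of the box and `X` is its rightmost (then topmost) vertex in the band. -/
def TagEv (h w c R : ℤ) (X : ℤ × ℤ) : Set Cfg :=
  {ω | (∃ y, Conn ω (BR (c, h) R) X y ∧ OnBd (c - R) (c + R) (h - R) (h + R) y) ∧
    ∀ y, Conn ω (BR (c, h) R) X y → h - w ≤ y.2 → y.2 ≤ h + w →
      y.1 < X.1 ∨ (y.1 = X.1 ∧ y.2 ≤ X.2)}

/-- The unit edge to the right of `X`. -/
def tagE (X : ℤ × ℤ) : UE := (X.1, X.2, false)

/-- The vertices of colour `col` of the band with first coordinate in `[x₁, x₂)`. -/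
noncomputable def BandV (col h w x₁ x₂ : ℤ) : Finset (ℤ × ℤ) :=
  ((Ico x₁ x₂) ×ˢ (Icc (h - w) (h + w))).filter fun X => par X = col

/-- Pairs of boundary unit edges with the right colours. -/
noncomputable def KP (col cB h w RB : ℤ) : Finset (ℤ × ℤ) :=
  ((Ico 0 (len w RB)) ×ˢ (Ico 0 (len w RB))).filter fun k => k.1 < k.2 ∧
    par (cyc cB h w RB k.1) ≠ col ∧ par (cyc cB h w RB k.2) = col

/-- The strand of the tag unit edge of `X` leaves the box through the unit edges `k.1`, `k.2`. -/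
def Exit (h w cB RB : ℤ) (X k : ℤ × ℤ) : Set Cfg :=
  {ω | cycE cB h w RB k.1 ∈ MM ω (BR (cB, h) RB) (tagE X) ∧
    cycE cB h w RB k.2 ∈ MM ω (BR (cB, h) RB) (tagE X)}

/-- The strands of the pair reach the box of radius `R` around `(c, h)`. -/
def Gev (h w cB RB c R : ℤ) (k : ℤ × ℤ) : Set Cfg :=
  {ω | (∃ τ, 0 ≤ τ ∧ τ < len w R ∧
      cycE c h w R τ ∈ MM ω (Slit h w cB RB c R) (cycE cB h w RB k.1)) ∧
    (∃ τ, 0 ≤ τ ∧ τ < len w R ∧
      cycE c h w R τ ∈ MM ω (Slit h w cB RB c R) (cycE cB h w RB k.2))}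

/-- The tips are separated (`a` is the mesh). -/
def SepEv (h w cB RB c R a : ℤ) (k : ℤ × ℤ) : Set Cfg :=
  {ω | ∃ τ τ', 3 * a ≤ τ ∧ τ + 8 * a ≤ τ' ∧ τ' + 3 * a ≤ len w R ∧
    cycE c h w R τ ∈ MM ω (Slit h w cB RB c R) (cycE cB h w RB k.1) ∧
    cycE c h w R τ' ∈ MM ω (Slit h w cB RB c R) (cycE cB h w RB k.2)}

/-! ### Windows -/

/-- `p` is joined in the box `[x, x + s] × [y, y + s]` to the left, right or upper side. -/
def Rim (ω : Cfg) (x y s : ℤ) (p : ℤ × ℤ) : Prop :=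
  ∃ z, Conn ω (RF x (x + s) y (y + s)) p z ∧ (z.1 = x ∨ z.1 = x + s ∨ z.2 = y + s)

/-- The closed square `t` of mesh `η` of the box contains no vertex of colour `col` which is joined
to the left, right or upper side. -/
def FreeSq (ω : Cfg) (col x y s η : ℤ) (t : ℤ × ℤ) : Prop :=
  (0 ≤ t.1 ∧ η * (t.1 + 1) ≤ s ∧ 0 ≤ t.2 ∧ η * (t.2 + 1) ≤ s) ∧
    ∀ p : ℤ × ℤ, x + η * t.1 ≤ p.1 → p.1 ≤ x + η * (t.1 + 1) → y + η * t.2 ≤ p.2 →
      p.2 ≤ y + η * (t.2 + 1) → par p = col → ¬ Rim ω x y s p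

/-- Neighbouring free squares. -/
def SqStep (ω : Cfg) (col x y s η : ℤ) (t t' : ℤ × ℤ) : Prop :=
  ((t.1 = t'.1 ∧ |t.2 - t'.2| = 1) ∨ (t.2 = t'.2 ∧ |t.1 - t'.1| = 1)) ∧
    FreeSq ω col x y s η t ∧ FreeSq ω col x y s η t'

/-- A window is the box `[x, x + 4 μ] × [y, y + 4 μ]` with `μ = M q η`; the cell `z` of the window
(`0 ≤ z.1, z.2 < 2 M`) is the square of side `q η` with lower left corner
`(x + μ + q η z.1, y + μ + q η z.2)`. -/
def InCell (x y M q η : ℤ) (z p : ℤ × ℤ) : Prop :=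
  x + q * η * (M + z.1) ≤ p.1 ∧ p.1 ≤ x + q * η * (M + z.1 + 1) ∧
    y + q * η * (M + z.2) ≤ p.2 ∧ p.2 ≤ y + q * η * (M + z.2 + 1)

/-- The cell `z` of the window is joined to the lower side by a chain of free squares. -/
def Seen (ω : Cfg) (col x y M q η : ℤ) (z : ℤ × ℤ) : Prop :=
  ∃ t t' : ℤ × ℤ, (q * (M + z.1) ≤ t.1 ∧ t.1 < q * (M + z.1 + 1) ∧ q * (M + z.2) ≤ t.2 ∧
      t.2 < q * (M + z.2 + 1)) ∧ t'.2 = 0 ∧ FreeSq ω col x y (4 * (M * q * η)) η t ∧
    Relation.ReflTransGen (SqStep ω col x y (4 * (M * q * η)) η) t t'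

/-- The cell `z` contains a unit edge whose end of colour `col` is joined to the upper side, whose
other end is joined to the lower side, and it is seen from the lower side. -/
def OccAt (ω : Cfg) (col x y M q η : ℤ) (z : ℤ × ℤ) : Prop :=
  (∃ (b : UE) (p p' : ℤ × ℤ), Joins b p p' ∧ par p = col ∧ InCell x y M q η z p ∧
    InCell x y M q η z p' ∧
    (∃ t, Conn ω (RF x (x + 4 * (M * q * η)) y (y + 4 * (M * q * η))) p t ∧
      t.2 = y + 4 * (M * q * η)) ∧
    (∃ t, Conn ω (RF x (x + 4 * (M * q * η)) y (y + 4 * (M * q * η))) p' t ∧ t.2 = y)) ∧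
  Seen ω col x y M q η z

/-- The indices of the cells. -/
noncomputable def IM (M : ℤ) : Finset (ℤ × ℤ) := Ico 0 (2 * M) ×ˢ Ico 0 (2 * M)

/-- Sup-distance of indices, at least `1`. -/
noncomputable def dsup (z z' : ℤ × ℤ) : ℝ := max (max |((z.1 - z'.1 : ℤ) : ℝ)| |((z.2 - z'.2 : ℤ) : ℝ)|) 1

/-- The set `Z` of indices carries a probability measure of `s`-energy at most `A` (in units of the
window). -/
def GoodW (s A : ℝ) (M : ℤ) (Z : Set (ℤ × ℤ)) : Prop :=
  ∃ c : ℤ × ℤ → ℝ, (∀ z, 0 ≤ c z) ∧ (∀ z, z ∉ Z → c z = 0) ∧ ∑ z ∈ IM M, c z = 1 ∧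
    ∑ z ∈ IM M, ∑ z' ∈ IM M, c z * c z' * dsup z z' ^ (-s) ≤ A * (M : ℝ) ^ (-s)

/-- The input from the three-leg estimates. `𝒫` and `𝒟` are arbitrary increasing events (walls) of
the two colours; inside the window they use only faces in the upper quarter, the lower eighth. -/
def OccHyp (col : ℤ) : Prop :=
  ∀ s : ℝ, 0 < s → s < 4 / 3 → ∀ δ : ℝ, 0 < δ → ∃ (κ A : ℝ) (M₀ : ℕ), 0 < κ ∧ 1 ≤ M₀ ∧
    ∀ M : ℕ, M₀ ≤ M → ∃ q n₀ : ℕ, 1 ≤ q ∧ ∀ (η x y : ℤ), (n₀ : ℤ) ≤ η → 1 ≤ η →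
    ∀ (W SP SD : Finset (ℤ × ℤ))
      (P D : Set Cfg),
      RF x (x + 4 * (M * q * η)) y (y + 4 * (M * q * η)) ⊆ W → SP ⊆ W → SD ⊆ W → Disjoint SP SD →
      DepOn SP P → DepOn SD D → IncD (parD col) P → IncD (parD (col + 1)) D →
      (∀ f ∈ SP, f ∈ RF x (x + 4 * (M * q * η)) y (y + 4 * (M * q * η)) →
        y + 3 * (M * q * η) ≤ f.2) →
      (∀ f ∈ SD, f ∈ RF x (x + 4 * (M * q * η)) y (y + 4 * (M * q * η)) →
        2 * f.2 < 2 * y + M * q * η) →
      δ ≤ pr W P → δ ≤ pr W D →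
      κ ≤ pr W (P ∩ D ∩ {ω | GoodW s A M {z | OccAt ω col x y M q η z}})

/-- Success for the pair `k` at the cell with centre `c` and half length `μ = M q η`: the strand of
`k.1` meets many cells of the window which are seen from the ray. The window is
`[c + 8 μ, c + 12 μ] × [h + w, h + w + 4 μ]`. -/
def LS (col h w cB RB c M q η : ℤ) (s A : ℝ) (k : ℤ × ℤ) : Set Cfg :=
  {ω | GoodW s A M {z | (∃ (b : UE) (p p' : ℤ × ℤ), Joins b p p' ∧
      InCell (c + 8 * (M * q * η)) (h + w) M q η z p ∧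
      InCell (c + 8 * (M * q * η)) (h + w) M q η z p' ∧
      b ∈ MM ω (Slit h w cB RB c (4 * (M * q * η))) (cycE cB h w RB k.1)) ∧
    Seen ω col (c + 8 * (M * q * η)) (h + w) M q η z}}

/-- Success for the cluster of `X` at the cell with centre `c` and half length `μ = M q η`. -/
def SuccX (col h w cB RB c M q η : ℤ) (s A : ℝ) (X : ℤ × ℤ) : Set Cfg :=
  {ω | GoodW s A M {z | (∃ p : ℤ × ℤ, Conn ω (BR (cB, h) RB) X p ∧
      InCell (c + 8 * (M * q * η)) (h + w) M q η z p) ∧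
    Seen ω col (c + 8 * (M * q * η)) (h + w) M q η z}}

/-! ### Levels -/

/-- The parameters: height `h` and half width `w` of the band, left end `x₀` of the segment, colour,
unit `b`, mesh number `N`, ratio `L`, numbers `M`, `q` of the cells, `m` levels. -/
structure Geo where
  h : ℤ
  w : ℤ
  x₀ : ℤ
  col : ℤ
  b : ℤ
  N : ℤ
  L : ℕ
  M : ℕ
  q : ℕ
  m : ℕ

namespace Geo

variable (g : Geo)

/-- The mesh of the corridors at level `j`. -/
def a (j : ℕ) : ℤ := g.M * g.q * g.b * (g.L : ℤ) ^ j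
/-- The mesh of the small squares at level `j`. -/
def η (j : ℕ) : ℤ := g.N * g.b * (g.L : ℤ) ^ j
/-- The half length of the cells of level `j`. -/
def μ (j : ℕ) : ℤ := g.M * g.q * g.η j
/-- The centre of the cell `i` of level `j`. -/
def cen (j : ℕ) (i : ℤ) : ℤ := g.x₀ + (2 * i + 1) * g.μ j
/-- The centre of the large box. -/
def cB : ℤ := g.cen g.m 0
/-- The radius of the large box. -/
def RB : ℤ := 32 * g.μ g.m
/-- The faces of the large box. -/
noncomputable def B : Finset (ℤ × ℤ) := BR (g.cB, g.h) g.RB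
/-- The index of the ancestor of level `j'` of the cell `i` of level `j`. -/
def anc (j : ℕ) (i : ℤ) (j' : ℕ) : ℤ := i / (g.L : ℤ) ^ (j' - j)

/-- The admissible parameters. -/
structure Ok : Prop where
  w1 : 1 ≤ g.w
  wa : g.w ≤ g.a 0
  col01 : g.col = 0 ∨ g.col = 1
  b1 : 1 ≤ g.b
  N8 : 8 ≤ g.N
  L64 : 64 ≤ g.L
  M1 : 1 ≤ g.M
  q1 : 1 ≤ g.q
  m1 : 2 ≤ g.m

/-- The pairs of exits. -/
noncomputable def K : Finset (ℤ × ℤ) := KP g.col g.cB g.h g.w g.RB

/-- The strands of the pair `k` reach the box of the cell `(j, i)`. -/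
def G (j : ℕ) (i : ℤ) (k : ℤ × ℤ) : Set Cfg := Gev g.h g.w g.cB g.RB (g.cen j i) (32 * g.μ j) k

/-- The tips are separated. -/
def Sep (j : ℕ) (i : ℤ) (k : ℤ × ℤ) : Set Cfg :=
  SepEv g.h g.w g.cB g.RB (g.cen j i) (32 * g.μ j) (g.a j) k

/-- Success at the cell `(j, i)`. -/
def Ls (s A : ℝ) (j : ℕ) (i : ℤ) (k : ℤ × ℤ) : Set Cfg :=
  LS g.col g.h g.w g.cB g.RB (g.cen j i) g.M g.q (g.η j) s A k

/-- No success at the strict ancestors of the cell `(j, i)`. -/
def NS (s A : ℝ) (j : ℕ) (i : ℤ) (k : ℤ × ℤ) : Set Cfg :=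
  {ω | ∀ j', j < j' → j' < g.m → ω ∉ g.Ls s A j' (g.anc j i j') k}

/-- The tags of the cell `(j, i)` in its own box. -/
def T0 (j : ℕ) (i : ℤ) (X : ℤ × ℤ) : Set Cfg := TagEv g.h g.w (g.cen j i) (32 * g.μ j) X

/-- The vertices of the cell `(j, i)` of the band. -/
noncomputable def Vs (j : ℕ) (i : ℤ) : Finset (ℤ × ℤ) :=
  BandV g.col g.h g.w (g.x₀ + 2 * i * g.μ j) (g.x₀ + 2 * (i + 1) * g.μ j)

/-- Some tag in the cell `(j, i)` has the exits `k`, the first success (from outside) is at `(j, i)`. -/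
def Fs (s A : ℝ) (j : ℕ) (i : ℤ) (k : ℤ × ℤ) : Set Cfg :=
  {ω | (∃ X ∈ g.Vs j i, ω ∈ TagEv g.h g.w g.cB g.RB X ∧ ω ∈ Exit g.h g.w g.cB g.RB X k) ∧
    ω ∈ g.NS s A j i k ∧ ω ∈ g.Ls s A j i k}

/-- The cells of level `j`. -/
noncomputable def Is (j : ℕ) : Finset ℤ := Ico 0 ((g.L : ℤ) ^ (g.m - j))

end Geo

end Pool.Agent.Perc6
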