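import Pool.Agent.Lib.MP_6bd702_perc6.Core

/-!
# Landing on two strands

`η` is a configuration which agrees with `ω` on the faces visited by the two strands.
-/

set_option autoImplicit false

namespace Pool.Agent.Perc6

open Finset Pool.Agent.Perc Pool.Agent.PercD Pool.Agent.PercL

variable {ω η : Cfg} {F G : Set (ℤ × ℤ)} {e e' : UE} {u v u' v' : ℤ × ℤ} {Φ Ψ : ℤ × ℤ → ZMod 2}

theorem S2_sub : S2 ω F e e' ⊆ F := Set.union_subset SS_sub SS_sub

theorem S2_comm : S2 ω F e' e = S2 ω F e e' := Set.union_comm _ _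

/-- Connections in another configuration which agrees on the faces used. -/
theorem conn_transfer {F₁ F₂ : Set (ℤ × ℤ)} (h : ∀ f ∈ F₁, η f = ω f) (hsub : F₁ ⊆ F₂)
    {p q : ℤ × ℤ} (hc : Conn ω F₁ p q) : Conn η F₂ p q := by
  induction hc with
  | refl => exact Relation.ReflTransGen.refl
  | tail _ hb ih =>
    obtain ⟨f, hf, hbf, -, -⟩ := hb.exists_face
    exact ih.tail ((Bond.congr (h f hf).symm hbf).of_single (hsub hf))

theorem conn_symm {F₁ : Set (ℤ × ℤ)} {p q : ℤ × ℤ} (hc : Conn ω F₁ p q) : Conn ω F₁ q p := by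
  induction hc with
  | refl => exact Relation.ReflTransGen.refl
  | tail _ hb ih => exact Relation.ReflTransGen.head hb.symm' ih

/-- The two strands in the other order. -/
theorem Duo.swap (hD : Duo ω F e e' u v u' v' Φ Ψ) :
    Duo ω F e' e u' v' u v (fun w => Ψ w + 1) (fun w => Φ w + 1) where
  potE := hD.potE'.add_const 1
  potE' := hD.potE.add_const 1
  side := hD.side'
  side' := hD.side
  je := hD.je'
  je' := hD.je
  par_eq := hD.par_eq.symm
  Φu := by rw [hD.Ψu']; decide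
  Φv := by rw [hD.Ψv']; decide
  Φu' := by rw [hD.Ψu]; decide
  Φv' := by rw [hD.Ψv]; decide
  Ψu := by rw [hD.Φu']; decide
  Ψv := by rw [hD.Φv']; decide
  Ψu' := by rw [hD.Φu]; decide
  Ψv' := by rw [hD.Φv]; decide

theorem Duo.par_v (hD : Duo ω F e e' u v u' v' Φ Ψ) : par v = par v' := by
  have h1 := hD.je.par_ne
  have h2 := hD.je'.par_ne
  have h3 := hD.par_eq
  have h4 := par_cases u
  have h5 := par_cases v
  have h6 := par_cases u'
  have h7 := par_cases v'
  omega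

theorem Duo.mem_u (hD : Duo ω F e e' u v u' v' Φ Ψ) : u ∈ VF F := by
  obtain ⟨f, hf, hs⟩ := hD.side
  exact ⟨f, hf, hs.cor_left hD.je⟩

theorem Duo.mem_v (hD : Duo ω F e e' u v u' v' Φ Ψ) : v ∈ VF F := by
  obtain ⟨f, hf, hs⟩ := hD.side
  exact ⟨f, hf, hs.cor_left hD.je.symm⟩

/-- A path of the colour of the cluster from the P sector to the upper D sector: its first vertex is
joined to `u`. -/
theorem Duo.landP (hD : Duo ω F e e' u v u' v' Φ Ψ) (hη : ∀ f ∈ S2 ω F e e', η f = ω f)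
    {ξ : Cfg} (hξ : ∀ g ∈ G, g ∉ S2 ω F e e' → η g = ξ g)
    (hG : ∀ g ∈ G, g ∉ F → ∀ w, IsCor g w → w ∈ VF F → Φ w = 1 ∧ Ψ w = 0)
    {p₀ pₙ : ℤ × ℤ} (hpar : par pₙ = par u) (hn : pₙ ∈ VF F → Φ pₙ = 1 ∧ Ψ pₙ = 0)
    (hpath : Conn ξ G pₙ p₀) (h0 : p₀ ∈ VF F) (h0' : Φ p₀ = 0) :
    Conn η (G ∪ S2 ω F e e') pₙ u := by
  have tr : ∀ {p q : ℤ × ℤ}, Conn ω (SS ω F e) p q → Conn η (G ∪ S2 ω F e e') p q :=
    fun hc => conn_transfer (fun f hf => hη f (Or.inl hf)) (fun f hf => Or.inr (Or.inl hf)) hc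
  have tr' : ∀ {p q : ℤ × ℤ}, Conn ω (SS ω F e') p q → Conn η (G ∪ S2 ω F e e') p q :=
    fun hc => conn_transfer (fun f hf => hη f (Or.inr hf)) (fun f hf => Or.inr (Or.inr hf)) hc
  have key : ∀ p, Conn ξ G pₙ p →
      ((p ∈ VF F → Φ p = 1 ∧ Ψ p = 0) ∧ Conn η (G ∪ S2 ω F e e') pₙ p) ∨
      ((p ∈ VF F ∧ Φ p = 1 ∧ Ψ p = 1) ∧ Conn η (G ∪ S2 ω F e e') pₙ u') ∨
      Conn η (G ∪ S2 ω F e e') pₙ u := by
    intro p hp
    induction hp with
    | refl => exact Or.inl ⟨hn, Relation.ReflTransGen.refl⟩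
    | tail hc hb ih =>
      rename_i p p'
      have hpp : par p = par u := by rw [← Conn.par_eq hc]; exact hpar
      have hpp' : par p' = par u := by rw [← hb.par_eq]; exact hpp
      obtain ⟨g, hg, hbg, hcp, hcp'⟩ := hb.exists_face
      rcases ih with ⟨h1, h2⟩ | ⟨⟨h1, h2, h3⟩, h4⟩ | h
      · -- state A
        by_cases hgF : g ∈ F
        · obtain ⟨hΦ, hΨ⟩ := h1 ⟨g, hgF, hcp⟩
          by_cases hgS : g ∈ SS ω F e
          · right; right
            have := hD.potE.ss_conn hD.je hD.side hgS hcp hpp (by rw [hΦ, hD.Φu])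
            exact h2.trans (tr (conn_symm this))
          · have hΦ' : Φ p' = 1 := by rw [← hD.potE.fresh hgF hgS hcp hcp', hΦ]
            by_cases hgS' : g ∈ SS ω F e'
            · have hc1 := hD.potE'.ss_conn hD.je' hD.side' hgS' hcp (by rw [hpp, hD.par_eq])
                (by rw [hΨ, hD.Ψu'])
              have hc2 : Conn η (G ∪ S2 ω F e e') pₙ u' := h2.trans (tr' (conn_symm hc1))
              rcases z2_cases (Ψ p') with h5 | h5
              · left
                have hc3 := hD.potE'.ss_conn hD.je' hD.side' hgS' hcp' (by rw [hpp', hD.par_eq])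
                  (by rw [h5, hD.Ψu'])
                exact ⟨fun _ => ⟨hΦ', h5⟩, hc2.trans (tr' hc3)⟩
              · right; left
                exact ⟨⟨⟨g, hgF, hcp'⟩, hΦ', h5⟩, hc2⟩
            · left
              have hS2 : g ∉ S2 ω F e e' := fun h => h.elim hgS hgS'
              have hΨ' : Ψ p' = 0 := by rw [← hD.potE'.fresh hgF hgS' hcp hcp', hΨ]
              exact ⟨fun _ => ⟨hΦ', hΨ'⟩,
                h2.tail ((Bond.congr (hξ g hg hS2).symm hbg).of_single (Or.inl hg))⟩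
        · left
          have hS2 : g ∉ S2 ω F e e' := fun h => hgF (S2_sub h)
          exact ⟨fun hV => hG g hg hgF p' hcp' hV,
            h2.tail ((Bond.congr (hξ g hg hS2).symm hbg).of_single (Or.inl hg))⟩
      · -- state B
        by_cases hgF : g ∈ F
        · by_cases hgS : g ∈ SS ω F e
          · exfalso
            have := hD.potE.ss_conn hD.je hD.side hgS hcp hpp (by rw [h2, hD.Φu])
            have h5 := hD.potE'.conn (this.mono SS_sub)
            rw [hD.Ψu, h3] at h5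
            exact absurd h5 (by decide)
          · have hΦ' : Φ p' = 1 := by rw [← hD.potE.fresh hgF hgS hcp hcp', h2]
            by_cases hgS' : g ∈ SS ω F e'
            · rcases z2_cases (Ψ p') with h5 | h5
              · left
                have hc3 := hD.potE'.ss_conn hD.je' hD.side' hgS' hcp' (by rw [hpp', hD.par_eq])
                  (by rw [h5, hD.Ψu'])
                exact ⟨fun _ => ⟨hΦ', h5⟩, h4.trans (tr' hc3)⟩
              · right; left
                exact ⟨⟨⟨g, hgF, hcp'⟩, hΦ', h5⟩, h4⟩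
            · right; left
              have hΨ' : Ψ p' = 1 := by rw [← hD.potE'.fresh hgF hgS' hcp hcp', h3]
              exact ⟨⟨⟨g, hgF, hcp'⟩, hΦ', hΨ'⟩, h4⟩
        · exfalso
          have h5 := (hG g hg hgF p hcp h1).2
          rw [h3] at h5
          exact absurd h5 (by decide)
      · exact Or.inr (Or.inr h)
  rcases key p₀ hpath with ⟨h1, -⟩ | ⟨⟨-, h2, -⟩, -⟩ | h
  · have h2 := (h1 h0).1
    rw [h0'] at h2
    exact absurd h2 (by decide)
  · rw [h0'] at h2
    exact absurd h2 (by decide)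
  · exact h

/-- The same for the lower D sector. -/
theorem Duo.landP' (hD : Duo ω F e e' u v u' v' Φ Ψ) (hη : ∀ f ∈ S2 ω F e e', η f = ω f)
    {ξ : Cfg} (hξ : ∀ g ∈ G, g ∉ S2 ω F e e' → η g = ξ g)
    (hG : ∀ g ∈ G, g ∉ F → ∀ w, IsCor g w → w ∈ VF F → Φ w = 1 ∧ Ψ w = 0)
    {p₀ pₙ : ℤ × ℤ} (hpar : par pₙ = par u) (hn : pₙ ∈ VF F → Φ pₙ = 1 ∧ Ψ pₙ = 0)
    (hpath : Conn ξ G pₙ p₀) (h0 : p₀ ∈ VF F) (h0' : Ψ p₀ = 1) :
    Conn η (G ∪ S2 ω F e e') pₙ u' := by
  have hsw : ∀ w, Φ w = 1 ∧ Ψ w = 0 → Ψ w + 1 = 1 ∧ Φ w + 1 = 0 := by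
    rintro w ⟨h1, h2⟩
    rw [h1, h2]
    decide
  have h := hD.swap.landP (η := η) (G := G) (by rw [S2_comm]; exact hη) (ξ := ξ)
    (by rw [S2_comm]; exact hξ)
    (fun g hg hgF w hw hV => hsw w (hG g hg hgF w hw hV))
    (by rw [hpar, hD.par_eq]) (fun hV => hsw _ (hn hV)) hpath h0 (by rw [h0']; decide)
  rwa [S2_comm] at h

/-- A path of the other colour from the upper D sector to the outside of it. -/
theorem Duo.landD (hD : Duo ω F e e' u v u' v' Φ Ψ) (hη : ∀ f ∈ S2 ω F e e', η f = ω f)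
    {ξ : Cfg} (hξ : ∀ g ∈ G, g ∉ S2 ω F e e' → η g = ξ g)
    (hG : ∀ g ∈ G, g ∉ F → ∀ w, IsCor g w → w ∈ VF F → Φ w = 0)
    {p₀ pₙ : ℤ × ℤ} (hpar : par pₙ = par v) (hn : pₙ ∈ VF F → Φ pₙ = 0)
    (hpath : Conn ξ G pₙ p₀) (h0 : p₀ ∈ VF F) (h0' : Φ p₀ = 1) :
    Conn η (G ∪ S2 ω F e e') pₙ v := by
  have tr : ∀ {p q : ℤ × ℤ}, Conn ω (SS ω F e) p q → Conn η (G ∪ S2 ω F e e') p q :=
    fun hc => conn_transfer (fun f hf => hη f (Or.inl hf)) (fun f hf => Or.inr (Or.inl hf)) hc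
  have key : ∀ p, Conn ξ G pₙ p →
      ((p ∈ VF F → Φ p = 0) ∧ Conn η (G ∪ S2 ω F e e') pₙ p) ∨
      Conn η (G ∪ S2 ω F e e') pₙ v := by
    intro p hp
    induction hp with
    | refl => exact Or.inl ⟨hn, Relation.ReflTransGen.refl⟩
    | tail hc hb ih =>
      rename_i p p'
      have hpp : par p = par v := by rw [← Conn.par_eq hc]; exact hpar
      obtain ⟨g, hg, hbg, hcp, hcp'⟩ := hb.exists_face
      rcases ih with ⟨h1, h2⟩ | h
      · by_cases hgF : g ∈ F
        · have hΦ := h1 ⟨g, hgF, hcp⟩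
          by_cases hgS : g ∈ SS ω F e
          · right
            have hside : ∃ f ∈ F, IsSide f e := hD.side
            have := hD.potE.ss_conn hD.je.symm hside hgS hcp hpp (by rw [hΦ, hD.Φv])
            exact h2.trans (tr (conn_symm this))
          · by_cases hgS' : g ∈ SS ω F e'
            · exfalso
              obtain ⟨-, a, ha, hside⟩ := hgS'
              obtain ⟨r, s, hj, hr, hcr⟩ := MM_conn hD.je' ha
              have h5 := hD.potE.conn (hcr.mono SS_sub)
              have h6 := hD.potE.fresh hgF hgS hcp (hside.cor_left hj)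
              rw [hΦ, ← h5, hD.Φu'] at h6
              exact absurd h6 (by decide)
            · left
              have hS2 : g ∉ S2 ω F e e' := fun h => h.elim hgS hgS'
              have hΦ' : Φ p' = 0 := by rw [← hD.potE.fresh hgF hgS hcp hcp', hΦ]
              exact ⟨fun _ => hΦ',
                h2.tail ((Bond.congr (hξ g hg hS2).symm hbg).of_single (Or.inl hg))⟩
        · left
          have hS2 : g ∉ S2 ω F e e' := fun h => hgF (S2_sub h)
          exact ⟨fun hV => hG g hg hgF p' hcp' hV,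
            h2.tail ((Bond.congr (hξ g hg hS2).symm hbg).of_single (Or.inl hg))⟩
      · exact Or.inr h
  rcases key p₀ hpath with ⟨h1, -⟩ | h
  · have h2 := h1 h0
    rw [h0'] at h2
    exact absurd h2 (by decide)
  · exact h

/-- The same for the lower D sector. -/
theorem Duo.landD' (hD : Duo ω F e e' u v u' v' Φ Ψ) (hη : ∀ f ∈ S2 ω F e e', η f = ω f)
    {ξ : Cfg} (hξ : ∀ g ∈ G, g ∉ S2 ω F e e' → η g = ξ g)
    (hG : ∀ g ∈ G, g ∉ F → ∀ w, IsCor g w → w ∈ VF F → Ψ w = 1)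
    {p₀ pₙ : ℤ × ℤ} (hpar : par pₙ = par v) (hn : pₙ ∈ VF F → Ψ pₙ = 1)
    (hpath : Conn ξ G pₙ p₀) (h0 : p₀ ∈ VF F) (h0' : Ψ p₀ = 0) :
    Conn η (G ∪ S2 ω F e e') pₙ v' := by
  have hsw : ∀ w, Ψ w = 1 → Ψ w + 1 = 0 := by
    intro w h1
    rw [h1]
    decide
  have h := hD.swap.landD (η := η) (G := G) (by rw [S2_comm]; exact hη) (ξ := ξ)
    (by rw [S2_comm]; exact hξ)
    (fun g hg hgF w hw hV => hsw w (hG g hg hgF w hw hV))
    (by rw [hpar, hD.par_v]) (fun hV => hsw _ (hn hV)) hpath h0 (by rw [h0']; decide)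
  rwa [S2_comm] at h

/-- A path from `u` to a point which is not in the P sector contains a path in the faces which are
not visited from an exit of the P sector. -/
theorem Duo.nearP (hD : Duo ω F e e' u v u' v' Φ Ψ) (hη : ∀ f ∈ S2 ω F e e', η f = ω f)
    {z : ℤ × ℤ} (hz : z ∉ VF F) (hpath : Conn η G u z) :
    ∃ y, y ∈ VF F ∧ Φ y = 1 ∧ Ψ y = 0 ∧ par y = par u ∧ (∃ g ∈ G, g ∉ F ∧ IsCor g y) ∧
      Conn η (G \ S2 ω F e e') y z := by
  have hzu : par z = par u := hpath.par_eq.symm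
  have key : ∀ p, Conn η G p z →
      ((p ∈ VF F → ¬ (Φ p = 1 ∧ Ψ p = 0)) ∧ Conn η (G \ S2 ω F e e') p z) ∨
      ∃ y, y ∈ VF F ∧ Φ y = 1 ∧ Ψ y = 0 ∧ par y = par u ∧ (∃ g ∈ G, g ∉ F ∧ IsCor g y) ∧
        Conn η (G \ S2 ω F e e') y z := by
    intro p hp
    induction hp using Relation.ReflTransGen.head_induction_on with
    | refl => exact Or.inl ⟨fun h => absurd h hz, Relation.ReflTransGen.refl⟩
    | head hb hc ih =>
      rename_i p p'
      rcases ih with ⟨h1, h2⟩ | h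
      · obtain ⟨g, hg, hbg, hcp, hcp'⟩ := hb.exists_face
        have hp' : par p' = par u := h2.par_eq.trans hzu
        have hgS : g ∉ SS ω F e := by
          intro hgS
          have h3 := hD.potE.ss_bond hD.je hD.side hgS
            (Bond.congr (hη g (Or.inl hgS)) hbg.symm') hp'
          have h4 := hD.potE'.conn (h3.2.mono SS_sub)
          exact h1 ⟨g, hgS.1, hcp'⟩ ⟨h3.1.trans hD.Φu, h4.symm.trans hD.Ψu⟩
        have hgS' : g ∉ SS ω F e' := by
          intro hgS'
          have h3 := hD.potE'.ss_bond hD.je' hD.side' hgS'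
            (Bond.congr (hη g (Or.inr hgS')) hbg.symm') (hp'.trans hD.par_eq)
          have h4 := hD.potE.conn (h3.2.mono SS_sub)
          exact h1 ⟨g, hgS'.1, hcp'⟩ ⟨h4.symm.trans hD.Φu', h3.1.trans hD.Ψu'⟩
        have hS2 : g ∉ S2 ω F e e' := fun h => h.elim hgS hgS'
        have hconn : Conn η (G \ S2 ω F e e') p z :=
          Relation.ReflTransGen.head (hbg.of_single ⟨hg, hS2⟩) h2
        by_cases hgF : g ∈ F
        · left
          refine ⟨fun _ h3 => h1 ⟨g, hgF, hcp'⟩ ?_, hconn⟩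
          rw [← hD.potE.fresh hgF hgS hcp hcp', ← hD.potE'.fresh hgF hgS' hcp hcp']
          exact h3
        · by_cases h3 : p ∈ VF F ∧ (Φ p = 1 ∧ Ψ p = 0)
          · right
            exact ⟨p, h3.1, h3.2.1, h3.2.2, hconn.par_eq.trans hzu, ⟨g, hg, hgF, hcp⟩, hconn⟩
          · left
            exact ⟨fun h4 h5 => h3 ⟨h4, h5⟩, hconn⟩
      · exact Or.inr h
  rcases key u hpath with h | h
  · exact absurd ⟨hD.Φu, hD.Ψu⟩ (h.1 hD.mem_u)
  · exact h

/-- A path from `v` to a point outside `F` contains a path in the faces which are not visited from an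
exit of the upper D sector to the point or to a vertex of the lower D sector. -/
theorem Duo.nearD (hD : Duo ω F e e' u v u' v' Φ Ψ) (hη : ∀ f ∈ S2 ω F e e', η f = ω f)
    {z : ℤ × ℤ} (hz : z ∉ VF F) (hpath : Conn η G v z) :
    ∃ y z', y ∈ VF F ∧ Φ y = 0 ∧ par y = par v ∧ (∃ g ∈ G, g ∉ F ∧ IsCor g y) ∧
      Conn η (G \ S2 ω F e e') y z' ∧ (z' = z ∨ (z' ∈ VF F ∧ Ψ z' = 1)) := by
  have hzv : par z = par v := hpath.par_eq.symm
  have key : ∀ p, Conn η G p z →
      (∃ z', (p ∈ VF F → Φ p = 1) ∧ Conn η (G \ S2 ω F e e') p z' ∧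
        (z' = z ∨ (z' ∈ VF F ∧ Ψ z' = 1))) ∨
      ∃ y z', y ∈ VF F ∧ Φ y = 0 ∧ par y = par v ∧ (∃ g ∈ G, g ∉ F ∧ IsCor g y) ∧
        Conn η (G \ S2 ω F e e') y z' ∧ (z' = z ∨ (z' ∈ VF F ∧ Ψ z' = 1)) := by
    intro p hp
    induction hp using Relation.ReflTransGen.head_induction_on with
    | refl => exact Or.inl ⟨z, fun h => absurd h hz, Relation.ReflTransGen.refl, Or.inl rfl⟩
    | head hb hc ih =>
      rename_i p p'
      rcases ih with ⟨z', h1, h2, h3⟩ | h
      · obtain ⟨g, hg, hbg, hcp, hcp'⟩ := hb.exists_face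
        have hp' : par p' = par v := (Conn.par_eq hc).trans hzv
        have hpv : par p = par v := hb.par_eq.trans hp'
        have hgS : g ∉ SS ω F e := by
          intro hgS
          have h4 := hD.potE.ss_bond hD.je.symm hD.side hgS
            (Bond.congr (hη g (Or.inl hgS)) hbg.symm') hp'
          have h5 := h1 ⟨g, hgS.1, hcp'⟩
          rw [h4.1, hD.Φv] at h5
          exact absurd h5 (by decide)
        by_cases hgS' : g ∈ SS ω F e'
        · left
          have h4 := hD.potE'.ss_bond hD.je'.symm hD.side' hgS'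
            (Bond.congr (hη g (Or.inr hgS')) hbg) (hpv.trans hD.par_v)
          have h5 := hD.potE.conn (h4.2.mono SS_sub)
          exact ⟨p, fun _ => h5.symm.trans hD.Φv', Relation.ReflTransGen.refl,
            Or.inr ⟨⟨g, hgS'.1, hcp⟩, h4.1.trans hD.Ψv'⟩⟩
        · have hS2 : g ∉ S2 ω F e e' := fun h => h.elim hgS hgS'
          have hconn : Conn η (G \ S2 ω F e e') p z' :=
            Relation.ReflTransGen.head (hbg.of_single ⟨hg, hS2⟩) h2
          by_cases hgF : g ∈ F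
          · left
            refine ⟨z', fun _ => ?_, hconn, h3⟩
            rw [hD.potE.fresh hgF hgS hcp hcp']
            exact h1 ⟨g, hgF, hcp'⟩
          · by_cases h4 : p ∈ VF F ∧ Φ p = 0
            · right
              exact ⟨p, z', h4.1, h4.2, hpv, ⟨g, hg, hgF, hcp⟩, hconn, h3⟩
            · left
              refine ⟨z', fun h5 => ?_, hconn, h3⟩
              rcases z2_cases (Φ p) with h6 | h6
              · exact absurd ⟨h5, h6⟩ h4
              · exact h6
      · exact Or.inr h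
  rcases key v hpath with ⟨z', h1, -⟩ | h
  · have h2 := h1 hD.mem_v
    rw [hD.Φv] at h2
    exact absurd h2 (by decide)
  · exact h

/-- The same for the lower D sector. -/
theorem Duo.nearD' (hD : Duo ω F e e' u v u' v' Φ Ψ) (hη : ∀ f ∈ S2 ω F e e', η f = ω f)
    {z : ℤ × ℤ} (hz : z ∉ VF F) (hpath : Conn η G v' z) :
    ∃ y z', y ∈ VF F ∧ Ψ y = 1 ∧ par y = par v ∧ (∃ g ∈ G, g ∉ F ∧ IsCor g y) ∧
      Conn η (G \ S2 ω F e e') y z' ∧ (z' = z ∨ (z' ∈ VF F ∧ Φ z' = 0)) := by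
  obtain ⟨y, z', h1, h2, h3, h4, h5, h6⟩ := hD.swap.nearD (η := η) (G := G)
    (by rw [S2_comm]; exact hη) hz hpath
  rw [S2_comm] at h5
  refine ⟨y, z', h1, ?_, h3.trans hD.par_v.symm, h4, h5, ?_⟩
  · rcases z2_cases (Ψ y) with h | h
    · rw [h] at h2
      exact absurd h2 (by decide)
    · exact h
  · rcases h6 with h6 | ⟨h6, h7⟩
    · exact Or.inl h6
    · right
      refine ⟨h6, ?_⟩
      rcases z2_cases (Φ z') with h | h
      · exact h
      · rw [h] at h7
        exact absurd h7 (by decide)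

end Pool.Agent.Perc6
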