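import Pool.Agent.Lib.MP_6bd702_perc6.Cyc

/-!
# Tags and their strands
-/

set_option autoImplicit false

namespace Pool.Agent.Perc6

open Finset Pool.Agent.Perc Pool.Agent.PercD Pool.Agent.PercL

variable {h w cB RB : ℤ} {ω : Cfg} {X : ℤ × ℤ}

namespace T12Aux

theorem tagE_joins (X : ℤ × ℤ) : Joins (tagE X) X (X.1 + 1, X.2) := by
  unfold tagE
  left
  rw [ua_mk, ub_false]
  exact ⟨rfl, rfl⟩

/-- A vertex of the cluster of the tag in the band is not to the right of the tag. -/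
theorem no_right (hω : ω ∈ TagEv h w cB RB X) {p : ℤ × ℤ}
    (hp : Conn ω (BR (cB, h) RB) X p) (h1 : h - w ≤ p.2) (h2 : p.2 ≤ h + w) : p.1 ≤ X.1 := by
  rcases hω.2 p hp h1 h2 with h3 | h3
  · exact h3.le
  · exact h3.1.le

/-- The end of parity `par X` of a unit edge of the strand is joined to `X`. -/
theorem mm_end {F : Set (ℤ × ℤ)} {a : UE} (ha : a ∈ MM ω F (tagE X)) {p q : ℤ × ℤ}
    (hj : Joins a p q) (hp : par p = par X) : Conn ω F X p := by
  obtain ⟨p', q', hj', hp', hc⟩ := MM_conn (tagE_joins X) ha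
  obtain ⟨rfl, -⟩ := hj.of_par hj' (hp.trans hp'.symm)
  exact hc.mono SS_sub

theorem joins_self (a : UE) : Joins a (ua a) (ub a) := Or.inl ⟨rfl, rfl⟩

/-- Some end of the unit edge has the given parity. -/
theorem exists_end (a : UE) (c : ℤ) (hc : c = 0 ∨ c = 1) :
    ∃ p q, Joins a p q ∧ par p = c := by
  have h1 := par_cases (ua a)
  have h2 := par_cases (ub a)
  have h3 := par_ub a
  by_cases h4 : par (ua a) = c
  · exact ⟨ua a, ub a, joins_self a, h4⟩
  · refine ⟨ub a, ua a, (joins_self a).symm, ?_⟩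
    omega

theorem bdU_of_bdR {v : ℤ × ℤ} {r : ℤ} (hr : 1 ≤ r) {a : UE} (ha : BdR v r a) :
    BdU (BR v r : Set (ℤ × ℤ)) a := by
  obtain ⟨x, y, b⟩ := a
  unfold BdR BdE at ha
  unfold BdU
  rcases ha with ⟨hb, h1, h2, h3⟩ | ⟨hb, h1, h2, h3⟩
  · simp only at hb h1 h2 h3
    subst hb
    rcases h3 with h3 | h3
    · refine ⟨⟨(x, y), ?_, Or.inl rfl⟩, ⟨(x, y - 1), ?_, Or.inr (Or.inr (Or.inl ?_))⟩⟩
      · rw [mem_BR']; simp only; omega
      · rw [mem_BR']; simp only; omega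
      · simp [to']
    · refine ⟨⟨(x, y - 1), ?_, Or.inr (Or.inr (Or.inl ?_))⟩, ⟨(x, y), ?_, Or.inl rfl⟩⟩
      · rw [mem_BR']; simp only; omega
      · simp [to']
      · rw [mem_BR']; simp only; omega
  · simp only at hb h1 h2 h3
    subst hb
    rcases h3 with h3 | h3
    · refine ⟨⟨(x, y), ?_, Or.inr (Or.inl rfl)⟩, ⟨(x - 1, y), ?_, Or.inr (Or.inr (Or.inr ?_))⟩⟩
      · rw [mem_BR']; simp only; omega
      · rw [mem_BR']; simp only; omega
      · simp [ri]
    · refine ⟨⟨(x - 1, y), ?_, Or.inr (Or.inr (Or.inr ?_))⟩, ⟨(x, y), ?_, Or.inr (Or.inl rfl)⟩⟩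
      · rw [mem_BR']; simp only; omega
      · simp [ri]
      · rw [mem_BR']; simp only; omega

/-- The last index with the property. -/
theorem last_true {Q : ℤ → Prop} {a b : ℤ} (hab : a ≤ b) (h1 : Q a) (h2 : ¬ Q b) :
    ∃ k, a ≤ k ∧ k < b ∧ Q k ∧ ¬ Q (k + 1) := by
  by_contra hcon
  push Not at hcon
  have key : ∀ n : ℕ, a + n ≤ b → Q (a + n) := by
    intro n
    induction n with
    | zero => intro _; simpa using h1
    | succ n ih =>
      intro hn
      have h3 := hcon (a + n) (by omega) (by push_cast at hn; omega) (ih (by push_cast at hn; omega))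
      have e : a + ((n + 1 : ℕ) : ℤ) = a + n + 1 := by push_cast; ring
      rw [e]
      exact h3
  have h4 := key (b - a).toNat (by omega)
  have e : a + (((b - a).toNat : ℕ) : ℤ) = b := by omega
  rw [e] at h4
  exact h2 h4

end T12Aux

open T12Aux

/-- The strand of a tag does not visit the ray to the right of the tag: the end of parity `par X` of
every unit edge of the strand is joined to `X`. -/
theorem tag_no_ray (hω : ω ∈ TagEv h w cB RB X) (hX : h - w ≤ X.2 ∧ X.2 ≤ h + w) {f : ℤ × ℤ}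
    (hf : f ∈ SS ω (BR (cB, h) RB : Set (ℤ × ℤ)) (tagE X)) : f ∉ Ray h w (X.1 + 1) := by
  intro hr
  obtain ⟨-, a, ha, hs⟩ := hf
  obtain ⟨p, q, hj, hp⟩ := exists_end a (par X) (par_cases X)
  have h1 := mm_end ha hj hp
  have h2 := hs.cor_left hj
  unfold Ray at hr
  rw [Set.mem_ofPred_eq] at hr
  unfold IsCor at h2
  have h3 := no_right hω h1 (by omega) (by omega)
  omega

/-- The strand of a tag leaves the box through two unit edges `cycE k.1`, `cycE k.2` of the right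
colours. (Potential in the box: if there are no exits then the row to the right of `X` gives a
contradiction; the number of exits is even.) -/
theorem tag_exit (hw : 1 ≤ w) (hR : w < RB) (h1 : cB - RB < X.1) (h2 : X.1 < cB + RB)
    (hX : h - w ≤ X.2 ∧ X.2 ≤ h + w) (hω : ω ∈ TagEv h w cB RB X) :
    ∃ k ∈ KP (par X) cB h w RB, ω ∈ Exit h w cB RB X k := by
  classical
  set Φ : ℤ × ℤ → ZMod 2 := potR ω (cB - RB) (cB + RB) (h - RB) (h + RB) (tagE X) with hΦ
  have hinX : InR (cB - RB) (cB + RB) (h - RB) (h + RB) X := by unfold InR; omega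
  have hinV : InR (cB - RB) (cB + RB) (h - RB) (h + RB) (X.1 + 1, X.2) := by
    unfold InR; simp only; omega
  have hmem : ∀ {a : UE} {p q : ℤ × ℤ}, Joins a p q → InR (cB - RB) (cB + RB) (h - RB) (h + RB) p →
      InR (cB - RB) (cB + RB) (h - RB) (h + RB) q →
      (a ∈ MM ω (BR (cB, h) RB) (tagE X) ↔ Φ p ≠ Φ q) := by
    intro a p q hj hp hq
    exact potR_joins hj hp hq
  have huv : Φ X ≠ Φ (X.1 + 1, X.2) := (hmem (tagE_joins X) hinX hinV).1 mem_MM_self
  -- a unit edge in the band to the right of the tag is not in the strand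
  have hnot : ∀ a : UE, X.1 + 1 ≤ (ua a).1 → X.1 + 1 ≤ (ub a).1 → h - w ≤ (ua a).2 →
      (ua a).2 ≤ h + w → h - w ≤ (ub a).2 → (ub a).2 ≤ h + w →
      a ∉ MM ω (BR (cB, h) RB) (tagE X) := by
    intro a g1 g2 g3 g4 g5 g6 ha
    obtain ⟨p, q, hj, hp⟩ := exists_end a (par X) (par_cases X)
    have hc := mm_end ha hj hp
    rcases hj with ⟨rfl, rfl⟩ | ⟨rfl, rfl⟩
    · have := no_right hω hc g3 g4
      omega
    · have := no_right hω hc g5 g6
      omega
  -- along the row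
  have hrow : ∀ n : ℕ, X.1 + 1 + n ≤ cB + RB → Φ (X.1 + 1 + n, X.2) = Φ (X.1 + 1, X.2) := by
    intro n
    induction n with
    | zero => intro _; simp
    | succ n ih =>
      intro hn
      push_cast at hn
      have e1 := ih (by omega)
      have e2 := hnot (X.1 + 1 + n, X.2, false) (by rw [ua_mk]; simp only; omega)
        (by rw [ub_false]; simp only; omega) (by rw [ua_mk]; exact hX.1) (by rw [ua_mk]; exact hX.2)
        (by rw [ub_false]; exact hX.1) (by rw [ub_false]; exact hX.2)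
      rw [hmem (p := (X.1 + 1 + n, X.2)) (q := (X.1 + 1 + n + 1, X.2))
        (Or.inl ⟨by rw [ua_mk], by rw [ub_false]⟩) (by unfold InR; simp only; omega)
        (by unfold InR; simp only; omega), not_not] at e2
      have e3 : (X.1 + 1 + ((n + 1 : ℕ) : ℤ), X.2) = (X.1 + 1 + n + 1, X.2) := by
        push_cast; ring_nf
      rw [e3, ← e2, e1]
  -- along the right side
  have hcol : ∀ n : ℕ, h - w + n ≤ h + w → Φ (cB + RB, h - w + n) = Φ (cB + RB, h - w) := by
    intro n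
    induction n with
    | zero => intro _; simp
    | succ n ih =>
      intro hn
      push_cast at hn
      have e1 := ih (by omega)
      have e2 := hnot (cB + RB, h - w + n, true) (by rw [ua_mk]; simp only; omega)
        (by rw [ub_true]; simp only; omega) (by rw [ua_mk]; simp only; omega)
        (by rw [ua_mk]; simp only; omega)
        (by rw [ub_true]; simp only; omega) (by rw [ub_true]; simp only; omega)
      rw [hmem (p := (cB + RB, h - w + n)) (q := (cB + RB, h - w + n + 1))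
        (Or.inl ⟨by rw [ua_mk], by rw [ub_true]⟩) (by unfold InR; simp only; omega)
        (by unfold InR; simp only; omega), not_not] at e2
      have e3 : (cB + RB, h - w + ((n + 1 : ℕ) : ℤ)) = (cB + RB, h - w + n + 1) := by
        push_cast; ring_nf
      rw [e3, ← e2, e1]
  have hside : ∀ y, h - w ≤ y → y ≤ h + w → Φ (cB + RB, y) = Φ (X.1 + 1, X.2) := by
    intro y hy1 hy2
    have e1 := hcol (y - (h - w)).toNat (by omega)
    have e2 := hcol (X.2 - (h - w)).toNat (by omega)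
    have e3 := hrow (cB + RB - (X.1 + 1)).toNat (by omega)
    have t1 : h - w + (((y - (h - w)).toNat : ℕ) : ℤ) = y := by omega
    have t2 : h - w + (((X.2 - (h - w)).toNat : ℕ) : ℤ) = X.2 := by omega
    have t3 : X.1 + 1 + (((cB + RB - (X.1 + 1)).toNat : ℕ) : ℤ) = cB + RB := by omega
    rw [t1] at e1
    rw [t2] at e2
    rw [t3] at e3
    rw [e1, ← e2, e3]
  -- the cluster reaches the boundary
  obtain ⟨⟨y, hy1, hy2⟩, -⟩ := id hω
  have hΦy : Φ y = Φ X := (potR_conn hy1).symm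
  obtain ⟨k0, hk0, hk0', rfl⟩ : ∃ k, 0 ≤ k ∧ k ≤ len w RB ∧ y = cyc cB h w RB k := by
    rcases onBd_cases hw hR hy2 with hz | ⟨hz1, hz2, hz3⟩
    · exact hz
    · exfalso
      have := no_right hω hy1 (by omega) (by omega)
      omega
  have hlen : 0 < len w RB := by unfold len; omega
  have hc0 : Φ (cyc cB h w RB 0) = Φ (X.1 + 1, X.2) := by
    have e : cyc cB h w RB 0 = (cB + RB, h + w) := by
      unfold cyc
      rw [if_pos (by omega), add_zero]
    rw [e]
    exact hside _ (by omega) (by omega)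
  have hc1 : Φ (cyc cB h w RB (len w RB)) = Φ (X.1 + 1, X.2) := by
    have e : cyc cB h w RB (len w RB) = (cB + RB, h - w) := by
      unfold cyc len
      rw [if_neg (by omega), if_neg (by omega), if_neg (by omega), if_neg (by omega)]
      congr 1
      ring
    rw [e]
    exact hside _ (by omega) (by omega)
  obtain ⟨k1, a1, a2, a3, a4⟩ := last_true (Q := fun k => Φ (cyc cB h w RB k) = Φ (X.1 + 1, X.2))
    hk0 hc0 (by rw [hΦy]; exact huv)
  obtain ⟨k2, b1, b2, b3, b4⟩ := last_true (Q := fun k => Φ (cyc cB h w RB k) = Φ X)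
    hk0' hΦy (by rw [hc1]; exact huv.symm)
  have a5 : Φ (cyc cB h w RB (k1 + 1)) = Φ X := z2_of_ne a4 huv
  have b5 : Φ (cyc cB h w RB (k2 + 1)) = Φ (X.1 + 1, X.2) := z2_of_ne b4 huv.symm
  have hin : ∀ k, 0 ≤ k → k ≤ len w RB →
      InR (cB - RB) (cB + RB) (h - RB) (h + RB) (cyc cB h w RB k) := fun k q1 q2 => by
    have := cyc_onBd (c := cB) (h := h) hw hR q1 q2
    unfold OnBd at this
    unfold InR
    exact this.2
  have j1 := cyc_joins (c := cB) (h := h) hw hR a1 (by omega : k1 < len w RB)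
  have j2 := cyc_joins (c := cB) (h := h) hw hR (by omega : 0 ≤ k2) b2
  have m1 : cycE cB h w RB k1 ∈ MM ω (BR (cB, h) RB) (tagE X) := by
    rw [hmem j1 (hin _ a1 (by omega)) (hin _ (by omega) (by omega)), a3, a5]
    exact huv.symm
  have m2 : cycE cB h w RB k2 ∈ MM ω (BR (cB, h) RB) (tagE X) := by
    rw [hmem j2 (hin _ (by omega) (by omega)) (hin _ (by omega) (by omega)), b3, b5]
    exact huv
  -- the parities
  have hpot : ∀ {a : UE} {p q : ℤ × ℤ}, a ∈ MM ω (BR (cB, h) RB) (tagE X) → Joins a p q →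
      par p = par X → Φ p = Φ X := fun ha hj hp => (MM_pot (tagE_joins X) ha hj hp).1
  have p1 : par (cyc cB h w RB k1) ≠ par X := by
    intro hp
    have := hpot m1 j1 hp
    rw [a3] at this
    exact huv this.symm
  have p2 : par (cyc cB h w RB k2) = par X := by
    by_contra hp
    have hp' : par (cyc cB h w RB (k2 + 1)) = par X := by
      have q1 := par_cases (cyc cB h w RB k2)
      have q2 := par_cases (cyc cB h w RB (k2 + 1))
      have q3 := par_cases X
      have q4 := j2.par_ne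
      omega
    have := hpot m2 j2.symm hp'
    rw [b5] at this
    exact huv this.symm
  refine ⟨(k1, k2), ?_, m1, m2⟩
  unfold KP
  rw [mem_filter, mem_product, mem_Ico, mem_Ico]
  exact ⟨⟨⟨a1, by simp only; omega⟩, ⟨by simp only; omega, b2⟩⟩, by simp only; omega, p1, p2⟩

theorem exit_unique (hw : 1 ≤ w) (hR : w < RB) {k k' : ℤ × ℤ} (hk : k ∈ KP (par X) cB h w RB)
    (hk' : k' ∈ KP (par X) cB h w RB) (h1 : ω ∈ Exit h w cB RB X k)
    (h2 : ω ∈ Exit h w cB RB X k') : k = k' := by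
  unfold KP at hk hk'
  rw [mem_filter, mem_product, mem_Ico, mem_Ico] at hk hk'
  obtain ⟨⟨⟨c1, c2⟩, c3, c4⟩, c5, c6, c7⟩ := hk
  obtain ⟨⟨⟨d1, d2⟩, d3, d4⟩, d5, d6, d7⟩ := hk'
  unfold Exit at h1 h2
  rw [Set.mem_ofPred_eq] at h1 h2
  have B : ∀ t, 0 ≤ t → t < len w RB → BdU (BR (cB, h) RB : Set (ℤ × ℤ)) (cycE cB h w RB t) :=
    fun t q1 q2 => bdU_of_bdR (by omega) (bdR_cycE hw hR q1 q2)
  have hne : cycE cB h w RB k.1 ≠ cycE cB h w RB k.2 := fun e =>
    absurd (cycE_inj hw hR c1 c2 c3 c4 e) (by omega)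
  have e1 : k.1 = k'.1 := by
    rcases bdU_le_two h1.1 h1.2 h2.1 (B _ c1 c2) (B _ c3 c4) (B _ d1 d2) with e | e | e
    · exact absurd e hne
    · exact cycE_inj hw hR c1 c2 d1 d2 e
    · have := cycE_inj hw hR c3 c4 d1 d2 e
      rw [this] at c7
      exact absurd c7 d6
  have e2 : k.2 = k'.2 := by
    rcases bdU_le_two h1.1 h1.2 h2.2 (B _ c1 c2) (B _ c3 c4) (B _ d3 d4) with e | e | e
    · exact absurd e hne
    · have := cycE_inj hw hR c1 c2 d3 d4 e
      rw [this] at c6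
      exact absurd d7 c6
    · exact cycE_inj hw hR c3 c4 d3 d4 e
  exact Prod.ext e1 e2

/-- The two strands reach every box around the tag. -/
theorem tag_Gev {c R : ℤ} (hn : Nest h w cB RB c R) (h1 : c - R < X.1) (h2 : X.1 < c + R)
    (hX : h - w ≤ X.2 ∧ X.2 ≤ h + w) (hω : ω ∈ TagEv h w cB RB X) {k : ℤ × ℤ}
    (hk : k ∈ KP (par X) cB h w RB) (he : ω ∈ Exit h w cB RB X k) : ω ∈ Gev h w cB RB c R k := by
  obtain ⟨w1, wR, nl, nr, nR⟩ := hn
  unfold KP at hk
  rw [mem_filter, mem_product, mem_Ico, mem_Ico] at hk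
  obtain ⟨⟨⟨c1, c2⟩, c3, c4⟩, -, -, -⟩ := hk
  unfold Exit at he
  rw [Set.mem_ofPred_eq] at he
  have key : ∀ t, 0 ≤ t → t < len w RB → cycE cB h w RB t ∈ MM ω (BR (cB, h) RB) (tagE X) →
      ∃ τ, 0 ≤ τ ∧ τ < len w R ∧
        cycE c h w R τ ∈ MM ω (Slit h w cB RB c R) (cycE cB h w RB t) := by
    intro t t1 t2 ht
    have hin : InE (c, h) R (tagE X) := by
      unfold InE InR tagE
      rw [ua_mk, ub_false]
      simp only
      omega
    rcases last_exit hin ht with h3 | ⟨b, hb1, hb2, hb3⟩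
    · exfalso
      have e1 := cyc_onBd (c := cB) (h := h) w1 (by omega : w < RB) t1 (by omega : t ≤ len w RB)
      have e2 := cyc_joins (c := cB) (h := h) w1 (by omega : w < RB) t1 t2
      unfold InE at h3
      have e3 : InR (c - R) (c + R) (h - R) (h + R) (cyc cB h w RB t) := by
        rcases e2 with ⟨e2, -⟩ | ⟨e2, -⟩
        · rw [e2]; exact h3.1
        · rw [e2]; exact h3.2
      unfold OnBd at e1
      unfold InR at e3
      omega
    · obtain ⟨τ, τ1, τ2, rfl⟩ : ∃ τ, 0 ≤ τ ∧ τ < len w R ∧ b = cycE c h w R τ := by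
        rcases bdR_cases w1 wR hb2 with hz | ⟨z1, z2, z3, z4⟩
        · exact hz
        · exfalso
          obtain ⟨x, y, d⟩ := b
          simp only at z1 z2 z3 z4
          subst z1 z2
          obtain ⟨p, q, hj, hp⟩ := exists_end (c + R, y, true) (par X) (par_cases X)
          have hc := mm_end hb1 hj hp
          have hp1 : p.1 = c + R ∧ h - w ≤ p.2 ∧ p.2 ≤ h + w := by
            unfold Joins at hj
            rw [ua_mk, ub_true] at hj
            rcases hj with ⟨rfl, -⟩ | ⟨rfl, -⟩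
            · exact ⟨rfl, z3, z4.le⟩
            · exact ⟨rfl, (by omega : h - w ≤ y + 1), (by omega : y + 1 ≤ h + w)⟩
          have := no_right hω hc hp1.2.1 hp1.2.2
          omega
      refine ⟨τ, τ1, τ2, ?_⟩
      have hsub : Slit h w cB RB c R ⊆ ((BR (cB, h) RB \ BR (c, h) R : Finset (ℤ × ℤ)) :
          Set (ℤ × ℤ)) := by
        intro f hf
        unfold Slit at hf
        rw [Set.mem_ofPred_eq] at hf
        rw [mem_coe, mem_sdiff]
        exact ⟨hf.1, hf.2.1⟩
      have hcl : SS ω ((BR (cB, h) RB \ BR (c, h) R : Finset (ℤ × ℤ)) : Set (ℤ × ℤ))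
          (cycE c h w R τ) ⊆ Slit h w cB RB c R := by
        intro f hf
        obtain ⟨hf1, a, ha, hs⟩ := hf
        rw [mem_coe, mem_sdiff] at hf1
        unfold Slit
        rw [Set.mem_ofPred_eq]
        refine ⟨hf1.1, hf1.2, fun hr => ?_⟩
        have hbig : ((BR (cB, h) RB \ BR (c, h) R : Finset (ℤ × ℤ)) : Set (ℤ × ℤ)) ⊆
            (BR (cB, h) RB : Set (ℤ × ℤ)) := by
          intro g hg
          rw [mem_coe, mem_sdiff] at hg
          exact mem_coe.2 hg.1
        have ha' : a ∈ MM ω (BR (cB, h) RB) (tagE X) := MM_trans hb1 (MM_mono hbig ha)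
        have := tag_no_ray hω hX (f := f) ⟨mem_coe.2 hf1.1, a, ha', hs⟩
        apply this
        unfold Ray at hr ⊢
        rw [Set.mem_ofPred_eq] at hr ⊢
        omega
      have e := MM_eq_of_closed hsub hcl
      rw [e] at hb3
      exact MM_symm hb3
  exact ⟨key k.1 c1 c2 he.1, key k.2 c3 c4 he.2⟩

/-- A tag is also a tag of every smaller box around it. -/
theorem tag_sub {c R : ℤ} (hn : Nest h w cB RB c R) (h1 : c - R < X.1) (h2 : X.1 < c + R)
    (hX : h - w ≤ X.2 ∧ X.2 ≤ h + w) (hω : ω ∈ TagEv h w cB RB X) : ω ∈ TagEv h w c R X := by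
  obtain ⟨w1, wR, nl, nr, nR⟩ := hn
  have hsub : (BR (c, h) R : Set (ℤ × ℤ)) ⊆ (BR (cB, h) RB : Set (ℤ × ℤ)) := by
    intro f hf
    rw [mem_BR'] at hf ⊢
    simp only at hf ⊢
    omega
  have hin : InR (c - R) (c + R) (h - R) (h + R) X := by unfold InR; omega
  have key : ∀ y, Conn ω (BR (cB, h) RB) X y →
      (Conn ω (BR (c, h) R) X y ∧ InR (c - R) (c + R) (h - R) (h + R) y) ∨
        ∃ z, Conn ω (BR (c, h) R) X z ∧ OnBd (c - R) (c + R) (h - R) (h + R) z := by
    intro y hy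
    induction hy with
    | refl => exact Or.inl ⟨Relation.ReflTransGen.refl, hin⟩
    | tail _ hb ih =>
      rcases ih with ⟨i1, i2⟩ | i
      · obtain ⟨g, hg, hbg, hcp, hcq⟩ := hb.exists_face
        by_cases hgF : g ∈ (BR (c, h) R : Set (ℤ × ℤ))
        · exact Or.inl ⟨i1.tail (hbg.of_single hgF), IsCor.inR hgF hcq⟩
        · exact Or.inr ⟨_, i1, onBd_of_cor hcp i2 hgF⟩
      · exact Or.inr i
  obtain ⟨⟨y, hy1, hy2⟩, h3⟩ := hω
  refine ⟨?_, fun y hy => h3 y (hy.mono hsub)⟩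
  rcases key y hy1 with ⟨-, i2⟩ | ⟨z, i1, i2⟩
  · exfalso
    unfold OnBd at hy2
    unfold InR at i2
    omega
  · exact ⟨z, i1, i2⟩

/-- Success for the pair of exits of the strand of `X` is success for the cluster of `X`. -/
theorem succX_of_LS {c M q η : ℤ} {s A : ℝ} {k : ℤ × ℤ} (hM : 1 ≤ M) (hq : 1 ≤ q) (hη : 1 ≤ η)
    (hn : Nest h w cB RB c (4 * (M * q * η))) (hX : h - w ≤ X.2 ∧ X.2 ≤ h + w)
    (h1 : cB - RB < X.1) (h2 : X.1 < cB + RB) (hk : k ∈ KP (par X) cB h w RB)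
    (he : ω ∈ Exit h w cB RB X k) (hω : ω ∈ LS (par X) h w cB RB c M q η s A k) :
    ω ∈ SuccX (par X) h w cB RB c M q η s A X := by
  unfold LS at hω
  unfold SuccX
  rw [Set.mem_ofPred_eq] at hω ⊢
  unfold GoodW at hω ⊢
  obtain ⟨cc, q1, q2, q3, q4⟩ := hω
  refine ⟨cc, q1, fun z hz => q2 z fun hz' => hz ?_, q3, q4⟩
  rw [Set.mem_ofPred_eq] at hz' ⊢
  obtain ⟨⟨b, p, p', hj, hp, hp', hb⟩, hs⟩ := hz'
  refine ⟨?_, hs⟩
  have hsub : Slit h w cB RB c (4 * (M * q * η)) ⊆ (BR (cB, h) RB : Set (ℤ × ℤ)) := by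
    intro f hf
    unfold Slit at hf
    rw [Set.mem_ofPred_eq] at hf
    exact mem_coe.2 hf.1
  have hb' : b ∈ MM ω (BR (cB, h) RB) (tagE X) := MM_trans he.1 (MM_mono hsub hb)
  by_cases hpar : par p = par X
  · exact ⟨p, mm_end hb' hj hpar, hp⟩
  · refine ⟨p', mm_end hb' hj.symm ?_, hp'⟩
    have e1 := par_cases p
    have e2 := par_cases p'
    have e3 := par_cases X
    have e4 := hj.par_ne
    omega

/-! ### Creation of a tag -/

namespace TC

theorem side_ver (x y : ℤ) : IsSide (x, y) (x, y, true) ∧ IsSide (x - 1, y) (x, y, true) := by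
  refine ⟨Or.inr (Or.inl rfl), Or.inr (Or.inr (Or.inr ?_))⟩
  unfold ri
  simp

theorem side_hor (x y : ℤ) : IsSide (x, y) (x, y, false) ∧ IsSide (x, y - 1) (x, y, false) := by
  refine ⟨Or.inl rfl, Or.inr (Or.inr (Or.inl ?_))⟩
  unfold to'
  simp

/-- A unit edge is a side of two faces. -/
theorem side_two {f g k : ℤ × ℤ} {a : UE} (hf : IsSide f a) (hg : IsSide g a) (hk : IsSide k a) :
    f = g ∨ f = k ∨ g = k := by
  obtain ⟨x, y, b⟩ := a
  have key : ∀ f : ℤ × ℤ, IsSide f (x, y, b) → (b = true ∧ f.2 = y ∧ (f.1 = x ∨ f.1 = x - 1)) ∨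
      (b = false ∧ f.1 = x ∧ (f.2 = y ∨ f.2 = y - 1)) := by
    intro f hf
    unfold IsSide bo le' to' ri at hf
    simp only [Prod.mk.injEq] at hf
    rcases hf with ⟨h1, h2, h3⟩ | ⟨h1, h2, h3⟩ | ⟨h1, h2, h3⟩ | ⟨h1, h2, h3⟩
    · exact Or.inr ⟨h3, by omega, by omega⟩
    · exact Or.inl ⟨h3, by omega, by omega⟩
    · exact Or.inr ⟨h3, by omega, by omega⟩
    · exact Or.inl ⟨h3, by omega, by omega⟩
  simp only [Prod.ext_iff]
  rcases key f hf with ⟨b1, h1⟩ | ⟨b1, h1⟩ <;> rcases key g hg with ⟨b2, h2⟩ | ⟨b2, h2⟩ <;>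
    rcases key k hk with ⟨b3, h3⟩ | ⟨b3, h3⟩ <;>
    first
    | (rw [b1] at b2; exact absurd b2 (by decide))
    | (rw [b1] at b3; exact absurd b3 (by decide))
    | omega

/-- The faces at a boundary unit edge of the large box. -/
theorem cyc_faces {x₂ : ℤ} (hw : 1 ≤ w) (hR : w < RB) (h1 : cB - RB < x₂) {k : ℤ} (h0 : 0 ≤ k)
    (hk : k < len w RB) : (∃ f ∈ Notch h w cB RB x₂, IsSide f (cycE cB h w RB k)) ∧
      ∃ g, g ∉ (BR (cB, h) RB : Set (ℤ × ℤ)) ∧ IsSide g (cycE cB h w RB k) := by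
  have key : ∀ f g : ℤ × ℤ, f ∈ BR (cB, h) RB → f ∉ Ray h w x₂ → IsSide f (cycE cB h w RB k) →
      g ∉ BR (cB, h) RB → IsSide g (cycE cB h w RB k) →
      (∃ f ∈ Notch h w cB RB x₂, IsSide f (cycE cB h w RB k)) ∧
      ∃ g, g ∉ (BR (cB, h) RB : Set (ℤ × ℤ)) ∧ IsSide g (cycE cB h w RB k) :=
    fun f g a b c d e => ⟨⟨f, ⟨a, b⟩, c⟩, g, d, e⟩
  unfold len at hk
  by_cases c1 : k < RB - w
  · have e : cycE cB h w RB k = (cB + RB, h + w + k, true) := by
      unfold cycE; rw [if_pos c1]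
    refine key (cB + RB - 1, h + w + k) (cB + RB, h + w + k) ?_ ?_ ?_ ?_ ?_
    · rw [mem_BR]; simp only; omega
    · unfold Ray; simp only [Set.mem_ofPred_eq]; omega
    · rw [e]; exact (side_ver _ _).2
    · rw [mem_BR]; simp only; omega
    · rw [e]; exact (side_ver _ _).1
  by_cases c2 : k < 3 * RB - w
  · have e : cycE cB h w RB k = (cB + 2 * RB - w - k - 1, h + RB, false) := by
      unfold cycE; rw [if_neg c1, if_pos c2]
    refine key (cB + 2 * RB - w - k - 1, h + RB - 1) (cB + 2 * RB - w - k - 1, h + RB) ?_ ?_ ?_ ?_ ?_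
    · rw [mem_BR]; simp only; omega
    · unfold Ray; simp only [Set.mem_ofPred_eq]; omega
    · rw [e]; exact (side_hor _ _).2
    · rw [mem_BR]; simp only; omega
    · rw [e]; exact (side_hor _ _).1
  by_cases c3 : k < 5 * RB - w
  · have e : cycE cB h w RB k = (cB - RB, h + 4 * RB - w - k - 1, true) := by
      unfold cycE; rw [if_neg c1, if_neg c2, if_pos c3]
    refine key (cB - RB, h + 4 * RB - w - k - 1) (cB - RB - 1, h + 4 * RB - w - k - 1) ?_ ?_ ?_ ?_ ?_
    · rw [mem_BR]; simp only; omega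
    · unfold Ray; simp only [Set.mem_ofPred_eq]; omega
    · rw [e]; exact (side_ver _ _).1
    · rw [mem_BR]; simp only; omega
    · rw [e]; exact (side_ver _ _).2
  by_cases c4 : k < 7 * RB - w
  · have e : cycE cB h w RB k = (cB - 6 * RB + w + k, h - RB, false) := by
      unfold cycE; rw [if_neg c1, if_neg c2, if_neg c3, if_pos c4]
    refine key (cB - 6 * RB + w + k, h - RB) (cB - 6 * RB + w + k, h - RB - 1) ?_ ?_ ?_ ?_ ?_
    · rw [mem_BR]; simp only; omega
    · unfold Ray; simp only [Set.mem_ofPred_eq]; omega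
    · rw [e]; exact (side_hor _ _).1
    · rw [mem_BR]; simp only; omega
    · rw [e]; exact (side_hor _ _).2
  · have e : cycE cB h w RB k = (cB + RB, h - 8 * RB + w + k, true) := by
      unfold cycE; rw [if_neg c1, if_neg c2, if_neg c3, if_neg c4]
    refine key (cB + RB - 1, h - 8 * RB + w + k) (cB + RB, h - 8 * RB + w + k) ?_ ?_ ?_ ?_ ?_
    · rw [mem_BR]; simp only; omega
    · unfold Ray; simp only [Set.mem_ofPred_eq]; omega
    · rw [e]; exact (side_ver _ _).2
    · rw [mem_BR]; simp only; omega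
    · rw [e]; exact (side_ver _ _).1

theorem notch_sub {x₂ : ℤ} : Notch h w cB RB x₂ ⊆ (BR (cB, h) RB : Set (ℤ × ℤ)) := fun _ hf => hf.1

theorem bdU_B (hw : 1 ≤ w) (hR : w < RB) {k : ℤ} (h0 : 0 ≤ k) (hk : k < len w RB) :
    BdU (BR (cB, h) RB : Set (ℤ × ℤ)) (cycE cB h w RB k) := by
  obtain ⟨⟨f, hf, hf'⟩, g⟩ := cyc_faces (h := h) (cB := cB) (x₂ := cB) hw hR (by omega) h0 hk
  exact ⟨⟨f, notch_sub hf, hf'⟩, g⟩

theorem bdU_N {x₂ : ℤ} (hw : 1 ≤ w) (hR : w < RB) (h1 : cB - RB < x₂) {k : ℤ} (h0 : 0 ≤ k)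
    (hk : k < len w RB) : BdU (Notch h w cB RB x₂) (cycE cB h w RB k) := by
  obtain ⟨hf, g, hg, hg'⟩ := cyc_faces (h := h) (cB := cB) hw hR h1 h0 hk
  exact ⟨hf, g, fun h => hg (notch_sub h), hg'⟩

/-- No face of the ray is visited. -/
theorem not_ray {x₂ : ℤ} (hw : 1 ≤ w) (hR : w < RB) (h1 : cB - RB < x₂) {k k' : ℤ} (h0 : 0 ≤ k)
    (hk : k < len w RB) (h0' : 0 ≤ k') (hk' : k' < len w RB)
    (hne : cycE cB h w RB k ≠ cycE cB h w RB k')
    (hm : cycE cB h w RB k' ∈ MM ω (Notch h w cB RB x₂) (cycE cB h w RB k))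
    (he : MM ω (BR (cB, h) RB : Set (ℤ × ℤ)) (cycE cB h w RB k) =
      MM ω (Notch h w cB RB x₂) (cycE cB h w RB k)) {f : ℤ × ℤ} (hf : f ∈ BR (cB, h) RB)
    (hf2 : f ∈ Ray h w x₂) {a : UE} (ha : IsSide f a) :
    a ∉ MM ω (BR (cB, h) RB : Set (ℤ × ℤ)) (cycE cB h w RB k) := by
  intro hmem
  rw [he] at hmem
  have hfN : f ∉ Notch h w cB RB x₂ := fun h => h.2 hf2
  -- an end on the boundary of the box is no side of `f`
  have hno : ∀ {l : ℤ}, 0 ≤ l → l < len w RB → a ≠ cycE cB h w RB l := by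
    intro l hl0 hl1 hal
    obtain ⟨⟨f1, hf1, hs1⟩, g, hg, hs2⟩ := cyc_faces (h := h) (cB := cB) hw hR h1 hl0 hl1
    rw [← hal] at hs1 hs2
    rcases side_two ha hs1 hs2 with h | h | h
    · exact hfN (h ▸ hf1)
    · exact hg (by rw [← h]; exact hf)
    · exact hg (by rw [← h]; exact notch_sub hf1)
  -- `a` is a side of a face of the notched box
  have haN : ∃ g ∈ Notch h w cB RB x₂, IsSide g a := by
    rcases Relation.ReflTransGen.cases_tail hmem with h | ⟨b, -, g, hg, hb⟩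
    · exact absurd h (hno h0 hk)
    · exact ⟨g, hg, hb.right⟩
  have hbd : BdU (Notch h w cB RB x₂) a := ⟨haN, f, hfN, ha⟩
  rcases bdU_le_two hmem hm mem_MM_self hbd (bdU_N hw hR h1 h0' hk') (bdU_N hw hR h1 h0 hk) with
    h | h | h
  · exact hno h0' hk' h
  · exact hno h0 hk h
  · exact hne h.symm

theorem const_line {g : ℤ → ZMod 2} {a b : ℤ} (h : ∀ t, a ≤ t → t < b → g t = g (t + 1)) {t : ℤ}
    (h0 : a ≤ t) (h1 : t ≤ b) : g a = g t := by
  revert h1
  induction t, h0 using Int.leInduction with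
  | base => intro _; rfl
  | succ t ht ih =>
    intro h1
    exact (ih (by omega)).trans (h t ht (by omega))

theorem conn_in {x₀ x₁ y₀ y₁ : ℤ} {u y : ℤ × ℤ} (hu : InR x₀ x₁ y₀ y₁ u)
    (h : Conn ω (RF x₀ x₁ y₀ y₁) u y) : InR x₀ x₁ y₀ y₁ y := by
  induction h with
  | refl => exact hu
  | tail _ hb _ =>
    obtain ⟨f, hf, -, -, hc⟩ := hb.exists_face
    exact hc.inR hf

/-- The end of colour `par u` of a unit edge of the component is joined to `u`. -/
theorem mm_conn {F : Set (ℤ × ℤ)} {e a : UE} {u v p q : ℤ × ℤ} {Φ : ℤ × ℤ → ZMod 2}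
    (hP : IsPot F (MM ω F e) Φ) (he : Joins e u v) (hs : ∃ f ∈ F, IsSide f e)
    (ha : a ∈ MM ω F e) (haF : ∃ f ∈ F, IsSide f a) (hj : Joins a p q) (hp : par p = par u) :
    Conn ω F u p := by
  obtain ⟨f, hf, hfa⟩ := haF
  exact (hP.ss_conn he hs ⟨hf, a, ha, hfa⟩ (hfa.cor_left hj) hp (hP.mm he ha hj hp).1).mono SS_sub

end TC

open TC in
/-- Creation of a tag: if the two ends of `cycE k.1` are joined to the ends of `cycE k.2` in the
notched box and the cluster of `cyc (k.1 + 1)` has a vertex in the band to the left of the notch,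
then there is a tag between this vertex and the notch with the exits `k`. -/
theorem tag_create {x₁ x₂ : ℤ} (hw : 1 ≤ w) (hR : w < RB) (h1 : cB - RB < x₁) (h12 : x₁ < x₂)
    (h2 : x₂ < cB + RB) {col : ℤ} {k : ℤ × ℤ} (hk : k ∈ KP col cB h w RB)
    (hP : Conn ω (Notch h w cB RB x₂) (cyc cB h w RB (k.1 + 1)) (cyc cB h w RB k.2))
    (hD : Conn ω (Notch h w cB RB x₂) (cyc cB h w RB k.1) (cyc cB h w RB (k.2 + 1)))
    {p : ℤ × ℤ} (hp : Conn ω (Notch h w cB RB x₂) (cyc cB h w RB (k.1 + 1)) p)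
    (hp1 : x₁ ≤ p.1) (hp2 : h - w ≤ p.2 ∧ p.2 ≤ h + w) :
    ∃ X : ℤ × ℤ, x₁ ≤ X.1 ∧ X.1 < x₂ ∧ h - w ≤ X.2 ∧ X.2 ≤ h + w ∧ par X = col ∧
      ω ∈ TagEv h w cB RB X ∧ ω ∈ Exit h w cB RB X k := by
  classical
  unfold KP at hk
  rw [mem_filter, mem_product, mem_Ico, mem_Ico] at hk
  obtain ⟨⟨⟨ha0, ha1⟩, hb0, hb1⟩, hlt, hcol, hcol'⟩ := hk
  set B : Set (ℤ × ℤ) := (BR (cB, h) RB : Set (ℤ × ℤ)) with hB
  set e := cycE cB h w RB k.1 with he
  set e' := cycE cB h w RB k.2 with he'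
  set u := cyc cB h w RB (k.1 + 1) with hu
  set v := cyc cB h w RB k.1 with hv
  have hje : Joins e u v := (cyc_joins hw hR ha0 ha1).symm
  have hje' : Joins e' (cyc cB h w RB k.2) (cyc cB h w RB (k.2 + 1)) := cyc_joins hw hR hb0 hb1
  have hNe := bdU_N (h := h) hw hR (h1.trans h12) ha0 ha1
  have hNe' := bdU_N (h := h) hw hR (h1.trans h12) hb0 hb1
  have hBe := bdU_B (h := h) (cB := cB) hw hR ha0 ha1
  have hBe' := bdU_B (h := h) (cB := cB) hw hR hb0 hb1
  have hne : e ≠ e' := fun h => by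
    have := cycE_inj hw hR ha0 ha1 hb0 hb1 h
    omega
  obtain ⟨ΦN, hΦN⟩ := hasPot_Notch (h := h) hw hR (h1.trans h12) h2
    (MM ω (Notch h w cB RB x₂) e) fun f hf => evenAt_MM hf
  have hm : e' ∈ MM ω (Notch h w cB RB x₂) e := hΦN.mem_of_conn hje hNe.1 hje' hNe'.1 hP hD
  have heq : MM ω B e = MM ω (Notch h w cB RB x₂) e :=
    MM_eq_of_two notch_sub mem_MM_self hm hne hBe hBe'
  obtain ⟨Φ, hΦ⟩ := hasPot_RF (cB - RB) (cB + RB) (h - RB) (h + RB) (MM ω B e)
    fun f hf => evenAt_MM hf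
  replace hΦ : IsPot B (MM ω B e) Φ := hΦ
  have huv : Φ u ≠ Φ v := hΦ.ne hje hBe.1
  -- no jump along the outer boundary before `e`
  have hout : Φ (cyc cB h w RB 0) = Φ v := by
    refine const_line (g := fun t => Φ (cyc cB h w RB t)) (a := 0) (b := k.1) ?_ ha0 le_rfl
    intro t ht0 ht1
    by_contra hcon
    have hBt := bdU_B (h := h) (cB := cB) hw hR ht0 (show t < len w RB by omega)
    obtain ⟨f, hf, hft⟩ := hBt.1
    have hmt : cycE cB h w RB t ∈ MM ω B e :=
      (hΦ.joins hf hft (cyc_joins hw hR ht0 (by omega))).2 hcon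
    have hm' : e' ∈ MM ω B e := by rw [heq]; exact hm
    rcases bdU_le_two hmt hm' mem_MM_self hBt hBe' hBe with h | h | h
    · have := cycE_inj hw hR ht0 (by omega) hb0 hb1 h
      omega
    · have := cycE_inj hw hR ht0 (by omega) ha0 ha1 h
      omega
    · exact hne h.symm
  have hcyc0 : cyc cB h w RB 0 = (cB + RB, h + w) := by
    unfold cyc
    rw [if_pos (by omega), add_zero]
  rw [hcyc0] at hout
  -- the potential on the ray
  have hstep : ∀ (f a : ℤ × ℤ) (b : UE), f ∈ BR (cB, h) RB → f ∈ Ray h w x₂ → IsSide f b →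
      ua b = a → Φ a = Φ (ub b) := by
    intro f a b hf hf2 hs hab
    have h3 := not_ray hw hR (h1.trans h12) ha0 ha1 hb0 hb1 hne hm heq hf hf2 hs
    by_contra hcon
    refine h3 ((hΦ f hf b hs).2 ?_)
    rw [hab]
    exact hcon
  have hray : ∀ x y : ℤ, x₂ ≤ x → x ≤ cB + RB → h - w ≤ y → y ≤ h + w → Φ (x, y) = Φ v := by
    intro x y hx0 hx1 hy0 hy1
    rw [← hout]
    have hver : Φ (x, y) = Φ (x, h + w) := by
      refine const_line (g := fun t => Φ (x, t)) (a := y) (b := h + w) ?_ hy1 le_rfl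
      intro t ht0 ht1
      rcases hx1.lt_or_eq with hx | hx
      · exact hstep (x, t) (x, t) (x, t, true) (by rw [mem_BR]; simp only; omega)
          ⟨hx0, by simp only; omega, by simp only; omega⟩ (side_ver _ _).1 rfl
      · exact hstep (x - 1, t) (x, t) (x, t, true) (by rw [mem_BR]; simp only; omega)
          ⟨by simp only; omega, by simp only; omega, by simp only; omega⟩ (side_ver _ _).2 rfl
    rw [hver]
    refine const_line (g := fun t => Φ (t, h + w)) (a := x) (b := cB + RB) ?_ hx1 le_rfl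
    intro t ht0 ht1
    exact hstep (t, h + w - 1) (t, h + w) (t, h + w, false) (by rw [mem_BR]; simp only; omega)
      ⟨by simp only; omega, by simp only; omega, by simp only; omega⟩ (side_hor _ _).2 rfl
  -- the vertices of the cluster in the band
  have hparu : par u = col := by
    have h3 := hje.par_ne
    have h4 := par_cases u
    have h5 := par_cases v
    have h6 := par_cases (cyc cB h w RB k.2)
    rw [hcol'] at h6
    omega
  have huR : InR (cB - RB) (cB + RB) (h - RB) (h + RB) u :=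
    (cyc_onBd hw hR (k := k.1 + 1) (by omega) (by omega)).2
  have hclu : ∀ y, Conn ω B u y → h - w ≤ y.2 → y.2 ≤ h + w → y.1 < x₂ := by
    intro y hy hy1 hy2
    have hyR := conn_in huR hy
    unfold InR at hyR
    by_contra hcon
    have h3 := hray y.1 y.2 (by omega) (by omega) hy1 hy2
    rw [Prod.mk.eta, ← hΦ.conn hy] at h3
    exact huv h3
  set S : Finset (ℤ × ℤ) := ((Icc (cB - RB) (cB + RB)) ×ˢ (Icc (h - w) (h + w))).filter
    fun y => Conn ω B u y with hS
  have hpB : Conn ω B u p := hp.mono notch_sub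
  have hpS : p ∈ S := by
    rw [hS, mem_filter, mem_product, mem_Icc, mem_Icc]
    have := conn_in huR hpB
    unfold InR at this
    exact ⟨⟨⟨this.1, this.2.1⟩, hp2⟩, hpB⟩
  obtain ⟨X, hXS, hXmax⟩ := Finset.exists_max_image S (fun y : ℤ × ℤ => toLex (y.1, y.2)) ⟨p, hpS⟩
  have hmemS : ∀ y, Conn ω B u y → h - w ≤ y.2 → y.2 ≤ h + w → y ∈ S := by
    intro y hy hy1 hy2
    rw [hS, mem_filter, mem_product, mem_Icc, mem_Icc]
    have := conn_in huR hy
    unfold InR at this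
    exact ⟨⟨⟨this.1, this.2.1⟩, hy1, hy2⟩, hy⟩
  rw [hS, mem_filter, mem_product, mem_Icc, mem_Icc] at hXS
  obtain ⟨⟨⟨hX1, hX2⟩, hX3, hX4⟩, hXc⟩ := hXS
  have hmax : ∀ y, Conn ω B u y → h - w ≤ y.2 → y.2 ≤ h + w →
      y.1 < X.1 ∨ (y.1 = X.1 ∧ y.2 ≤ X.2) := by
    intro y hy hy1 hy2
    have h3 := hXmax y (hmemS y hy hy1 hy2)
    rw [Prod.Lex.toLex_le_toLex] at h3
    exact h3
  have hXx₁ : x₁ ≤ X.1 := by
    rcases hmax p hpB hp2.1 hp2.2 with h | h <;> omega
  have hXx₂ : X.1 < x₂ := hclu X hXc hX3 hX4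
  -- the row of `X`
  have hface : ∀ x, X.1 ≤ x → x < x₂ → (x, X.2) ∈ BR (cB, h) RB := by
    intro x hx0 hx1
    rw [mem_BR]
    simp only
    omega
  have hrow : ∀ x, X.1 + 1 ≤ x → x < x₂ → Φ (x, X.2) = Φ (x + 1, X.2) := by
    intro x hx0 hx1
    by_contra hcon
    have hf := hface x (by omega) hx1
    have hmem : ((x, X.2, false) : UE) ∈ MM ω B e := (hΦ _ hf _ (side_hor _ _).1).2 hcon
    have hj : Joins ((x, X.2, false) : UE) (x, X.2) (x + 1, X.2) := Or.inl ⟨rfl, rfl⟩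
    have hex : ∃ f ∈ B, IsSide f ((x, X.2, false) : UE) := ⟨_, hf, (side_hor _ _).1⟩
    by_cases hpx : par (x, X.2) = par u
    · have h3 := mm_conn hΦ hje hBe.1 hmem hex hj hpx
      rcases hmax _ h3 hX3 hX4 with h | h <;> simp only at h <;> omega
    · have hpx' : par (x + 1, X.2) = par u := by
        have a1 := par_cases (x, X.2)
        have a2 := par_cases (x + 1, X.2)
        have a3 := par_cases u
        have a4 := hj.par_ne
        omega
      have h3 := mm_conn hΦ hje hBe.1 hmem hex hj.symm hpx'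
      rcases hmax _ h3 hX3 hX4 with h | h <;> simp only at h <;> omega
  have hX5 : Φ (X.1 + 1, X.2) = Φ v := by
    rw [← hray x₂ X.2 le_rfl h2.le hX3 hX4]
    exact const_line (g := fun t => Φ (t, X.2)) (a := X.1 + 1) (b := x₂) hrow (by omega) le_rfl
  have htag : tagE X ∈ MM ω B e := by
    refine (hΦ (X.1, X.2) (hface X.1 le_rfl hXx₂) (tagE X) (side_hor _ _).1).2 ?_
    change Φ (X.1, X.2) ≠ Φ (X.1 + 1, X.2)
    rw [hX5, Prod.mk.eta, ← hΦ.conn hXc]
    exact huv
  have hsymm := MM_symm htag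
  refine ⟨X, hXx₁, hXx₂, hX3, hX4, hXc.par_eq.symm.trans hparu, ⟨?_, ?_⟩, hsymm, ?_⟩
  · exact ⟨u, hXc.symm, cyc_onBd hw hR (k := k.1 + 1) (by omega) (by omega)⟩
  · intro y hy hy1 hy2
    exact hmax y (hXc.trans hy) hy1 hy2
  · exact MM_trans hsymm (by rw [← hB, heq]; exact hm)

end Pool.Agent.Perc6
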