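import Pool.Agent.Lib.MP_6bd702_perc6.WallsP

/-!
# The walls inside and around the box of a cell

Cells of side `a` with corner `(c, h)`; the box of the cell is `-n ≤ i, j < n`, `n = 32 N`. Layer 1
and layer 2 are the cells around the box. P wall: layer 2 (from the upper side of the ray around
the box to the lower side of the ray), the gate (a cell `g` of layer 1 and its inner neighbour), and
the inner part of the box outside the D wall and outside the middle of the window. D wall: layer 1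
without the gate, row `1` and row `-2` from column `0` to layer 1, and column `0` between them.
-/

set_option autoImplicit false

namespace Pool.Agent.Perc6

open Finset Pool.Agent.Perc Pool.Agent.PercD Pool.Agent.PercL

namespace WallAux

theorem walls_disjoint {c h w a N m G : ℤ} (hN : 8 ≤ N) (ha : 1 ≤ a) (hm : Mid (32 * N) m)
    (hG1 : 5 ≤ G) (hG2 : G ≤ 8 * (32 * N) - 2)
    (hr2 : ring (32 * N) G = scell (32 * N) m) :
    Disjoint (SPf c h w a N m) (cellsF c h a (KD (32 * N) G)) := by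
  rw [Finset.disjoint_left]
  intro f hf hf'
  rw [mem_cellsF] at hf'
  obtain ⟨k, hk, hfk⟩ := hf'
  have hk' := KD_spec (by omega) hG1 hG2 hk
  rcases SPf_spec hN hm hf with ⟨k', hfk', hP⟩ | hf
  · have := cell_unique ha hfk hfk'
    subst this
    have hl := lay_scell (n := 32 * N) (by omega) hm
    have hi := sinn_spec (n := 32 * N) (by omega) hm
    rcases hP with hP | rfl | rfl | hP
    · unfold Lay at hP hk'
      omega
    · rw [hr2] at hk'
      unfold Lay at hl
      rcases hk' with h | h | h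
      · omega
      · omega
      · exact h.2 rfl
    · unfold Lay at hk'
      omega
    · unfold Lay Inn at *
      omega
  · have h1 := (cell_fst ha hfk (32 * N + 1)).1 hf.1.1
    unfold Lay at hk'
    omega

theorem card_KD_le {n G : ℤ} (hn : 16 ≤ n) (hG1 : 5 ≤ G) (hG2 : G ≤ 8 * n - 2) :
    (KD n G).card ≤ ((2 * n + 4).toNat) ^ 2 := by
  have h1 : KD n G ⊆ Ico (-n - 2) (n + 2) ×ˢ Ico (-n - 2) (n + 2) := by
    intro k hk
    have := KD_spec hn hG1 hG2 hk
    rw [mem_product, mem_Ico, mem_Ico]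
    unfold Lay at this
    omega
  refine (card_le_card h1).trans ?_
  rw [card_product, Int.card_Ico, sq]
  have e : n + 2 - (-n - 2) = 2 * n + 4 := by ring
  rw [e]

theorem card_KP_le {n N m : ℤ} (hn : 16 ≤ n) (hm : Mid n m) :
    (KP' n N m).card ≤ ((2 * n + 4).toNat) ^ 2 := by
  have h1 : KP' n N m ⊆ Ico (-n - 2) (n + 2) ×ˢ Ico (-n - 2) (n + 2) := by
    intro k hk
    rw [mem_KP' hn hm] at hk
    have := PP_bd hn hm hk
    rw [mem_product, mem_Ico, mem_Ico]
    omega
  refine (card_le_card h1).trans ?_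
  rw [card_product, Int.card_Ico, sq]
  have e : n + 2 - (-n - 2) = 2 * n + 4 := by ring
  rw [e]

theorem pr_walls {N : ℤ} (hN : 8 ≤ N) : ∃ δ : ℝ, 0 < δ ∧ ∀ (col h w c a m G : ℤ), 1 ≤ w →
    w ≤ a → Mid (32 * N) m → 5 ≤ G → G ≤ 8 * (32 * N) - 2 →
    SPf c h w a N m ⊆ BR (c, h) (32 * (N * a) + 2 * a) →
    cellsF c h a (KD (32 * N) G) ⊆ BR (c, h) (32 * (N * a) + 2 * a) →
    ∀ W : Finset (ℤ × ℤ), BR (c, h) (32 * (N * a) + 2 * a) ⊆ W →
      δ ≤ pr W (PEv col c h w a N m) ∧ δ ≤ pr W (TubeEv (col + 1) c h a (KD (32 * N) G)) := by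
  obtain ⟨δ, hδ, hT⟩ := pr_tube (((2 * (32 * N) + 4).toNat) ^ 2)
  obtain ⟨b, hb, hB⟩ := rswF' 2
  refine ⟨min (δ * (b * b)) δ, lt_min (by positivity) hδ, ?_⟩
  intro col h w c a m G hw hwa hm hG1 hG2 hP hD W hW
  have ha : 1 ≤ a := by omega
  have hPW := hP.trans hW
  have hDW := hD.trans hW
  constructor
  · refine (min_le_left _ _).trans ?_
    unfold SPf at hPW
    have hK : cellsF c h a (KP' (32 * N) N m) ⊆ W := subset_union_left.trans hPW
    have e1 : a * (32 * N + 1 + 1) = a * (32 * N + 1) + a := by ring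
    have o1 : TubesAux.Ok W (cellsF c h a (KP' (32 * N) N m)) (parD col) δ
        (TubeEv col c h a (KP' (32 * N) N m)) :=
      ⟨hK, depOn_tube _ _ _ _ _ ha, incD_tube _ _ _ _ _,
        hT _ _ _ _ _ _ ha (card_KP_le (by omega) hm) hK⟩
    have o2 := TubesAux.ok_BT hB (W := W) col (x₀ := c + a * (32 * N + 1))
      (x₁ := c + a * (32 * N + 1 + 1)) (y₀ := h + w) (y₁ := h + 2 * a)
      ((subset_union_left.trans subset_union_right).trans hPW) (by omega) (by omega)
      (by push_cast; omega)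
    have o3 := TubesAux.ok_BT hB (W := W) col (x₀ := c + a * (32 * N + 1))
      (x₁ := c + a * (32 * N + 1 + 1)) (y₀ := h - 2 * a) (y₁ := h - w)
      ((subset_union_right.trans subset_union_right).trans hPW) (by omega) (by omega)
      (by push_cast; omega)
    exact (o1.inter (by positivity) (o2.inter hb.le o3)).2.2.2
  · exact (min_le_right _ _).trans (hT _ _ _ _ _ _ ha (card_KD_le (by omega) hG1 hG2) hDW)

end WallAux

/-- The walls exist and have positive probability. -/
theorem exists_walls {N : ℤ} (hN : 8 ≤ N) : ∃ δ : ℝ, 0 < δ ∧ ∀ (col h w c a τ τ' : ℤ), 1 ≤ w →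
    w ≤ a → 3 * a ≤ τ → τ + 8 * a ≤ τ' → τ' + 3 * a ≤ len w (32 * (N * a)) →
    ∃ (SP SD SU SL : Finset (ℤ × ℤ)) (P D : Set Cfg), Disjoint SP SD ∧
      WallP col h w c a N τ τ' SP P ∧ WallD col h w c a N τ τ' SD SU SL D ∧
      ∀ W : Finset (ℤ × ℤ), BR (c, h) (32 * (N * a) + 2 * a) ⊆ W → δ ≤ pr W P ∧ δ ≤ pr W D := by
  obtain ⟨δ, hδ, hpr⟩ := WallAux.pr_walls hN
  refine ⟨δ, hδ, ?_⟩
  intro col h w c a τ τ' hw hwa h1 h2 h3
  have ha : 1 ≤ a := by omega
  have h3' : τ' + 3 * a ≤ 8 * (a * (32 * N)) - 2 * w := by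
    unfold len at h3
    have e : 8 * (a * (32 * N)) = 8 * (32 * (N * a)) := by ring
    omega
  obtain ⟨m, hm, hm1, hm2⟩ := WallAux.exists_mid (n := 32 * N) (by omega) hw hwa h1 h2 h3'
  obtain ⟨G, hG1, hG2, r1, r2, r3⟩ := WallAux.mid_ring (by omega) hm
  have hP := WallAux.wallP (col := col) (h := h) (c := c) hN hw hwa hm hm1 hm2
  have hmm : 2 ≤ m ∧ m + 1 ≤ 8 * (32 * N) - 1 := by
    unfold WallAux.Mid at hm
    omega
  have hD := WallAux.wallD (col := col) (h := h) (c := c) hN hw hwa h1 h3 hm1 hm2 hG1 hG2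
    hmm.1 hmm.2 r1 r3
  exact ⟨_, _, _, _, _, _, WallAux.walls_disjoint hN ha hm hG1 hG2 r2, hP, hD,
    hpr col h w c a m G hw hwa hm hG1 hG2 hP.sub hD.sub⟩

end Pool.Agent.Perc6
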