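import Pool.Agent.Lib.MP_6bd702_perc6.Stop
import Pool.Agent.Lib.MP_6bd702_perc6.Land
import Pool.Agent.Lib.MP_6bd702_perc6.Tag
import Pool.Agent.Lib.MP_6bd702_perc6.Walls

/-!
# Insertion of a success and a tag: the geometry of one cell
-/

set_option autoImplicit false

namespace Pool.Agent.Perc6

open Finset Pool.Agent.Perc Pool.Agent.PercD Pool.Agent.PercL

namespace InsertAux

section

variable {h w cB RB c R : ℤ} {f z : ℤ × ℤ}

theorem onBd_of_vf (hf : f ∈ BR (c, h) R) (hz : IsCor f z)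
    (hv : z ∈ VF (Slit h w cB RB c R)) : OnBd (c - R) (c + R) (h - R) (h + R) z := by
  obtain ⟨f', ⟨-, h2, -⟩, hz'⟩ := hv
  rw [mem_BR] at hf h2
  unfold IsCor at hz hz'
  unfold OnBd
  simp only at *
  omega

/-- A vertex strictly inside the box is not a vertex of the slit region. -/
theorem notMem_vf (h1 : c - R < z.1) (h2 : z.1 < c + R) (h3 : h - R < z.2) (h4 : z.2 < h + R) :
    z ∉ VF (Slit h w cB RB c R) := by
  rintro ⟨f', ⟨-, h5, -⟩, hz'⟩
  rw [mem_BR] at h5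
  unfold IsCor at hz'
  simp only at *
  omega

theorem mem_vf_up (hn : Nest h w cB RB c R) (h1 : c + R ≤ z.1) (h2 : z.1 < cB + RB)
    (h3 : z.2 = h + w) : z ∈ VF (Slit h w cB RB c R) := by
  obtain ⟨n1, n2, n3, n4, n5⟩ := hn
  refine ⟨(z.1, z.2), ⟨?_, ?_, ?_⟩, Or.inl rfl, Or.inl rfl⟩
  · rw [mem_BR]; simp only; omega
  · rw [mem_BR]; simp only; omega
  · unfold Ray
    simp only [Set.mem_ofPred_eq]
    omega

theorem mem_vf_down (hn : Nest h w cB RB c R) (h1 : c + R ≤ z.1) (h2 : z.1 < cB + RB)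
    (h3 : z.2 = h - w) : z ∈ VF (Slit h w cB RB c R) := by
  obtain ⟨n1, n2, n3, n4, n5⟩ := hn
  refine ⟨(z.1, z.2 - 1), ⟨?_, ?_, ?_⟩, Or.inl rfl, Or.inr (by simp)⟩
  · rw [mem_BR]; simp only; omega
  · rw [mem_BR]; simp only; omega
  · unfold Ray
    simp only [Set.mem_ofPred_eq]
    omega

theorem mem_vf_cyc (hn : Nest h w cB RB c R) {x : ℤ} (h0 : 0 ≤ x) (h1 : x < len w R) :
    cyc c h w R x ∈ VF (Slit h w cB RB c R) := by
  obtain ⟨⟨f, hf, hs⟩, -⟩ := bdU_inner hn h0 h1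
  exact ⟨f, hf, hs.cor_left (cyc_joins hn.w1 hn.wR h0 h1)⟩

end

/-- The window of the cell. -/
noncomputable def WF (h w c μ : ℤ) : Finset (ℤ × ℤ) :=
  RF (c + 8 * μ) (c + 12 * μ) (h + w) (h + w + 4 * μ)

section

variable {col h w cB RB c a N τ τ' : ℤ} {k : ℤ × ℤ} {ω ξ η : Cfg}
  {SP SD SU SL : Finset (ℤ × ℤ)} {P D : Set Cfg}

theorem par_of_mod {z : ℤ × ℤ} {col : ℤ} (hcol : col = 0 ∨ col = 1)
    (h : (z.1 + z.2 - col) % 2 = 0) : par z = col := by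
  unfold par
  omega

theorem mod_of_par {z : ℤ × ℤ} {col : ℤ} (h : par z = col) : (z.1 + z.2 - col) % 2 = 0 := by
  unfold par at h
  omega

/-- The faces of the walls are in the large box. -/
theorem insert_geo (hwa : w ≤ a) (hN : 8 ≤ N) (hn : Nest h w cB RB c (32 * (N * a)))
    (hn4 : Nest h w cB RB c (4 * (N * a))) (hB : BR (c, h) (64 * (N * a)) ⊆ BR (cB, h) RB)
    (hcol : col = 0 ∨ col = 1) (hk : k ∈ KP col cB h w RB)
    (hω : ω ∈ Gev h w cB RB c (32 * (N * a)) k)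
    (h1 : cycE c h w (32 * (N * a)) τ ∈ MM ω (Slit h w cB RB c (32 * (N * a)))
      (cycE cB h w RB k.1))
    (h2 : cycE c h w (32 * (N * a)) τ' ∈ MM ω (Slit h w cB RB c (32 * (N * a)))
      (cycE cB h w RB k.2))
    (h3 : 3 * a ≤ τ) (h4 : τ + 8 * a ≤ τ') (h5 : τ' + 3 * a ≤ len w (32 * (N * a)))
    (hP : WallP col h w c a N τ τ' SP P) (hD : WallD col h w c a N τ τ' SD SU SL D)
    (hξP : ξ ∈ P) (hξD : ξ ∈ D)
    (hη : ∀ f ∈ S2 ω (Slit h w cB RB c (32 * (N * a))) (cycE cB h w RB k.1)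
      (cycE cB h w RB k.2), η f = ω f)
    (hη' : ∀ f ∈ BR (c, h) (64 * (N * a)), f ∉ S2 ω (Slit h w cB RB c (32 * (N * a)))
      (cycE cB h w RB k.1) (cycE cB h w RB k.2) → η f = ξ f) :
    (∃ X : ℤ × ℤ, c - a ≤ X.1 ∧ X.1 < c + a ∧ h - w ≤ X.2 ∧ X.2 ≤ h + w ∧ par X = col ∧
      η ∈ TagEv h w cB RB X ∧ η ∈ Exit h w cB RB X k) ∧
    ∀ (b : UE) (p p' : ℤ × ℤ), Joins b p p' → par p = col →
      (c + 8 * (N * a) ≤ p.1 ∧ p.1 ≤ c + 12 * (N * a) ∧ h + w ≤ p.2 ∧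
        p.2 ≤ h + w + 3 * (N * a)) →
      (c + 8 * (N * a) ≤ p'.1 ∧ p'.1 ≤ c + 12 * (N * a) ∧ h + w + N * a ≤ p'.2 ∧
        p'.2 ≤ h + w + 4 * (N * a)) →
      (∃ t, Conn ξ (WF h w c (N * a)) p t ∧ t.2 = h + w + 4 * (N * a)) →
      (∃ t, Conn ξ (WF h w c (N * a)) p' t ∧ t.2 = h + w) →
      b ∈ MM η (Slit h w cB RB c (4 * (N * a))) (cycE cB h w RB k.1) := by
  classical
  -- arithmetic
  have hw := hn.w1
  have hwR := hn.wR
  have ha : 1 ≤ a := hw.trans hwa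
  have hμ : 8 * a ≤ N * a := mul_le_mul_of_nonneg_right hN (by omega)
  have hPs := hP.sub
  have hPray := hP.ray
  have hPtouch := hP.touch
  have hPmain := hP.main ξ hξP
  have hDs := hD.sub
  have hDray := hD.ray
  have hDU := hD.subU
  have hDL := hD.subL
  have hDtouchU := hD.touchU
  have hDtouchL := hD.touchL
  have hDmain := hD.main ξ hξD
  clear hP hD
  generalize hμdef : N * a = μ at *
  clear hμdef
  have hBc : cB - RB ≤ c - 64 * μ ∧ c + 64 * μ ≤ cB + RB ∧ 64 * μ ≤ RB := by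
    have q1 : ((c - 64 * μ, h - 64 * μ) : ℤ × ℤ) ∈ BR (cB, h) RB := hB (by
      rw [mem_BR]; simp only; omega)
    have q2 : ((c + 64 * μ - 1, h) : ℤ × ℤ) ∈ BR (cB, h) RB := hB (by
      rw [mem_BR]; simp only; omega)
    rw [mem_BR] at q1 q2
    simp only at q1 q2
    omega
  have hkm := hk
  unfold KP at hkm
  rw [mem_filter, mem_product, mem_Ico, mem_Ico] at hkm
  obtain ⟨⟨hk1, hk2⟩, hk12, hkv, hku'⟩ := hkm
  obtain ⟨Φ, Ψ, t₀, t₁, hDuo, ht0, ht01, ht1, hτ, hτ', hΦ, hΨ, hup, hdown⟩ :=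
    duo_of_Gev hn hk hω
  have hlen : τ' < len w (32 * μ) := by omega
  have e0 : τ = t₀ := (hτ τ (by omega) (by omega)).1 h1
  have e1 : τ' = t₁ := (hτ' τ' (by omega) hlen).1 h2
  subst e0 e1
  set F := Slit h w cB RB c (32 * μ) with hF
  set S := S2 ω F (cycE cB h w RB k.1) (cycE cB h w RB k.2) with hS
  set u := cyc cB h w RB (k.1 + 1) with hu
  set v := cyc cB h w RB k.1 with hv
  set u' := cyc cB h w RB k.2 with hu'
  set v' := cyc cB h w RB (k.2 + 1) with hv'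
  have hparu : par u = col := hDuo.par_eq.trans hku'
  have hparv : par v = col + 1 ∨ par v = col - 1 := by
    have := par_cases v
    rcases hcol with rfl | rfl <;> omega
  have hSF : S ⊆ F := by
    rintro f (hf | hf)
    · exact SS_sub hf
    · exact SS_sub hf
  -- the faces of the walls
  have hPsub : ∀ f ∈ SP, f ∈ BR (c, h) (64 * μ) := by
    intro f hf
    have := hPs hf
    rw [mem_BR] at this ⊢
    simp only at this ⊢
    omega
  have hDsub : ∀ f ∈ SD, f ∈ BR (c, h) (64 * μ) := by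
    intro f hf
    have := hDs hf
    rw [mem_BR] at this ⊢
    simp only at this ⊢
    omega
  have hWsub : ∀ f ∈ WF h w c μ, f ∈ BR (c, h) (32 * μ) ∧ f ∉ BR (c, h) (4 * μ) ∧
      f ∉ Ray h w (c + a) ∧ f ∈ BR (c, h) (64 * μ) := by
    intro f hf
    unfold WF at hf
    rw [mem_RF] at hf
    rw [mem_BR, mem_BR, mem_BR]
    unfold Ray
    simp only [Set.mem_ofPred_eq]
    omega
  -- faces outside `F`
  have hnotF : ∀ f, f ∈ BR (c, h) (64 * μ) → f ∉ Ray h w (c + a) → f ∉ F →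
      f ∈ BR (c, h) (32 * μ) := by
    intro f h6 h7 h8
    by_contra hcon
    refine h8 ⟨hB h6, hcon, fun h9 => h7 ?_⟩
    unfold Ray at h9 ⊢
    simp only [Set.mem_ofPred_eq] at h9 ⊢
    omega
  have hPG : ∀ f ∈ SP, f ∉ F → ∀ z, IsCor f z → z ∈ VF F → Φ z = 1 ∧ Ψ z = 0 := by
    intro f hf hfF z hz hzF
    have hfR := hnotF f (hPsub f hf) (hPray f hf) hfF
    obtain ⟨x, hx1, hx2, rfl⟩ := hPtouch f hf hfR z hz (onBd_of_vf hfR hz hzF)
    rw [hΦ x (by omega) (by omega), hΨ x (by omega) (by omega), if_neg (by omega),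
      if_pos (by omega)]
    exact ⟨rfl, rfl⟩
  have hWG : ∀ f ∈ WF h w c μ, ∀ z, IsCor f z → z ∉ VF F := by
    intro f hf z hz
    unfold WF at hf
    rw [mem_RF] at hf
    unfold IsCor at hz
    exact notMem_vf (by omega) (by omega) (by omega) (by omega)
  have hUG : ∀ f ∈ SU, f ∉ F → ∀ z, IsCor f z → z ∈ VF F → Φ z = 0 := by
    intro f hf hfF z hz hzF
    have hfR := hnotF f (hDsub f (hDU hf)) (hDray f (hDU hf)) hfF
    obtain ⟨x, hx1, hx2, rfl⟩ := hDtouchU f hf hfR z hz (onBd_of_vf hfR hz hzF)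
    rw [hΦ x (by omega) (by omega), if_pos (by omega)]
  have hLG : ∀ f ∈ SL, f ∉ F → ∀ z, IsCor f z → z ∈ VF F → Ψ z = 1 := by
    intro f hf hfF z hz hzF
    have hfR := hnotF f (hDsub f (hDL hf)) (hDray f (hDL hf)) hfF
    obtain ⟨x, hx1, hx2, rfl⟩ := hDtouchL f hf hfR z hz (onBd_of_vf hfR hz hzF)
    rw [hΨ x (by omega) (by omega), if_neg (by omega)]
  -- the points of the walls
  obtain ⟨p₀, pu, pl, pb, hp0, hp0b, hpu, hpu1, hpu2, hpu3, hpl, hpl1, hpl2, hpl3, hpb, hpb1,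
    hpb2, hpb3, hpb4, hPwin⟩ := hPmain
  obtain ⟨q₀, q₁, xu, xl, hq0, hq1, hq0b, hq1b, ⟨hxu1, hxu2, hqu⟩, ⟨hxl1, hxl2, hql⟩, hq01,
    hDwin⟩ := hDmain
  have hpuF : pu ∈ VF F := mem_vf_up hn hpu1 (by omega) hpu3
  have hplF : pl ∈ VF F := mem_vf_down hn hpl1 (by omega) hpl3
  have hΦu : Φ pu = 0 := by
    have := (hup pu.1 hpu1 (by omega)).1
    rwa [← hpu3] at this
  have hΨl : Ψ pl = 1 := by
    have := (hdown pl.1 hpl1 (by omega)).2
    rwa [← hpl3] at this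
  have hxuF : cyc c h w (32 * μ) xu ∈ VF F := mem_vf_cyc hn (by omega) (by omega)
  have hxlF : cyc c h w (32 * μ) xl ∈ VF F := mem_vf_cyc hn (by omega) (by omega)
  have hΦxu : Φ (cyc c h w (32 * μ) xu) = 1 := by
    rw [hΦ xu (by omega) (by omega), if_neg (by omega)]
  have hΨxl : Ψ (cyc c h w (32 * μ) xl) = 0 := by
    rw [hΨ xl (by omega) (by omega), if_pos (by omega)]
  -- landing for the P wall
  have hGP : ∀ G : Finset (ℤ × ℤ), (∀ f ∈ G, f ∈ SP ∨ f ∈ WF h w c μ) →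
      (∀ g ∈ (G : Set (ℤ × ℤ)), g ∉ S → η g = ξ g) ∧
      ∀ g ∈ (G : Set (ℤ × ℤ)), g ∉ F → ∀ z, IsCor g z → z ∈ VF F → Φ z = 1 ∧ Ψ z = 0 := by
    intro G hG
    constructor
    · intro g hg hgS
      rcases hG g hg with h6 | h6
      · exact hη' g (hPsub g h6) hgS
      · exact hη' g (hWsub g h6).2.2.2 hgS
    · intro g hg hgF z hz hzF
      rcases hG g hg with h6 | h6
      · exact hPG g h6 hgF z hz hzF
      · exact absurd hzF (hWG g h6 z hz)
  have landP1 : ∀ G : Finset (ℤ × ℤ), (∀ f ∈ G, f ∈ SP ∨ f ∈ WF h w c μ) → ∀ p : ℤ × ℤ,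
      par p = col → p ∉ VF F → Conn ξ G p pu → Conn η ((G : Set (ℤ × ℤ)) ∪ S) p u := by
    intro G hG p hp hpF hc
    obtain ⟨g1, g2⟩ := hGP G hG
    exact hDuo.landP hη g1 g2 (hp.trans hparu.symm) (fun h => absurd h hpF) hc hpuF hΦu
  have landP2 : ∀ G : Finset (ℤ × ℤ), (∀ f ∈ G, f ∈ SP ∨ f ∈ WF h w c μ) → ∀ p : ℤ × ℤ,
      par p = col → p ∉ VF F → Conn ξ G p pl → Conn η ((G : Set (ℤ × ℤ)) ∪ S) p u' := by
    intro G hG p hp hpF hc
    obtain ⟨g1, g2⟩ := hGP G hG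
    exact hDuo.landP' hη g1 g2 (hp.trans hparu.symm) (fun h => absurd h hpF) hc hplF hΨl
  have landD1 : ∀ G : Finset (ℤ × ℤ), (∀ f ∈ G, f ∈ SU ∨ f ∈ WF h w c μ) → ∀ p : ℤ × ℤ,
      par p = par v → p ∉ VF F → Conn ξ G p (cyc c h w (32 * μ) xu) →
      Conn η ((G : Set (ℤ × ℤ)) ∪ S) p v := by
    intro G hG p hp hpF hc
    refine hDuo.landD hη ?_ ?_ hp (fun h => absurd h hpF) hc hxuF hΦxu
    · intro g hg hgS
      rcases hG g hg with h6 | h6
      · exact hη' g (hDsub g (hDU h6)) hgS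
      · exact hη' g (hWsub g h6).2.2.2 hgS
    · intro g hg hgF z hz hzF
      rcases hG g hg with h6 | h6
      · exact hUG g h6 hgF z hz hzF
      · exact absurd hzF (hWG g h6 z hz)
  have landD2 : ∀ G : Finset (ℤ × ℤ), (∀ f ∈ G, f ∈ SL) → ∀ p : ℤ × ℤ,
      par p = par v → p ∉ VF F → Conn ξ G p (cyc c h w (32 * μ) xl) →
      Conn η ((G : Set (ℤ × ℤ)) ∪ S) p v' := by
    intro G hG p hp hpF hc
    refine hDuo.landD' hη ?_ ?_ hp (fun h => absurd h hpF) hc hxlF hΨxl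
    · intro g hg hgS
      exact hη' g (hDsub g (hDL (hG g hg))) hgS
    · intro g hg hgF z hz hzF
      exact hLG g (hG g hg) hgF z hz hzF
  have hp0F : p₀ ∉ VF F := notMem_vf hp0b.1 hp0b.2.1 hp0b.2.2.1 hp0b.2.2.2
  have hq0F : q₀ ∉ VF F := notMem_vf hq0b.1 hq0b.2.1 hq0b.2.2.1 hq0b.2.2.2
  have hq1F : q₁ ∉ VF F := notMem_vf hq1b.1 hq1b.2.1 hq1b.2.2.1 hq1b.2.2.2
  have hpbF : pb ∉ VF F := notMem_vf (by omega) (by omega) (by omega) (by omega)
  have hparp0 : par p₀ = col := par_of_mod hcol hp0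
  have hparD : ∀ z : ℤ × ℤ, (z.1 + z.2 - (col + 1)) % 2 = 0 → par z = par v := by
    intro z hz
    have := par_cases v
    unfold par at *
    omega
  have hsP : ∀ {p q : ℤ × ℤ}, Conn ξ (SP \ BR (c, h) (4 * μ) : Finset (ℤ × ℤ)) p q →
      Conn ξ (SP : Set (ℤ × ℤ)) p q := fun hc => hc.mono (by
    intro f hf
    rw [mem_coe, mem_sdiff] at hf
    exact hf.1)
  have hsU : ∀ {p q : ℤ × ℤ}, Conn ξ (SU \ BR (c, h) (4 * μ) : Finset (ℤ × ℤ)) p q →
      Conn ξ (SU : Set (ℤ × ℤ)) p q := fun hc => hc.mono (by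
    intro f hf
    rw [mem_coe, mem_sdiff] at hf
    exact hf.1)
  -- the connections of the tag
  have c1 : Conn η ((SP : Set (ℤ × ℤ)) ∪ S) p₀ u :=
    landP1 SP (fun f hf => Or.inl hf) p₀ hparp0 hp0F (hsP hpu)
  have c2 : Conn η ((SP : Set (ℤ × ℤ)) ∪ S) p₀ u' :=
    landP2 SP (fun f hf => Or.inl hf) p₀ hparp0 hp0F (hsP hpl)
  have c3 : Conn η ((SP : Set (ℤ × ℤ)) ∪ S) pb u := by
    refine landP1 SP (fun f hf => Or.inl hf) pb ?_ hpbF (hpb.symm.trans (hsP hpu))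
    rw [← hpb.par_eq]
    exact hparp0
  have c4 : Conn η ((SU : Set (ℤ × ℤ)) ∪ S) q₀ v :=
    landD1 SU (fun f hf => Or.inl hf) q₀ (hparD q₀ hq0) hq0F (hsU hqu)
  have c5 : Conn η ((SL : Set (ℤ × ℤ)) ∪ S) q₁ v' :=
    landD2 SL (fun f hf => hf) q₁ (hparD q₁ hq1) hq1F hql
  have hSnotch : S ⊆ Notch h w cB RB (c + a) := by
    intro f hf
    obtain ⟨h6, h7, h8⟩ := hSF hf
    refine ⟨h6, fun h9 => ?_⟩
    rw [mem_BR] at h7
    unfold Ray at h8 h9
    simp only [Set.mem_ofPred_eq] at h8 h9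
    simp only at h7
    omega
  have hPnotch : (SP : Set (ℤ × ℤ)) ⊆ Notch h w cB RB (c + a) :=
    fun f hf => ⟨hB (hPsub f hf), hPray f hf⟩
  have hDnotch : (SD : Set (ℤ × ℤ)) ⊆ Notch h w cB RB (c + a) :=
    fun f hf => ⟨hB (hDsub f hf), hDray f hf⟩
  have n1 : (SP : Set (ℤ × ℤ)) ∪ S ⊆ Notch h w cB RB (c + a) := Set.union_subset hPnotch hSnotch
  have n2 : (SU : Set (ℤ × ℤ)) ∪ S ⊆ Notch h w cB RB (c + a) :=
    Set.union_subset (fun f hf => hDnotch (hDU hf)) hSnotch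
  have n3 : (SL : Set (ℤ × ℤ)) ∪ S ⊆ Notch h w cB RB (c + a) :=
    Set.union_subset (fun f hf => hDnotch (hDL hf)) hSnotch
  have c6 : Conn η (Notch h w cB RB (c + a)) q₀ q₁ := by
    have h6 : Conn η (SD ∩ BR (c, h) (32 * μ) : Finset (ℤ × ℤ)) q₀ q₁ := by
      refine GridA.conn_congr _ ?_ hq01
      intro f hf
      rw [mem_coe, mem_inter] at hf
      exact (hη' f (hDsub f hf.1) fun h7 => (hSF h7).2.1 hf.2).symm
    refine h6.mono ?_
    intro f hf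
    rw [mem_coe, mem_inter] at hf
    exact hDnotch hf.1
  refine ⟨?_, ?_⟩
  · exact tag_create (x₁ := c - a) (x₂ := c + a) hw (by omega) (by omega) (by omega) (by omega)
      hk ((c1.mono n1).symm.trans (c2.mono n1))
      ((c4.mono n2).symm.trans (c6.trans (c5.mono n3))) ((c3.mono n1).symm) hpb1 ⟨hpb3, hpb4⟩
  -- the strand meets the cells
  intro b p p' hb hparp hpw hpw' ⟨t, htc, ht⟩ ⟨t', htc', ht'⟩
  have hFF : F ⊆ Slit h w cB RB c (4 * μ) := Geo.slit_sub (by omega) hw (by omega)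
  obtain ⟨Φ', hΦ'⟩ := hasPot_Slit hn4 (MM η (Slit h w cB RB c (4 * μ)) (cycE cB h w RB k.1))
    fun f hf => evenAt_MM hf
  have hparp' : par p' = par v := by
    have h6 := hb.par_ne
    have := par_cases p'
    have := par_cases v
    omega
  have hslit : ∀ f, f ∈ BR (c, h) (64 * μ) → f ∉ Ray h w (c + a) → f ∉ BR (c, h) (4 * μ) →
      f ∈ Slit h w cB RB c (4 * μ) := by
    intro f h6 h7 h8
    refine ⟨hB h6, h8, fun h9 => h7 ?_⟩
    unfold Ray at h9 ⊢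
    simp only [Set.mem_ofPred_eq] at h9 ⊢
    omega
  have hpF : p ∉ VF F := notMem_vf (by omega) (by omega) (by omega) (by omega)
  have hp'F : p' ∉ VF F := notMem_vf (by omega) (by omega) (by omega) (by omega)
  have d1 : Conn η (Slit h w cB RB c (4 * μ)) p u := by
    have h6 := hPwin p t (mod_of_par hparp) htc hpw.1 hpw.2.1 hpw.2.2.1 hpw.2.2.2 ht
    have h7 : Conn ξ ((RF (c + 8 * μ) (c + 12 * μ) (h + w) (h + w + 4 * μ) ∪ SP) \
        BR (c, h) (4 * μ) : Finset (ℤ × ℤ)) p pu := by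
      refine h6.trans (hpu.mono ?_)
      intro f hf
      rw [mem_coe, mem_sdiff] at hf ⊢
      exact ⟨mem_union_right _ hf.1, hf.2⟩
    refine (landP1 _ ?_ p hparp hpF h7).mono ?_
    · intro f hf
      rw [mem_sdiff, mem_union] at hf
      exact hf.1.symm
    · rintro f (hf | hf)
      · rw [mem_coe, mem_sdiff, mem_union] at hf
        rcases hf.1 with h8 | h8
        · exact hslit f (hWsub f h8).2.2.2 (hWsub f h8).2.2.1 hf.2
        · exact hslit f (hPsub f h8) (hPray f h8) hf.2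
      · exact hFF (hSF hf)
  have d2 : Conn η (Slit h w cB RB c (4 * μ)) p' v := by
    have h5' : (p'.1 + p'.2 - (col + 1)) % 2 = 0 := by
      have h6 := hb.par_ne
      unfold par at *
      omega
    have h6 := hDwin p' t' h5' htc' hpw'.1 hpw'.2.1 hpw'.2.2.1 hpw'.2.2.2 ht'
    have h7 : Conn ξ ((RF (c + 8 * μ) (c + 12 * μ) (h + w) (h + w + 4 * μ) ∪ SU) \
        BR (c, h) (4 * μ) : Finset (ℤ × ℤ)) p' (cyc c h w (32 * μ) xu) := by
      refine h6.trans (hqu.mono ?_)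
      intro f hf
      rw [mem_coe, mem_sdiff] at hf ⊢
      exact ⟨mem_union_right _ hf.1, hf.2⟩
    refine (landD1 _ ?_ p' hparp' hp'F h7).mono ?_
    · intro f hf
      rw [mem_sdiff, mem_union] at hf
      exact hf.1.symm
    · rintro f (hf | hf)
      · rw [mem_coe, mem_sdiff, mem_union] at hf
        rcases hf.1 with h8 | h8
        · exact hslit f (hWsub f h8).2.2.2 (hWsub f h8).2.2.1 hf.2
        · exact hslit f (hDsub f (hDU h8)) (hDray f (hDU h8)) hf.2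
      · exact hFF (hSF hf)
  refine hΦ'.mem_of_conn hDuo.je ?_ hb ?_ d1.symm d2.symm
  · obtain ⟨f, hf, hs⟩ := hDuo.side
    exact ⟨f, hFF hf, hs⟩
  · refine ⟨(b.1, b.2.1), ?_, ?_⟩
    · have e1 : (b.1 = p.1 ∨ b.1 = p'.1) ∧ (b.2.1 = p.2 ∨ b.2.1 = p'.2) := by
        rcases hb with ⟨rfl, rfl⟩ | ⟨rfl, rfl⟩
        · exact ⟨Or.inl rfl, Or.inl rfl⟩
        · exact ⟨Or.inr rfl, Or.inr rfl⟩
      refine ⟨hB ?_, ?_, ?_⟩
      · rw [mem_BR]; simp only; omega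
      · rw [mem_BR]; simp only; omega
      · unfold Ray
        simp only [Set.mem_ofPred_eq]
        omega
    · obtain ⟨x, y, bb⟩ := b
      cases bb
      · exact Or.inl rfl
      · exact Or.inr (Or.inl rfl)

end

end InsertAux

end Pool.Agent.Perc6
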