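import Pool.Agent.Lib.MP_6bd702_perc6.Cyc

/-!
# Arithmetic of the levels
-/

set_option autoImplicit false

namespace Pool.Agent.Perc6

open Finset Pool.Agent.Perc Pool.Agent.PercD Pool.Agent.PercL

namespace Geo

variable {g : Geo}

theorem μ_eq (g : Geo) (j : ℕ) : g.μ j = g.N * g.a j := by
  unfold μ η a; ring

theorem μ_succ (g : Geo) (j : ℕ) : g.μ (j + 1) = g.L * g.μ j := by
  unfold μ η; rw [pow_succ]; ring

theorem Ok.Lpow (hg : g.Ok) (j : ℕ) : 1 ≤ (g.L : ℤ) ^ j :=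
  one_le_pow₀ (by have := hg.L64; omega)

theorem Ok.w_le (hg : g.Ok) (j : ℕ) : g.w ≤ g.a j := by
  have h1 : g.a j = g.a 0 * (g.L : ℤ) ^ j := by unfold a; ring
  have h2 := hg.wa
  have h3 := hg.w1
  have h4 := hg.Lpow j
  rw [h1]
  have h5 : g.a 0 * 1 ≤ g.a 0 * (g.L : ℤ) ^ j := mul_le_mul_of_nonneg_left h4 (by omega)
  omega

theorem Ok.a_pos (hg : g.Ok) (j : ℕ) : 1 ≤ g.a j := by
  have h1 := hg.w_le j
  have h2 := hg.w1
  omega

theorem Ok.b_le_η' (hg : g.Ok) (j : ℕ) : g.b ≤ g.η j := by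
  unfold η
  have h1 := hg.b1
  have h2 := hg.N8
  have h3 := hg.Lpow j
  have h4 : 1 * g.b ≤ g.N * g.b := mul_le_mul_of_nonneg_right (by omega) (by omega)
  have h5 : g.N * g.b * 1 ≤ g.N * g.b * (g.L : ℤ) ^ j :=
    mul_le_mul_of_nonneg_left h3 (by omega)
  omega

theorem Ok.η_pos (hg : g.Ok) (j : ℕ) : 1 ≤ g.η j := by
  have h1 := hg.b_le_η' j
  have h2 := hg.b1
  omega

theorem Ok.b_le_η (hg : g.Ok) (j : ℕ) : g.b ≤ g.η j := hg.b_le_η' j

theorem Ok.μ_pos (hg : g.Ok) (j : ℕ) : 8 * g.a j ≤ g.μ j := by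
  rw [μ_eq]
  have h1 := hg.a_pos j
  exact mul_le_mul_of_nonneg_right hg.N8 (by omega)

/-- `L ^ (j' - j) μ j = μ j'`. -/
theorem μ_pow (g : Geo) {j j' : ℕ} (h : j ≤ j') : g.μ j' = (g.L : ℤ) ^ (j' - j) * g.μ j := by
  obtain ⟨k, rfl⟩ := Nat.exists_eq_add_of_le h
  rw [Nat.add_sub_cancel_left]
  unfold μ η; rw [pow_add]; ring

theorem Ok.μ_pos' (hg : g.Ok) (j : ℕ) : 8 ≤ g.μ j := by
  have h1 := hg.μ_pos j
  have h2 := hg.a_pos j
  omega

theorem Ok.μ_lt (hg : g.Ok) {j j' : ℕ} (h : j < j') : 64 * g.μ j ≤ g.μ j' := by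
  rw [μ_pow g h.le]
  have h1 := hg.μ_pos' j
  obtain ⟨k, hk⟩ : ∃ k, j' - j = k + 1 := ⟨j' - j - 1, by omega⟩
  rw [hk, pow_succ]
  have h2 := hg.Lpow k
  have h3 : (64 : ℤ) ≤ (g.L : ℤ) := by have := hg.L64; omega
  have h4 : 1 * 64 ≤ (g.L : ℤ) ^ k * (g.L : ℤ) := mul_le_mul h2 h3 (by norm_num) (by omega)
  exact mul_le_mul_of_nonneg_right (by omega) (by omega)

theorem anc_self (g : Geo) (j : ℕ) (i : ℤ) : g.anc j i j = i := by
  unfold anc; rw [Nat.sub_self, pow_zero, Int.ediv_one]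

theorem anc_anc (g : Geo) {j j' j'' : ℕ} (h : j ≤ j') (h' : j' ≤ j'') (i : ℤ) (hL : 1 ≤ g.L) :
    g.anc j' (g.anc j i j') j'' = g.anc j i j'' := by
  unfold anc
  rw [Int.ediv_ediv_of_nonneg (by positivity), ← pow_add]
  congr 2
  omega

theorem Ok.anc_bd (hg : g.Ok) {j j' : ℕ} (i : ℤ) :
    (g.L : ℤ) ^ (j' - j) * g.anc j i j' ≤ i ∧ i + 1 ≤ (g.L : ℤ) ^ (j' - j) * (g.anc j i j' + 1) := by
  unfold anc
  have h1 := hg.Lpow (j' - j)
  generalize (g.L : ℤ) ^ (j' - j) = P at *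
  have h2 := Int.emod_add_mul_ediv i P
  have h3 := Int.emod_nonneg i (b := P) (by omega)
  have h4 := Int.emod_lt_of_pos i (b := P) (by omega)
  constructor
  · omega
  · rw [mul_add, mul_one]; omega

theorem Ok.anc_mem (hg : g.Ok) {j j' : ℕ} (h : j ≤ j') (h' : j' ≤ g.m) {i : ℤ}
    (hi : i ∈ g.Is j) : g.anc j i j' ∈ g.Is j' := by
  unfold Is at *
  rw [mem_Ico] at *
  have h1 := hg.Lpow (j' - j)
  obtain ⟨h2, h3⟩ := hg.anc_bd (j := j) (j' := j') i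
  have h4 : (g.L : ℤ) ^ (g.m - j) = (g.L : ℤ) ^ (j' - j) * (g.L : ℤ) ^ (g.m - j') := by
    rw [← pow_add]; congr 1; omega
  rw [h4] at hi
  generalize (g.L : ℤ) ^ (j' - j) = P at *
  generalize (g.L : ℤ) ^ (g.m - j') = Q at *
  generalize g.anc j i j' = t at *
  constructor
  · by_contra hlt
    push Not at hlt
    nlinarith
  · by_contra hlt
    push Not at hlt
    nlinarith

/-- The cell of the ancestor contains the cell. -/
theorem Ok.cen_anc (hg : g.Ok) {j j' : ℕ} (h : j ≤ j') (i : ℤ) :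
    g.cen j' (g.anc j i j') - g.μ j' ≤ g.cen j i - g.μ j ∧
      g.cen j i + g.μ j ≤ g.cen j' (g.anc j i j') + g.μ j' := by
  obtain ⟨h2, h3⟩ := hg.anc_bd (j := j) (j' := j') i
  unfold cen
  rw [μ_pow g h]
  have h1 := hg.μ_pos' j
  generalize (g.L : ℤ) ^ (j' - j) = P at *
  generalize g.anc j i j' = t at *
  generalize g.μ j = μ at *
  constructor
  · nlinarith [mul_le_mul_of_nonneg_right h2 (by omega : (0 : ℤ) ≤ μ)]
  · nlinarith [mul_le_mul_of_nonneg_right h3 (by omega : (0 : ℤ) ≤ μ)]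

theorem Ok.cen_bd (hg : g.Ok) {j : ℕ} (h : j ≤ g.m) {i : ℤ} (hi : i ∈ g.Is j) :
    g.x₀ + g.μ j ≤ g.cen j i ∧ g.cen j i + g.μ j ≤ g.x₀ + 2 * g.μ g.m := by
  have h1 := hg.μ_pos' j
  unfold Is at hi
  rw [mem_Ico] at hi
  unfold cen
  rw [μ_pow g h]
  generalize (g.L : ℤ) ^ (g.m - j) = P at *
  generalize g.μ j = μ at *
  constructor
  · nlinarith [mul_nonneg hi.1 (by omega : (0 : ℤ) ≤ μ)]
  · nlinarith [mul_le_mul_of_nonneg_right (show i + 1 ≤ P by omega) (by omega : (0 : ℤ) ≤ μ)]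

/-- The boxes of the cells of level `j < m` are inside the large box. -/
theorem Ok.nest (hg : g.Ok) {j : ℕ} (h : j < g.m) {i : ℤ} (hi : i ∈ g.Is j) :
    Nest g.h g.w g.cB g.RB (g.cen j i) (32 * g.μ j) := by
  obtain ⟨h1, h2⟩ := hg.cen_bd h.le hi
  have h3 := hg.μ_lt h
  have h4 := hg.μ_pos j
  have h5 := hg.w_le j
  have h6 := hg.w1
  have h7 : g.cB = g.x₀ + g.μ g.m := by unfold cB cen; ring
  have h8 : g.RB = 32 * g.μ g.m := rfl
  constructor <;> (first | rw [h7, h8] | rw [h8] | skip) <;> omega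

theorem Ok.nest4 (hg : g.Ok) {j : ℕ} (h : j < g.m) {i : ℤ} (hi : i ∈ g.Is j) :
    Nest g.h g.w g.cB g.RB (g.cen j i) (4 * g.μ j) := by
  obtain ⟨h1, h2⟩ := hg.cen_bd h.le hi
  have h3 := hg.μ_lt h
  have h4 := hg.μ_pos j
  have h5 := hg.w_le j
  have h6 := hg.w1
  have h7 : g.cB = g.x₀ + g.μ g.m := by unfold cB cen; ring
  have h8 : g.RB = 32 * g.μ g.m := rfl
  constructor <;> (first | rw [h7, h8] | rw [h8] | skip) <;> omega

/-- The box of a cell with a margin is inside the inner box of every strict ancestor. -/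
theorem Ok.box_anc (hg : g.Ok) {j j' : ℕ} (h : j < j') (i : ℤ) :
    BR (g.cen j i, g.h) (64 * g.μ j) ⊆
      BR (g.cen j' (g.anc j i j'), g.h) (4 * g.μ j') := by
  obtain ⟨h1, h2⟩ := hg.cen_anc h.le i
  have h3 := hg.μ_lt h
  have h4 := hg.μ_pos' j
  intro f hf
  rw [mem_BR] at *
  simp only at *
  omega

/-- The slit regions increase when the cell decreases. -/
theorem Ok.slit_anc (hg : g.Ok) {j j' : ℕ} (h : j < j') (i : ℤ) :
    Slit g.h g.w g.cB g.RB (g.cen j' (g.anc j i j')) (4 * g.μ j') ⊆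
      Slit g.h g.w g.cB g.RB (g.cen j i) (32 * g.μ j) := by
  obtain ⟨h1, h2⟩ := hg.cen_anc h.le i
  have h3 := hg.μ_lt h
  have h4 := hg.μ_pos' j
  have h5 := hg.w_le j
  have h6 := hg.μ_pos j
  rintro f ⟨hB, hR, hRay⟩
  refine ⟨hB, fun hf => hR ?_, fun hf => ?_⟩
  · rw [mem_BR] at *
    simp only at *
    omega
  · unfold Ray at hRay hf
    simp only [Set.mem_setOf_eq] at hRay hf
    rw [mem_BR] at hR
    simp only at hR
    omega

theorem slit_sub {h w cB RB c μ : ℤ} (hμ : 1 ≤ μ) (hw : 1 ≤ w) (hwμ : w ≤ μ) :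
    Slit h w cB RB c (32 * μ) ⊆ Slit h w cB RB c (4 * μ) := by
  rintro f ⟨hB, hR, hRay⟩
  refine ⟨hB, fun hf => hR ?_, fun hf => ?_⟩
  · rw [mem_BR] at *
    simp only at *
    omega
  · unfold Ray at hRay hf
    simp only [Set.mem_setOf_eq] at hRay hf
    rw [mem_BR] at hR
    simp only at hR
    omega

theorem Ok.slit_anc' (hg : g.Ok) {j j' : ℕ} (h : j < j') (i : ℤ) :
    Slit g.h g.w g.cB g.RB (g.cen j' (g.anc j i j')) (32 * g.μ j') ⊆
      Slit g.h g.w g.cB g.RB (g.cen j i) (32 * g.μ j) := by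
  have h4 := hg.μ_pos' j'
  have h5 := hg.w_le j'
  have h6 := hg.μ_pos j'
  have h7 := hg.w1
  exact (slit_sub (by omega) h7 (by omega)).trans (hg.slit_anc h i)

/-- The window of the cell `(j, i)`. -/
noncomputable def Win (g : Geo) (j : ℕ) (i : ℤ) : Finset (ℤ × ℤ) :=
  RF (g.cen j i + 8 * g.μ j) (g.cen j i + 12 * g.μ j) (g.h + g.w) (g.h + g.w + 4 * g.μ j)

theorem Ok.win_disj (hg : g.Ok) {j j' : ℕ} (h : j < j') (i : ℤ) :
    Disjoint (BR (g.cen j i, g.h) (64 * g.μ j)) (g.Win j' (g.anc j i j')) := by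
  rw [Finset.disjoint_left]
  intro f hf hf'
  have h1 := hg.box_anc h i hf
  have h4 := hg.μ_pos' j'
  unfold Win at hf'
  rw [mem_BR] at h1
  rw [mem_RF] at hf'
  simp only at h1
  omega

theorem Ok.win_sub (hg : g.Ok) (j : ℕ) (i : ℤ) :
    g.Win j i ⊆ BR (g.cen j i, g.h) (32 * g.μ j) \ BR (g.cen j i, g.h) (4 * g.μ j) := by
  intro f hf
  have h4 := hg.μ_pos' j
  have h5 := hg.w_le j
  have h6 := hg.μ_pos j
  have h7 := hg.w1
  unfold Win at hf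
  rw [mem_RF] at hf
  rw [mem_sdiff, mem_BR, mem_BR]
  simp only
  omega

theorem mem_Vs {j : ℕ} {i : ℤ} {X : ℤ × ℤ} : X ∈ g.Vs j i ↔
    (g.x₀ + 2 * i * g.μ j ≤ X.1 ∧ X.1 < g.x₀ + 2 * (i + 1) * g.μ j) ∧
      (g.h - g.w ≤ X.2 ∧ X.2 ≤ g.h + g.w) ∧ par X = g.col := by
  unfold Vs BandV
  rw [mem_filter, mem_product, mem_Ico, mem_Icc]
  tauto

/-- Every vertex of the segment is in exactly one cell of level `j`. -/
theorem Ok.exists_cell (hg : g.Ok) {j : ℕ} (h : j ≤ g.m) {X : ℤ × ℤ} (hX : X ∈ g.Vs g.m 0) :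
    ∃ i ∈ g.Is j, X ∈ g.Vs j i ∧ ∀ i', X ∈ g.Vs j i' → i' = i := by
  rw [mem_Vs] at hX
  have h4 := hg.μ_pos' j
  obtain ⟨hX1, hX2, hX3⟩ := hX
  rw [μ_pow g h] at hX1
  have e1 := Int.emod_add_mul_ediv (X.1 - g.x₀) (2 * g.μ j)
  have e2 := Int.emod_nonneg (X.1 - g.x₀) (b := 2 * g.μ j) (by omega)
  have e3 := Int.emod_lt_of_pos (X.1 - g.x₀) (b := 2 * g.μ j) (by omega)
  have h0 : 0 ≤ (X.1 - g.x₀) / (2 * g.μ j) := Int.ediv_nonneg (by nlinarith) (by omega)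
  generalize (X.1 - g.x₀) / (2 * g.μ j) = i at *
  generalize (X.1 - g.x₀) % (2 * g.μ j) = r at *
  have hL := hg.Lpow (g.m - j)
  refine ⟨i, ?_, ?_, ?_⟩
  · unfold Is
    rw [mem_Ico]
    refine ⟨h0, ?_⟩
    generalize (g.L : ℤ) ^ (g.m - j) = P at *
    by_contra hlt
    push Not at hlt
    nlinarith
  · rw [mem_Vs]
    refine ⟨⟨by linarith [mul_comm (2 * g.μ j) i, mul_assoc 2 i (g.μ j), mul_comm i (g.μ j), mul_assoc 2 (g.μ j) i], ?_⟩, hX2, hX3⟩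
    nlinarith
  · intro i' hi'
    rw [mem_Vs] at hi'
    obtain ⟨⟨h5, h6⟩, -⟩ := hi'
    generalize g.μ j = μ at *
    rcases lt_trichotomy i' i with hlt | heq | hgt
    · exfalso; nlinarith [mul_le_mul_of_nonneg_right (show i' + 1 ≤ i by omega) (by omega : (0 : ℤ) ≤ μ)]
    · exact heq
    · exfalso; nlinarith [mul_le_mul_of_nonneg_right (show i + 1 ≤ i' by omega) (by omega : (0 : ℤ) ≤ μ)]

theorem Ok.vs_sub (hg : g.Ok) {j : ℕ} (h : j ≤ g.m) {i : ℤ} (hi : i ∈ g.Is j) :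
    g.Vs j i ⊆ g.Vs g.m 0 := by
  intro X hX
  obtain ⟨h1, h2⟩ := hg.cen_bd h hi
  unfold cen at h1 h2
  rw [mem_Vs] at *
  obtain ⟨⟨h3, h4⟩, h5⟩ := hX
  refine ⟨⟨?_, ?_⟩, h5⟩
  · nlinarith
  · nlinarith

theorem Ok.vs_anc (hg : g.Ok) {j j' : ℕ} (h : j ≤ j') {i : ℤ} {X : ℤ × ℤ} (hX : X ∈ g.Vs j i) :
    X ∈ g.Vs j' (g.anc j i j') := by
  obtain ⟨h1, h2⟩ := hg.cen_anc h i
  unfold cen at h1 h2
  rw [mem_Vs] at *
  obtain ⟨⟨h3, h4⟩, h5⟩ := hX
  refine ⟨⟨?_, ?_⟩, h5⟩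
  · nlinarith
  · nlinarith

theorem children_aux (L : ℕ) (hL : 1 ≤ L) (f : ℤ → ℝ) (K : ℕ) :
    ∑ i ∈ Ico (0 : ℤ) ((L : ℤ) * K), f (i / (L : ℤ)) = L * ∑ i ∈ Ico (0 : ℤ) (K : ℤ), f i := by
  induction K with
  | zero => simp
  | succ K ih =>
    have h1 : Ico (0 : ℤ) ((L : ℤ) * ((K + 1 : ℕ) : ℤ)) =
        Ico (0 : ℤ) ((L : ℤ) * K) ∪ Ico ((L : ℤ) * K) ((L : ℤ) * K + L) := by
      rw [Finset.Ico_union_Ico_eq_Ico (by positivity) (by omega)]
      push_cast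
      congr 1
    have h2 : Ico (0 : ℤ) ((K + 1 : ℕ) : ℤ) = Ico (0 : ℤ) (K : ℤ) ∪ {(K : ℤ)} := by
      ext x
      simp only [mem_union, mem_Ico, mem_singleton]
      push_cast
      omega
    rw [h1, h2, Finset.sum_union, Finset.sum_union, ih, Finset.sum_singleton, mul_add]
    · congr 1
      rw [Finset.sum_congr rfl (g := fun _ => f (K : ℤ)), Finset.sum_const, Int.card_Ico]
      · rw [nsmul_eq_mul]
        congr 2
        omega
      · intro x hx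
        rw [mem_Ico] at hx
        congr 1
        refine le_antisymm (Int.lt_add_one_iff.1 (Int.ediv_lt_of_lt_mul (by omega) ?_))
          (Int.le_ediv_of_mul_le (by omega) ?_)
        · rw [add_mul, one_mul, mul_comm (K : ℤ)]
          exact hx.2
        · rw [mul_comm]
          exact hx.1
    · rw [Finset.disjoint_singleton_right, mem_Ico]
      omega
    · exact Finset.Ico_disjoint_Ico_consecutive _ _ _

/-- The children of a cell. -/
theorem Ok.children (hg : g.Ok) {j : ℕ} (h : j < g.m) (f : ℤ → ℝ) (hf : ∀ i, 0 ≤ f i) :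
    ∑ i ∈ g.Is j, f (g.anc j i (j + 1)) = g.L * ∑ i ∈ g.Is (j + 1), f i := by
  have h1 : (g.L : ℤ) ^ (g.m - j) = (g.L : ℤ) * ((g.L ^ (g.m - (j + 1)) : ℕ) : ℤ) := by
    rw [show g.m - j = (g.m - (j + 1)) + 1 by omega, pow_succ]
    push_cast
    ring
  have h2 := children_aux g.L (by have := hg.L64; omega) f (g.L ^ (g.m - (j + 1)))
  unfold Is
  rw [h1, show (g.L : ℤ) ^ (g.m - (j + 1)) = ((g.L ^ (g.m - (j + 1)) : ℕ) : ℤ) by push_cast; rfl,
    ← h2]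
  refine Finset.sum_congr rfl fun i _ => ?_
  unfold anc
  rw [show j + 1 - j = 1 by omega, pow_one]

end Geo

end Pool.Agent.Perc6
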