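import Pool.Agent.Lib.MP_6bd702_perc6.Levels
import Pool.Agent.Lib.MP_6bd702_percu2.Mix

/-!
# The stopping set of a cell and a pair: the two strands and the windows of the strict ancestors
-/

set_option autoImplicit false

namespace Pool.Agent.Perc6

open Finset Pool.Agent.Perc Pool.Agent.PercD Pool.Agent.PercL

theorem S1_rim {ω ω' : Cfg} {x y s : ℤ}
    (h : ∀ f ∈ (RF x (x + s) y (y + s) : Set (ℤ × ℤ)), ω f = ω' f) {p : ℤ × ℤ}
    (hr : Rim ω x y s p) : Rim ω' x y s p := by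
  obtain ⟨z, hz, hz'⟩ := hr
  exact ⟨z, GridA.conn_congr _ h hz, hz'⟩

theorem S1_freeSq {ω ω' : Cfg} {col x y s η : ℤ}
    (h : ∀ f ∈ (RF x (x + s) y (y + s) : Set (ℤ × ℤ)), ω f = ω' f) {t : ℤ × ℤ}
    (hr : FreeSq ω col x y s η t) : FreeSq ω' col x y s η t :=
  ⟨hr.1, fun p h1 h2 h3 h4 h5 h6 =>
    hr.2 p h1 h2 h3 h4 h5 (S1_rim (fun f hf => (h f hf).symm) h6)⟩

theorem S1_seen {ω ω' : Cfg} {col x y M q η : ℤ}
    (h : ∀ f ∈ (RF x (x + 4 * (M * q * η)) y (y + 4 * (M * q * η)) : Set (ℤ × ℤ)), ω f = ω' f)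
    {z : ℤ × ℤ} (hr : Seen ω col x y M q η z) : Seen ω' col x y M q η z := by
  obtain ⟨t, t', h1, h2, h3, h4⟩ := hr
  refine ⟨t, t', h1, h2, S1_freeSq h h3, ?_⟩
  clear h1 h2 h3
  induction h4 with
  | refl => exact Relation.ReflTransGen.refl
  | tail _ hab ih => exact ih.tail ⟨hab.1, S1_freeSq h hab.2.1, S1_freeSq h hab.2.2⟩

theorem S1_LS {ω ω' : Cfg} {col h w cB RB c M q η : ℤ} {s A : ℝ} {k : ℤ × ℤ}
    (h1 : ∀ f ∈ SS ω (Slit h w cB RB c (4 * (M * q * η))) (cycE cB h w RB k.1), ω f = ω' f)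
    (h2 : ∀ f ∈ (RF (c + 8 * (M * q * η)) (c + 8 * (M * q * η) + 4 * (M * q * η)) (h + w)
      (h + w + 4 * (M * q * η)) : Set (ℤ × ℤ)), ω f = ω' f) :
    ω' ∈ LS col h w cB RB c M q η s A k ↔ ω ∈ LS col h w cB RB c M q η s A k := by
  have hm := MM_congr h1
  have hs : ∀ z : ℤ × ℤ, Seen ω' col (c + 8 * (M * q * η)) (h + w) M q η z ↔
      Seen ω col (c + 8 * (M * q * η)) (h + w) M q η z := fun z =>
    ⟨S1_seen fun f hf => (h2 f hf).symm, S1_seen h2⟩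
  unfold LS
  rw [Set.mem_ofPred_eq, Set.mem_ofPred_eq, hm]
  simp only [hs]

/-- First exit from a smaller region. -/
theorem S1_exit {ω : Cfg} {F F' : Set (ℤ × ℤ)} {e a : UE} (ha : a ∈ MM ω F' e) :
    a ∈ MM ω F e ∨ ∃ b ∈ MM ω F e, ∃ f ∈ F', f ∉ F ∧ IsSide f b := by
  induction ha with
  | refl => exact Or.inl mem_MM_self
  | tail _ hs ih =>
    obtain ⟨f, hf, hm⟩ := hs
    rcases ih with ih | ih
    · by_cases hf' : f ∈ F
      · exact Or.inl (MM_step hf' hm ih)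
      · exact Or.inr ⟨_, ih, f, hf, hf', hm.left⟩
    · exact Or.inr ih

theorem S1_side {ω : Cfg} {F : Set (ℤ × ℤ)} {e a : UE} (he : ∃ f ∈ F, IsSide f e)
    (ha : a ∈ MM ω F e) : ∃ f ∈ F, IsSide f a := by
  induction ha with
  | refl => exact he
  | tail _ hs _ =>
    obtain ⟨f, hf, hm⟩ := hs
    exact ⟨f, hf, hm.right⟩

theorem S1_SS_mono {ω : Cfg} {F F' : Set (ℤ × ℤ)} {e : UE} (h : F ⊆ F') :
    SS ω F e ⊆ SS ω F' e := by
  rintro f ⟨hf, a, ha, hs⟩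
  exact ⟨h hf, a, MM_mono h ha, hs⟩

theorem S1_mem_Slit {h w cB RB c R : ℤ} {f : ℤ × ℤ} : f ∈ Slit h w cB RB c R ↔
    (cB - RB ≤ f.1 ∧ f.1 < cB + RB ∧ h - RB ≤ f.2 ∧ f.2 < h + RB) ∧
      ¬ (c - R ≤ f.1 ∧ f.1 < c + R ∧ h - R ≤ f.2 ∧ f.2 < h + R) ∧
      ¬ (c + R ≤ f.1 ∧ h - w ≤ f.2 ∧ f.2 < h + w) := by
  unfold Slit Ray
  rw [Set.mem_ofPred_eq, Set.mem_ofPred_eq, mem_BR, mem_BR]

/-- A strand which reaches the box of radius `R` around `(c, h)` reaches every larger box with the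
slit on the same side. -/
theorem S1_reach {ω : Cfg} {h w cB RB c R c' R' k : ℤ} (hn : Nest h w cB RB c R)
    (hn' : Nest h w cB RB c' R') (h1 : c' - R' ≤ c - R - 1) (h2 : c + R + 1 ≤ c' + R')
    (h3 : R + 1 ≤ R') (hk0 : 0 ≤ k) (hk1 : k < len w RB)
    (hG : ∃ τ, 0 ≤ τ ∧ τ < len w R ∧
      cycE c h w R τ ∈ MM ω (Slit h w cB RB c R) (cycE cB h w RB k)) :
    ∃ τ, 0 ≤ τ ∧ τ < len w R' ∧
      cycE c' h w R' τ ∈ MM ω (Slit h w cB RB c' R') (cycE cB h w RB k) := by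
  obtain ⟨τ, ht0, ht1, ht⟩ := hG
  have he := (bdU_outer (k := k) hn' hk0 hk1).1
  rcases S1_exit (F := Slit h w cB RB c' R') ht with h4 | ⟨b, hb, f, hf, hf', hs⟩
  · exfalso
    obtain ⟨f, hf, hs⟩ := S1_side he h4
    have hbd := bdR_cycE (c := c) (h := h) hn.w1 hn.wR ht0 ht1
    have hR0 : 0 ≤ R := by have := hn.w1; have := hn.wR; omega
    have hin := hbd.inE hR0
    rw [S1_mem_Slit] at hf
    unfold InE InR at hin
    generalize cycE c h w R τ = a at hs hin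
    obtain ⟨x, y⟩ := f
    dsimp only at hf hin
    rcases hs with rfl | rfl | rfl | rfl
    · simp only [bo, ua_mk, ub_false] at hin
      omega
    · simp only [le', ua_mk, ub_true] at hin
      omega
    · simp only [to', ua_mk, ub_false] at hin
      omega
    · simp only [ri, ua_mk, ub_true] at hin
      omega
  · obtain ⟨f1, hf1, hs1⟩ := S1_side he hb
    have hfB : f ∈ (BR (c', h) R' : Set (ℤ × ℤ)) := by
      rw [mem_BR']
      rw [S1_mem_Slit] at hf hf'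
      dsimp only
      omega
    have hf1B : f1 ∉ (BR (c', h) R' : Set (ℤ × ℤ)) := by
      rw [mem_BR']
      rw [S1_mem_Slit] at hf1
      dsimp only
      omega
    have hbd := bd_of_side (inE_of_side hfB hs) hs1 hf1B
    rcases bdR_cases hn'.w1 hn'.wR hbd with ⟨τ', h5, h6, h7⟩ | ⟨h5, h6, h7, h8⟩
    · refine ⟨τ', h5, h6, ?_⟩
      rw [← h7]
      exact hb
    · exfalso
      have hwR := hn'.wR
      rw [S1_mem_Slit] at hf1
      obtain ⟨x, y⟩ := f1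
      dsimp only at hf1
      rcases hs1 with rfl | rfl | rfl | rfl
      · simp [bo] at h6
      · simp only [le'] at h5 h7 h8
        omega
      · simp [to'] at h6
      · simp only [ri] at h5 h7 h8
        omega

namespace Geo

variable {g : Geo} {ω ω' : Cfg} {j : ℕ} {i : ℤ} {k : ℤ × ℤ} {s A : ℝ}

/-- The revealed faces. -/
def St (g : Geo) (ω : Cfg) (j : ℕ) (i : ℤ) (k : ℤ × ℤ) : Set (ℤ × ℤ) :=
  S2 ω (Slit g.h g.w g.cB g.RB (g.cen j i) (32 * g.μ j)) (cycE g.cB g.h g.w g.RB k.1)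
      (cycE g.cB g.h g.w g.RB k.2) ∪
    {f | ∃ j', j < j' ∧ j' < g.m ∧ f ∈ g.Win j' (g.anc j i j')}

theorem S1_win (g : Geo) (j : ℕ) (i : ℤ) :
    RF (g.cen j i + 8 * (g.M * g.q * g.η j)) (g.cen j i + 8 * (g.M * g.q * g.η j) +
      4 * (g.M * g.q * g.η j)) (g.h + g.w) (g.h + g.w + 4 * (g.M * g.q * g.η j)) = g.Win j i := by
  unfold Win μ
  rw [show g.cen j i + 8 * (g.M * g.q * g.η j) + 4 * (g.M * g.q * g.η j) =
    g.cen j i + 12 * (g.M * g.q * g.η j) by ring]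

theorem S1_mem_St {f : ℤ × ℤ} : f ∈ g.St ω j i k ↔
    (f ∈ SS ω (Slit g.h g.w g.cB g.RB (g.cen j i) (32 * g.μ j)) (cycE g.cB g.h g.w g.RB k.1) ∨
      f ∈ SS ω (Slit g.h g.w g.cB g.RB (g.cen j i) (32 * g.μ j)) (cycE g.cB g.h g.w g.RB k.2)) ∨
      ∃ j', j < j' ∧ j' < g.m ∧ f ∈ g.Win j' (g.anc j i j') := Iff.rfl

theorem S1_Ls (hg : g.Ok) (h : ∀ f ∈ g.St ω j i k, ω f = ω' f) {j' : ℕ} (h1 : j < j')
    (h2 : j' < g.m) : ω' ∈ g.Ls s A j' (g.anc j i j') k ↔ ω ∈ g.Ls s A j' (g.anc j i j') k := by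
  unfold Ls
  refine S1_LS (fun f hf => h f ?_) fun f hf => h f ?_
  · rw [S1_mem_St]
    exact Or.inl (Or.inl (S1_SS_mono (hg.slit_anc h1 i) hf))
  · rw [S1_mem_St]
    rw [S1_win] at hf
    exact Or.inr ⟨j', h1, h2, mem_coe.1 hf⟩

theorem st_congr (h : ∀ f ∈ g.St ω j i k, ω f = ω' f) : g.St ω' j i k = g.St ω j i k := by
  have e1 := SS_congr (ω := ω) (ω' := ω') (F := Slit g.h g.w g.cB g.RB (g.cen j i) (32 * g.μ j))
    (e := cycE g.cB g.h g.w g.RB k.1) fun f hf => h f (S1_mem_St.2 (Or.inl (Or.inl hf)))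
  have e2 := SS_congr (ω := ω) (ω' := ω') (F := Slit g.h g.w g.cB g.RB (g.cen j i) (32 * g.μ j))
    (e := cycE g.cB g.h g.w g.RB k.2) fun f hf => h f (S1_mem_St.2 (Or.inl (Or.inr hf)))
  unfold St S2
  rw [e1, e2]

/-- The events of the cell are decided by the revealed faces. -/
theorem G_congr (h : ∀ f ∈ g.St ω j i k, ω f = ω' f) (hω : ω ∈ g.G j i k) : ω' ∈ g.G j i k := by
  have e1 := MM_congr (ω := ω) (ω' := ω') (F := Slit g.h g.w g.cB g.RB (g.cen j i) (32 * g.μ j))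
    (e := cycE g.cB g.h g.w g.RB k.1) fun f hf => h f (S1_mem_St.2 (Or.inl (Or.inl hf)))
  have e2 := MM_congr (ω := ω) (ω' := ω') (F := Slit g.h g.w g.cB g.RB (g.cen j i) (32 * g.μ j))
    (e := cycE g.cB g.h g.w g.RB k.2) fun f hf => h f (S1_mem_St.2 (Or.inl (Or.inr hf)))
  unfold G Gev at hω ⊢
  rw [Set.mem_ofPred_eq] at hω ⊢
  rw [e1, e2]
  exact hω

theorem NS_congr (hg : g.Ok) (h : ∀ f ∈ g.St ω j i k, ω f = ω' f) (hω : ω ∈ g.NS s A j i k) :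
    ω' ∈ g.NS s A j i k := by
  intro j' h1 h2 h3
  exact hω j' h1 h2 ((S1_Ls hg h h1 h2).1 h3)

theorem Sep_congr (h : ∀ f ∈ g.St ω j i k, ω f = ω' f) (hω : ω ∈ g.Sep j i k) :
    ω' ∈ g.Sep j i k := by
  have e1 := MM_congr (ω := ω) (ω' := ω') (F := Slit g.h g.w g.cB g.RB (g.cen j i) (32 * g.μ j))
    (e := cycE g.cB g.h g.w g.RB k.1) fun f hf => h f (S1_mem_St.2 (Or.inl (Or.inl hf)))
  have e2 := MM_congr (ω := ω) (ω' := ω') (F := Slit g.h g.w g.cB g.RB (g.cen j i) (32 * g.μ j))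
    (e := cycE g.cB g.h g.w g.RB k.2) fun f hf => h f (S1_mem_St.2 (Or.inl (Or.inr hf)))
  unfold Sep SepEv at hω ⊢
  rw [Set.mem_ofPred_eq] at hω ⊢
  rw [e1, e2]
  exact hω

/-- The revealed faces are outside the box of the cell. -/
theorem St_disj (hg : g.Ok) (hj : j < g.m) (hi : i ∈ g.Is j) :
    Disjoint (g.St ω j i k) (BR (g.cen j i, g.h) (32 * g.μ j) : Set (ℤ × ℤ)) := by
  have hμ := hg.μ_pos j
  have ha := hg.a_pos j
  rw [Set.disjoint_left]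
  intro f hf hB
  rw [mem_BR'] at hB
  rcases S1_mem_St.1 hf with (h | h) | ⟨j', h1, h2, h3⟩
  · have h' := S1_mem_Slit.1 h.1
    dsimp only at hB
    omega
  · have h' := S1_mem_Slit.1 h.1
    dsimp only at hB
    omega
  · refine Finset.disjoint_left.1 (hg.win_disj h1 i) ?_ h3
    rw [mem_BR]
    dsimp only at hB ⊢
    omega

/-- Near the box only the visited faces are revealed. -/
theorem St_near (hg : g.Ok) (hj : j < g.m) (hi : i ∈ g.Is j) {f : ℤ × ℤ}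
    (hf : f ∈ BR (g.cen j i, g.h) (64 * g.μ j)) (h : f ∈ g.St ω j i k) :
    f ∈ S2 ω (Slit g.h g.w g.cB g.RB (g.cen j i) (32 * g.μ j)) (cycE g.cB g.h g.w g.RB k.1)
      (cycE g.cB g.h g.w g.RB k.2) := by
  rcases S1_mem_St.1 h with h | ⟨j', h1, h2, h3⟩
  · exact h
  · exact absurd h3 (Finset.disjoint_left.1 (hg.win_disj h1 i) hf)

theorem S1_St_sub (hg : g.Ok) (hj : j < g.m) (hi : i ∈ g.Is j) {f : ℤ × ℤ}
    (hf : f ∈ g.St ω j i k) :
    f ∈ ((g.B \ BR (g.cen j i, g.h) (32 * g.μ j) : Finset (ℤ × ℤ)) : Set (ℤ × ℤ)) := by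
  rw [mem_coe, mem_sdiff]
  refine ⟨?_, fun h => Set.disjoint_left.1 (St_disj hg hj hi) hf (mem_coe.2 h)⟩
  unfold B
  rcases S1_mem_St.1 hf with (h | h) | ⟨j', h1, h2, h3⟩
  · have h' := S1_mem_Slit.1 h.1
    rw [mem_BR]
    exact h'.1
  · have h' := S1_mem_Slit.1 h.1
    rw [mem_BR]
    exact h'.1
  · have h4 := hg.win_sub j' (g.anc j i j') h3
    rw [mem_sdiff] at h4
    have h5 := h4.1
    have h6 := hg.nest h2 (hg.anc_mem h1.le h2.le hi)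
    obtain ⟨n1, n2, n3, n4, n5⟩ := h6
    rw [mem_BR] at h5 ⊢
    dsimp only at h5 ⊢
    omega

/-- The events of the cell depend only on the faces of the large box outside the box of the cell. -/
theorem depOn_GNS (hg : g.Ok) (hj : j < g.m) (hi : i ∈ g.Is j) :
    DepOn (g.B \ BR (g.cen j i, g.h) (32 * g.μ j) : Finset (ℤ × ℤ))
      (g.G j i k ∩ g.NS s A j i k) := by
  intro ω ω' h
  have key : ∀ ω ω' : Cfg, (∀ f ∈ ((g.B \ BR (g.cen j i, g.h) (32 * g.μ j) : Finset (ℤ × ℤ)) :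
      Set (ℤ × ℤ)), ω f = ω' f) → ω ∈ g.G j i k ∩ g.NS s A j i k →
      ω' ∈ g.G j i k ∩ g.NS s A j i k := by
    intro ω ω' h hω
    have h' : ∀ f ∈ g.St ω j i k, ω f = ω' f := fun f hf => h f (S1_St_sub hg hj hi hf)
    exact ⟨G_congr h' hω.1, NS_congr hg h' hω.2⟩
  exact ⟨key ω ω' h, key ω' ω fun f hf => (h f hf).symm⟩

theorem depOn_T0 (j : ℕ) (i : ℤ) (X : ℤ × ℤ) :
    DepOn (BR (g.cen j i, g.h) (32 * g.μ j) : Finset (ℤ × ℤ)) (g.T0 j i X) := by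
  have key : ∀ ω ω' : Cfg, (∀ f ∈ (BR (g.cen j i, g.h) (32 * g.μ j) : Set (ℤ × ℤ)),
      ω f = ω' f) → ω ∈ g.T0 j i X → ω' ∈ g.T0 j i X := by
    intro ω ω' h hω
    obtain ⟨⟨y, hy, hy'⟩, h2⟩ := hω
    exact ⟨⟨y, GridA.conn_congr _ h hy, hy'⟩, fun z hz =>
      h2 z (GridA.conn_congr _ (fun f hf => (h f hf).symm) hz)⟩
  intro ω ω' h
  exact ⟨key ω ω' h, key ω' ω fun f hf => (h f hf).symm⟩

/-- Monotonicity: the events of a cell imply the events of the next larger cell. -/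
theorem G_mono (hg : g.Ok) (hj : j + 1 < g.m) (hi : i ∈ g.Is j) (hk : k ∈ g.K)
    (h : ω ∈ g.G j i k) : ω ∈ g.G (j + 1) (g.anc j i (j + 1)) k := by
  have hn := hg.nest (by omega : j < g.m) hi
  have hn' := hg.nest hj (hg.anc_mem (Nat.le_succ j) hj.le hi)
  have hc := hg.cen_anc (Nat.le_succ j) i
  have hμ := hg.μ_lt (Nat.lt_succ_self j)
  have hμ0 := hg.μ_pos j
  have ha := hg.a_pos j
  have hk' : 0 ≤ k.1 ∧ k.1 < len g.w g.RB ∧ 0 ≤ k.2 ∧ k.2 < len g.w g.RB := by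
    unfold K KP at hk
    rw [mem_filter, mem_product, mem_Ico, mem_Ico] at hk
    exact ⟨hk.1.1.1, hk.1.1.2, hk.1.2.1, hk.1.2.2⟩
  simp only [Nat.succ_eq_add_one] at hc hμ
  unfold G Gev at h ⊢
  rw [Set.mem_ofPred_eq] at h ⊢
  exact ⟨S1_reach hn hn' (by omega) (by omega) (by omega) hk'.1 hk'.2.1 h.1,
    S1_reach hn hn' (by omega) (by omega) (by omega) hk'.2.2.1 hk'.2.2.2 h.2⟩

theorem NS_mono (hg : g.Ok) (h : ω ∈ g.NS s A j i k) :
    ω ∈ g.NS s A (j + 1) (g.anc j i (j + 1)) k := by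
  intro j' h1 h2
  have hL := hg.L64
  rw [anc_anc g (Nat.le_succ j) (by omega) i (by omega)]
  exact h j' (by omega) h2

end Geo

end Pool.Agent.Perc6
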