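import Pool.Agent.Lib.MP_6bd702_perc6.Stop
import Pool.Agent.Lib.MP_6bd702_perc6.Land
import Pool.Agent.Lib.MP_6bd702_percw.LowRsw

/-!
# Tips which are not separated do not go on
-/

set_option autoImplicit false

namespace Pool.Agent.Perc6

open Finset Pool.Agent.Perc Pool.Agent.PercD Pool.Agent.PercL

namespace ThetaAux

variable {h w cB RB c' R' c R : ℤ}

theorem cyc_lip (hw : 1 ≤ w) (hR : w < R) {s t : ℤ} (h0 : 0 ≤ s) (hst : s ≤ t)
    (h1 : t ≤ len w R) :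
    (cyc c h w R t).1 ≤ (cyc c h w R s).1 + (t - s) ∧
      (cyc c h w R s).1 ≤ (cyc c h w R t).1 + (t - s) ∧
      (cyc c h w R t).2 ≤ (cyc c h w R s).2 + (t - s) ∧
      (cyc c h w R s).2 ≤ (cyc c h w R t).2 + (t - s) := by
  unfold len at h1
  unfold cyc
  split_ifs <;> dsimp only <;> omega

theorem cyc_zero (_hR : w < R) : cyc c h w R 0 = (c + R, h + w) := by
  unfold cyc
  rw [if_pos (by omega)]
  simp

theorem cyc_len (hw : 1 ≤ w) (hR : w < R) : cyc c h w R (len w R) = (c + R, h - w) := by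
  unfold cyc len
  rw [if_neg (by omega), if_neg (by omega), if_neg (by omega), if_neg (by omega)]
  refine Prod.ext rfl ?_
  dsimp only
  omega

/-- A common vertex of the slit region of the outer box and of a face between the boxes. -/
theorem exists_cyc (hn' : Nest h w cB RB c' R') (hcR : c + R ≤ c' + R') {g y : ℤ × ℤ}
    (hg : g ∈ Slit h w cB RB c R) (hg' : g ∉ Slit h w cB RB c' R') (hc : IsCor g y)
    (hy : y ∈ VF (Slit h w cB RB c' R')) : ∃ t, 0 ≤ t ∧ t ≤ len w R' ∧ y = cyc c' h w R' t := by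
  obtain ⟨f, ⟨hf1, hf2, hf3⟩, hfc⟩ := hy
  obtain ⟨hg1, hg2, hg3⟩ := hg
  have hg4 : g ∈ BR (c', h) R' := by
    by_contra h1
    refine hg' ⟨hg1, h1, fun h2 => hg3 ?_⟩
    exact ⟨hcR.trans h2.1, h2.2⟩
  have hw := hn'.w1
  have hwR := hn'.wR
  rw [mem_BR] at hf1 hf2 hg4 hg1
  dsimp only at hf1 hf2 hg4 hg1
  unfold IsCor at hc hfc
  have hf3' : ¬ (c' + R' ≤ f.1 ∧ h - w ≤ f.2 ∧ f.2 < h + w) := hf3
  have hb : OnBd (c' - R') (c' + R') (h - R') (h + R') y := by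
    unfold OnBd
    omega
  rcases onBd_cases hw hwR hb with ⟨t, h1, h2, h3⟩ | ⟨h1, h2, h3⟩
  · exact ⟨t, h1, h2, h3⟩
  · exfalso
    omega

/-- A path which leaves a square contains an arm. -/
theorem arm_of_path {col r ρ : ℤ} {x y z : ℤ × ℤ} {η ξ : Cfg} {F : Set (ℤ × ℤ)} (hr : r ≤ ρ)
    (hy : x.1 - r ≤ y.1 ∧ y.1 ≤ x.1 + r ∧ x.2 - r ≤ y.2 ∧ y.2 ≤ x.2 + r)
    (hpar : (y.1 + y.2 - col) % 2 = 0)
    (hz : ¬ (x.1 - ρ < z.1 ∧ z.1 < x.1 + ρ ∧ x.2 - ρ < z.2 ∧ z.2 < x.2 + ρ))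
    (h : Conn η F y z)
    (hξ : ∀ f ∈ F, f ∈ (RF (x.1 - ρ) (x.1 + ρ) (x.2 - ρ) (x.2 + ρ) : Set (ℤ × ℤ)) → η f = ξ f) :
    ξ ∈ ArmB col x r ρ := by
  obtain ⟨v, h1, h2⟩ := Conn.toBd (x₀ := x.1 - ρ) (x₁ := x.1 + ρ) (y₀ := x.2 - ρ)
    (y₁ := x.2 + ρ) h (by omega) (by omega)
  refine ⟨y, v, hy.1, hy.2.1, hy.2.2.1, hy.2.2.2, hpar, h2, ?_⟩
  have h3 : Conn ξ (F ∩ (RF (x.1 - ρ) (x.1 + ρ) (x.2 - ρ) (x.2 + ρ) : Set (ℤ × ℤ))) y v :=
    GridA.conn_congr _ (fun f hf => hξ f hf.1 hf.2) h1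
  exact h3.mono Set.inter_subset_right

/-- A path either leaves a square or it keeps an invariant inside the square. -/
theorem exit_or_inv {x₀ x₁ y₀ y₁ : ℤ} {ω : Cfg} {F : Set (ℤ × ℤ)} {P : ℤ × ℤ → Prop}
    {u z : ℤ × ℤ} (h : Conn ω F u z) (hu : x₀ ≤ u.1 ∧ u.1 ≤ x₁ ∧ y₀ ≤ u.2 ∧ u.2 ≤ y₁) (hP : P u)
    (hstep : ∀ f ∈ F, f ∈ (RF x₀ x₁ y₀ y₁ : Set (ℤ × ℤ)) → ∀ p q, IsCor f p → IsCor f q → P p →
      P q) :
    (∃ v, Conn ω (F ∩ (RF x₀ x₁ y₀ y₁ : Set (ℤ × ℤ))) u v ∧ OnBd x₀ x₁ y₀ y₁ v) ∨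
      (P z ∧ x₀ ≤ z.1 ∧ z.1 ≤ x₁ ∧ y₀ ≤ z.2 ∧ z.2 ≤ y₁) := by
  revert hu hP
  induction h using Relation.ReflTransGen.head_induction_on with
  | refl => exact fun hu hP => Or.inr ⟨hP, hu⟩
  | @head p q hb hq ih =>
    intro hu hP
    by_cases hbd : OnBd x₀ x₁ y₀ y₁ p
    · exact Or.inl ⟨p, Relation.ReflTransGen.refl, hbd⟩
    · obtain ⟨f, hf, hbf, hcp, hcq⟩ := Bond.exists_face hb
      have hfR : f ∈ (RF x₀ x₁ y₀ y₁ : Set (ℤ × ℤ)) := by
        rw [mem_RF']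
        unfold OnBd at hbd
        unfold IsCor at hcp
        omega
      have hqR : x₀ ≤ q.1 ∧ q.1 ≤ x₁ ∧ y₀ ≤ q.2 ∧ q.2 ≤ y₁ := by
        rw [mem_RF'] at hfR
        unfold IsCor at hcq
        omega
      rcases ih hqR (hstep f hf hfR p q hcp hcq hP) with ⟨v, h1, h2⟩ | h1
      · exact Or.inl ⟨v, Relation.ReflTransGen.head (hbf.of_single ⟨hf, hfR⟩) h1, h2⟩
      · exact Or.inr h1

/-- The end of a unit edge of the strand with the parity of `u` is joined to `u`. -/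
theorem tip_conn {η : Cfg} {G : Set (ℤ × ℤ)} {e t : UE} {u v : ℤ × ℤ} {Φ : ℤ × ℤ → ZMod 2}
    (hP : IsPot G (MM η G e) Φ) (he : Joins e u v) (hs : ∃ f ∈ G, IsSide f e)
    (ht : t ∈ MM η G e) (hst : ∃ f ∈ G, IsSide f t) {p q : ℤ × ℤ} (hj : Joins t p q) :
    ∃ z, (z = p ∨ z = q) ∧ Conn η G u z := by
  obtain ⟨f, hf, hft⟩ := hst
  have hfS : f ∈ SS η G e := ⟨hf, t, ht, hft⟩
  by_cases hp : par p = par u
  · have h1 := (hP.mm he ht hj hp).1
    exact ⟨p, Or.inl rfl, (hP.ss_conn he hs hfS (hft.cor_left hj) hp h1).mono SS_sub⟩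
  · have hq : par q = par u := by
      have h1 := hj.par_ne
      rcases par_cases p with h2 | h2 <;> rcases par_cases q with h3 | h3 <;>
        rcases par_cases u with h4 | h4 <;> omega
    have h1 := (hP.mm he ht hj.symm hq).1
    exact ⟨q, Or.inr rfl, (hP.ss_conn he hs hfS (hft.cor_left hj.symm) hq h1).mono SS_sub⟩

/-- The deterministic part, without levels. -/
theorem core {col a μ Ka : ℤ} {κ : ℤ × ℤ} (hn' : Nest h w cB RB c' R')
    (hn : Nest h w cB RB c R) (hκ : κ ∈ KP col cB h w RB) (hwa : w ≤ a) (hKa : 8 * a ≤ Ka)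
    (hKμ : Ka ≤ μ) (hR' : R' = 32 * μ) (h1 : c' - 2 * μ ≤ c - R) (h2 : c + R ≤ c' + 2 * μ)
    (h3 : R ≤ 2 * μ) {ω : Cfg} (hω : ω ∈ Gev h w cB RB c' R' κ)
    (hns : ω ∉ SepEv h w cB RB c' R' a κ) :
    ∃ x : ℤ × ℤ, OnBd (c' - R') (c' + R') (h - R') (h + R') x ∧
      ∀ η ξ : Cfg, (∀ f ∈ S2 ω (Slit h w cB RB c' R') (cycE cB h w RB κ.1) (cycE cB h w RB κ.2),
          η f = ω f) →
        (∀ f ∈ BR (c', h) (64 * μ), f ∉ S2 ω (Slit h w cB RB c' R') (cycE cB h w RB κ.1)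
          (cycE cB h w RB κ.2) → η f = ξ f) →
        η ∈ Gev h w cB RB c R κ →
        ξ ∈ ArmB col x (10 * a) (8 * μ) ∨ ξ ∈ ArmB (col + 1) x (6 * a) Ka ∨
          ξ ∈ ArmB col x (4 * Ka) (8 * μ) := by
  have hw := hn'.w1
  have hwR' := hn'.wR
  obtain ⟨Φ, Ψ, τ, τ', hD, hτ0, hττ, hτl, hM, hM', hΦ, hΨ, -, -⟩ := duo_of_Gev hn' hκ hω
  have hκ' := hκ
  unfold KP at hκ'
  rw [mem_filter, mem_product, mem_Ico, mem_Ico] at hκ'
  obtain ⟨⟨⟨hk1, hk2⟩, hk3, hk4⟩, hk5, hk6, hk7⟩ := hκ'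
  set e := cycE cB h w RB κ.1 with he
  set e' := cycE cB h w RB κ.2 with he'
  set u := cyc cB h w RB (κ.1 + 1) with hu
  set v := cyc cB h w RB κ.1 with hv
  set u' := cyc cB h w RB κ.2 with hu'
  set v' := cyc cB h w RB (κ.2 + 1) with hv'
  have hparu : par u = col := hD.par_eq.trans hk7
  have hcol : col = 0 ∨ col = 1 := by
    rw [← hparu]; exact par_cases u
  have hparv : par v ≠ col := hk6
  have hparv' : par v' ≠ col := by
    rw [← hk7]
    exact hD.je'.par_ne.symm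
  set F := Slit h w cB RB c' R' with hF
  set G := Slit h w cB RB c R with hG
  -- the tips are not separated
  have hns' : ¬ (3 * a ≤ τ ∧ τ + 8 * a ≤ τ' ∧ τ' + 3 * a ≤ len w R') := by
    rintro ⟨a1, a2, a3⟩
    exact hns ⟨τ, τ', a1, a2, a3, (hM τ hτ0 (by omega)).2 rfl, (hM' τ' (by omega) hτl).2 rfl⟩
  -- paths of colour P for the resampled configuration
  have keyP : ∀ η ξ : Cfg, (∀ f ∈ S2 ω F e e', η f = ω f) →
      (∀ f ∈ BR (c', h) (64 * μ), f ∉ S2 ω F e e' → η f = ξ f) → η ∈ Gev h w cB RB c R κ →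
      ∀ (x : ℤ × ℤ) (r : ℤ), OnBd (c' - R') (c' + R') (h - R') (h + R') x → r ≤ 8 * μ →
      (∀ t, τ < t → t ≤ τ' → x.1 - r ≤ (cyc c' h w R' t).1 ∧ (cyc c' h w R' t).1 ≤ x.1 + r ∧
        x.2 - r ≤ (cyc c' h w R' t).2 ∧ (cyc c' h w R' t).2 ≤ x.2 + r) →
      ξ ∈ ArmB col x r (8 * μ) := by
    intro η ξ hη hξ hηG x r hx hr hxt
    obtain ⟨Φ₁, Ψ₁, σ, σ', hD₁, hσ0, hσσ, hσl, hM₁, hM₁', -, -, -, -⟩ := duo_of_Gev hn hκ hηG
    obtain ⟨z, hz, hzc⟩ := tip_conn hD₁.potE hD₁.je hD₁.side ((hM₁ σ hσ0 (by omega)).2 rfl)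
      (bdU_inner hn hσ0 (by omega)).1 (cyc_joins hw hn.wR hσ0 (by omega))
    have hzb : OnBd (c - R) (c + R) (h - R) (h + R) z := by
      rcases hz with rfl | rfl
      · exact cyc_onBd hw hn.wR hσ0 (by omega)
      · exact cyc_onBd hw hn.wR (by omega) (by omega)
    obtain ⟨-, hz1, hz2, hz3, hz4⟩ := hzb
    have hzF : z ∉ VF F := by
      rintro ⟨f, ⟨-, hf2, -⟩, hfc⟩
      apply hf2
      rw [mem_BR]
      unfold IsCor at hfc
      dsimp only
      omega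
    obtain ⟨y, hyF, hyΦ, hyΨ, hyp, ⟨g, hgG, hgF, hgc⟩, hyz⟩ := hD.nearP hη hzF hzc
    obtain ⟨t, ht0, ht1, rfl⟩ := exists_cyc hn' (by omega) hgG hgF hgc hyF
    have ht2 : τ < t := by
      by_contra hcon
      rw [hΦ t ht0 ht1, if_pos (by omega)] at hyΦ
      exact zero_ne_one hyΦ
    have ht3 : t ≤ τ' := by
      by_contra hcon
      rw [hΨ t ht0 ht1, if_neg (by omega)] at hyΨ
      exact one_ne_zero hyΨ
    refine arm_of_path hr (hxt t ht2 ht3) ?_ ?_ hyz ?_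
    · rw [hparu] at hyp
      unfold par at hyp
      omega
    · unfold OnBd at hx
      omega
    · rintro f ⟨hfG, hfS⟩ hfb
      refine hξ f ?_ hfS
      rw [mem_RF'] at hfb
      rw [mem_BR]
      unfold OnBd at hx
      dsimp only
      omega
  by_cases hA : τ' < τ + 8 * a
  · -- close tips
    refine ⟨cyc c' h w R' τ, cyc_onBd hw hwR' hτ0 (by omega), fun η ξ hη hξ hηG => Or.inl ?_⟩
    refine keyP η ξ hη hξ hηG _ _ (cyc_onBd hw hwR' hτ0 (by omega)) (by omega) ?_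
    intro t ht1 ht2
    have h4 := cyc_lip (c := c') (h := h) hw hwR' hτ0 ht1.le (by omega : t ≤ len w R')
    omega
  by_cases hB : τ < 3 * a
  · -- near the upper ray corner
    have hx : OnBd (c' - R') (c' + R') (h - R') (h + R') (cyc c' h w R' 0) :=
      cyc_onBd hw hwR' le_rfl (by unfold len; omega)
    refine ⟨cyc c' h w R' 0, hx, fun η ξ hη hξ hηG => Or.inr ?_⟩
    by_cases hB1 : τ' ≤ Ka
    · refine Or.inr (keyP η ξ hη hξ hηG _ _ hx ?_ ?_)
      · omega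
      · intro t ht1 ht2
        have h4 := cyc_lip (c := c') (h := h) hw hwR' le_rfl (by omega : 0 ≤ t)
          (by omega : t ≤ len w R')
        omega
    · refine Or.inl ?_
      obtain ⟨Φ₁, Ψ₁, σ, σ', hD₁, hσ0, hσσ, hσl, hM₁, hM₁', -, -, -, -⟩ := duo_of_Gev hn hκ hηG
      obtain ⟨z, hz, hzc⟩ := tip_conn hD₁.potE hD₁.je.symm hD₁.side
        ((hM₁ σ hσ0 (by omega)).2 rfl)
        (bdU_inner hn hσ0 (by omega)).1 (cyc_joins hw hn.wR hσ0 (by omega))
      have hzb : OnBd (c - R) (c + R) (h - R) (h + R) z := by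
        rcases hz with rfl | rfl
        · exact cyc_onBd hw hn.wR hσ0 (by omega)
        · exact cyc_onBd hw hn.wR (by omega) (by omega)
      obtain ⟨-, hz1, hz2, hz3, hz4⟩ := hzb
      have hzF : z ∉ VF F := by
        rintro ⟨f, ⟨-, hf2, -⟩, hfc⟩
        apply hf2
        rw [mem_BR]
        unfold IsCor at hfc
        dsimp only
        omega
      obtain ⟨y, z', hyF, hyΦ, hyp, ⟨g, hgG, hgF, hgc⟩, hyz, hz'⟩ := hD.nearD hη hzF hzc
      obtain ⟨t, ht0, ht1, rfl⟩ := exists_cyc hn' (by omega) hgG hgF hgc hyF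
      have ht2 : t ≤ τ := by
        by_contra hcon
        rw [hΦ t ht0 ht1, if_neg (by omega)] at hyΦ
        exact one_ne_zero hyΦ
      have hx0 : cyc c' h w R' 0 = (c' + R', h + w) := cyc_zero (by omega)
      have hyt : cyc c' h w R' t = (c' + R', h + w + t) := by
        unfold cyc
        rw [if_pos (by omega)]
      have hyΨ : Ψ (cyc c' h w R' t) = 0 := by
        rw [hΨ t ht0 ht1, if_pos (by omega)]
      rw [hx0]
      have hexit := exit_or_inv (x₀ := c' + R' - Ka) (x₁ := c' + R' + Ka) (y₀ := h + w - Ka)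
        (y₁ := h + w + Ka) (P := fun p => h + w ≤ p.2 ∧ (p ∈ VF F → Ψ p = 0)) hyz
        (by rw [hyt]; dsimp only; omega)
        ⟨by rw [hyt]; dsimp only; omega, fun _ => hyΨ⟩
        (by
          rintro f ⟨hfG, hfS⟩ hfR p q hcp hcq ⟨hp1, hp2⟩
          rw [mem_RF'] at hfR
          have hfr : ¬ (c + R ≤ f.1 ∧ h - w ≤ f.2 ∧ f.2 < h + w) := hfG.2.2
          have hq2 : h + w ≤ q.2 := by
            unfold IsCor at hcp hcq
            omega
          refine ⟨hq2, fun hqF => ?_⟩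
          by_cases hfF : f ∈ F
          · have h5 := hD.potE'.fresh hfF (fun h6 => hfS (Or.inr h6)) hcp hcq
            rw [← h5]
            exact hp2 ⟨f, hfF, hcp⟩
          · obtain ⟨s, hs0, hs1, rfl⟩ := exists_cyc hn' (by omega) hfG hfF hcq hqF
            have hs2 : s ≤ Ka := by
              unfold IsCor at hcq
              unfold len at hs1
              unfold cyc at hq2 hcq
              split_ifs at hq2 hcq <;> dsimp only at hq2 hcq <;> omega
            rw [hΨ s hs0 hs1, if_pos (by omega)])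
      rcases hexit with ⟨v₁, hv1, hv2⟩ | ⟨⟨hP1, hP2⟩, hb1, hb2, hb3, hb4⟩
      · refine ⟨cyc c' h w R' t, v₁, ?_, ?_, ?_, ?_, ?_, hv2, ?_⟩
        · rw [hyt]; dsimp only; omega
        · rw [hyt]; dsimp only; omega
        · rw [hyt]; dsimp only; omega
        · rw [hyt]; dsimp only; omega
        · rw [← hyp] at hparv
          unfold par at hparv
          omega
        · refine (GridA.conn_congr _ ?_ hv1).mono Set.inter_subset_right
          rintro f ⟨⟨hfG, hfS⟩, hfb⟩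
          refine hξ f ?_ hfS
          rw [mem_RF'] at hfb
          rw [mem_BR]
          dsimp only
          omega
      · exfalso
        rcases hz' with rfl | ⟨h5, h6⟩
        · omega
        · rw [hP2 h5] at h6
          exact zero_ne_one h6
  · -- near the lower ray corner
    have hl : len w R' = 8 * R' - 2 * w := rfl
    have hx : OnBd (c' - R') (c' + R') (h - R') (h + R') (cyc c' h w R' (len w R')) :=
      cyc_onBd hw hwR' (by omega) le_rfl
    refine ⟨cyc c' h w R' (len w R'), hx, fun η ξ hη hξ hηG => Or.inr ?_⟩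
    by_cases hC1 : len w R' - τ ≤ Ka
    · refine Or.inr (keyP η ξ hη hξ hηG _ _ hx ?_ ?_)
      · omega
      · intro t ht1 ht2
        have h4 := cyc_lip (c := c') (h := h) hw hwR' (by omega : 0 ≤ t)
          (by omega : t ≤ len w R') le_rfl
        omega
    · refine Or.inl ?_
      obtain ⟨Φ₁, Ψ₁, σ, σ', hD₁, hσ0, hσσ, hσl, hM₁, hM₁', -, -, -, -⟩ := duo_of_Gev hn hκ hηG
      obtain ⟨z, hz, hzc⟩ := tip_conn hD₁.potE' hD₁.je'.symm hD₁.side'
        ((hM₁' σ' (by omega) hσl).2 rfl)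
        (bdU_inner hn (by omega) hσl).1 (cyc_joins hw hn.wR (by omega) hσl)
      have hzb : OnBd (c - R) (c + R) (h - R) (h + R) z := by
        rcases hz with rfl | rfl
        · exact cyc_onBd hw hn.wR (by omega) (by omega)
        · exact cyc_onBd hw hn.wR (by omega) (by omega)
      obtain ⟨-, hz1, hz2, hz3, hz4⟩ := hzb
      have hzF : z ∉ VF F := by
        rintro ⟨f, ⟨-, hf2, -⟩, hfc⟩
        apply hf2
        rw [mem_BR]
        unfold IsCor at hfc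
        dsimp only
        omega
      obtain ⟨y, z', hyF, hyΨ, hyp, ⟨g, hgG, hgF, hgc⟩, hyz, hz'⟩ := hD.nearD' hη hzF hzc
      obtain ⟨t, ht0, ht1, rfl⟩ := exists_cyc hn' (by omega) hgG hgF hgc hyF
      have ht2 : τ' < t := by
        by_contra hcon
        rw [hΨ t ht0 ht1, if_pos (by omega)] at hyΨ
        exact zero_ne_one hyΨ
      have hx0 : cyc c' h w R' (len w R') = (c' + R', h - w) := cyc_len hw (by omega)
      have hyt : cyc c' h w R' t = (c' + R', h - 8 * R' + w + t) := by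
        unfold cyc
        rw [if_neg (by omega), if_neg (by omega), if_neg (by omega), if_neg (by omega)]
      have hyΦ : Φ (cyc c' h w R' t) = 1 := by
        rw [hΦ t ht0 ht1, if_neg (by omega)]
      rw [hx0]
      have hexit := exit_or_inv (x₀ := c' + R' - Ka) (x₁ := c' + R' + Ka) (y₀ := h - w - Ka)
        (y₁ := h - w + Ka) (P := fun p => p.2 ≤ h - w ∧ (p ∈ VF F → Φ p = 1)) hyz
        (by rw [hyt]; dsimp only; omega)
        ⟨by rw [hyt]; dsimp only; omega, fun _ => hyΦ⟩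
        (by
          rintro f ⟨hfG, hfS⟩ hfR p q hcp hcq ⟨hp1, hp2⟩
          rw [mem_RF'] at hfR
          have hfr : ¬ (c + R ≤ f.1 ∧ h - w ≤ f.2 ∧ f.2 < h + w) := hfG.2.2
          have hq2 : q.2 ≤ h - w := by
            unfold IsCor at hcp hcq
            omega
          refine ⟨hq2, fun hqF => ?_⟩
          by_cases hfF : f ∈ F
          · have h5 := hD.potE.fresh hfF (fun h6 => hfS (Or.inl h6)) hcp hcq
            rw [← h5]
            exact hp2 ⟨f, hfF, hcp⟩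
          · obtain ⟨s, hs0, hs1, rfl⟩ := exists_cyc hn' (by omega) hfG hfF hcq hqF
            have hs2 : len w R' - Ka ≤ s := by
              unfold IsCor at hcq
              unfold len at hs1 ⊢
              unfold cyc at hq2 hcq
              split_ifs at hq2 hcq <;> dsimp only at hq2 hcq <;> omega
            rw [hΦ s hs0 hs1, if_neg (by omega)])
      rcases hexit with ⟨v₁, hv1, hv2⟩ | ⟨⟨hP1, hP2⟩, hb1, hb2, hb3, hb4⟩
      · refine ⟨cyc c' h w R' t, v₁, ?_, ?_, ?_, ?_, ?_, hv2, ?_⟩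
        · rw [hyt]; dsimp only; omega
        · rw [hyt]; dsimp only; omega
        · rw [hyt]; dsimp only; omega
        · rw [hyt]; dsimp only; omega
        · rw [← hyp] at hparv
          unfold par at hparv
          omega
        · refine (GridA.conn_congr _ ?_ hv1).mono Set.inter_subset_right
          rintro f ⟨⟨hfG, hfS⟩, hfb⟩
          refine hξ f ?_ hfS
          rw [mem_RF'] at hfb
          rw [mem_BR]
          dsimp only
          omega
      · exfalso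
        rcases hz' with rfl | ⟨h5, h6⟩
        · omega
        · rw [hP2 h5] at h6
          exact one_ne_zero h6

/-- Powers of small ratios. -/
theorem exists_ratio {C β θ : ℝ} (hC : 0 < C) (hβ : 0 < β) (hθ : 0 < θ) {b : ℝ} (hb : 0 ≤ b) :
    ∃ n₀ : ℤ, 1 ≤ n₀ ∧ ∀ n : ℤ, n₀ ≤ n → ∀ t : ℝ, 0 ≤ t → t ≤ b / n → C * t ^ β ≤ θ := by
  set y : ℝ := (θ / C) ^ (1 / β) with hy
  have hy0 : 0 < y := by positivity
  refine ⟨max 1 ⌈b / y⌉, le_max_left _ _, fun n hn t ht0 ht => ?_⟩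
  have hn1 : (1 : ℝ) ≤ n := by
    have h1 := (le_max_left _ _).trans hn
    exact_mod_cast h1
  have hn2 : b / y ≤ n := by
    have h1 := (le_max_right _ _).trans hn
    exact (Int.le_ceil _).trans (by exact_mod_cast h1)
  have h2 : b / n ≤ y := by
    rw [div_le_iff₀ hy0] at hn2
    rw [div_le_iff₀ (by linarith)]
    linarith
  have h3 : t ^ β ≤ y ^ β := Real.rpow_le_rpow ht0 (ht.trans h2) hβ.le
  have h4 : y ^ β = θ / C := by
    rw [hy, ← Real.rpow_mul (by positivity), one_div, inv_mul_cancel₀ hβ.ne', Real.rpow_one]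
  rw [h4] at h3
  calc C * t ^ β ≤ C * (θ / C) := mul_le_mul_of_nonneg_left h3 hC.le
    _ = θ := by field_simp

end ThetaAux

/-- Deterministic part: if the tips at the box of `(j + 1, i')` are not separated and the two
strands reach the box of the child then there is an arm in the faces which are not revealed.
`a` = mesh of level `j + 1`, `K` an intermediate number: the arms are
(1) colour P from radius `10 a` around a point of the boundary of the box to radius `8 μ`;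
(2) colour D from radius `4 a` around a point next to the ray to radius `K a`;
(3) colour P from radius `4 K a` around a point next to the ray to radius `8 μ`.
The centres `x` belong to a set of three points which depends only on the revealed faces. -/
theorem theta_det {g : Geo} (hg : g.Ok) {s A : ℝ} {j : ℕ} (hj : j + 1 < g.m) {i : ℤ}
    (hi : i ∈ g.Is j) {k : ℤ × ℤ} (hk : k ∈ g.K) {K : ℤ} (hK : 8 ≤ K) (hKN : K ≤ g.N)
    {ω : Cfg} (hω : ω ∈ g.G (j + 1) (g.anc j i (j + 1)) k)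
    (hns : ω ∉ g.Sep (j + 1) (g.anc j i (j + 1)) k) :
    ∃ x : ℤ × ℤ, OnBd (g.cen (j + 1) (g.anc j i (j + 1)) - 32 * g.μ (j + 1))
        (g.cen (j + 1) (g.anc j i (j + 1)) + 32 * g.μ (j + 1)) (g.h - 32 * g.μ (j + 1))
        (g.h + 32 * g.μ (j + 1)) x ∧
      ∀ ξ : Cfg, mixC (g.St ω (j + 1) (g.anc j i (j + 1)) k) ω ξ ∈ g.G j i k →
        ξ ∈ ArmB g.col x (10 * g.a (j + 1)) (8 * g.μ (j + 1)) ∨
        ξ ∈ ArmB (g.col + 1) x (6 * g.a (j + 1)) (K * g.a (j + 1)) ∨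
        ξ ∈ ArmB g.col x (4 * K * g.a (j + 1)) (8 * g.μ (j + 1)) := by
  have hi' : g.anc j i (j + 1) ∈ g.Is (j + 1) := hg.anc_mem (by omega) (by omega) hi
  have ha := hg.a_pos (j + 1)
  have hμe := g.μ_eq (j + 1)
  have hcen := hg.cen_anc (by omega : j ≤ j + 1) i
  have hμl := hg.μ_lt (by omega : j < j + 1)
  have hμ1 := hg.μ_pos j
  have ha0 := hg.a_pos j
  have hKa : 8 * g.a (j + 1) ≤ K * g.a (j + 1) := by nlinarith
  have hKμ : K * g.a (j + 1) ≤ g.μ (j + 1) := by rw [hμe]; nlinarith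
  obtain ⟨x, hx, hmain⟩ := ThetaAux.core (col := g.col) (a := g.a (j + 1)) (μ := g.μ (j + 1))
    (Ka := K * g.a (j + 1)) (κ := k) (hg.nest hj hi') (hg.nest (by omega : j < g.m) hi) hk
    (hg.w_le (j + 1)) hKa hKμ rfl (by linarith) (by linarith) (by linarith) hω hns
  refine ⟨x, hx, fun ξ hξ => ?_⟩
  have h4 : 4 * K * g.a (j + 1) = 4 * (K * g.a (j + 1)) := by ring
  rw [h4]
  refine hmain _ ξ (fun f hf => ?_) (fun f hf hfS => ?_) hξ
  · exact if_pos (Or.inl hf)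
  · exact if_neg fun h => hfS (Geo.St_near hg hj hi' hf h)

namespace ThetaAux

/-- The squares around the boundary points of a box are inside the large box. -/
theorem qf_sub {g : Geo} (hg : g.Ok) {j : ℕ} (hj : j + 1 < g.m) {i : ℤ} (hi : i ∈ g.Is j)
    {x : ℤ × ℤ} (hx : OnBd (g.cen (j + 1) (g.anc j i (j + 1)) - 32 * g.μ (j + 1))
        (g.cen (j + 1) (g.anc j i (j + 1)) + 32 * g.μ (j + 1)) (g.h - 32 * g.μ (j + 1))
        (g.h + 32 * g.μ (j + 1)) x) {r : ℤ} (hr : r ≤ 8 * g.μ (j + 1)) : QF x r ⊆ g.B := by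
  have hi' : g.anc j i (j + 1) ∈ g.Is (j + 1) := hg.anc_mem (by omega) (by omega) hi
  have h0 : g.anc (j + 1) (g.anc j i (j + 1)) g.m ∈ g.Is g.m :=
    hg.anc_mem (by omega) (by omega) hi'
  have h00 : g.anc (j + 1) (g.anc j i (j + 1)) g.m = 0 := by
    unfold Geo.Is at h0
    rw [Nat.sub_self, pow_zero, mem_Ico] at h0
    omega
  have hcen := hg.cen_anc (by omega : j + 1 ≤ g.m) (g.anc j i (j + 1))
  rw [h00] at hcen
  have hμl := hg.μ_lt hj
  have hμ1 := hg.μ_pos (j + 1)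
  have ha0 := hg.a_pos (j + 1)
  intro f hf
  unfold QF at hf
  rw [mem_RFi] at hf
  unfold Geo.B
  rw [mem_BR]
  unfold OnBd at hx
  unfold Geo.cB Geo.RB
  dsimp only
  omega

end ThetaAux

/-- (T2) The theta lemma. -/
theorem theta_step {θ : ℝ} (hθ : 0 < θ) : ∃ N₀ : ℤ, ∀ g : Geo, g.Ok → N₀ ≤ g.N →
    ∀ (s A : ℝ) (W : Finset (ℤ × ℤ)), g.B ⊆ W → ∀ (j : ℕ), j + 1 < g.m → ∀ i ∈ g.Is j,
      ∀ k ∈ g.K, pr W (g.G j i k ∩ g.NS s A j i k) ≤
        pr W (g.G (j + 1) (g.anc j i (j + 1)) k ∩ g.NS s A (j + 1) (g.anc j i (j + 1)) k ∩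
          g.Sep (j + 1) (g.anc j i (j + 1)) k) +
        θ * pr W (g.G (j + 1) (g.anc j i (j + 1)) k ∩ g.NS s A (j + 1) (g.anc j i (j + 1)) k) := by
  obtain ⟨C, β, hC, hβ, harm⟩ := oneArm_le
  have hθ3 : 0 < θ / 3 := by positivity
  obtain ⟨n₁, -, hn₁⟩ := ThetaAux.exists_ratio hC hβ hθ3 (b := 10 / 8) (by norm_num)
  obtain ⟨K₀, hK₀1, hK₀⟩ := ThetaAux.exists_ratio hC hβ hθ3 (b := 6) (by norm_num)
  set K : ℤ := max 8 K₀ with hKdef
  have hK8 : 8 ≤ K := le_max_left _ _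
  have hKr : (8 : ℝ) ≤ K := by exact_mod_cast hK8
  obtain ⟨n₂, -, hn₂⟩ := ThetaAux.exists_ratio hC hβ hθ3 (b := (K : ℝ) / 2) (by positivity)
  refine ⟨max K (max n₁ n₂), fun g hg hN s A W hW j hj i hi k hk => ?_⟩
  have hNK : K ≤ g.N := (le_max_left _ _).trans hN
  have hN1 : n₁ ≤ g.N := ((le_max_left _ _).trans (le_max_right _ _)).trans hN
  have hN2 : n₂ ≤ g.N := ((le_max_right _ _).trans (le_max_right _ _)).trans hN
  have ha := hg.a_pos (j + 1)
  have hμe := g.μ_eq (j + 1)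
  have haR : (1 : ℝ) ≤ g.a (j + 1) := by exact_mod_cast ha
  have hNR : (8 : ℝ) ≤ g.N := by exact_mod_cast hg.N8
  have hNKR : (K : ℝ) ≤ g.N := by exact_mod_cast hNK
  have hμR : (g.μ (j + 1) : ℝ) = g.N * g.a (j + 1) := by
    rw [hμe]
    push_cast
    ring
  set i' := g.anc j i (j + 1) with hi'
  set A₁ : Set Cfg := g.G (j + 1) i' k ∩ g.NS s A (j + 1) i' k ∩ (g.Sep (j + 1) i' k)ᶜ with hA₁
  have key : pr W (A₁ ∩ (g.G j i k ∩ g.NS s A j i k)) ≤ θ * pr W A₁ := by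
    refine PercT.pr_mix_le (S := fun ω => g.St ω (j + 1) i' k)
      (fun ω ω' h => Geo.st_congr h) (A := A₁) ?_
      (fun ω => {ξ | mixC (g.St ω (j + 1) i' k) ω ξ ∈ g.G j i k}) _ ?_ ?_
    · rintro ω ⟨⟨h1, h2⟩, h3⟩ ω' h
      refine ⟨⟨Geo.G_congr h h1, Geo.NS_congr hg h h2⟩, fun h4 => h3 ?_⟩
      refine Geo.Sep_congr (ω := ω') (fun f hf => ?_) h4
      rw [Geo.st_congr h] at hf
      exact (h f hf).symm
    · rintro ω ⟨⟨h1, h2⟩, h3⟩
      obtain ⟨x, hx, hmain⟩ := theta_det hg (s := s) (A := A) hj hi hk hK8 hNK h1 h3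
      have hsub : {ξ | mixC (g.St ω (j + 1) i' k) ω ξ ∈ g.G j i k} ⊆
          ArmB g.col x (10 * g.a (j + 1)) (8 * g.μ (j + 1)) ∪
            (ArmB (g.col + 1) x (6 * g.a (j + 1)) (K * g.a (j + 1)) ∪
              ArmB g.col x (4 * K * g.a (j + 1)) (8 * g.μ (j + 1))) := fun ξ hξ => hmain ξ hξ
      have hKa : 8 * g.a (j + 1) ≤ K * g.a (j + 1) := by nlinarith
      have hKμ : K * g.a (j + 1) ≤ g.μ (j + 1) := by rw [hμe]; nlinarith
      have hNa : 8 * g.a (j + 1) ≤ g.μ (j + 1) := by rw [hμe]; nlinarith [hg.N8]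
      have e1 := harm g.col x (10 * g.a (j + 1)) (8 * g.μ (j + 1)) (by omega) (by omega) W
        ((ThetaAux.qf_sub hg hj hi hx le_rfl).trans hW)
      have e2 := harm (g.col + 1) x (6 * g.a (j + 1)) (K * g.a (j + 1)) (by omega) (by omega) W
        ((ThetaAux.qf_sub hg hj hi hx (by omega)).trans hW)
      have e3 := harm g.col x (4 * K * g.a (j + 1)) (8 * g.μ (j + 1)) (by nlinarith)
        (by nlinarith) W ((ThetaAux.qf_sub hg hj hi hx le_rfl).trans hW)
      have f1 : C * (((10 * g.a (j + 1) : ℤ) : ℝ) / (8 * g.μ (j + 1) : ℤ)) ^ β ≤ θ / 3 := by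
        refine hn₁ g.N hN1 _ (by push_cast; rw [hμR]; positivity) (le_of_eq ?_)
        push_cast
        rw [hμR]
        field_simp
      have f2 : C * (((6 * g.a (j + 1) : ℤ) : ℝ) / (K * g.a (j + 1) : ℤ)) ^ β ≤ θ / 3 := by
        refine hK₀ K (le_max_right _ _) _ (by push_cast; positivity) (le_of_eq ?_)
        push_cast
        field_simp
      have f3 : C * (((4 * K * g.a (j + 1) : ℤ) : ℝ) / (8 * g.μ (j + 1) : ℤ)) ^ β ≤ θ / 3 := by
        refine hn₂ g.N hN2 _ (by push_cast; rw [hμR]; positivity) (le_of_eq ?_)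
        push_cast
        rw [hμR]
        field_simp
        ring
      have u1 := pr_mono W hsub
      have u2 := pr_union_le W (ArmB g.col x (10 * g.a (j + 1)) (8 * g.μ (j + 1)))
        (ArmB (g.col + 1) x (6 * g.a (j + 1)) (K * g.a (j + 1)) ∪
              ArmB g.col x (4 * K * g.a (j + 1)) (8 * g.μ (j + 1)))
      have u3 := pr_union_le W (ArmB (g.col + 1) x (6 * g.a (j + 1)) (K * g.a (j + 1)))
              (ArmB g.col x (4 * K * g.a (j + 1)) (8 * g.μ (j + 1)))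
      linarith
    · rintro ω - ξ ⟨h4, -⟩
      exact h4
  have hsub : g.G j i k ∩ g.NS s A j i k ⊆
      (g.G (j + 1) i' k ∩ g.NS s A (j + 1) i' k ∩ g.Sep (j + 1) i' k) ∪
        (A₁ ∩ (g.G j i k ∩ g.NS s A j i k)) := by
    rintro ω ⟨h1, h2⟩
    have h3 := Geo.G_mono hg hj hi hk h1
    have h4 := Geo.NS_mono hg h2
    by_cases h5 : ω ∈ g.Sep (j + 1) i' k
    · exact Or.inl ⟨⟨h3, h4⟩, h5⟩
    · exact Or.inr ⟨⟨⟨h3, h4⟩, h5⟩, h1, h2⟩
  have v1 := pr_mono W hsub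
  have v2 := pr_union_le W (g.G (j + 1) i' k ∩ g.NS s A (j + 1) i' k ∩ g.Sep (j + 1) i' k)
    (A₁ ∩ (g.G j i k ∩ g.NS s A j i k))
  have v3 : pr W A₁ ≤ pr W (g.G (j + 1) i' k ∩ g.NS s A (j + 1) i' k) :=
    pr_mono W Set.inter_subset_left
  nlinarith

end Pool.Agent.Perc6
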