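import Pool.Agent.Lib.MP_6bd702_perc6.Cyc
import Pool.Agent.Lib.MP_6bd702_perc6.Tube

/-!
# Cells around a box: the layer, slots, connectivity
-/

set_option autoImplicit false

namespace Pool.Agent.Perc6

open Finset Pool.Agent.Perc Pool.Agent.PercD Pool.Agent.PercL

namespace WallAux

/-! ### Faces of cells -/

theorem mem_cellF {c h a : ℤ} {k f : ℤ × ℤ} : f ∈ cellF c h a k ↔
    c + a * k.1 ≤ f.1 ∧ f.1 < c + a * (k.1 + 1) ∧ h + a * k.2 ≤ f.2 ∧ f.2 < h + a * (k.2 + 1) := by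
  unfold cellF; exact mem_RF

theorem mem_cellsF {c h a : ℤ} {K : Finset (ℤ × ℤ)} {f : ℤ × ℤ} :
    f ∈ cellsF c h a K ↔ ∃ k ∈ K, f ∈ cellF c h a k := by
  unfold cellsF; exact mem_biUnion

theorem aux_iff {a x b k : ℤ} (ha : 1 ≤ a) (h1 : a * k ≤ x) (h2 : x < a * (k + 1)) :
    a * b ≤ x ↔ b ≤ k := by
  constructor
  · intro h
    have h3 : a * b < a * (k + 1) := lt_of_le_of_lt h h2
    have h4 := lt_of_mul_lt_mul_left h3 (by omega)
    omega
  · intro h
    exact (mul_le_mul_of_nonneg_left h (by omega)).trans h1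

theorem cell_fst {c h a : ℤ} {k f : ℤ × ℤ} (ha : 1 ≤ a) (hf : f ∈ cellF c h a k) (B : ℤ) :
    c + a * B ≤ f.1 ↔ B ≤ k.1 := by
  rw [mem_cellF] at hf
  rw [← aux_iff (x := f.1 - c) (b := B) ha (by omega) (by omega)]
  omega

theorem cell_snd {c h a : ℤ} {k f : ℤ × ℤ} (ha : 1 ≤ a) (hf : f ∈ cellF c h a k) (B : ℤ) :
    h + a * B ≤ f.2 ↔ B ≤ k.2 := by
  rw [mem_cellF] at hf
  rw [← aux_iff (x := f.2 - h) (b := B) ha (by omega) (by omega)]
  omega

theorem cell_unique {c h a : ℤ} {k k' f : ℤ × ℤ} (ha : 1 ≤ a) (hf : f ∈ cellF c h a k)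
    (hf' : f ∈ cellF c h a k') : k = k' := by
  have h1 := (cell_fst ha hf k'.1).1 ((cell_fst ha hf' k'.1).2 le_rfl)
  have h2 := (cell_fst ha hf' k.1).1 ((cell_fst ha hf k.1).2 le_rfl)
  have h3 := (cell_snd ha hf k'.2).1 ((cell_snd ha hf' k'.2).2 le_rfl)
  have h4 := (cell_snd ha hf' k.2).1 ((cell_snd ha hf k.2).2 le_rfl)
  exact Prod.ext (by omega) (by omega)

theorem cell_BR {c h a r : ℤ} {k f : ℤ × ℤ} (ha : 1 ≤ a) (hf : f ∈ cellF c h a k) :
    f ∈ BR (c, h) (a * r) ↔ -r ≤ k.1 ∧ k.1 < r ∧ -r ≤ k.2 ∧ k.2 < r := by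
  rw [mem_BR]
  have h1 := cell_fst ha hf (-r)
  have h2 := cell_fst ha hf r
  have h3 := cell_snd ha hf (-r)
  have h4 := cell_snd ha hf r
  have e : a * (-r) = -(a * r) := by ring
  rw [e] at h1 h3
  simp only
  omega

/-! ### Connectivity of cells -/

theorem cadj_symm {K : Finset (ℤ × ℤ)} {k k' : ℤ × ℤ} (hk : CAdj K k k') : CAdj K k' k := by
  obtain ⟨h1, h2, h3⟩ := hk
  refine ⟨h2, h1, ?_⟩
  rcases h3 with ⟨h3, h4⟩ | ⟨h3, h4⟩
  · exact Or.inl ⟨h3.symm, by rw [abs_sub_comm]; exact h4⟩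
  · exact Or.inr ⟨h3.symm, by rw [abs_sub_comm]; exact h4⟩

theorem cconn_symm {K : Finset (ℤ × ℤ)} {k k' : ℤ × ℤ} (hk : CConn K k k') : CConn K k' k := by
  induction hk with
  | refl => exact Relation.ReflTransGen.refl
  | tail _ hb ih => exact Relation.ReflTransGen.head (cadj_symm hb) ih

theorem cconn_mono {K K' : Finset (ℤ × ℤ)} (hK : K ⊆ K') {k k' : ℤ × ℤ} (hk : CConn K k k') :
    CConn K' k k' := by
  induction hk with
  | refl => exact Relation.ReflTransGen.refl
  | tail _ hb ih => exact ih.tail ⟨hK hb.1, hK hb.2.1, hb.2.2⟩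

theorem cconn_seq {K : Finset (ℤ × ℤ)} (F : ℤ → ℤ × ℤ) {p p' : ℤ} (hp : p ≤ p')
    (hF : ∀ q, p ≤ q → q ≤ p' → F q ∈ K)
    (hadj : ∀ q, p ≤ q → q < p' → (((F q).1 = (F (q + 1)).1 ∧ |(F q).2 - (F (q + 1)).2| = 1) ∨
      ((F q).2 = (F (q + 1)).2 ∧ |(F q).1 - (F (q + 1)).1| = 1))) : CConn K (F p) (F p') := by
  obtain ⟨n, rfl⟩ : ∃ n : ℕ, p' = p + n := ⟨(p' - p).toNat, by omega⟩
  clear hp
  induction n with
  | zero => simp only [Nat.cast_zero, add_zero]; exact Relation.ReflTransGen.refl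
  | succ n ih =>
    have h1 := ih (fun q h1 h2 => hF q h1 (by push_cast; omega))
      (fun q h1 h2 => hadj q h1 (by push_cast; omega))
    have h2 := hadj (p + n) (by omega) (by push_cast; omega)
    have e : p + ((n + 1 : ℕ) : ℤ) = p + n + 1 := by push_cast; ring
    rw [e]
    exact h1.tail ⟨hF _ (by omega) (by push_cast; omega), hF _ (by omega) (by push_cast; omega), h2⟩

theorem cconn_row {K : Finset (ℤ × ℤ)} {i i' j : ℤ} (hi : i ≤ i')
    (hK : ∀ x, i ≤ x → x ≤ i' → (x, j) ∈ K) : CConn K (i, j) (i', j) :=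
  cconn_seq (fun x => (x, j)) hi hK fun q _ _ => Or.inr ⟨rfl, by
    show |q - (q + 1)| = 1
    rw [show q - (q + 1) = -1 by ring]; rfl⟩

theorem cconn_col {K : Finset (ℤ × ℤ)} {i j j' : ℤ} (hj : j ≤ j')
    (hK : ∀ y, j ≤ y → y ≤ j' → (i, y) ∈ K) : CConn K (i, j) (i, j') :=
  cconn_seq (fun y => (i, y)) hj hK fun q _ _ => Or.inl ⟨rfl, by
    show |q - (q + 1)| = 1
    rw [show q - (q + 1) = -1 by ring]; rfl⟩

/-! ### The layer of cells around the box -/

/-- The cells around the box `-n ≤ i, j < n`, counterclockwise from `(n, 1)` to `(n, -2)`. -/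
def ring (n p : ℤ) : ℤ × ℤ :=
  if p ≤ n then (n, p)
  else if p ≤ 3 * n + 1 then (2 * n - p, n)
  else if p ≤ 5 * n + 2 then (-n - 1, 4 * n + 1 - p)
  else if p ≤ 7 * n + 3 then (p - 6 * n - 3, -n - 1)
  else (n, p - 8 * n - 4)

/-- The cells of the layer. -/
def Lay (n : ℤ) (k : ℤ × ℤ) : Prop :=
  (-n - 1 ≤ k.1 ∧ k.1 ≤ n ∧ -n - 1 ≤ k.2 ∧ k.2 ≤ n) ∧
    ((k.1 = n ∧ (1 ≤ k.2 ∨ k.2 ≤ -2)) ∨ k.1 = -n - 1 ∨ k.2 = n ∨ k.2 = -n - 1)

theorem lay_ring {n p : ℤ} (hn : 2 ≤ n) (h1 : 1 ≤ p) (h2 : p ≤ 8 * n + 2) : Lay n (ring n p) := by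
  unfold Lay ring
  split_ifs <;> dsimp only <;> omega

theorem ring_inj {n p q : ℤ} (hn : 2 ≤ n) (h1 : 1 ≤ p) (h2 : p ≤ 8 * n + 2) (h3 : 1 ≤ q)
    (h4 : q ≤ 8 * n + 2) (h : ring n p = ring n q) : p = q := by
  unfold ring at h
  split_ifs at h <;> simp only [Prod.mk.injEq] at h <;> omega

theorem cconn_ring {K : Finset (ℤ × ℤ)} {n p p' : ℤ} (hn : 2 ≤ n) (h1 : 1 ≤ p) (hp : p ≤ p')
    (h2 : p' ≤ 8 * n + 2) (hK : ∀ q, p ≤ q → q ≤ p' → ring n q ∈ K) :
    CConn K (ring n p) (ring n p') := by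
  refine cconn_seq (ring n) hp hK fun q hq hq' => ?_
  have e : ∀ x : ℤ, |x| = 1 ↔ x = 1 ∨ x = -1 := fun x => abs_eq (by norm_num)
  rw [e, e]
  unfold ring
  split_ifs <;> dsimp only <;> omega

/-! ### Slots -/

/-- The cell of the slot `m`. -/
def scell (n m : ℤ) : ℤ × ℤ :=
  if m < n then (n, m)
  else if m < 3 * n then (2 * n - 1 - m, n)
  else if m < 5 * n then (-n - 1, 4 * n - 1 - m)
  else if m < 7 * n then (m - 6 * n, -n - 1)
  else (n, m - 8 * n)

/-- The inner neighbour of the slot `m`. -/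
def sinn (n m : ℤ) : ℤ × ℤ :=
  if m < n then (n - 1, m)
  else if m < 3 * n then (2 * n - 1 - m, n - 1)
  else if m < 5 * n then (-n, 4 * n - 1 - m)
  else if m < 7 * n then (m - 6 * n, -n)
  else (n - 1, m - 8 * n)

/-- The slots `m - 1`, `m`, `m + 1` are on one side. -/
def Mid (n m : ℤ) : Prop :=
  (5 ≤ m ∧ m + 1 < n) ∨ (n ≤ m - 1 ∧ m + 1 < 3 * n) ∨ (3 * n ≤ m - 1 ∧ m + 1 < 5 * n) ∨
    (5 * n ≤ m - 1 ∧ m + 1 < 7 * n) ∨ (7 * n ≤ m - 1 ∧ m ≤ 8 * n - 6)

theorem exists_mid {n a w τ τ' : ℤ} (hn : 16 ≤ n) (hw : 1 ≤ w) (hwa : w ≤ a) (h1 : 3 * a ≤ τ)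
    (h2 : τ + 8 * a ≤ τ') (h3 : τ' + 3 * a ≤ 8 * (a * n) - 2 * w) :
    ∃ m, Mid n m ∧ τ < a * (m - 1) - w ∧ a * (m + 2) - w ≤ τ' := by
  have ha : 1 ≤ a := by omega
  have hd1 : a * ((τ + w) / a) ≤ τ + w := Int.mul_ediv_self_le (by omega)
  have hd2 : τ + w < a * ((τ + w) / a) + a := by
    have := Int.lt_mul_ediv_self_add (x := τ + w) (k := a) (by omega)
    exact this
  set q := (τ + w) / a with hq
  have hq3 : 3 ≤ q := by
    by_contra hcon
    have h4 : a * (q + 1) ≤ a * 3 := mul_le_mul_of_nonneg_left (by omega) (by omega)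
    have e : a * (q + 1) = a * q + a := by ring
    omega
  have hq4 : q + 8 < 8 * n - 3 := by
    have h5 : a * (q + 8) < a * (8 * n - 3) := by
      have e1 : a * (q + 8) = a * q + 8 * a := by ring
      have e2 : a * (8 * n - 3) = 8 * (a * n) - 3 * a := by ring
      omega
    exact lt_of_mul_lt_mul_left h5 (by omega)
  have h6 : Mid n (q + 2) ∨ Mid n (q + 6) := by
    unfold Mid
    omega
  rcases h6 with h6 | h6
  · refine ⟨q + 2, h6, ?_, ?_⟩
    · have e : a * (q + 2 - 1) = a * q + a := by ring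
      omega
    · have e : a * (q + 2 + 2) = a * q + 4 * a := by ring
      omega
  · refine ⟨q + 6, h6, ?_, ?_⟩
    · have e : a * (q + 6 - 1) = a * q + 5 * a := by ring
      omega
    · have e : a * (q + 6 + 2) = a * q + 8 * a := by ring
      omega

theorem mid_ring {n m : ℤ} (hn : 16 ≤ n) (hm : Mid n m) : ∃ p, 5 ≤ p ∧ p ≤ 8 * n - 2 ∧
    ring n (p - 1) = scell n (m - 1) ∧ ring n p = scell n m ∧
      ring n (p + 1) = scell n (m + 1) := by
  unfold Mid at hm
  rcases hm with h | h | h | h | h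
  · refine ⟨m, by omega, by omega, ?_, ?_, ?_⟩ <;> unfold ring scell <;>
      split_ifs <;> first | omega | (ext <;> dsimp only <;> omega)
  · refine ⟨m + 1, by omega, by omega, ?_, ?_, ?_⟩ <;> unfold ring scell <;>
      split_ifs <;> first | omega | (ext <;> dsimp only <;> omega)
  · refine ⟨m + 2, by omega, by omega, ?_, ?_, ?_⟩ <;> unfold ring scell <;>
      split_ifs <;> first | omega | (ext <;> dsimp only <;> omega)
  · refine ⟨m + 3, by omega, by omega, ?_, ?_, ?_⟩ <;> unfold ring scell <;>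
      split_ifs <;> first | omega | (ext <;> dsimp only <;> omega)
  · refine ⟨m + 4, by omega, by omega, ?_, ?_, ?_⟩ <;> unfold ring scell <;>
      split_ifs <;> first | omega | (ext <;> dsimp only <;> omega)

/-- The value of `cyc` from the coordinates. -/
theorem cyc_of {c h w R x : ℤ} {z : ℤ × ℤ} (hR : 1 ≤ R)
    (hz : (x ≤ R - w ∧ z.1 = c + R ∧ z.2 = h + w + x) ∨
      (R - w ≤ x ∧ x ≤ 3 * R - w ∧ z.1 = c + 2 * R - w - x ∧ z.2 = h + R) ∨
      (3 * R - w ≤ x ∧ x ≤ 5 * R - w ∧ z.1 = c - R ∧ z.2 = h + 4 * R - w - x) ∨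
      (5 * R - w ≤ x ∧ x ≤ 7 * R - w ∧ z.1 = c - 6 * R + w + x ∧ z.2 = h - R) ∨
      (7 * R - w ≤ x ∧ z.1 = c + R ∧ z.2 = h - 8 * R + w + x)) : z = cyc c h w R x := by
  unfold cyc
  split_ifs <;> ext <;> dsimp only <;> omega

/-- A crossing of the cell of a slot has an end on the boundary of the box. -/
theorem bd_spine {ω : Cfg} {col c h w a n m : ℤ} {K : Finset (ℤ × ℤ)} (ha : 1 ≤ a) (hn : 1 ≤ n)
    (hω : ω ∈ TubeEv col c h a K) (hk : scell n m ∈ K) (h1 : 1 ≤ m) (h2 : m ≤ 8 * n - 1) :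
    ∃ x, a * m - w ≤ x ∧ x ≤ a * (m + 1) - w ∧
      Spine ω col c h a (scell n m) (cyc c h w (a * n) x) := by
  have hR : 1 ≤ a * n := by nlinarith
  obtain ⟨u, v, hu, hv, su, sv, -⟩ := exists_spine_LR ha hω hk
  obtain ⟨u', v', hu', hv', su', sv', -⟩ := exists_spine_BT ha hω hk
  have e1 : a * (m + 1) = a * m + a := by ring
  by_cases c1 : m < n
  · have hs : scell n m = (n, m) := by unfold scell; rw [if_pos c1]
    have hb := su.2.1
    rw [hs] at hb hu ⊢
    dsimp only at hb hu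
    have h3 : a * (m + 1) ≤ a * n := mul_le_mul_of_nonneg_left (by omega) (by omega)
    rw [hs] at su
    refine ⟨u.2 - h - w, by omega, by omega, ?_⟩
    rwa [← cyc_of (z := u) hR (Or.inl ⟨by omega, by omega, by omega⟩)]
  by_cases c2 : m < 3 * n
  · have hs : scell n m = (2 * n - 1 - m, n) := by unfold scell; rw [if_neg c1, if_pos c2]
    have hb := su'.2.1
    rw [hs] at hb hu' ⊢
    dsimp only at hb hu'
    have h3 : a * n ≤ a * m := mul_le_mul_of_nonneg_left (by omega) (by omega)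
    have h4 : a * (m + 1) ≤ a * (3 * n) := mul_le_mul_of_nonneg_left (by omega) (by omega)
    have e2 : a * (2 * n - 1 - m) = 2 * (a * n) - a - a * m := by ring
    have e3 : a * (2 * n - 1 - m + 1) = 2 * (a * n) - a * m := by ring
    have e4 : a * (3 * n) = 3 * (a * n) := by ring
    rw [hs] at su'
    refine ⟨c + 2 * (a * n) - w - u'.1, by omega, by omega, ?_⟩
    rwa [← cyc_of (z := u') hR (Or.inr (Or.inl ⟨by omega, by omega, by omega, by omega⟩))]
  by_cases c3 : m < 5 * n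
  · have hs : scell n m = (-n - 1, 4 * n - 1 - m) := by
      unfold scell; rw [if_neg c1, if_neg c2, if_pos c3]
    have hb := sv.2.1
    rw [hs] at hb hv ⊢
    dsimp only at hb hv
    have h3 : a * (3 * n) ≤ a * m := mul_le_mul_of_nonneg_left (by omega) (by omega)
    have h4 : a * (m + 1) ≤ a * (5 * n) := mul_le_mul_of_nonneg_left (by omega) (by omega)
    have e2 : a * (4 * n - 1 - m) = 4 * (a * n) - a - a * m := by ring
    have e3 : a * (4 * n - 1 - m + 1) = 4 * (a * n) - a * m := by ring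
    have e4 : a * (3 * n) = 3 * (a * n) := by ring
    have e5 : a * (5 * n) = 5 * (a * n) := by ring
    have e6 : a * (-n - 1 + 1) = -(a * n) := by ring
    rw [hs] at sv
    refine ⟨h + 4 * (a * n) - w - v.2, by omega, by omega, ?_⟩
    rwa [← cyc_of (z := v) hR (Or.inr (Or.inr (Or.inl ⟨by omega, by omega, by omega, by omega⟩)))]
  by_cases c4 : m < 7 * n
  · have hs : scell n m = (m - 6 * n, -n - 1) := by
      unfold scell; rw [if_neg c1, if_neg c2, if_neg c3, if_pos c4]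
    have hb := sv'.2.1
    rw [hs] at hb hv' ⊢
    dsimp only at hb hv'
    have h3 : a * (5 * n) ≤ a * m := mul_le_mul_of_nonneg_left (by omega) (by omega)
    have h4 : a * (m + 1) ≤ a * (7 * n) := mul_le_mul_of_nonneg_left (by omega) (by omega)
    have e2 : a * (m - 6 * n) = a * m - 6 * (a * n) := by ring
    have e3 : a * (m - 6 * n + 1) = a * m + a - 6 * (a * n) := by ring
    have e4 : a * (5 * n) = 5 * (a * n) := by ring
    have e5 : a * (7 * n) = 7 * (a * n) := by ring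
    have e6 : a * (-n - 1 + 1) = -(a * n) := by ring
    rw [hs] at sv'
    refine ⟨v'.1 - c + 6 * (a * n) - w, by omega, by omega, ?_⟩
    rwa [← cyc_of (z := v') hR
      (Or.inr (Or.inr (Or.inr (Or.inl ⟨by omega, by omega, by omega, by omega⟩))))]
  · have hs : scell n m = (n, m - 8 * n) := by
      unfold scell; rw [if_neg c1, if_neg c2, if_neg c3, if_neg c4]
    have hb := su.2.1
    rw [hs] at hb hu ⊢
    dsimp only at hb hu
    have h3 : a * (7 * n) ≤ a * m := mul_le_mul_of_nonneg_left (by omega) (by omega)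
    have e2 : a * (m - 8 * n) = a * m - 8 * (a * n) := by ring
    have e3 : a * (m - 8 * n + 1) = a * m + a - 8 * (a * n) := by ring
    have e4 : a * (7 * n) = 7 * (a * n) := by ring
    rw [hs] at su
    refine ⟨u.2 - h + 8 * (a * n) - w, by omega, by omega, ?_⟩
    rwa [← cyc_of (z := u) hR
      (Or.inr (Or.inr (Or.inr (Or.inr ⟨by omega, by omega, by omega⟩))))]

/-- The inner neighbour of a slot meets the boundary of the box only in the slot. -/
theorem inn_touch {c h w a n m : ℤ} {f z : ℤ × ℤ} (ha : 1 ≤ a) (hn : 16 ≤ n) (hm : Mid n m)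
    (hf : f ∈ cellF c h a (sinn n m)) (hz : IsCor f z)
    (hb : OnBd (c - a * n) (c + a * n) (h - a * n) (h + a * n) z) :
    ∃ x, a * m - w ≤ x ∧ x ≤ a * (m + 1) - w ∧ z = cyc c h w (a * n) x := by
  have hR : 1 ≤ a * n := by nlinarith
  rw [mem_cellF] at hf
  obtain ⟨z1, z2⟩ := hz
  obtain ⟨hb1, hb2⟩ := hb
  have e1 : a * (m + 1) = a * m + a := by ring
  unfold Mid at hm
  unfold sinn at hf
  rcases hm with h0 | h0 | h0 | h0 | h0
  · rw [if_pos (by omega)] at hf
    dsimp only at hf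
    have h3 : a * (m + 2) ≤ a * n := mul_le_mul_of_nonneg_left (by omega) (by omega)
    have h4 : a * 5 ≤ a * m := mul_le_mul_of_nonneg_left (by omega) (by omega)
    have e2 : a * (m + 2) = a * m + 2 * a := by ring
    have e3 : a * (n - 1) = a * n - a := by ring
    have e4 : a * (n - 1 + 1) = a * n := by ring
    have h5 : a * 16 ≤ a * n := mul_le_mul_of_nonneg_left (by omega) (by omega)
    have hz1 : z.1 = c + a * n := by omega
    exact ⟨z.2 - h - w, by omega, by omega, cyc_of hR (Or.inl ⟨by omega, by omega, by omega⟩)⟩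
  · rw [if_neg (by omega), if_pos (by omega)] at hf
    dsimp only at hf
    have h3 : a * (n + 1) ≤ a * m := mul_le_mul_of_nonneg_left (by omega) (by omega)
    have h4 : a * (m + 2) ≤ a * (3 * n) := mul_le_mul_of_nonneg_left (by omega) (by omega)
    have h5 : a * 16 ≤ a * n := mul_le_mul_of_nonneg_left (by omega) (by omega)
    have e2 : a * (m + 2) = a * m + 2 * a := by ring
    have e3 : a * (n - 1) = a * n - a := by ring
    have e4 : a * (n - 1 + 1) = a * n := by ring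
    have e5 : a * (3 * n) = 3 * (a * n) := by ring
    have e6 : a * (2 * n - 1 - m) = 2 * (a * n) - a - a * m := by ring
    have e7 : a * (2 * n - 1 - m + 1) = 2 * (a * n) - a * m := by ring
    have e8 : a * (n + 1) = a * n + a := by ring
    have hz2 : z.2 = h + a * n := by omega
    exact ⟨c + 2 * (a * n) - w - z.1, by omega, by omega,
      cyc_of hR (Or.inr (Or.inl ⟨by omega, by omega, by omega, by omega⟩))⟩
  · rw [if_neg (by omega), if_neg (by omega), if_pos (by omega)] at hf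
    dsimp only at hf
    have h3 : a * (3 * n + 1) ≤ a * m := mul_le_mul_of_nonneg_left (by omega) (by omega)
    have h4 : a * (m + 2) ≤ a * (5 * n) := mul_le_mul_of_nonneg_left (by omega) (by omega)
    have h5 : a * 16 ≤ a * n := mul_le_mul_of_nonneg_left (by omega) (by omega)
    have e2 : a * (m + 2) = a * m + 2 * a := by ring
    have e3 : a * (-n) = -(a * n) := by ring
    have e4 : a * (-n + 1) = -(a * n) + a := by ring
    have e5 : a * (5 * n) = 5 * (a * n) := by ring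
    have e6 : a * (4 * n - 1 - m) = 4 * (a * n) - a - a * m := by ring
    have e7 : a * (4 * n - 1 - m + 1) = 4 * (a * n) - a * m := by ring
    have e8 : a * (3 * n + 1) = 3 * (a * n) + a := by ring
    have hz1 : z.1 = c - a * n := by omega
    exact ⟨h + 4 * (a * n) - w - z.2, by omega, by omega,
      cyc_of hR (Or.inr (Or.inr (Or.inl ⟨by omega, by omega, by omega, by omega⟩)))⟩
  · rw [if_neg (by omega), if_neg (by omega), if_neg (by omega), if_pos (by omega)] at hf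
    dsimp only at hf
    have h3 : a * (5 * n + 1) ≤ a * m := mul_le_mul_of_nonneg_left (by omega) (by omega)
    have h4 : a * (m + 2) ≤ a * (7 * n) := mul_le_mul_of_nonneg_left (by omega) (by omega)
    have h5 : a * 16 ≤ a * n := mul_le_mul_of_nonneg_left (by omega) (by omega)
    have e2 : a * (m + 2) = a * m + 2 * a := by ring
    have e3 : a * (-n) = -(a * n) := by ring
    have e4 : a * (-n + 1) = -(a * n) + a := by ring
    have e5 : a * (7 * n) = 7 * (a * n) := by ring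
    have e6 : a * (m - 6 * n) = a * m - 6 * (a * n) := by ring
    have e7 : a * (m - 6 * n + 1) = a * m + a - 6 * (a * n) := by ring
    have e8 : a * (5 * n + 1) = 5 * (a * n) + a := by ring
    have hz2 : z.2 = h - a * n := by omega
    exact ⟨z.1 - c + 6 * (a * n) - w, by omega, by omega,
      cyc_of hR (Or.inr (Or.inr (Or.inr (Or.inl ⟨by omega, by omega, by omega, by omega⟩))))⟩
  · rw [if_neg (by omega), if_neg (by omega), if_neg (by omega), if_neg (by omega)] at hf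
    dsimp only at hf
    have h3 : a * (7 * n + 1) ≤ a * m := mul_le_mul_of_nonneg_left (by omega) (by omega)
    have h4 : a * (m + 6) ≤ a * (8 * n) := mul_le_mul_of_nonneg_left (by omega) (by omega)
    have h5 : a * 16 ≤ a * n := mul_le_mul_of_nonneg_left (by omega) (by omega)
    have e2 : a * (m + 6) = a * m + 6 * a := by ring
    have e3 : a * (n - 1) = a * n - a := by ring
    have e4 : a * (n - 1 + 1) = a * n := by ring
    have e5 : a * (8 * n) = 8 * (a * n) := by ring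
    have e6 : a * (m - 8 * n) = a * m - 8 * (a * n) := by ring
    have e7 : a * (m - 8 * n + 1) = a * m + a - 8 * (a * n) := by ring
    have e8 : a * (7 * n + 1) = 7 * (a * n) + a := by ring
    have hz1 : z.1 = c + a * n := by omega
    exact ⟨z.2 - h + 8 * (a * n) - w, by omega, by omega,
      cyc_of hR (Or.inr (Or.inr (Or.inr (Or.inr ⟨by omega, by omega, by omega⟩))))⟩

/-- The outer neighbour of a slot. -/
theorem mid_out {n m : ℤ} (hn : 16 ≤ n) (hm : Mid n m) : ∃ p, 1 ≤ p ∧ p ≤ 8 * (n + 1) + 2 ∧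
    (((scell n m).1 = (ring (n + 1) p).1 ∧ |(scell n m).2 - (ring (n + 1) p).2| = 1) ∨
      ((scell n m).2 = (ring (n + 1) p).2 ∧ |(scell n m).1 - (ring (n + 1) p).1| = 1)) := by
  have e : ∀ x : ℤ, |x| = 1 ↔ x = 1 ∨ x = -1 := fun x => abs_eq (by norm_num)
  unfold Mid at hm
  rcases hm with h | h | h | h | h
  · refine ⟨m, by omega, by omega, ?_⟩
    rw [e, e]; unfold ring scell; split_ifs <;> dsimp only <;> omega
  · refine ⟨m + 3, by omega, by omega, ?_⟩
    rw [e, e]; unfold ring scell; split_ifs <;> dsimp only <;> omega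
  · refine ⟨m + 6, by omega, by omega, ?_⟩
    rw [e, e]; unfold ring scell; split_ifs <;> dsimp only <;> omega
  · refine ⟨m + 9, by omega, by omega, ?_⟩
    rw [e, e]; unfold ring scell; split_ifs <;> dsimp only <;> omega
  · refine ⟨m + 12, by omega, by omega, ?_⟩
    rw [e, e]; unfold ring scell; split_ifs <;> dsimp only <;> omega

theorem scell_sinn {n m : ℤ} : (((sinn n m).1 = (scell n m).1 ∧
    |(sinn n m).2 - (scell n m).2| = 1) ∨ ((sinn n m).2 = (scell n m).2 ∧
      |(sinn n m).1 - (scell n m).1| = 1)) := by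
  have e : ∀ x : ℤ, |x| = 1 ↔ x = 1 ∨ x = -1 := fun x => abs_eq (by norm_num)
  rw [e, e]
  unfold sinn scell
  split_ifs <;> dsimp only <;> omega

/-- The gate. -/
theorem lay_scell {n m : ℤ} (hn : 16 ≤ n) (hm : Mid n m) : Lay n (scell n m) ∧
    ((scell n m).1 = n → 2 ≤ (scell n m).2 ∨ (scell n m).2 ≤ -3) := by
  unfold Mid at hm
  unfold Lay scell
  split_ifs <;> dsimp only <;> omega

theorem sinn_spec {n m : ℤ} (hn : 16 ≤ n) (hm : Mid n m) :
    (-n ≤ (sinn n m).1 ∧ (sinn n m).1 ≤ n - 1 ∧ -n ≤ (sinn n m).2 ∧ (sinn n m).2 ≤ n - 1) ∧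
    (((sinn n m).1 = n - 1 ∧ (2 ≤ (sinn n m).2 ∨ (sinn n m).2 ≤ -3)) ∨ (sinn n m).1 = -n ∨
      (sinn n m).2 = n - 1 ∨ (sinn n m).2 = -n) := by
  unfold Mid at hm
  unfold sinn
  split_ifs <;> dsimp only <;> omega

end WallAux

end Pool.Agent.Perc6
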