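import Pool.Agent.Lib.MP_6bd702_perc6.WallsA

/-!
# The walls: definitions
-/

set_option autoImplicit false

namespace Pool.Agent.Perc6

open Finset Pool.Agent.Perc Pool.Agent.PercD Pool.Agent.PercL

/-- The properties of a P wall. `a` = mesh, `μ = N a`, box radius `R = 32 μ`, inner box radius
`4 μ`, tips at `τ < τ'`. -/
structure WallP (col h w c a N τ τ' : ℤ) (SP : Finset (ℤ × ℤ)) (P : Set Cfg) : Prop where
  sub : SP ⊆ BR (c, h) (32 * (N * a) + 2 * a)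
  ray : ∀ f ∈ SP, f ∉ Ray h w (c + a)
  dep : DepOn SP P
  inc : IncD (parD col) P
  win : ∀ f ∈ SP, f ∈ RF (c + 8 * (N * a)) (c + 12 * (N * a)) (h + w) (h + w + 4 * (N * a)) →
    h + w + 3 * (N * a) ≤ f.2
  touch : ∀ f ∈ SP, f ∈ BR (c, h) (32 * (N * a)) → ∀ z, IsCor f z →
    OnBd (c - 32 * (N * a)) (c + 32 * (N * a)) (h - 32 * (N * a)) (h + 32 * (N * a)) z →
      ∃ x, τ < x ∧ x ≤ τ' ∧ z = cyc c h w (32 * (N * a)) x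
  /-- the skeleton: a vertex `p₀` joined (outside the inner box) to both sides of the ray, and
  joined to a vertex of the band in the cell; paths in the window which reach the upper side from
  below the upper quarter are joined to `p₀` -/
  main : ∀ ξ ∈ P, ∃ p₀ pu pl pb : ℤ × ℤ, (p₀.1 + p₀.2 - col) % 2 = 0 ∧
    (c - 32 * (N * a) < p₀.1 ∧ p₀.1 < c + 32 * (N * a) ∧ h - 32 * (N * a) < p₀.2 ∧
      p₀.2 < h + 32 * (N * a)) ∧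
    Conn ξ (SP \ BR (c, h) (4 * (N * a)) : Finset (ℤ × ℤ)) p₀ pu ∧ c + 32 * (N * a) ≤ pu.1 ∧
      pu.1 ≤ c + 32 * (N * a) + 2 * a ∧ pu.2 = h + w ∧
    Conn ξ (SP \ BR (c, h) (4 * (N * a)) : Finset (ℤ × ℤ)) p₀ pl ∧ c + 32 * (N * a) ≤ pl.1 ∧
      pl.1 ≤ c + 32 * (N * a) + 2 * a ∧ pl.2 = h - w ∧
    Conn ξ SP p₀ pb ∧ c - a ≤ pb.1 ∧ pb.1 ≤ c ∧ h - w ≤ pb.2 ∧ pb.2 ≤ h + w ∧
    ∀ p t : ℤ × ℤ, (p.1 + p.2 - col) % 2 = 0 →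
      Conn ξ (RF (c + 8 * (N * a)) (c + 12 * (N * a)) (h + w) (h + w + 4 * (N * a))) p t →
      c + 8 * (N * a) ≤ p.1 → p.1 ≤ c + 12 * (N * a) → h + w ≤ p.2 →
      p.2 ≤ h + w + 3 * (N * a) → t.2 = h + w + 4 * (N * a) →
      Conn ξ ((RF (c + 8 * (N * a)) (c + 12 * (N * a)) (h + w) (h + w + 4 * (N * a)) ∪ SP) \
        BR (c, h) (4 * (N * a)) : Finset (ℤ × ℤ)) p p₀

/-- The properties of a D wall, `SU` and `SL` are the upper and the lower part. -/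
structure WallD (col h w c a N τ τ' : ℤ) (SD SU SL : Finset (ℤ × ℤ)) (D : Set Cfg) : Prop where
  sub : SD ⊆ BR (c, h) (32 * (N * a) + 2 * a)
  ray : ∀ f ∈ SD, f ∉ Ray h w (c + a)
  subU : SU ⊆ SD
  subL : SL ⊆ SD
  dep : DepOn SD D
  inc : IncD (parD (col + 1)) D
  win : ∀ f ∈ SD, f ∈ RF (c + 8 * (N * a)) (c + 12 * (N * a)) (h + w) (h + w + 4 * (N * a)) →
    2 * f.2 < 2 * (h + w) + N * a
  touchU : ∀ f ∈ SU, f ∈ BR (c, h) (32 * (N * a)) → ∀ z, IsCor f z →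
    OnBd (c - 32 * (N * a)) (c + 32 * (N * a)) (h - 32 * (N * a)) (h + 32 * (N * a)) z →
      ∃ x, 0 ≤ x ∧ x ≤ τ ∧ z = cyc c h w (32 * (N * a)) x
  touchL : ∀ f ∈ SL, f ∈ BR (c, h) (32 * (N * a)) → ∀ z, IsCor f z →
    OnBd (c - 32 * (N * a)) (c + 32 * (N * a)) (h - 32 * (N * a)) (h + 32 * (N * a)) z →
      ∃ x, τ' < x ∧ x ≤ len w (32 * (N * a)) ∧ z = cyc c h w (32 * (N * a)) x
  main : ∀ ξ ∈ D, ∃ q₀ q₁ : ℤ × ℤ, ∃ xu xl : ℤ, (q₀.1 + q₀.2 - (col + 1)) % 2 = 0 ∧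
    (q₁.1 + q₁.2 - (col + 1)) % 2 = 0 ∧
    (c - 32 * (N * a) < q₀.1 ∧ q₀.1 < c + 32 * (N * a) ∧ h - 32 * (N * a) < q₀.2 ∧
      q₀.2 < h + 32 * (N * a)) ∧
    (c - 32 * (N * a) < q₁.1 ∧ q₁.1 < c + 32 * (N * a) ∧ h - 32 * (N * a) < q₁.2 ∧
      q₁.2 < h + 32 * (N * a)) ∧
    (τ < xu ∧ xu ≤ τ' ∧ Conn ξ (SU \ BR (c, h) (4 * (N * a)) : Finset (ℤ × ℤ)) q₀
      (cyc c h w (32 * (N * a)) xu)) ∧
    (τ < xl ∧ xl ≤ τ' ∧ Conn ξ SL q₁ (cyc c h w (32 * (N * a)) xl)) ∧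
    Conn ξ (SD ∩ BR (c, h) (32 * (N * a)) : Finset (ℤ × ℤ)) q₀ q₁ ∧
    ∀ p t : ℤ × ℤ, (p.1 + p.2 - (col + 1)) % 2 = 0 →
      Conn ξ (RF (c + 8 * (N * a)) (c + 12 * (N * a)) (h + w) (h + w + 4 * (N * a))) p t →
      c + 8 * (N * a) ≤ p.1 → p.1 ≤ c + 12 * (N * a) → h + w + N * a ≤ p.2 →
      p.2 ≤ h + w + 4 * (N * a) → t.2 = h + w →
      Conn ξ ((RF (c + 8 * (N * a)) (c + 12 * (N * a)) (h + w) (h + w + 4 * (N * a)) ∪ SU) \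
        BR (c, h) (4 * (N * a)) : Finset (ℤ × ℤ)) p q₀

end Pool.Agent.Perc6
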