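import Pool.Agent.Lib.MP_6bd702_perc6.WallsB

/-!
# The D wall
-/

set_option autoImplicit false

namespace Pool.Agent.Perc6

open Finset Pool.Agent.Perc Pool.Agent.PercD Pool.Agent.PercL

namespace WallAux

theorem cell_ray {c h w a : ℤ} {k f : ℤ × ℤ} (ha : 1 ≤ a) (hwa : w ≤ a) (hf : f ∈ cellF c h a k)
    (hr : f ∈ Ray h w (c + a)) : 1 ≤ k.1 ∧ -1 ≤ k.2 ∧ k.2 ≤ 0 := by
  obtain ⟨h1, h2, h3⟩ := hr
  have e1 := cell_fst ha hf 1
  have e2 := cell_snd ha hf (-1)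
  have e3 := cell_snd ha hf 1
  rw [mul_one] at e1 e3
  have e4 : a * (-1) = -a := by ring
  rw [e4] at e2
  omega

/-- The window and its cells. -/
theorem cell_win {c h w a N : ℤ} {k f : ℤ × ℤ} (ha : 1 ≤ a) (hw : 1 ≤ w) (hwa : w ≤ a)
    (hf : f ∈ cellF c h a k)
    (hr : f ∈ RF (c + 8 * (N * a)) (c + 12 * (N * a)) (h + w) (h + w + 4 * (N * a))) :
    8 * N ≤ k.1 ∧ k.1 < 12 * N ∧ 0 ≤ k.2 ∧ k.2 < 4 * N + 1 := by
  rw [Perc.mem_RFi] at hr
  have e1 := cell_fst ha hf (8 * N)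
  have e2 := cell_fst ha hf (12 * N)
  have e3 := cell_snd ha hf 0
  have e4 := cell_snd ha hf (4 * N + 1)
  have f1 : a * (8 * N) = 8 * (N * a) := by ring
  have f2 : a * (12 * N) = 12 * (N * a) := by ring
  have f3 : a * (4 * N + 1) = 4 * (N * a) + a := by ring
  rw [f1] at e1
  rw [f2] at e2
  rw [f3] at e4
  rw [mul_zero] at e3
  omega

/-- The cells of the upper part. -/
noncomputable def KU (n G : ℤ) : Finset (ℤ × ℤ) :=
  (Icc 0 (n - 1) ×ˢ {1}) ∪ (Icc 1 (G - 1)).image (ring n)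
/-- The cells of the lower part. -/
noncomputable def KL (n G : ℤ) : Finset (ℤ × ℤ) :=
  (Icc 0 (n - 1) ×ˢ {-2}) ∪ (Icc (G + 1) (8 * n + 2)).image (ring n)
/-- All cells of the D wall. -/
noncomputable def KD (n G : ℤ) : Finset (ℤ × ℤ) := (KU n G ∪ KL n G) ∪ ({0} ×ˢ Icc (-2) 1)
/-- The cells of the upper part outside the inner box. -/
noncomputable def KV (n N G : ℤ) : Finset (ℤ × ℤ) :=
  (Icc (4 * N) (n - 1) ×ˢ {1}) ∪ (Icc 1 (G - 1)).image (ring n)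

theorem mem_KU {n G : ℤ} {k : ℤ × ℤ} : k ∈ KU n G ↔ (0 ≤ k.1 ∧ k.1 ≤ n - 1 ∧ k.2 = 1) ∨
    ∃ p, 1 ≤ p ∧ p ≤ G - 1 ∧ ring n p = k := by
  simp only [KU, mem_union, mem_product, mem_Icc, mem_singleton, mem_image, and_assoc]

theorem mem_KL {n G : ℤ} {k : ℤ × ℤ} : k ∈ KL n G ↔ (0 ≤ k.1 ∧ k.1 ≤ n - 1 ∧ k.2 = -2) ∨
    ∃ p, G + 1 ≤ p ∧ p ≤ 8 * n + 2 ∧ ring n p = k := by
  simp only [KL, mem_union, mem_product, mem_Icc, mem_singleton, mem_image, and_assoc]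

theorem mem_KV {n N G : ℤ} {k : ℤ × ℤ} : k ∈ KV n N G ↔ (4 * N ≤ k.1 ∧ k.1 ≤ n - 1 ∧ k.2 = 1) ∨
    ∃ p, 1 ≤ p ∧ p ≤ G - 1 ∧ ring n p = k := by
  simp only [KV, mem_union, mem_product, mem_Icc, mem_singleton, mem_image, and_assoc]

theorem mem_KD {n G : ℤ} {k : ℤ × ℤ} : k ∈ KD n G ↔ (k ∈ KU n G ∨ k ∈ KL n G) ∨
    (k.1 = 0 ∧ -2 ≤ k.2 ∧ k.2 ≤ 1) := by
  simp only [KD, mem_union, mem_product, mem_Icc, mem_singleton]

theorem KD_spec {n G : ℤ} {k : ℤ × ℤ} (hn : 16 ≤ n) (h1 : 5 ≤ G) (h2 : G ≤ 8 * n - 2)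
    (hk : k ∈ KD n G) : (0 ≤ k.1 ∧ k.1 ≤ n - 1 ∧ (k.2 = 1 ∨ k.2 = -2)) ∨
      (k.1 = 0 ∧ -2 ≤ k.2 ∧ k.2 ≤ 1) ∨ (Lay n k ∧ k ≠ ring n G) := by
  rw [mem_KD, mem_KU, mem_KL] at hk
  rcases hk with ((hk | ⟨p, hp1, hp2, rfl⟩) | (hk | ⟨p, hp1, hp2, rfl⟩)) | hk
  · exact Or.inl ⟨hk.1, hk.2.1, Or.inl hk.2.2⟩
  · refine Or.inr (Or.inr ⟨lay_ring (by omega) hp1 (by omega), fun h => ?_⟩)
    have := ring_inj (by omega) hp1 (by omega) (by omega) (by omega) h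
    omega
  · exact Or.inl ⟨hk.1, hk.2.1, Or.inr hk.2.2⟩
  · refine Or.inr (Or.inr ⟨lay_ring (by omega) (by omega) hp2, fun h => ?_⟩)
    have := ring_inj (by omega) (by omega) hp2 (by omega) (by omega) h
    omega
  · exact Or.inr (Or.inl hk)

theorem KV_sub {n N G : ℤ} (hN : 0 ≤ N) : KV n N G ⊆ KU n G := by
  intro k hk
  rw [mem_KV] at hk
  rw [mem_KU]
  rcases hk with hk | hk
  · exact Or.inl ⟨by omega, hk.2⟩
  · exact Or.inr hk

theorem KU_sub {n G : ℤ} : KU n G ⊆ KD n G := fun k hk => by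
  rw [mem_KD]; exact Or.inl (Or.inl hk)

theorem KL_sub {n G : ℤ} : KL n G ⊆ KD n G := fun k hk => by
  rw [mem_KD]; exact Or.inl (Or.inr hk)

theorem cellsF_mono' {c h a : ℤ} {K K' : Finset (ℤ × ℤ)} (hK : K ⊆ K') :
    cellsF c h a K ⊆ cellsF c h a K' := fun f hf => by
  rw [mem_cellsF] at hf ⊢
  obtain ⟨k, hk, hf⟩ := hf
  exact ⟨k, hK hk, hf⟩

/-- Faces of cells outside the inner box. -/
theorem cellsF_out {c h a r : ℤ} {K K' : Finset (ℤ × ℤ)} (ha : 1 ≤ a) (hK : K ⊆ K')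
    (hr : ∀ k ∈ K, ¬ (-r ≤ k.1 ∧ k.1 < r ∧ -r ≤ k.2 ∧ k.2 < r)) :
    cellsF c h a K ⊆ cellsF c h a K' \ BR (c, h) (a * r) := fun f hf => by
  rw [mem_cellsF] at hf
  obtain ⟨k, hk, hf⟩ := hf
  rw [mem_sdiff, mem_cellsF, cell_BR ha hf]
  exact ⟨⟨k, hK hk, hf⟩, hr k hk⟩

theorem KV_out {n N G : ℤ} (hN : 8 ≤ N) (hn : n = 32 * N) (h1 : 5 ≤ G) (h2 : G ≤ 8 * n - 2)
    {k : ℤ × ℤ} (hk : k ∈ KV n N G) :
    ¬ (-(4 * N) ≤ k.1 ∧ k.1 < 4 * N ∧ -(4 * N) ≤ k.2 ∧ k.2 < 4 * N) := by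
  rw [mem_KV] at hk
  rcases hk with hk | ⟨p, hp1, hp2, rfl⟩
  · omega
  · have := lay_ring (n := n) (p := p) (by omega) hp1 (by omega)
    unfold Lay at this
    omega

theorem conn_KV {n N G : ℤ} (hN : 8 ≤ N) (hn : n = 32 * N) (h1 : 5 ≤ G) (h2 : G ≤ 8 * n - 2) :
    CConn (KV n N G) (4 * N, 1) (ring n (G - 1)) := by
  have s1 : CConn (KV n N G) (4 * N, 1) (n - 1, 1) := cconn_row (by omega) fun x hx hx' => by
    rw [mem_KV]; exact Or.inl ⟨hx, hx', rfl⟩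
  have hr : ring n 1 = (n, 1) := by unfold ring; rw [if_pos (by omega)]
  have s3 : CConn (KV n N G) (ring n 1) (ring n (G - 1)) :=
    cconn_ring (by omega) le_rfl (by omega) (by omega) fun q hq hq' => by
      rw [mem_KV]; exact Or.inr ⟨q, hq, hq', rfl⟩
  refine (s1.tail ⟨?_, ?_, ?_⟩).trans s3
  · rw [mem_KV]; exact Or.inl ⟨by dsimp only; omega, le_rfl, rfl⟩
  · rw [mem_KV]; exact Or.inr ⟨1, le_rfl, by omega, rfl⟩
  · rw [hr]
    exact Or.inr ⟨rfl, by dsimp only; rw [show n - 1 - n = -1 by ring]; rfl⟩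

theorem conn_KL {n G : ℤ} (hn : 16 ≤ n) (h1 : 5 ≤ G) (h2 : G ≤ 8 * n - 2) :
    CConn (KL n G) (0, -2) (ring n (G + 1)) := by
  have s1 : CConn (KL n G) (0, -2) (n - 1, -2) := cconn_row (by omega) fun x hx hx' => by
    rw [mem_KL]; exact Or.inl ⟨hx, hx', rfl⟩
  have hr : ring n (8 * n + 2) = (n, -2) := by
    unfold ring
    rw [if_neg (by omega), if_neg (by omega), if_neg (by omega), if_neg (by omega)]
    ext <;> dsimp only
    ring
  have s3 : CConn (KL n G) (ring n (G + 1)) (ring n (8 * n + 2)) :=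
    cconn_ring (by omega) (by omega) (by omega) le_rfl fun q hq hq' => by
      rw [mem_KL]; exact Or.inr ⟨q, hq, hq', rfl⟩
  refine (s1.tail ⟨?_, ?_, ?_⟩).trans (cconn_symm s3)
  · rw [mem_KL]; exact Or.inl ⟨by dsimp only; omega, le_rfl, rfl⟩
  · rw [mem_KL]; exact Or.inr ⟨8 * n + 2, by omega, le_rfl, rfl⟩
  · rw [hr]
    exact Or.inr ⟨rfl, by dsimp only; rw [show n - 1 - n = -1 by ring]; rfl⟩

/-- Column 0 and the first part of row 1. -/
noncomputable def KC (N : ℤ) : Finset (ℤ × ℤ) := (Icc 0 (4 * N) ×ˢ {1}) ∪ ({0} ×ˢ Icc (-2) 1)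

theorem mem_KC {N : ℤ} {k : ℤ × ℤ} : k ∈ KC N ↔ (0 ≤ k.1 ∧ k.1 ≤ 4 * N ∧ k.2 = 1) ∨
    (k.1 = 0 ∧ -2 ≤ k.2 ∧ k.2 ≤ 1) := by
  simp only [KC, mem_union, mem_product, mem_Icc, mem_singleton, and_assoc]

theorem conn_KC {N : ℤ} (hN : 8 ≤ N) : CConn (KC N) (4 * N, 1) (0, -2) := by
  have s1 : CConn (KC N) (0, 1) (4 * N, 1) := cconn_row (by omega) fun x hx hx' => by
    rw [mem_KC]; exact Or.inl ⟨hx, by dsimp only; omega, rfl⟩
  have s2 : CConn (KC N) (0, -2) (0, 1) := cconn_col (by omega) fun y hy hy' => by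
    rw [mem_KC]; exact Or.inr ⟨rfl, hy, hy'⟩
  exact cconn_symm (s2.trans s1)

theorem wallD {col h w c a N τ τ' m G : ℤ} (hN : 8 ≤ N) (hw : 1 ≤ w) (hwa : w ≤ a)
    (h3 : 3 * a ≤ τ) (h5 : τ' + 3 * a ≤ len w (32 * (N * a)))
    (hmτ : τ < a * (m - 1) - w) (hmτ' : a * (m + 2) - w ≤ τ')
    (hG1 : 5 ≤ G) (hG2 : G ≤ 8 * (32 * N) - 2) (hm1 : 2 ≤ m) (hm2 : m + 1 ≤ 8 * (32 * N) - 1)
    (hr1 : ring (32 * N) (G - 1) = scell (32 * N) (m - 1))
    (hr3 : ring (32 * N) (G + 1) = scell (32 * N) (m + 1)) :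
    WallD col h w c a N τ τ' (cellsF c h a (KD (32 * N) G)) (cellsF c h a (KU (32 * N) G))
      (cellsF c h a (KL (32 * N) G)) (TubeEv (col + 1) c h a (KD (32 * N) G)) := by
  have ha : 1 ≤ a := by omega
  have hNa : 8 * a ≤ N * a := mul_le_mul_of_nonneg_right hN (by omega)
  unfold len at h5
  have eN : 32 * (N * a) = a * (32 * N) := by ring
  have eN2 : 32 * (N * a) + 2 * a = a * (32 * N + 2) := by ring
  have eN4 : 4 * (N * a) = a * (4 * N) := by ring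
  have hKU : ∀ {f : ℤ × ℤ}, f ∈ cellsF c h a (KD (32 * N) G) → ∃ k, f ∈ cellF c h a k ∧
      ((0 ≤ k.1 ∧ k.1 ≤ 32 * N - 1 ∧ (k.2 = 1 ∨ k.2 = -2)) ∨
      (k.1 = 0 ∧ -2 ≤ k.2 ∧ k.2 ≤ 1) ∨ (Lay (32 * N) k ∧ k ≠ ring (32 * N) G)) := by
    intro f hf
    rw [mem_cellsF] at hf
    obtain ⟨k, hk, hf⟩ := hf
    exact ⟨k, hf, KD_spec (by omega) hG1 hG2 hk⟩
  refine ⟨?_, ?_, cellsF_mono' KU_sub, cellsF_mono' KL_sub, depOn_tube _ _ _ _ _ ha,
    incD_tube _ _ _ _ _, ?_, ?_, ?_, ?_⟩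
  · intro f hf
    obtain ⟨k, hfk, hk⟩ := hKU hf
    rw [eN2, cell_BR ha hfk]
    unfold Lay at hk
    omega
  · intro f hf hray
    obtain ⟨k, hfk, hk⟩ := hKU hf
    have := cell_ray ha hwa hfk hray
    unfold Lay at hk
    omega
  · intro f hf hwin
    obtain ⟨k, hfk, hk⟩ := hKU hf
    have h6 := cell_win ha hw hwa hfk hwin
    have h7 := cell_snd ha hfk 2
    have e2 : a * 2 = 2 * a := by ring
    rw [e2] at h7
    unfold Lay at hk
    have h8 : k.2 = 1 := by omega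
    omega
  · -- the upper part touches the boundary near the ray
    intro f hf hbr z hz hbd
    rw [mem_cellsF] at hf
    obtain ⟨k, hk, hfk⟩ := hf
    rw [eN, cell_BR ha hfk] at hbr
    have hk1 : 0 ≤ k.1 ∧ k.1 ≤ 32 * N - 1 ∧ k.2 = 1 := by
      rw [mem_KU] at hk
      rcases hk with hk | ⟨p, hp1, hp2, rfl⟩
      · exact hk
      · have := lay_ring (n := 32 * N) (p := p) (by omega) hp1 (by omega)
        unfold Lay at this
        omega
    rw [mem_cellF, hk1.2.2] at hfk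
    obtain ⟨z1, z2⟩ := hz
    obtain ⟨hb1, hb2⟩ := hbd
    have e1 : a * (1 + 1) = 2 * a := by ring
    have e2 : (0 : ℤ) ≤ a * k.1 := mul_nonneg (by omega) hk1.1
    have e3 : a * (k.1 + 1) ≤ a * (32 * N) := mul_le_mul_of_nonneg_left (by omega) (by omega)
    have e4 : a * 1 = a := mul_one a
    rw [← eN] at e3
    have hz1 : z.1 = c + 32 * (N * a) := by omega
    exact ⟨z.2 - h - w, by omega, by omega,
      cyc_of (by omega) (Or.inl ⟨by omega, by omega, by omega⟩)⟩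
  · intro f hf hbr z hz hbd
    rw [mem_cellsF] at hf
    obtain ⟨k, hk, hfk⟩ := hf
    rw [eN, cell_BR ha hfk] at hbr
    have hk1 : 0 ≤ k.1 ∧ k.1 ≤ 32 * N - 1 ∧ k.2 = -2 := by
      rw [mem_KL] at hk
      rcases hk with hk | ⟨p, hp1, hp2, rfl⟩
      · exact hk
      · have := lay_ring (n := 32 * N) (p := p) (by omega) (by omega) hp2
        unfold Lay at this
        omega
    rw [mem_cellF, hk1.2.2] at hfk
    obtain ⟨z1, z2⟩ := hz
    obtain ⟨hb1, hb2⟩ := hbd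
    have e1 : a * (-2 + 1) = -a := by ring
    have e2 : (0 : ℤ) ≤ a * k.1 := mul_nonneg (by omega) hk1.1
    have e3 : a * (k.1 + 1) ≤ a * (32 * N) := mul_le_mul_of_nonneg_left (by omega) (by omega)
    have e4 : a * -2 = -(2 * a) := by ring
    rw [← eN] at e3
    have hz1 : z.1 = c + 32 * (N * a) := by omega
    refine ⟨z.2 - h + 8 * (32 * (N * a)) - w, by omega, ?_,
      cyc_of (by omega) (Or.inr (Or.inr (Or.inr (Or.inr ⟨by omega, by omega, by omega⟩))))⟩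
    unfold len
    omega
  · intro ξ hξ
    have hKVD : KV (32 * N) N G ⊆ KD (32 * N) G := (KV_sub (by omega)).trans KU_sub
    have hξV := tubeEv_mono hKVD hξ
    have hξL := tubeEv_mono KL_sub hξ
    have hmemV : ((4 * N, 1) : ℤ × ℤ) ∈ KV (32 * N) N G := by
      rw [mem_KV]; exact Or.inl ⟨le_rfl, by dsimp only; omega, rfl⟩
    have hmemL : ((0, -2) : ℤ × ℤ) ∈ KL (32 * N) G := by
      rw [mem_KL]; exact Or.inl ⟨le_rfl, by dsimp only; omega, rfl⟩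
    obtain ⟨q₀, -, -, -, sq₀, -, -⟩ := exists_spine_LR ha hξV hmemV
    obtain ⟨q₁, -, -, -, sq₁, -, -⟩ := exists_spine_LR ha hξL hmemL
    have hmU : scell (32 * N) (m - 1) ∈ KV (32 * N) N G := by
      rw [← hr1, mem_KV]; exact Or.inr ⟨_, by omega, le_rfl, rfl⟩
    have hmL : scell (32 * N) (m + 1) ∈ KL (32 * N) G := by
      rw [← hr3, mem_KL]; exact Or.inr ⟨_, le_rfl, by omega, rfl⟩
    obtain ⟨xu, hxu1, hxu2, sxu⟩ := bd_spine (w := w) (m := m - 1) ha (by omega) hξV hmU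
      (by omega) (by omega)
    obtain ⟨xl, hxl1, hxl2, sxl⟩ := bd_spine (w := w) (m := m + 1) ha (by omega) hξL hmL
      (by omega) (by omega)
    have hcV := conn_KV hN rfl hG1 hG2
    have hcL := conn_KL (n := 32 * N) (by omega) hG1 hG2
    rw [hr1] at hcV
    rw [hr3] at hcL
    have hV := tube_conn ha hξV hcV hmemV sq₀ sxu
    have hL := tube_conn ha hξL hcL hmemL sq₁ sxl
    have hKC : KC N ⊆ KD (32 * N) G := by
      intro k hk
      rw [mem_KC] at hk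
      rw [mem_KD, mem_KU]
      rcases hk with hk | hk
      · exact Or.inl (Or.inl (Or.inl ⟨hk.1, by omega, hk.2.2⟩))
      · exact Or.inr hk
    have hD := tube_conn ha (tubeEv_mono hKC hξ) (conn_KC hN)
      (by rw [mem_KC]; exact Or.inl ⟨by dsimp only; omega, le_rfl, rfl⟩) sq₀ sq₁
    have hDsub : cellsF c h a (KC N) ⊆
        cellsF c h a (KD (32 * N) G) ∩ BR (c, h) (32 * (N * a)) := by
      intro f hf
      rw [mem_inter]
      refine ⟨cellsF_mono hKC hf, ?_⟩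
      rw [mem_cellsF] at hf
      obtain ⟨k, hk, hfk⟩ := hf
      rw [eN, cell_BR ha hfk]
      rw [mem_KC] at hk
      omega
    have hout : cellsF c h a (KV (32 * N) N G) ⊆
        cellsF c h a (KU (32 * N) G) \ BR (c, h) (4 * (N * a)) := by
      rw [eN4]
      exact cellsF_out ha (KV_sub (by omega)) fun k hk => KV_out hN rfl hG1 hG2 hk
    have e1 : a * (m - 1) = a * m - a := by ring
    have e2 : a * (m + 2) = a * m + 2 * a := by ring
    have e3 : a * (m - 1 + 1) = a * m := by ring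
    have e4 : a * (m + 1) = a * m + a := by ring
    have e5 : a * (m + 1 + 1) = a * m + 2 * a := by ring
    have b0 := sq₀.2.1
    have b1 := sq₁.2.1
    dsimp only at b0 b1
    have e6 : a * (4 * N + 1) = 4 * (N * a) + a := by ring
    have e7 : a * (4 * N) = 4 * (N * a) := by ring
    have e8 : a * (1 + 1) = 2 * a := by ring
    have e9 : a * 1 = a := mul_one a
    have e10 : a * 0 = 0 := mul_zero a
    have e11 : a * (0 + 1) = a := by ring
    have e12 : a * -2 = -(2 * a) := by ring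
    have e13 : a * (-2 + 1) = -a := by ring
    rw [← eN] at hV hL
    refine ⟨q₀, q₁, xu, xl, sq₀.1, sq₁.1, by omega, by omega, ⟨by omega, by omega,
      hV.mono (coe_subset.2 hout)⟩, ⟨by omega, by omega, hL⟩, hD.mono (coe_subset.2 hDsub), ?_⟩
    intro p t hpar hpt hp1 hp2 hp3 hp4 ht
    have hK : ∀ i, 8 * N ≤ i → i < 12 * N → ((i, 1) : ℤ × ℤ) ∈ KV (32 * N) N G := by
      intro i hi1 hi2
      rw [mem_KV]; exact Or.inl ⟨by dsimp only; omega, by dsimp only; omega, rfl⟩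
    have f1 : c + a * (8 * N) = c + 8 * (N * a) := by ring
    have f2 : c + a * (12 * N) = c + 12 * (N * a) := by ring
    rw [← f1, ← f2] at hpt
    obtain ⟨k, hkK, u, hk2, hk3, hk4, su, hpu⟩ := tube_meet_row (j := 1) ha hξV
      (show 8 * N < 12 * N by omega) hK hpt hpar ⟨by omega, by omega, by omega, by omega⟩
      (Or.inr ⟨by omega, by omega⟩)
    have hkk : CConn (KV (32 * N) N G) k (4 * N, 1) := by
      have hk5 : k = (k.1, 1) := Prod.ext rfl hk2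
      rw [hk5]
      refine cconn_symm (cconn_row (by omega) fun x hx hx' => ?_)
      rw [mem_KV]; exact Or.inl ⟨hx, by dsimp only; omega, rfl⟩
    have huq := tube_conn ha hξV hkk hkK su sq₀
    refine Relation.ReflTransGen.trans (hpu.mono ?_) (huq.mono ?_)
    · rintro f (hf | hf)
      · rw [mem_coe, Perc.mem_RFi, f1, f2] at hf
        rw [mem_coe, mem_sdiff, mem_union, Perc.mem_RFi, mem_BR]
        exact ⟨Or.inl hf, by dsimp only; omega⟩
      · have hf' := hout (cellsF_mono' (K' := KV (32 * N) N G) (fun k hk => ?_) (mem_coe.1 hf))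
        · rw [mem_sdiff] at hf'
          rw [mem_coe, mem_sdiff, mem_union]
          exact ⟨Or.inr hf'.1, hf'.2⟩
        · rw [mem_product, mem_Ico, mem_singleton] at hk
          have hk5 : k = (k.1, 1) := Prod.ext rfl hk.2
          rw [hk5]
          exact hK _ hk.1.1 hk.1.2
    · intro f hf
      have hf' := hout (mem_coe.1 hf)
      rw [mem_sdiff] at hf'
      rw [mem_coe, mem_sdiff, mem_union]
      exact ⟨Or.inr hf'.1, hf'.2⟩

end WallAux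

end Pool.Agent.Perc6
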