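import Pool.Agent.Lib.MP_6bd702_perc6.WallsD

/-!
# The P wall
-/

set_option autoImplicit false

namespace Pool.Agent.Perc6

open Finset Pool.Agent.Perc Pool.Agent.PercD Pool.Agent.PercL

namespace WallAux

/-- The inner cells of the P wall. -/
def Inn (n N : ℤ) (k : ℤ × ℤ) : Prop :=
  (-n + 1 ≤ k.1 ∧ k.1 ≤ n - 2 ∧ -n + 1 ≤ k.2 ∧ k.2 ≤ n - 2) ∧
    ¬ (0 ≤ k.1 ∧ -2 ≤ k.2 ∧ k.2 ≤ 1) ∧ ¬ (8 * N ≤ k.1 ∧ k.1 < 12 * N ∧ 2 ≤ k.2 ∧ k.2 < 3 * N + 1)

/-- The cells of the P wall. -/
def PP (n N m : ℤ) (k : ℤ × ℤ) : Prop :=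
  Lay (n + 1) k ∨ k = scell n m ∨ k = sinn n m ∨ Inn n N k

open Classical in
/-- The cells of the P wall. -/
noncomputable def KP' (n N m : ℤ) : Finset (ℤ × ℤ) :=
  (Icc (-n - 2) (n + 1) ×ˢ Icc (-n - 2) (n + 1)).filter (PP n N m)

open Classical in
/-- The cells of the P wall outside the inner box. -/
noncomputable def KQ (n N m : ℤ) : Finset (ℤ × ℤ) :=
  (KP' n N m).filter fun k => ¬ (-(4 * N) ≤ k.1 ∧ k.1 < 4 * N ∧ -(4 * N) ≤ k.2 ∧ k.2 < 4 * N)

theorem PP_bd {n N m : ℤ} (hn : 16 ≤ n) (hm : Mid n m) {k : ℤ × ℤ} (hk : PP n N m k) :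
    -n - 2 ≤ k.1 ∧ k.1 ≤ n + 1 ∧ -n - 2 ≤ k.2 ∧ k.2 ≤ n + 1 := by
  rcases hk with hk | rfl | rfl | hk
  · unfold Lay at hk; omega
  · have := (lay_scell hn hm).1
    unfold Lay at this; omega
  · have := (sinn_spec hn hm).1
    omega
  · unfold Inn at hk; omega

theorem mem_KP' {n N m : ℤ} (hn : 16 ≤ n) (hm : Mid n m) {k : ℤ × ℤ} :
    k ∈ KP' n N m ↔ PP n N m k := by
  classical
  unfold KP'
  rw [mem_filter, mem_product, mem_Icc, mem_Icc]
  constructor
  · exact fun h => h.2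
  · intro h
    have := PP_bd hn hm h
    exact ⟨by omega, h⟩

theorem mem_KQ {n N m : ℤ} (hn : 16 ≤ n) (hm : Mid n m) {k : ℤ × ℤ} :
    k ∈ KQ n N m ↔ PP n N m k ∧
      ¬ (-(4 * N) ≤ k.1 ∧ k.1 < 4 * N ∧ -(4 * N) ≤ k.2 ∧ k.2 < 4 * N) := by
  classical
  unfold KQ
  rw [mem_filter, mem_KP' hn hm]

theorem KQ_sub {n N m : ℤ} : KQ n N m ⊆ KP' n N m := filter_subset _ _

theorem inn_mem {n N m i j : ℤ} (hn : 16 ≤ n) (hm : Mid n m)
    (h : (-n + 1 ≤ i ∧ i ≤ n - 2 ∧ -n + 1 ≤ j ∧ j ≤ n - 2) ∧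
    ¬ (0 ≤ i ∧ -2 ≤ j ∧ j ≤ 1) ∧ ¬ (8 * N ≤ i ∧ i < 12 * N ∧ 2 ≤ j ∧ j < 3 * N + 1))
    (h' : ¬ (-(4 * N) ≤ i ∧ i < 4 * N ∧ -(4 * N) ≤ j ∧ j < 4 * N)) : (i, j) ∈ KQ n N m := by
  rw [mem_KQ hn hm]
  exact ⟨Or.inr (Or.inr (Or.inr h)), h'⟩

theorem conn_top {n N m i : ℤ} (hN : 8 ≤ N) (hn : n = 32 * N) (hm : Mid n m) (h1 : -n + 1 ≤ i)
    (h2 : i ≤ n - 2) : CConn (KQ n N m) (-n + 1, 0) (i, n - 2) :=
  (cconn_col (by omega) fun y hy hy' => inn_mem (by omega) hm (by omega) (by omega)).trans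
    (cconn_row h1 fun x hx hx' => inn_mem (by omega) hm (by omega) (by omega))

theorem conn_bot {n N m i : ℤ} (hN : 8 ≤ N) (hn : n = 32 * N) (hm : Mid n m) (h1 : -n + 1 ≤ i)
    (h2 : i ≤ n - 2) : CConn (KQ n N m) (-n + 1, 0) (i, -n + 1) :=
  (cconn_symm (cconn_col (by omega) fun y hy hy' =>
    inn_mem (by omega) hm (by omega) (by omega))).trans
    (cconn_row h1 fun x hx hx' => inn_mem (by omega) hm (by omega) (by omega))

theorem conn_sinn {n N m : ℤ} (hN : 8 ≤ N) (hn : n = 32 * N) (hm : Mid n m) :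
    CConn (KQ n N m) (-n + 1, 0) (sinn n m) := by
  have e : ∀ x : ℤ, |x| = 1 ↔ x = 1 ∨ x = -1 := fun x => abs_eq (by norm_num)
  have hs : sinn n m ∈ KQ n N m := by
    rw [mem_KQ (by omega) hm]
    have := (sinn_spec (by omega) hm).2
    exact ⟨Or.inr (Or.inr (Or.inl rfl)), by omega⟩
  have hm' := hm
  unfold Mid at hm'
  rcases hm' with h | h | h | h | h
  · have hs' : sinn n m = (n - 1, m) := by unfold sinn; rw [if_pos (by omega)]
    have h1 : CConn (KQ n N m) (n - 2, m) (n - 2, n - 2) :=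
      cconn_col (by omega) fun y hy hy' => inn_mem (by omega) hm (by omega) (by omega)
    rw [hs'] at hs ⊢
    refine ((conn_top hN hn hm (by omega) le_rfl).trans (cconn_symm h1)).tail
      ⟨inn_mem (by omega) hm (by omega) (by omega), hs, Or.inr ⟨rfl, ?_⟩⟩
    rw [e]; dsimp only; omega
  · have hs' : sinn n m = (2 * n - 1 - m, n - 1) := by
      unfold sinn; rw [if_neg (by omega), if_pos (by omega)]
    rw [hs'] at hs ⊢
    refine (conn_top hN hn hm (i := 2 * n - 1 - m) (by omega) (by omega)).tail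
      ⟨inn_mem (by omega) hm (by omega) (by omega), hs, Or.inl ⟨rfl, ?_⟩⟩
    rw [e]; dsimp only; omega
  · have hs' : sinn n m = (-n, 4 * n - 1 - m) := by
      unfold sinn; rw [if_neg (by omega), if_neg (by omega), if_pos (by omega)]
    rw [hs'] at hs ⊢
    have h1 : CConn (KQ n N m) (-n + 1, 0) (-n + 1, 4 * n - 1 - m) := by
      rcases le_total 0 (4 * n - 1 - m) with h2 | h2
      · exact cconn_col h2 fun y hy hy' => inn_mem (by omega) hm (by omega) (by omega)
      · exact cconn_symm (cconn_col h2 fun y hy hy' =>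
          inn_mem (by omega) hm (by omega) (by omega))
    refine h1.tail ⟨inn_mem (by omega) hm (by omega) (by omega), hs, Or.inr ⟨rfl, ?_⟩⟩
    rw [e]; dsimp only; omega
  · have hs' : sinn n m = (m - 6 * n, -n) := by
      unfold sinn; rw [if_neg (by omega), if_neg (by omega), if_neg (by omega), if_pos (by omega)]
    rw [hs'] at hs ⊢
    refine (conn_bot hN hn hm (i := m - 6 * n) (by omega) (by omega)).tail
      ⟨inn_mem (by omega) hm (by omega) (by omega), hs, Or.inl ⟨rfl, ?_⟩⟩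
    rw [e]; dsimp only; omega
  · have hs' : sinn n m = (n - 1, m - 8 * n) := by
      unfold sinn; rw [if_neg (by omega), if_neg (by omega), if_neg (by omega), if_neg (by omega)]
    have h1 : CConn (KQ n N m) (n - 2, -n + 1) (n - 2, m - 8 * n) :=
      cconn_col (by omega) fun y hy hy' => inn_mem (by omega) hm (by omega) (by omega)
    rw [hs'] at hs ⊢
    refine ((conn_bot hN hn hm (by omega) le_rfl).trans h1).tail
      ⟨inn_mem (by omega) hm (by omega) (by omega), hs, Or.inr ⟨rfl, ?_⟩⟩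
    rw [e]; dsimp only; omega

theorem ring_mem {n N m p : ℤ} (hN : 8 ≤ N) (hn : n = 32 * N) (hm : Mid n m) (h1 : 1 ≤ p)
    (h2 : p ≤ 8 * (n + 1) + 2) : ring (n + 1) p ∈ KQ n N m := by
  have := lay_ring (n := n + 1) (p := p) (by omega) h1 h2
  rw [mem_KQ (by omega) hm]
  refine ⟨Or.inl this, ?_⟩
  unfold Lay at this
  omega

/-- The cells of layer 2 are connected to the inner cells. -/
theorem conn_ring {n N m p : ℤ} (hN : 8 ≤ N) (hn : n = 32 * N) (hm : Mid n m) (h1 : 1 ≤ p)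
    (h2 : p ≤ 8 * (n + 1) + 2) : CConn (KQ n N m) (-n + 1, 0) (ring (n + 1) p) := by
  obtain ⟨p', hp1, hp2, hadj⟩ := mid_out (by omega) hm
  have hs : sinn n m ∈ KQ n N m := by
    rw [mem_KQ (by omega) hm]
    have := (sinn_spec (by omega) hm).2
    exact ⟨Or.inr (Or.inr (Or.inl rfl)), by omega⟩
  have hc : scell n m ∈ KQ n N m := by
    rw [mem_KQ (by omega) hm]
    have := (lay_scell (by omega) hm).1
    refine ⟨Or.inr (Or.inl rfl), ?_⟩
    unfold Lay at this
    omega
  have h3 : CConn (KQ n N m) (-n + 1, 0) (ring (n + 1) p') :=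
    ((conn_sinn hN hn hm).tail ⟨hs, hc, scell_sinn⟩).tail ⟨hc, ring_mem hN hn hm hp1 hp2, hadj⟩
  refine h3.trans ?_
  rcases le_total p' p with h4 | h4
  · exact cconn_ring (by omega) hp1 h4 h2 fun q hq hq' => ring_mem hN hn hm (by omega) (by omega)
  · exact cconn_symm (cconn_ring (by omega) h1 h4 hp2 fun q hq hq' =>
      ring_mem hN hn hm (by omega) (by omega))

theorem conn_win {n N m i : ℤ} (hN : 8 ≤ N) (hn : n = 32 * N) (hm : Mid n m) (h1 : 8 * N ≤ i)
    (h2 : i < 12 * N) : CConn (KQ n N m) (-n + 1, 0) (i, 3 * N + 1) := by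
  have s1 : CConn (KQ n N m) (-n + 1, 0) (-n + 1, 4 * N) :=
    cconn_col (by omega) fun y hy hy' => inn_mem (by omega) hm (by omega) (by omega)
  have s2 : CConn (KQ n N m) (-n + 1, 4 * N) (i, 4 * N) :=
    cconn_row (by omega) fun x hx hx' => inn_mem (by omega) hm (by omega) (by omega)
  have s3 : CConn (KQ n N m) (i, 3 * N + 1) (i, 4 * N) :=
    cconn_col (by omega) fun y hy hy' => inn_mem (by omega) hm (by omega) (by omega)
  exact (s1.trans s2).trans (cconn_symm s3)

theorem conn_mid {n N m : ℤ} (hN : 8 ≤ N) (hn : n = 32 * N) (hm : Mid n m) :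
    CConn (KP' n N m) (-n + 1, 0) (-1, 0) :=
  cconn_row (by omega) fun x hx hx' => by
    rw [mem_KP' (by omega) hm]
    exact Or.inr (Or.inr (Or.inr ⟨by dsimp only; omega, by dsimp only; omega,
      by dsimp only; omega⟩))

/-- The faces of the P wall. -/
noncomputable def SPf (c h w a N m : ℤ) : Finset (ℤ × ℤ) :=
  cellsF c h a (KP' (32 * N) N m) ∪
    (RF (c + a * (32 * N + 1)) (c + a * (32 * N + 1 + 1)) (h + w) (h + 2 * a) ∪
      RF (c + a * (32 * N + 1)) (c + a * (32 * N + 1 + 1)) (h - 2 * a) (h - w))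

/-- The event of the P wall. -/
def PEv (col c h w a N m : ℤ) : Set Cfg :=
  TubeEv col c h a (KP' (32 * N) N m) ∩
    (BT col (c + a * (32 * N + 1)) (c + a * (32 * N + 1 + 1)) (h + w) (h + 2 * a) ∩
      BT col (c + a * (32 * N + 1)) (c + a * (32 * N + 1 + 1)) (h - 2 * a) (h - w))

theorem depOn_PEv {col c h w a N m : ℤ} (ha : 1 ≤ a) :
    DepOn (SPf c h w a N m : Set (ℤ × ℤ)) (PEv col c h w a N m) := by
  unfold SPf PEv
  refine depOn_inter' (depOn_mono' (depOn_tube _ _ _ _ _ ha) ?_)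
    (depOn_inter' (depOn_mono' (depOn_BT _ _ _ _ _) ?_) (depOn_mono' (depOn_BT _ _ _ _ _) ?_))
  · exact coe_subset.2 subset_union_left
  · exact coe_subset.2 (subset_union_left.trans subset_union_right)
  · exact coe_subset.2 (subset_union_right.trans subset_union_right)

theorem incD_PEv {col c h w a N m : ℤ} : IncD (parD col) (PEv col c h w a N m) :=
  incD_inter' (incD_tube _ _ _ _ _) (incD_inter' (incD_BT' _ _ _ _ _) (incD_BT' _ _ _ _ _))

theorem SPf_spec {c h w a N m : ℤ} (hN : 8 ≤ N) (hm : Mid (32 * N) m) {f : ℤ × ℤ}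
    (hf : f ∈ SPf c h w a N m) : (∃ k, f ∈ cellF c h a k ∧ PP (32 * N) N m k) ∨
      ((c + a * (32 * N + 1) ≤ f.1 ∧ f.1 < c + a * (32 * N + 1 + 1)) ∧
        ((h + w ≤ f.2 ∧ f.2 < h + 2 * a) ∨ (h - 2 * a ≤ f.2 ∧ f.2 < h - w))) := by
  unfold SPf at hf
  rw [mem_union, mem_union, mem_cellsF, Perc.mem_RFi, Perc.mem_RFi] at hf
  rcases hf with ⟨k, hk, hf⟩ | hf | hf
  · rw [mem_KP' (by omega) hm] at hk
    exact Or.inl ⟨k, hf, hk⟩
  · exact Or.inr ⟨⟨hf.1, hf.2.1⟩, Or.inl hf.2.2⟩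
  · exact Or.inr ⟨⟨hf.1, hf.2.1⟩, Or.inr hf.2.2⟩

/-- A crossing of the tall rectangle on the ray and the crossing of the cell. -/
theorem special_meet {ξ : Cfg} {col c h a n j y₀ y₁ : ℤ} {K : Finset (ℤ × ℤ)} (ha : 1 ≤ a)
    (hξ : ξ ∈ TubeEv col c h a K) (hk : (n, j) ∈ K) (h1 : y₀ ≤ h + a * j)
    (h2 : h + a * (j + 1) ≤ y₁) (hb : ξ ∈ BT col (c + a * n) (c + a * (n + 1)) y₀ y₁) :
    ∃ s u v, Spine ξ col c h a (n, j) s ∧ u.2 = y₀ ∧ c + a * n ≤ u.1 ∧ u.1 ≤ c + a * (n + 1) ∧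
      v.2 = y₁ ∧ c + a * n ≤ v.1 ∧ v.1 ≤ c + a * (n + 1) ∧
      Conn ξ (cellF c h a (n, j) ∪ RF (c + a * n) (c + a * (n + 1)) y₀ y₁ : Finset (ℤ × ℤ)) s u ∧
      Conn ξ (cellF c h a (n, j) ∪ RF (c + a * n) (c + a * (n + 1)) y₀ y₁ : Finset (ℤ × ℤ))
        s v := by
  obtain ⟨s, s', hs, hs', ss, -, hss⟩ := exists_spine_LR ha hξ hk
  obtain ⟨u, v, hu, hu1, hu2, hv, hup, huv⟩ := hb
  have e1 : a * (n + 1) = a * n + a := by ring
  have e2 : a * (j + 1) = a * j + a := by ring
  have hb := ss.2.1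
  dsimp only at hs hs' hb
  obtain ⟨x, -, -, -, -, hx1, hx2⟩ := PercT.cross_meet (x₀ := c + a * n) (x₁ := c + a * (n + 1))
    (x₀' := c + a * n) (x₁' := c + a * (n + 1)) (y₀ := h + a * j) (y₁ := h + a * (j + 1))
    (y₀' := y₀) (y₁' := y₁) le_rfl (by omega) le_rfl h1 (by omega) h2
    ⟨hs, hb.2.2.1, hb.2.2.2⟩ hs' ⟨hu, hu1, hu2⟩ hv (by have := ss.1; omega) hss huv
  have hm := Conn.mem_rect huv ⟨hu1, hu2, by omega, by omega⟩
  refine ⟨s, u, v, ss, hu, hu1, hu2, hv, hm.1, hm.2.1, ?_, ?_⟩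
  · exact (hx1.mono (coe_subset.2 subset_union_left)).trans
      (Conn.symm (hx2.mono (coe_subset.2 subset_union_right)))
  · exact ((hx1.mono (coe_subset.2 subset_union_left)).trans
      (Conn.symm (hx2.mono (coe_subset.2 subset_union_right)))).trans
      (huv.mono (coe_subset.2 subset_union_right))

theorem wallP {col h w c a N τ τ' m : ℤ} (hN : 8 ≤ N) (hw : 1 ≤ w) (hwa : w ≤ a)
    (hm : Mid (32 * N) m) (hmτ : τ < a * (m - 1) - w) (hmτ' : a * (m + 2) - w ≤ τ') :
    WallP col h w c a N τ τ' (SPf c h w a N m) (PEv col c h w a N m) := by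
  have ha : 1 ≤ a := by omega
  have hNa : 8 * a ≤ N * a := mul_le_mul_of_nonneg_right hN (by omega)
  have eN : 32 * (N * a) = a * (32 * N) := by ring
  have eN2 : 32 * (N * a) + 2 * a = a * (32 * N + 2) := by ring
  have eN4 : 4 * (N * a) = a * (4 * N) := by ring
  have eM1 : a * (32 * N + 1) = 32 * (N * a) + a := by ring
  have eM2 : a * (32 * N + 1 + 1) = 32 * (N * a) + 2 * a := by ring
  have hl := lay_scell (n := 32 * N) (by omega) hm
  have hi := sinn_spec (n := 32 * N) (by omega) hm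
  unfold Lay at hl
  refine ⟨?_, ?_, depOn_PEv ha, incD_PEv, ?_, ?_, ?_⟩
  · intro f hf
    rcases SPf_spec hN hm hf with ⟨k, hfk, hk⟩ | hf
    · have := PP_bd (by omega) hm hk
      rw [eN2, cell_BR ha hfk]
      omega
    · rw [mem_BR]
      dsimp only
      omega
  · intro f hf hray
    rcases SPf_spec hN hm hf with ⟨k, hfk, hk⟩ | hf
    · have := cell_ray ha hwa hfk hray
      rcases hk with hk | rfl | rfl | hk
      · unfold Lay at hk; omega
      · omega
      · omega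
      · unfold Inn at hk; omega
    · obtain ⟨h1, h2, h3⟩ := hray
      omega
  · intro f hf hwin
    rcases SPf_spec hN hm hf with ⟨k, hfk, hk⟩ | hf
    · have h6 := cell_win ha hw hwa hfk hwin
      rcases hk with hk | rfl | rfl | hk
      · unfold Lay at hk; omega
      · omega
      · omega
      · unfold Inn at hk
        have h7 := (cell_snd ha hfk (3 * N + 1)).2 (by omega)
        have e2 : a * (3 * N + 1) = 3 * (N * a) + a := by ring
        rw [e2] at h7
        omega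
    · rw [Perc.mem_RFi] at hwin
      omega
  · intro f hf hbr z hz hbd
    rcases SPf_spec hN hm hf with ⟨k, hfk, hk⟩ | hf
    · have hbr' := hbr
      rw [eN, cell_BR ha hfk] at hbr'
      rcases hk with hk | rfl | rfl | hk
      · unfold Lay at hk; omega
      · omega
      · rw [eN] at hbd
        obtain ⟨x, hx1, hx2, hx3⟩ := inn_touch (w := w) ha (by omega) hm hfk hz hbd
        have e1 : a * (m - 1) = a * m - a := by ring
        have e2 : a * (m + 2) = a * m + 2 * a := by ring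
        have e3 : a * (m + 1) = a * m + a := by ring
        rw [eN]
        exact ⟨x, by omega, by omega, hx3⟩
      · exfalso
        unfold Inn at hk
        have h1 := (cell_fst ha hfk (-(32 * N) + 1)).2 (by omega)
        have h2 := cell_fst ha hfk (32 * N - 1)
        have h3 := (cell_snd ha hfk (-(32 * N) + 1)).2 (by omega)
        have h4 := cell_snd ha hfk (32 * N - 1)
        have e1 : a * (-(32 * N) + 1) = -(32 * (N * a)) + a := by ring
        have e2 : a * (32 * N - 1) = 32 * (N * a) - a := by ring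
        rw [e1] at h1 h3
        rw [e2] at h2 h4
        obtain ⟨z1, z2⟩ := hz
        obtain ⟨hb1, hb2⟩ := hbd
        omega
    · rw [mem_BR] at hbr
      dsimp only at hbr
      omega
  · intro ξ hξ
    obtain ⟨hξT, hξU, hξL⟩ := hξ
    have hξQ := tubeEv_mono KQ_sub hξT
    have hm0 : ((-(32 * N) + 1, 0) : ℤ × ℤ) ∈ KQ (32 * N) N m :=
      inn_mem (by omega) hm (by omega) (by omega)
    obtain ⟨p₀, -, -, -, sp₀, -, -⟩ := exists_spine_LR ha hξQ hm0
    -- the upper side of the ray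
    have r1 : ring (32 * N + 1) 1 = (32 * N + 1, 1) := by unfold ring; rw [if_pos (by omega)]
    have r2 : ring (32 * N + 1) (8 * (32 * N + 1) + 2) = (32 * N + 1, -2) := by
      unfold ring
      rw [if_neg (by omega), if_neg (by omega), if_neg (by omega), if_neg (by omega)]
      ext <;> dsimp only
      ring
    have m1 : ((32 * N + 1, 1) : ℤ × ℤ) ∈ KQ (32 * N) N m := by
      rw [← r1]; exact ring_mem hN rfl hm le_rfl (by omega)
    have m2 : ((32 * N + 1, -2) : ℤ × ℤ) ∈ KQ (32 * N) N m := by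
      rw [← r2]; exact ring_mem hN rfl hm (by omega) le_rfl
    have c1 : CConn (KQ (32 * N) N m) (-(32 * N) + 1, 0) (32 * N + 1, 1) := by
      rw [← r1]; exact conn_ring hN rfl hm le_rfl (by omega)
    have c2 : CConn (KQ (32 * N) N m) (-(32 * N) + 1, 0) (32 * N + 1, -2) := by
      rw [← r2]; exact conn_ring hN rfl hm (by omega) le_rfl
    have e8 : a * (1 + 1) = 2 * a := by ring
    have e9 : a * 1 = a := mul_one a
    have e12 : a * -2 = -(2 * a) := by ring
    have e13 : a * (-2 + 1) = -a := by ring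
    obtain ⟨s, u, -, ss, hu1, hu2, hu3, -, -, -, hsu, -⟩ := special_meet (j := 1) ha hξQ m1
      (y₀ := h + w) (y₁ := h + 2 * a) (by omega) (by omega) hξU
    obtain ⟨s', -, v, ss', -, -, -, hv1, hv2, hv3, -, hsv⟩ := special_meet (j := -2) ha hξQ m2
      (y₀ := h - 2 * a) (y₁ := h - w) (by omega) (by omega) hξL
    have hp1 := tube_conn ha hξQ c1 hm0 sp₀ ss
    have hp2 := tube_conn ha hξQ c2 hm0 sp₀ ss'
    have hout : cellsF c h a (KQ (32 * N) N m) ⊆
        SPf c h w a N m \ BR (c, h) (4 * (N * a)) := by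
      rw [eN4]
      refine (cellsF_out (r := 4 * N) ha (K' := KP' (32 * N) N m) KQ_sub fun k hk => ?_).trans ?_
      · rw [mem_KQ (by omega) hm] at hk
        exact hk.2
      · exact sdiff_subset_sdiff subset_union_left subset_rfl
    have hcell : ∀ k, k ∈ KQ (32 * N) N m → cellF c h a k ⊆
        SPf c h w a N m \ BR (c, h) (4 * (N * a)) := fun k hk f hf =>
      hout (mem_cellsF.2 ⟨k, hk, hf⟩)
    have hrU : RF (c + a * (32 * N + 1)) (c + a * (32 * N + 1 + 1)) (h + w) (h + 2 * a) ⊆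
        SPf c h w a N m \ BR (c, h) (4 * (N * a)) := fun f hf => by
      rw [mem_sdiff]
      refine ⟨?_, ?_⟩
      · unfold SPf
        exact mem_union_right _ (mem_union_left _ hf)
      · rw [Perc.mem_RFi] at hf
        rw [mem_BR]
        dsimp only
        omega
    have hrL : RF (c + a * (32 * N + 1)) (c + a * (32 * N + 1 + 1)) (h - 2 * a) (h - w) ⊆
        SPf c h w a N m \ BR (c, h) (4 * (N * a)) := fun f hf => by
      rw [mem_sdiff]
      refine ⟨?_, ?_⟩
      · unfold SPf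
        exact mem_union_right _ (mem_union_right _ hf)
      · rw [Perc.mem_RFi] at hf
        rw [mem_BR]
        dsimp only
        omega
    -- the band
    have mb : ((-1, 0) : ℤ × ℤ) ∈ KP' (32 * N) N m := by
      rw [mem_KP' (by omega) hm]
      exact Or.inr (Or.inr (Or.inr ⟨by dsimp only; omega, by dsimp only; omega,
        by dsimp only; omega⟩))
    obtain ⟨pb, -, hpb, -, spb, -, -⟩ := exists_spine_BT ha hξT mb
    have hpb' := tube_conn ha hξT (conn_mid hN rfl hm) (KQ_sub hm0) sp₀ spb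
    have b0 := sp₀.2.1
    have bb := spb.2.1
    dsimp only at b0 bb hpb
    have e1 : a * (-(32 * N) + 1) = -(32 * (N * a)) + a := by ring
    have e2 : a * (-(32 * N) + 1 + 1) = -(32 * (N * a)) + 2 * a := by ring
    have e3 : a * 0 = 0 := mul_zero a
    have e4 : a * (0 + 1) = a := by ring
    have e5 : a * (-1) = -a := by ring
    have e6 : a * (-1 + 1) = 0 := by ring
    refine ⟨p₀, u, v, pb, sp₀.1, by omega, ?_, by omega, by omega, hu1, ?_, by omega, by omega, hv1,
      hpb'.mono (coe_subset.2 subset_union_left), by omega, by omega, by omega, by omega, ?_⟩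
    · exact (hp1.mono (coe_subset.2 hout)).trans (hsu.mono (coe_subset.2
        (union_subset (hcell _ m1) hrU)))
    · exact (hp2.mono (coe_subset.2 hout)).trans (hsv.mono (coe_subset.2
        (union_subset (hcell _ m2) hrL)))
    · intro p t hpar hpt hp1 hp2 hp3 hp4 ht
      have hK : ∀ i, 8 * N ≤ i → i < 12 * N → ((i, 3 * N + 1) : ℤ × ℤ) ∈ KQ (32 * N) N m :=
        fun i hi1 hi2 => inn_mem (by omega) hm (by omega) (by omega)
      have f1 : c + a * (8 * N) = c + 8 * (N * a) := by ring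
      have f2 : c + a * (12 * N) = c + 12 * (N * a) := by ring
      have f3 : a * (3 * N + 1) = 3 * (N * a) + a := by ring
      have f4 : a * (3 * N + 1 + 1) = 3 * (N * a) + 2 * a := by ring
      rw [← f1, ← f2] at hpt
      obtain ⟨k, hkK, x, hk2, hk3, hk4, sx, hpx⟩ := tube_meet_row (j := 3 * N + 1) ha hξQ
        (show 8 * N < 12 * N by omega) hK hpt hpar ⟨by omega, by omega, by omega, by omega⟩
        (Or.inl ⟨by omega, by omega⟩)
      have hkk : CConn (KQ (32 * N) N m) k (-(32 * N) + 1, 0) := by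
        have hk5 : k = (k.1, 3 * N + 1) := Prod.ext rfl hk2
        rw [hk5]
        exact cconn_symm (conn_win hN rfl hm hk3 hk4)
      have hxp := tube_conn ha hξQ hkk hkK sx sp₀
      refine Relation.ReflTransGen.trans (hpx.mono ?_) (hxp.mono ?_)
      · rintro f (hf | hf)
        · rw [mem_coe, Perc.mem_RFi, f1, f2] at hf
          rw [mem_coe, mem_sdiff, mem_union, Perc.mem_RFi, mem_BR]
          exact ⟨Or.inl hf, by dsimp only; omega⟩
        · have hf' := hout (cellsF_mono' (K' := KQ (32 * N) N m) (fun k hk => ?_)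
            (mem_coe.1 hf))
          · rw [mem_sdiff] at hf'
            rw [mem_coe, mem_sdiff, mem_union]
            exact ⟨Or.inr hf'.1, hf'.2⟩
          · rw [mem_product, mem_Ico, mem_singleton] at hk
            have hk5 : k = (k.1, 3 * N + 1) := Prod.ext rfl hk.2
            rw [hk5]
            exact hK _ hk.1.1 hk.1.2
      · intro f hf
        have hf' := hout (mem_coe.1 hf)
        rw [mem_sdiff] at hf'
        rw [mem_coe, mem_sdiff, mem_union]
        exact ⟨Or.inr hf'.1, hf'.2⟩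

end WallAux

end Pool.Agent.Perc6
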